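import Pool.Agent.MP_ee8c61_ag.M3SN.SpecL

/-!
Elementary facts on lattices and numerical surfaces.
-/

set_option autoImplicit false

namespace Pool.Agent.MP_ee8c61_ag.M3SN

open Finset

section
variable {ι : Type} {I : Fm ι} {D E : ι →₀ ℝ} {s : Finset ι}

theorem cv_self (i : ι) : cv i i = 1 := Finsupp.single_eq_same

theorem cv_ne {i j : ι} (h : i ≠ j) : cv i j = 0 := Finsupp.single_eq_of_ne h.symm

theorem cv_nonneg (i : ι) : 0 ≤ cv i := fun j => by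
  by_cases h : i = j
  · rw [← h, cv_self]; exact zero_le_one
  · rw [cv_ne h]; exact le_rfl

theorem eq_sum_cv (D : ι →₀ ℝ) : D = ∑ i ∈ D.support, D i • cv i := by
  conv_lhs => rw [← Finsupp.sum_single D]
  exact sum_congr rfl fun i _ => by rw [cv, Finsupp.smul_single, smul_eq_mul, mul_one]

theorem Sup.eq_sum (h : Sup s D) : D = ∑ i ∈ s, D i • cv i := by
  refine (eq_sum_cv D).trans (sum_subset (fun i hi => ?_) fun i _ hi => ?_)
  · by_contra hn
    exact Finsupp.mem_support_iff.1 hi (h i hn)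
  · rw [Finsupp.notMem_support_iff.1 hi, zero_smul]

theorem sup_support (D : ι →₀ ℝ) : Sup D.support D := fun _ => Finsupp.notMem_support_iff.1

theorem Sup.mono {t : Finset ι} (h : Sup s D) (ht : s ⊆ t) : Sup t D :=
  fun i hi => h i fun a => hi (ht a)

theorem Sup.add (h : Sup s D) (h' : Sup s E) : Sup s (D + E) := fun i hi => by
  rw [Finsupp.add_apply, h i hi, h' i hi, add_zero]

theorem Sup.sub (h : Sup s D) (h' : Sup s E) : Sup s (D - E) := fun i hi => by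
  rw [Finsupp.sub_apply, h i hi, h' i hi, sub_zero]

theorem Sup.smul (h : Sup s D) (a : ℝ) : Sup s (a • D) := fun i hi => by
  rw [Finsupp.smul_apply, h i hi, smul_zero]

theorem sup_cv {i : ι} (h : i ∈ s) : Sup s (cv i) := fun _ hj => cv_ne fun e => hj (e ▸ h)

/-- Expansion of a linear form. -/
theorem lin_sum (φ : (ι →₀ ℝ) →ₗ[ℝ] ℝ) (h : Sup s E) : φ E = ∑ i ∈ s, E i * φ (cv i) := by
  conv_lhs => rw [h.eq_sum, map_sum]
  exact sum_congr rfl fun i _ => by rw [map_smul, smul_eq_mul]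

theorem Nef.eff (h : Nef I D) (hE : 0 ≤ E) : 0 ≤ I D E := by
  rw [lin_sum (I D) (sup_support E)]
  exact sum_nonneg fun i _ => mul_nonneg (hE i) (h i)

/-- A nef divisor of degree zero on an effective divisor has degree zero on its components. -/
theorem Nef.comp (h : Nef I D) (hE : 0 ≤ E) (h0 : I D E ≤ 0) {i : ι} (hi : E i ≠ 0) :
    I D (cv i) = 0 := by
  have h1 := le_antisymm h0 (h.eff hE)
  rw [lin_sum (I D) (sup_support E)] at h1
  have := (sum_eq_zero_iff_of_nonneg fun j _ => mul_nonneg (hE j) (h j)).1 h1 i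
    (Finsupp.mem_support_iff.2 hi)
  exact (mul_eq_zero.1 this).resolve_left hi

theorem Nef.term_le (h : Nef I D) (hE : 0 ≤ E) (i : ι) : E i * I D (cv i) ≤ I D E := by
  by_cases hi : E i = 0
  · rw [hi, zero_mul]; exact h.eff hE
  · rw [lin_sum (I D) (sup_support E)]
    exact single_le_sum (f := fun j => E j * I D (cv j)) (fun j _ => mul_nonneg (hE j) (h j))
      (Finsupp.mem_support_iff.2 hi)

theorem Nef.add (h : Nef I D) (h' : Nef I E) : Nef I (D + E) := fun i => by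
  rw [map_add, LinearMap.add_apply]; exact add_nonneg (h i) (h' i)

theorem Nef.smul (h : Nef I D) {a : ℝ} (ha : 0 ≤ a) : Nef I (a • D) := fun i => by
  rw [map_smul, LinearMap.smul_apply]; exact mul_nonneg ha (h i)

theorem orth_of_sup (h : ∀ i ∈ s, I D (cv i) = 0) (hE : Sup s E) : I D E = 0 := by
  rw [lin_sum (I D) hE]
  exact sum_eq_zero fun i hi => by rw [h i hi, mul_zero]

theorem triv_of_cv (h : ∀ i, I D (cv i) = 0) : Triv I D :=
  fun E => orth_of_sup (fun i _ => h i) (sup_support E)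

theorem Lat0.eff_cv (L : Lat0 I) (hE : 0 ≤ E) {i : ι} (hi : E i = 0) : 0 ≤ I E (cv i) := by
  rw [L.sym, lin_sum (I (cv i)) (sup_support E)]
  exact sum_nonneg fun j hj => mul_nonneg (hE j)
    (L.off _ _ fun e => Finsupp.mem_support_iff.1 hj (e ▸ hi))

theorem Lat0.nef_cv (L : Lat0 I) {i : ι} (h : 0 ≤ I (cv i) (cv i)) : Nef I (cv i) := fun j => by
  by_cases e : i = j
  · rw [← e]; exact h
  · exact L.off _ _ e

theorem NegDef.mono {t : Finset ι} (h : NegDef I s) (ht : t ⊆ s) : NegDef I t :=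
  fun D hD => h D (hD.mono ht)

theorem NegDef.diag (h : NegDef I s) {i : ι} (hi : i ∈ s) : I (cv i) (cv i) < 0 :=
  h _ (sup_cv hi) fun e => one_ne_zero ((cv_self i).symm.trans (by rw [e]; rfl))

theorem isZ_zero : IsZ (0 : ι →₀ ℝ) := fun _ => ⟨0, by simp⟩

theorem isZ_cv (i : ι) : IsZ (cv i) := fun j => by
  by_cases h : i = j
  · exact ⟨1, by rw [← h, cv_self, Int.cast_one]⟩
  · exact ⟨0, by rw [cv_ne h, Int.cast_zero]⟩

theorem IsZ.add (h : IsZ D) (h' : IsZ E) : IsZ (D + E) := fun i => by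
  obtain ⟨a, ha⟩ := h i
  obtain ⟨b, hb⟩ := h' i
  exact ⟨a + b, by rw [Finsupp.add_apply, ha, hb, Int.cast_add]⟩

theorem IsZ.zsmul (h : IsZ D) (n : ℤ) : IsZ ((n : ℝ) • D) := fun i => by
  obtain ⟨a, ha⟩ := h i
  exact ⟨n * a, by rw [Finsupp.smul_apply, ha, Int.cast_mul, smul_eq_mul]⟩

theorem IsZ.nsmul (h : IsZ D) (n : ℕ) : IsZ ((n : ℝ) • D) := by
  have := h.zsmul n
  rwa [Int.cast_natCast] at this

theorem IsZ.sub (h : IsZ D) (h' : IsZ E) : IsZ (D - E) := fun i => by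
  obtain ⟨a, ha⟩ := h i
  obtain ⟨b, hb⟩ := h' i
  exact ⟨a - b, by rw [Finsupp.sub_apply, ha, hb, Int.cast_sub]⟩

theorem IsZ.neg (h : IsZ D) : IsZ (-D) := by
  have := isZ_zero.sub h
  rwa [zero_sub] at this

theorem IsZ.isQ (h : IsZ D) : IsQ D := fun i => by
  obtain ⟨a, ha⟩ := h i
  exact ⟨a, by rw [ha, Rat.cast_intCast]⟩

theorem IsZ.one_le (h : IsZ D) {i : ι} (hi : 0 < D i) : 1 ≤ D i := by
  obtain ⟨a, ha⟩ := h i
  rw [ha] at hi ⊢
  exact_mod_cast (show (1 : ℤ) ≤ a from by exact_mod_cast hi)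

theorem IsQ.add (h : IsQ D) (h' : IsQ E) : IsQ (D + E) := fun i => by
  obtain ⟨a, ha⟩ := h i
  obtain ⟨b, hb⟩ := h' i
  exact ⟨a + b, by rw [Finsupp.add_apply, ha, hb, Rat.cast_add]⟩

theorem IsQ.sub (h : IsQ D) (h' : IsQ E) : IsQ (D - E) := fun i => by
  obtain ⟨a, ha⟩ := h i
  obtain ⟨b, hb⟩ := h' i
  exact ⟨a - b, by rw [Finsupp.sub_apply, ha, hb, Rat.cast_sub]⟩

theorem IsQ.smul (h : IsQ D) (r : ℚ) : IsQ ((r : ℝ) • D) := fun i => by
  obtain ⟨a, ha⟩ := h i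
  exact ⟨r * a, by rw [Finsupp.smul_apply, ha, Rat.cast_mul, smul_eq_mul]⟩

theorem IsQ.nsmul (h : IsQ D) (n : ℕ) : IsQ ((n : ℝ) • D) := by
  have := h.smul n
  rwa [Rat.cast_natCast] at this

/-- Clearing denominators. -/
theorem IsQ.clear (h : IsQ D) : ∃ m : ℕ, 0 < m ∧ IsZ ((m : ℝ) • D) := by
  choose r hr using h
  refine ⟨∏ i ∈ D.support, (r i).den, prod_pos fun i _ => (r i).den_pos, fun i => ?_⟩
  by_cases hi : i ∈ D.support
  · obtain ⟨c, hc⟩ := dvd_prod_of_mem (fun i => (r i).den) hi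
    refine ⟨c * (r i).num, ?_⟩
    rw [Finsupp.smul_apply, hc, hr i, smul_eq_mul]
    have : ((r i).den : ℚ) * r i = (r i).num := Rat.den_mul_eq_num _
    have h2 : ((r i).den : ℝ) * (r i : ℝ) = (r i).num := by exact_mod_cast this
    push_cast
    linear_combination (c : ℝ) * h2
  · exact ⟨0, by rw [Finsupp.smul_apply, Finsupp.notMem_support_iff.1 hi, smul_zero, Int.cast_zero]⟩

theorem IsZ.lin (h : IsZ D) (φ : (ι →₀ ℝ) →ₗ[ℝ] ℝ) (hφ : ∀ i, ∃ n : ℤ, φ (cv i) = n) :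
    ∃ n : ℤ, φ D = n := by
  choose a ha using h
  choose b hb using hφ
  refine ⟨∑ i ∈ D.support, a i * b i, ?_⟩
  rw [lin_sum φ (sup_support D)]
  push_cast
  exact sum_congr rfl fun i _ => by rw [ha, hb]

theorem IsQ.lin (h : IsQ D) (φ : (ι →₀ ℝ) →ₗ[ℝ] ℝ) (hφ : ∀ i, ∃ r : ℚ, φ (cv i) = r) :
    ∃ r : ℚ, φ D = r := by
  choose a ha using h
  choose b hb using hφ
  refine ⟨∑ i ∈ D.support, a i * b i, ?_⟩
  rw [lin_sum φ (sup_support D)]
  push_cast
  exact sum_congr rfl fun i _ => by rw [ha, hb]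

theorem Lat.intZ (L : Lat I) (h : IsZ D) (h' : IsZ E) : ∃ n : ℤ, I D E = n :=
  h'.lin (I D) fun i => h.lin (I.flip (cv i)) fun j => L.int j i

theorem Lat.ratQ (L : Lat I) (h : IsQ D) (h' : IsQ E) : ∃ r : ℚ, I D E = r :=
  h'.lin (I D) fun i => h.lin (I.flip (cv i)) fun j => by
    obtain ⟨n, hn⟩ := L.int j i
    exact ⟨n, hn.trans (Rat.cast_intCast n).symm⟩

end

namespace NS

variable {K : Type} [Field K] [Algebra ℂ K] {S : NS K} {D E L : S.Crv →₀ ℝ} {f g : K} {p : S.Pt}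

theorem mem_H0 : f ∈ S.H0 D ↔ (f ≠ 0 → 0 ≤ S.dv f + D) := Iff.rfl

variable (S) in
theorem dv_one : S.dv 1 = 0 := by
  have := S.dv_const 1 one_ne_zero
  rwa [map_one] at this

theorem dv_inv (hf : f ≠ 0) : S.dv f⁻¹ = -S.dv f := by
  have := S.dv_mul f f⁻¹ hf (inv_ne_zero hf)
  rw [mul_inv_cancel₀ hf, dv_one] at this
  exact eq_neg_of_add_eq_zero_right this.symm

theorem dv_div (hf : f ≠ 0) (hg : g ≠ 0) : S.dv (f / g) = S.dv f - S.dv g := by
  rw [div_eq_mul_inv, S.dv_mul _ _ hf (inv_ne_zero hg), dv_inv hg, sub_eq_add_neg]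

theorem dv_pow (hf : f ≠ 0) (n : ℕ) : S.dv (f ^ n) = (n : ℝ) • S.dv f := by
  induction n with
  | zero => rw [pow_zero, dv_one, Nat.cast_zero, zero_smul]
  | succ n ih => rw [pow_succ, S.dv_mul _ _ (pow_ne_zero _ hf) hf, ih, Nat.cast_succ, add_smul,
      one_smul]

theorem H0_mono (h : D ≤ E) : S.H0 D ≤ S.H0 E :=
  fun _ hf h0 => (hf h0).trans (add_le_add_right h _)

theorem OK.h0_mono (O : S.OK) (h : D ≤ E) : S.h0 D ≤ S.h0 E := by
  have := O.fin E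
  exact Nat.cast_le.2 (Submodule.finrank_mono (H0_mono h))

theorem h0_nonneg (D : S.Crv →₀ ℝ) : 0 ≤ S.h0 D := Nat.cast_nonneg _

/-- A positive dimension gives a section. -/
theorem sec_of_pos (h : 0 < S.h0 D) : ∃ f, f ≠ 0 ∧ 0 ≤ S.dv f + D := by
  by_contra hn
  have : S.H0 D = ⊥ := by
    refine (Submodule.eq_bot_iff _).2 fun f hf => ?_
    by_contra h0
    exact hn ⟨f, h0, hf h0⟩
  rw [h0, this, finrank_bot, Nat.cast_zero] at h
  exact lt_irrefl _ h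

/-- A larger dimension gives a new section. -/
theorem OK.sec_of_lt (O : S.OK) (h : S.h0 D < S.h0 E) :
    ∃ f, f ≠ 0 ∧ 0 ≤ S.dv f + E ∧ ¬ 0 ≤ S.dv f + D := by
  by_contra hn
  have := O.fin D
  have : S.H0 E ≤ S.H0 D := fun f hf h0 => by
    by_contra h1
    exact hn ⟨f, h0, hf h0, h1⟩
  exact absurd (Nat.cast_le.2 (Submodule.finrank_mono this) : S.h0 E ≤ S.h0 D) (not_le.2 h)

theorem OK.one_le_h0 (O : S.OK) (hf : f ≠ 0) (h : 0 ≤ S.dv f + D) : 1 ≤ S.h0 D := by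
  have := O.fin D
  have : Nontrivial (S.H0 D) := ⟨⟨⟨f, fun _ => h⟩, 0, fun e => hf (congrArg Subtype.val e)⟩⟩
  exact Nat.one_le_cast.2 Module.finrank_pos

/-- Linear equivalence preserves the dimension. -/
theorem h0_lin (hf : f ≠ 0) (D : S.Crv →₀ ℝ) : S.h0 (S.dv f + D) = S.h0 D := by
  have e : (S.H0 (S.dv f + D)).map (LinearMap.mulRight ℂ f) = S.H0 D := by
    ext g
    constructor
    · rintro ⟨u, hu, rfl⟩ h0
      have h1 : u ≠ 0 := left_ne_zero_of_mul h0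
      rw [LinearMap.mulRight_apply, S.dv_mul _ _ h1 hf, add_assoc]
      exact hu h1
    · intro hg
      refine ⟨g / f, fun h0 => ?_, div_mul_cancel₀ g hf⟩
      have h1 : g ≠ 0 := fun e => h0 (by rw [e, zero_div])
      rw [dv_div h1 hf, ← add_assoc, sub_add_cancel]
      exact hg h1
  rw [h0, h0, ← e]
  exact congrArg _ (LinearEquiv.finrank_eq (Submodule.equivMapOfInjective _
    (fun a b h => mul_right_cancel₀ hf h) _))

theorem Gen.lin (hf : f ≠ 0) (h : S.Gen (S.dv f + D) p) : S.Gen D p := by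
  obtain ⟨g, hg, h1, h2⟩ := h
  refine ⟨g * f, mul_ne_zero hg hf, ?_, ?_⟩ <;> rw [S.dv_mul _ _ hg hf, add_assoc]
  exacts [h1, h2]

theorem Gen.add (h : S.Gen D p) (h' : S.Gen E p) : S.Gen (D + E) p := by
  obtain ⟨f, hf, h1, h2⟩ := h
  obtain ⟨g, hg, h3, h4⟩ := h'
  have e : S.dv (f * g) + (D + E) = (S.dv f + D) + (S.dv g + E) := by
    rw [S.dv_mul _ _ hf hg]; abel
  refine ⟨f * g, mul_ne_zero hf hg, ?_, fun C hC => ?_⟩ <;> rw [e]
  · exact add_nonneg h1 h3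
  · rw [Finsupp.add_apply, h2 C hC, h4 C hC, add_zero]

theorem gen_of_eff (h : 0 ≤ D) (hp : ∀ C, S.on p C → D C = 0) : S.Gen D p :=
  ⟨1, one_ne_zero, by rwa [dv_one, zero_add], by rwa [dv_one, zero_add]⟩

theorem Gen.nsmul (h : S.Gen D p) (n : ℕ) : S.Gen ((n : ℝ) • D) p := by
  induction n with
  | zero => rw [Nat.cast_zero, zero_smul]; exact gen_of_eff le_rfl fun _ _ => rfl
  | succ n ih => rw [Nat.cast_succ, add_smul, one_smul]; exact ih.add h

theorem Bpf.nsmul (h : S.Bpf D) (n : ℕ) : S.Bpf ((n : ℝ) • D) := fun p => (h p).nsmul n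

theorem Bpf.add (h : S.Bpf D) (h' : S.Bpf E) : S.Bpf (D + E) := fun p => (h p).add (h' p)

namespace OK

variable (O : S.OK)
include O

theorem sym (D E : S.Crv →₀ ℝ) : S.I D E = S.I E D := O.lat.sym D E

theorem dv_l (hf : f ≠ 0) (E : S.Crv →₀ ℝ) : S.I (S.dv f) E = 0 := O.num f hf E

theorem dv_r (hf : f ≠ 0) (E : S.Crv →₀ ℝ) : S.I E (S.dv f) = 0 := by rw [O.sym, O.dv_l hf]

theorem w_nef : Nef S.I S.w := fun C => (O.wpos C).le

/-- A nef divisor is nonnegative on a divisor with a section. -/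
theorem nef_sec (h : Nef S.I E) (hf : f ≠ 0) (h' : 0 ≤ S.dv f + D) : 0 ≤ S.I E D := by
  have := h.eff h'
  rwa [map_add, O.dv_r hf, zero_add] at this

theorem nef_eff (h : Nef S.I E) (h' : S.Eff D) : 0 ≤ S.I E D := by
  obtain ⟨m, f, hm, hf, h1⟩ := h'
  have := O.nef_sec h hf h1
  rw [map_smul, smul_eq_mul] at this
  exact nonneg_of_mul_nonneg_right this (Nat.cast_pos.2 hm) |>.trans_eq rfl

theorem bpf_nef (h : S.Bpf D) : Nef S.I D := fun C => by
  obtain ⟨p, hp⟩ := O.pt C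
  obtain ⟨f, hf, h1, h2⟩ := h p
  have := O.lat.eff_cv h1 (h2 C hp)
  rwa [map_add, LinearMap.add_apply, O.dv_l hf, zero_add] at this

theorem eq_zero_of_w (h : 0 ≤ D) (h0 : S.I S.w D ≤ 0) : D = 0 := by
  ext C
  by_contra hC
  exact (O.wpos C).ne' (O.w_nef.comp h h0 hC)

/-- Functions without poles are constant. -/
theorem const (hf : f ≠ 0) (h : 0 ≤ S.dv f) : ∃ a : ℂ, f = algebraMap ℂ K a := by
  obtain ⟨p, -⟩ := O.off ∅
  obtain ⟨a, ha⟩ := O.ev f p hf fun C _ => h C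
  refine ⟨a, sub_eq_zero.1 (by_contra fun h0 => ?_)⟩
  obtain ⟨C, -, hC⟩ := ha h0
  have h1 : f - algebraMap ℂ K a ∈ S.H0 0 := by
    refine sub_mem (fun _ => by rwa [add_zero]) fun h2 => ?_
    rw [S.dv_const a fun e => h2 (by rw [e, map_zero]), add_zero]
  have h2 := h1 h0
  rw [add_zero] at h2
  rw [O.eq_zero_of_w h2 (O.dv_r h0 _).le] at hC
  exact lt_irrefl _ hC

theorem chi_sub (L : S.Crv →₀ ℝ) (C : S.Crv) :
    S.chi L = S.chi (L - cv C) + S.I L (cv C) + S.gam C := by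
  simp only [chi, gam, map_sub, LinearMap.sub_apply, O.sym (cv C) L]
  ring

theorem chi_triv (h : Triv S.I D) (L : S.Crv →₀ ℝ) : S.chi (D + L) = S.chi L := by
  simp only [chi, map_add, LinearMap.add_apply, h D, h L, O.sym L D, O.sym S.Kc D, h S.Kc]
  ring

theorem gam_int (C : S.Crv) : ∃ n : ℤ, S.gam C = n := by
  obtain ⟨k1, h1⟩ := O.rr 0 isZ_zero
  obtain ⟨k2, h2⟩ := O.rr (-cv C) (isZ_cv C).neg
  have a1 := h1 (k1 + k2) (Nat.le_add_right _ _)
  have a2 := h2 (k1 + k2) (Nat.le_add_left _ _)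
  have a3 := O.chi_sub (0 + ((k1 + k2 : ℕ) : ℝ) • S.w) C
  obtain ⟨n, hn⟩ := O.lat.intZ (isZ_zero.add (O.wZ.nsmul (k1 + k2))) (isZ_cv C)
  rw [show 0 + ((k1 + k2 : ℕ) : ℝ) • S.w - cv C = -cv C + ((k1 + k2 : ℕ) : ℝ) • S.w by abel,
    ← a1, ← a2, hn, h0, h0] at a3
  exact ⟨(Module.finrank ℂ (S.H0 (0 + ((k1 + k2 : ℕ) : ℝ) • S.w)) : ℤ) -
    (Module.finrank ℂ (S.H0 (-cv C + ((k1 + k2 : ℕ) : ℝ) • S.w)) : ℤ) - n, by
      push_cast; linarith⟩

theorem latK : LatK S.I (S.I S.Kc) where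
  toLat := O.lat
  adj := fun C => by
    obtain ⟨n, hn⟩ := O.gam_int C
    have h := O.adj C
    rw [hn] at h
    have h1 : n ≤ 1 := by exact_mod_cast h
    refine ⟨-n, by omega, ?_⟩
    rw [gam] at hn
    push_cast
    linarith

theorem pos_cv (h : S.Pos D) (C : S.Crv) : 0 < S.I D (cv C) := by
  obtain ⟨ε, hε, h⟩ := h
  have := h C
  rw [map_sub, map_smul, LinearMap.sub_apply, LinearMap.smul_apply, smul_eq_mul] at this
  have := mul_pos hε (O.wpos C)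
  linarith

theorem pos_nef (h : S.Pos D) : Nef S.I D := fun C => (O.pos_cv h C).le

end OK

theorem Pos.add_nef (h : S.Pos D) (h' : Nef S.I E) : S.Pos (D + E) := by
  obtain ⟨ε, hε, h⟩ := h
  exact ⟨ε, hε, by rw [add_sub_right_comm]; exact h.add h'⟩

theorem Pos.smul (h : S.Pos D) {a : ℝ} (ha : 0 < a) : S.Pos (a • D) := by
  obtain ⟨ε, hε, h⟩ := h
  exact ⟨a * ε, mul_pos ha hε, by rw [mul_smul, ← smul_sub]; exact h.smul ha.le⟩

/-- Positivity is open. -/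
theorem Pos.open (h : S.Pos D) {k : ℝ} (hk : 0 < k)
    (hE : ∀ C, |S.I E (cv C)| ≤ k * S.I S.w (cv C)) :
    ∃ δ : ℝ, 0 < δ ∧ ∀ t, |t| ≤ δ → S.Pos (D + t • E) := by
  obtain ⟨ε, hε, h⟩ := h
  refine ⟨ε / 2 / k, by positivity, fun t ht => ⟨ε / 2, by positivity, fun C => ?_⟩⟩
  have h1 := h C
  simp only [map_sub, map_add, map_smul, LinearMap.sub_apply, LinearMap.add_apply,
    LinearMap.smul_apply, smul_eq_mul] at h1 ⊢
  have h2 : |t * S.I E (cv C)| ≤ ε / 2 / k * (k * S.I S.w (cv C)) := by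
    rw [abs_mul]
    exact mul_le_mul ht (hE C) (abs_nonneg _) (by positivity)
  rw [← mul_assoc, div_mul_cancel₀ _ hk.ne'] at h2
  linarith [neg_abs_le (t * S.I E (cv C))]

end NS

end Pool.Agent.MP_ee8c61_ag.M3SN
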