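import Pool.Agent.MP_ee8c61_ag.M3SN.SpecN

/-!
A reduced member of an ample system with disjoint components is irreducible; strong Nakai.
-/

set_option autoImplicit false

namespace Pool.Agent.MP_ee8c61_ag.M3SN.NS

variable {K : Type} [Field K] [Algebra ℂ K] {S : NS K}

theorem OK.irr (O : S.OK) (H : S.HODGE) {Z : S.Crv →₀ ℝ} (hp : ∀ C, 0 < S.I Z (cv C))
    (h0 : Z ≠ 0) (h1 : ∀ C, Z C = 0 ∨ Z C = 1)
    (h2 : ∀ C C', C ≠ C' → Z C = 1 → Z C' = 1 → S.I (cv C) (cv C') = 0) : ∃ F, Z = cv F := by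
  have sq : ∀ C, Z C = 1 → 0 < S.I (cv C) (cv C) := by
    intro C hC
    have := hp C
    rw [O.sym, lin_sum (S.I (cv C)) (sup_support Z), Finset.sum_eq_single C, hC, one_mul] at this
    · exact this
    · intro C' hC' hne
      rw [h2 C C' hne.symm hC ((h1 C').resolve_left (Finsupp.mem_support_iff.1 hC')), mul_zero]
    · intro h
      rw [Finsupp.notMem_support_iff.1 h, zero_mul]
  obtain ⟨F, hF⟩ := Finsupp.support_nonempty_iff.2 h0
  have hF1 := (h1 F).resolve_left (Finsupp.mem_support_iff.1 hF)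
  refine ⟨F, Finsupp.ext fun C => ?_⟩
  by_cases e : F = C
  · rw [← e, hF1, cv_self]
  · rw [cv_ne e]
    refine (h1 C).resolve_right fun hC => ?_
    exact absurd (H _ _ (sq F hF1) (h2 F C e hF1 hC)).1 (not_le.2 (sq C hC))

/-- The Bertini member is irreducible. -/
theorem OK.irr_w (O : S.OK) (H : S.HODGE) {k : ℕ} {f : K} (hk : 0 < k) (hf : f ≠ 0)
    (h1 : ∀ C, (S.dv f + (k : ℝ) • S.w) C = 0 ∨ (S.dv f + (k : ℝ) • S.w) C = 1)
    (h2 : ∀ C C', C ≠ C' → (S.dv f + (k : ℝ) • S.w) C = 1 → (S.dv f + (k : ℝ) • S.w) C' = 1 →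
      S.I (cv C) (cv C') = 0) : ∃ F, S.dv f + (k : ℝ) • S.w = cv F := by
  have hk' : (0 : ℝ) < k := Nat.cast_pos.2 hk
  have e : ∀ E, S.I (S.dv f + (k : ℝ) • S.w) E = k * S.I S.w E := fun E => by
    rw [map_add, LinearMap.add_apply, O.dv_l hf, zero_add, map_smul, LinearMap.smul_apply,
      smul_eq_mul]
  refine O.irr H (fun C => ?_) (fun h => ?_) h1 h2
  · rw [e]; exact mul_pos hk' (O.wpos C)
  · have := e S.w
    rw [h, map_zero, LinearMap.zero_apply] at this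
    exact (mul_pos hk' O.ww).ne this

/-- A rational positive divisor dominates any integral divisor: `m (k D - X)` is free. -/
theorem Tools.nak_sub (T : S.Tools) {D X : S.Crv →₀ ℝ} (hD : IsQ D) (hX : IsQ X)
    (h : S.Pos D) : ∃ k m : ℕ, 0 < k ∧ 0 < m ∧ IsZ ((m : ℝ) • ((k : ℝ) • D - X)) ∧
      S.Bpf ((m : ℝ) • ((k : ℝ) • D - X)) := by
  obtain ⟨c, hc, hb⟩ := T.bnd X
  obtain ⟨δ, hδ, hp⟩ := h.open hc hb
  obtain ⟨k, hk⟩ := exists_nat_gt (1 / δ)
  have hk0 : (0 : ℝ) < k := (one_div_pos.2 hδ).trans hk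
  have h1 : |(-(1 / k) : ℝ)| ≤ δ := by
    rw [abs_neg, abs_of_pos (one_div_pos.2 hk0)]
    exact ((one_div_lt hδ hk0).1 hk).le
  have h2 := (hp _ h1).smul hk0
  rw [smul_add, smul_smul, mul_neg, mul_one_div_cancel hk0.ne', neg_smul, one_smul,
    ← sub_eq_add_neg] at h2
  obtain ⟨m, hm, h3, h4⟩ := T.nak _ ((hD.nsmul k).sub hX) h2
  exact ⟨k, m, Nat.cast_pos.1 hk0, hm, h3, h4⟩

end Pool.Agent.MP_ee8c61_ag.M3SN.NS
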