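import Pool.Agent.MP_ee8c61_ag.M3SN.SpecN

/-!
Twisting by multiples of the ample divisor: base point freeness, bounds, nef divisors.
-/

set_option autoImplicit false

namespace Pool.Agent.MP_ee8c61_ag.M3SN

open Finset Filter NS

namespace RAMP

theorem ev_lin {a : ℝ} (ha : 0 < a) (b c : ℝ) : ∀ᶠ k : ℕ in atTop, b ≤ c + k * a := by
  obtain ⟨n, hn⟩ := exists_nat_ge ((b - c) / a)
  filter_upwards [eventually_ge_atTop n] with k hk
  have h1 : (b - c) / a ≤ k := hn.trans (Nat.cast_le.2 hk)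
  rw [div_le_iff₀ ha] at h1
  linarith

theorem ev_quad {a : ℝ} (ha : 0 < a) (b c : ℝ) :
    ∀ᶠ k : ℕ in atTop, 0 < c + b * k + a * k * k := by
  filter_upwards [ev_lin ha (|c| + 1) b, eventually_ge_atTop 1] with k h1 h2
  have h3 : (1 : ℝ) ≤ k := Nat.one_le_cast.2 h2
  have h4 : (|c| + 1) * k ≤ (b + k * a) * k := mul_le_mul_of_nonneg_right h1 (by linarith)
  have h5 : (|c| + 1) * 1 ≤ (|c| + 1) * k := mul_le_mul_of_nonneg_left h3 (by positivity)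
  nlinarith [neg_abs_le c]

variable {K : Type} [Field K] [Algebra ℂ K] {S : NS K}

theorem ev_rr (O : S.OK) {X : S.Crv →₀ ℝ} (hX : IsZ X) :
    ∀ᶠ k : ℕ in atTop, S.h0 (X + (k : ℝ) • S.w) = S.chi (X + (k : ℝ) • S.w) := by
  obtain ⟨k0, h⟩ := O.rr X hX
  exact eventually_atTop.2 ⟨k0, h⟩

theorem ev_chi (O : S.OK) (X : S.Crv →₀ ℝ) :
    ∀ᶠ k : ℕ in atTop, 0 < S.chi (X + (k : ℝ) • S.w) := by
  filter_upwards [ev_quad (half_pos O.ww) ((2 * S.I X S.w - S.I S.Kc S.w) / 2)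
    (S.c0 + (S.I X X - S.I S.Kc X) / 2)] with k hk
  simp only [chi, map_add, map_smul, LinearMap.add_apply, LinearMap.smul_apply, smul_eq_mul,
    O.sym S.w X]
  linarith

theorem ev_on (O : S.OK) {X : S.Crv →₀ ℝ} (hX : IsZ X) (C : S.Crv) :
    ∀ᶠ k : ℕ in atTop, ∀ p, S.on p C → S.Gen (X + (k : ℝ) • S.w) p := by
  obtain ⟨b, hb⟩ := O.e1 C
  filter_upwards [ev_rr O hX, ev_rr O (hX.sub (isZ_cv C)),
    ev_lin (O.wpos C) b (S.I X (cv C))] with k h1 h2 h3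
  refine (hb _ (hX.add (O.wZ.nsmul k)) ?_).2 ?_
  · rwa [map_add, map_smul, LinearMap.add_apply, LinearMap.smul_apply, smul_eq_mul]
  · rw [sub_add_eq_add_sub] at h2
    rw [h1, h2]
    exact O.chi_sub _ C

theorem amp (O : S.OK) : S.AMP := by
  intro X hX
  obtain ⟨k2, h1, h2⟩ := ((ev_rr O hX).and (ev_chi O X)).exists
  obtain ⟨f, hf, hZ⟩ := sec_of_pos (h1 ▸ h2)
  have h3 := (eventually_all_finset (S.dv f + (X + (k2 : ℝ) • S.w)).support).2
    fun C _ => ev_on O hX C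
  obtain ⟨k0, hk⟩ := eventually_atTop.1 (h3.and (eventually_ge_atTop k2))
  refine ⟨k0, fun k hk0 p => ?_⟩
  obtain ⟨a1, a2⟩ := hk k hk0
  by_cases hp : ∃ C, S.on p C ∧ (S.dv f + (X + (k2 : ℝ) • S.w)) C ≠ 0
  · obtain ⟨C, c1, c2⟩ := hp
    exact a1 C (Finsupp.mem_support_iff.2 c2) p c1
  · have g1 : S.Gen (X + (k2 : ℝ) • S.w) p :=
      Gen.lin hf (gen_of_eff hZ fun C hC => by_contra fun h => hp ⟨C, hC, h⟩)
    have g2 := g1.add ((O.wbpf p).nsmul (k - k2))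
    rwa [add_assoc, ← add_smul, Nat.cast_sub a2, add_sub_cancel] at g2

theorem bnd_cv (O : S.OK) (i : S.Crv) :
    ∃ k : ℕ, ∀ C, |S.I (cv i) (cv C)| ≤ k * S.I S.w (cv C) := by
  obtain ⟨k1, h1⟩ := amp O _ (isZ_cv i)
  obtain ⟨k2, h2⟩ := amp O _ (isZ_cv i).neg
  refine ⟨k1 + k2, fun C => ?_⟩
  have a1 := O.bpf_nef (h1 (k1 + k2) (Nat.le_add_right _ _)) C
  have a2 := O.bpf_nef (h2 (k1 + k2) (Nat.le_add_left _ _)) C
  simp only [map_add, map_neg, map_smul, LinearMap.add_apply, LinearMap.neg_apply,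
    LinearMap.smul_apply, smul_eq_mul] at a1 a2
  exact abs_le.2 ⟨by linarith, by linarith⟩

theorem bnd (O : S.OK) : S.BND := by
  intro X
  choose k hk using bnd_cv O
  have h0 : 0 ≤ ∑ i ∈ X.support, |X i| * (k i : ℝ) := sum_nonneg fun i _ => by positivity
  refine ⟨1 + ∑ i ∈ X.support, |X i| * k i, by linarith, fun C => ?_⟩
  rw [O.sym X, lin_sum (S.I (cv C)) (sup_support X), add_mul, one_mul, sum_mul]
  refine (abs_sum_le_sum_abs _ _).trans (le_add_of_nonneg_of_le (O.wpos C).le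
    (sum_le_sum fun i _ => ?_))
  rw [abs_mul, mul_assoc, O.sym (cv C)]
  exact mul_le_mul_of_nonneg_left (hk i C) (abs_nonneg _)

theorem nw (O : S.OK) : S.NW := by
  intro M hM
  obtain ⟨p, -⟩ := O.off ∅
  obtain ⟨f, hf, h1, -⟩ := O.wbpf p
  refine ⟨O.nef_sec hM hf h1, fun h0 => triv_of_cv fun C => le_antisymm ?_ (hM C)⟩
  obtain ⟨k, hk⟩ := amp O _ (isZ_cv C).neg
  obtain ⟨g, hg, h2, -⟩ := hk k le_rfl p
  have := O.nef_sec hM hg h2
  rw [map_add, map_neg, map_smul, h0, smul_zero, add_zero] at this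
  linarith

end RAMP

theorem rowAMP : RowAMP := fun _ _ _ _ O => ⟨RAMP.amp O, RAMP.bnd O, RAMP.nw O⟩

end Pool.Agent.MP_ee8c61_ag.M3SN
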