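import Pool.Agent.MP_ee8c61_ag.M3SN.SpecN

/-!
Row B1: base point freeness for nef adjoint divisors of square zero.
-/

set_option autoImplicit false

namespace Pool.Agent.MP_ee8c61_ag.M3SN

open Finset

namespace RB1

section Lat

variable {ι : Type} {I : Fm ι} {X Y : ι →₀ ℝ}

/-- An effective divisor of degree zero on a curve outside its support is disjoint from it. -/
theorem disj (L : Lat0 I) (hX : 0 ≤ X) {i j : ι} (hi : X i = 0) (h0 : I X (cv i) = 0)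
    (hj : 0 < I (cv i) (cv j)) : X j = 0 := by
  by_contra hn
  rw [L.sym, lin_sum (I (cv i)) (sup_support X)] at h0
  have := (sum_eq_zero_iff_of_nonneg fun l hl => mul_nonneg (hX l)
    (L.off _ _ fun e => Finsupp.mem_support_iff.1 hl (e ▸ hi))).1 h0 j
    (Finsupp.mem_support_iff.2 hn)
  exact hj.ne' ((mul_eq_zero.1 this).resolve_left hn)

/-- Effective divisors without common component meet nonnegatively. -/
theorem eff_eff (L : Lat0 I) (hX : 0 ≤ X) (hY : 0 ≤ Y) (h : ∀ i, Y i ≠ 0 → X i = 0) :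
    0 ≤ I X Y := by
  rw [lin_sum (I X) (sup_support Y)]
  exact sum_nonneg fun i hi => mul_nonneg (hY i)
    (L.eff_cv hX (h i (Finsupp.mem_support_iff.1 hi)))

theorem pos_eff (h : ∀ i, 0 < I X (cv i)) (hY : 0 ≤ Y) {i : ι} (hi : 0 < Y i) : 0 < I X Y :=
  (mul_pos hi (h i)).trans_le (Nef.term_le (fun j => (h j).le) hY i)

/-- Positive and negative parts. -/
theorem parts (X : ι →₀ ℝ) : ∃ Z1 Z2 : ι →₀ ℝ, X = Z2 - Z1 ∧ 0 ≤ Z1 ∧ 0 ≤ Z2 ∧
    ∀ i, Z1 i ≠ 0 → Z2 i = 0 := by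
  classical
  refine ⟨-X.filter fun i => X i < 0, X.filter fun i => ¬ X i < 0, ?_, fun i => ?_, fun i => ?_,
    fun i hi => ?_⟩
  · rw [sub_neg_eq_add, add_comm, Finsupp.filter_add_filter_not]
  · simp only [Finsupp.coe_zero, Pi.zero_apply, Finsupp.neg_apply, Finsupp.filter_apply]
    split_ifs with h
    · linarith
    · simp
  · simp only [Finsupp.coe_zero, Pi.zero_apply, Finsupp.filter_apply]
    split_ifs with h
    · exact le_rfl
    · linarith
  · simp only [Finsupp.neg_apply, Finsupp.filter_apply] at hi ⊢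
    split_ifs with h
    · rfl
    · simp [h] at hi

/-- Splitting off a block of the support. -/
theorem split (L : Lat0 I) (blk : StmtBLK) {Z : ι →₀ ℝ} (hZ : 0 ≤ Z)
    (h0 : ∀ i, Z i ≠ 0 → I Z (cv i) = 0) {c : ι} (hc : Z c ≠ 0) :
    ∃ (t : Finset ι) (Zt Z' : ι →₀ ℝ), c ∈ t ∧ Conn I t ∧ Z = Zt + Z' ∧ Sup t Zt ∧
      (∀ i ∈ t, 0 < Zt i ∧ Z' i = 0 ∧ I Zt (cv i) = 0 ∧ I Z' (cv i) = 0) ∧ 0 ≤ Zt ∧ 0 ≤ Z' ∧
      Nef I Zt ∧ Nef I Z' := by
  classical
  obtain ⟨t, hts, hct, hcon, horth⟩ := blk ι I Z.support c L (Finsupp.mem_support_iff.2 hc)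
  let Zt := Z.filter fun i => i ∈ t
  let Z' := Z.filter fun i => i ∉ t
  have e : Z = Zt + Z' := (Finsupp.filter_add_filter_not Z _).symm
  have s1 : Sup t Zt := fun i hi => Finsupp.filter_apply_neg _ _ hi
  have s2 : Sup (Z.support.filter fun i => i ∉ t) Z' := fun i hi => by
    by_cases h : i ∈ t
    · exact Finsupp.filter_apply_neg _ _ (not_not.2 h)
    · refine (Finsupp.filter_apply_pos (fun i => i ∉ t) Z h).trans ?_
      by_contra h1
      exact hi (mem_filter.2 ⟨Finsupp.mem_support_iff.2 h1, h⟩)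
  have p1 : 0 ≤ Zt := fun i => by
    simp only [Zt, Finsupp.filter_apply]
    split_ifs
    exacts [hZ i, le_rfl]
  have p2 : 0 ≤ Z' := fun i => by
    simp only [Z', Finsupp.filter_apply]
    split_ifs
    exacts [le_rfl, hZ i]
  have a : ∀ i, I Z (cv i) = I Zt (cv i) + I Z' (cv i) := fun i => by
    rw [← LinearMap.add_apply, ← map_add, ← e]
  have o1 : ∀ i ∈ t, I Z' (cv i) = 0 := fun i hi => by
    rw [L.sym]
    exact orth_of_sup (fun l hl => horth i hi l (mem_filter.1 hl).1 (mem_filter.1 hl).2) s2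
  have o2 : ∀ i ∈ t, I Zt (cv i) = 0 := fun i hi => by
    have := a i
    rw [h0 i (Finsupp.mem_support_iff.1 (hts hi)), o1 i hi] at this
    linarith
  refine ⟨t, Zt, Z', hct, hcon, e, s1, fun i hi => ⟨?_, Finsupp.filter_apply_neg _ _ (not_not.2 hi),
    o2 i hi, o1 i hi⟩, p1, p2, fun i => ?_, fun i => ?_⟩
  · rw [Finsupp.filter_apply_pos _ _ hi]
    exact lt_of_le_of_ne (hZ i) (Finsupp.mem_support_iff.1 (hts hi)).symm
  · by_cases hi : i ∈ t
    · exact (o2 i hi).ge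
    · exact L.eff_cv p1 (s1 i hi)
  · by_cases hi : i ∈ Z.support.filter fun i => i ∉ t
    · obtain ⟨h1, h2⟩ := mem_filter.1 hi
      have h3 : I Zt (cv i) = 0 := by
        rw [L.sym]
        exact orth_of_sup (fun l hl => (L.sym _ _).trans (horth l hl i h1 h2)) s1
      have := a i
      rw [h0 i (Finsupp.mem_support_iff.1 h1), h3] at this
      linarith
    · exact L.eff_cv p2 (s2 i hi)

end Lat

variable {K : Type} [Field K] [Algebra ℂ K] {S : NS K}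

/-- Growth of the number of sections. -/
theorem grow (e2 : S.E2) {Q : S.Crv →₀ ℝ} (hQ : IsZ Q) (h0 : S.I Q Q = 0) (hK : S.I S.Kc Q < 0)
    (hw : 0 < S.I Q S.w) (b : ℝ) : ∃ n : ℕ, 0 < n ∧ b < S.h0 ((n : ℝ) • Q) := by
  obtain ⟨β, hβ⟩ := e2
  obtain ⟨n1, h1⟩ := exists_nat_gt (β / S.I Q S.w)
  obtain ⟨n2, h2⟩ := exists_nat_gt (2 * (b - S.c0) / -S.I S.Kc Q)
  rw [div_lt_iff₀ hw] at h1
  rw [div_lt_iff₀ (by linarith)] at h2
  have a1 : (0 : ℝ) ≤ n1 := Nat.cast_nonneg _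
  have a2 : (0 : ℝ) ≤ n2 := Nat.cast_nonneg _
  refine ⟨n1 + n2 + 1, by omega, lt_of_lt_of_le ?_ (hβ _ (hQ.nsmul _) ?_)⟩
  · simp only [NS.chi, map_smul, LinearMap.smul_apply, smul_eq_mul, h0]
    push_cast
    nlinarith
  · simp only [map_smul, LinearMap.smul_apply, smul_eq_mul]
    push_cast
    nlinarith

/-- A multiple of `Z` is generated along a block of its support. -/
theorem block (O : S.OK) (semi : StmtSEMI) (e2 : S.E2) {Zt Z' : S.Crv →₀ ℝ} {t : Finset S.Crv}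
    {c : S.Crv} (hc : c ∈ t) (hcon : Conn S.I t) (hZ : IsZ Zt) (s1 : Sup t Zt)
    (ht : ∀ i ∈ t, 0 < Zt i ∧ Z' i = 0 ∧ S.I Zt (cv i) = 0 ∧ S.I Z' (cv i) = 0) (p1 : 0 ≤ Zt)
    (p2 : 0 ≤ Z') (hK : S.I S.Kc Zt < 0) :
    ∃ a : ℕ, 0 < a ∧ ∀ p, S.on p c → S.Gen ((a : ℝ) • (Zt + Z')) p := by
  have L := O.lat.toLat0
  have h0 : S.I Zt Zt = 0 := orth_of_sup (fun i hi => (ht i hi).2.2.1) s1
  have hw : 0 < S.I Zt S.w := by
    rw [O.sym]; exact pos_eff O.wpos p1 (ht c hc).1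
  obtain ⟨n, -, hn⟩ := grow e2 hZ h0 hK hw (S.h0 0)
  obtain ⟨h, hh, h1, h2⟩ := O.sec_of_lt hn
  obtain ⟨Z1, Z2, e, q1, q2, q3⟩ := parts (S.dv h)
  have ev : ∀ i, S.dv h i = Z2 i - Z1 i := fun i => by rw [e, Finsupp.sub_apply]
  have s2 : Sup t Z1 := fun i hi => by
    by_contra hn
    have a1 : (0 : ℝ) ≤ S.dv h i + n * Zt i := h1 i
    rw [ev, q3 i hn, s1 i hi] at a1
    exact hn (le_antisymm (by linarith) (q1 i))
  have e1 : ∀ E, S.I Z1 E = S.I Z2 E := fun E => by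
    have := O.dv_l hh E
    rw [e, map_sub, LinearMap.sub_apply] at this
    linarith
  obtain ⟨b1, b2⟩ := semi _ S.I t Zt L hcon s1 (fun i hi => (ht i hi).1)
    (fun i hi => (ht i hi).2.2.1.le) Z1 s2
  obtain ⟨r, hr⟩ := b2 (le_antisymm b1 (by rw [e1]; exact eff_eff L q2 q1 q3))
  have hr0 : r ≠ 0 := fun h3 => h2 (by
    rw [e, hr, h3, zero_smul, sub_zero, add_zero]; exact q2)
  have z1 : ∀ i, Z1 i = r * Zt i := fun i => by rw [hr, Finsupp.smul_apply, smul_eq_mul]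
  have z2 : ∀ i ∈ t, Z2 i = 0 := fun i hi =>
    q3 i (by rw [z1]; exact mul_ne_zero hr0 (ht i hi).1.ne')
  have z3 : S.I Z2 (cv c) = 0 := by
    rw [← e1, hr, map_smul, LinearMap.smul_apply, (ht c hc).2.2.1, smul_zero]
  obtain ⟨a, ha⟩ : ∃ a : ℕ, Zt c = a := by
    obtain ⟨a, ha⟩ := hZ c
    have : 0 ≤ a := by
      have : (0 : ℝ) ≤ Zt c := p1 c
      rw [ha] at this
      exact_mod_cast this
    lift a to ℕ using this
    exact ⟨a, ha.trans (Int.cast_natCast a)⟩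
  obtain ⟨b, hb⟩ : ∃ b : ℕ, Z1 c = b := by
    obtain ⟨b, hb⟩ := (O.dvZ h hh).neg c
    rw [Finsupp.neg_apply, ev, z2 c hc, zero_sub, neg_neg] at hb
    have : 0 ≤ b := by
      have : (0 : ℝ) ≤ Z1 c := q1 c
      rw [hb] at this
      exact_mod_cast this
    lift b to ℕ using this
    exact ⟨b, hb.trans (Int.cast_natCast b)⟩
  have hab : (b : ℝ) = r * a := by rw [← hb, z1, ha]
  have e2 : S.dv (h ^ a) + (b : ℝ) • (Zt + Z') = (a : ℝ) • Z2 + (b : ℝ) • Z' := by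
    rw [NS.dv_pow hh, e, hr, smul_sub, smul_add, smul_smul, mul_comm, ← hab]
    abel
  refine ⟨b, Nat.pos_of_ne_zero fun h3 => ?_, fun p hp => ⟨h ^ a, pow_ne_zero _ hh, ?_,
    fun C hC => ?_⟩⟩
  · rw [h3, Nat.cast_zero, ← ha] at hab
    exact mul_ne_zero hr0 (ht c hc).1.ne' hab.symm
  · rw [e2]
    exact add_nonneg (smul_nonneg (Nat.cast_nonneg _) q2) (smul_nonneg (Nat.cast_nonneg _) p2)
  · rw [e2, Finsupp.add_apply, Finsupp.smul_apply, Finsupp.smul_apply]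
    by_cases h3 : c = C
    · rw [← h3, z2 c hc, (ht c hc).2.1, smul_zero, smul_zero, add_zero]
    · have h4 := (O.meet c C h3).2 ⟨p, hp, hC⟩
      rw [disj L q2 (z2 c hc) z3 h4, disj L p2 (ht c hc).2.1 (ht c hc).2.2.2 h4, smul_zero,
        smul_zero, add_zero]

end RB1

open RB1 in
theorem rowB1 : RowB1 := by
  intro LA K _ _ S O T A B N s hA hB hQ hprj _ hnef hsq hw
  have L := O.lat.toLat0
  obtain ⟨P, hP⟩ : ∃ P, P = S.Kc + A + B - N := ⟨_, rfl⟩
  have hs : ∀ C ∈ s, S.I P (cv C) = 0 := hP ▸ hprj.2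
  rw [← hP] at hQ hnef hsq hw ⊢
  have hK : ∀ E, Nef S.I E → S.I P E = 0 → (∀ C ∈ s, S.I E (cv C) = 0) → 0 < S.I A E →
      S.I S.Kc E < 0 := by
    intro E h1 h2 h3 h4
    have h5 := h1.eff hB
    have h6 := orth_of_sup h3 hprj.1
    rw [O.sym] at h5 h6
    rw [hP, map_sub, map_add, map_add, LinearMap.sub_apply, LinearMap.add_apply,
      LinearMap.add_apply] at h2
    linarith
  have hKP : S.I S.Kc P < 0 := by
    refine hK P hnef hsq hs ?_
    obtain ⟨ε, hε, h⟩ := hA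
    have h1 := T.kle _ _ h hnef
    rw [map_sub, map_smul, LinearMap.sub_apply, LinearMap.smul_apply, smul_eq_mul,
      O.sym S.w] at h1
    nlinarith [mul_pos hε hw]
  obtain ⟨m0, hm0, hZ0⟩ := hQ.clear
  have hm0' : (0 : ℝ) < m0 := Nat.cast_pos.2 hm0
  obtain ⟨n, hn, h1⟩ := grow T.e2 hZ0
    (by simp only [map_smul, LinearMap.smul_apply, hsq, smul_zero])
    (by rw [map_smul, smul_eq_mul]; exact mul_neg_of_pos_of_neg hm0' hKP)
    (by rw [map_smul, LinearMap.smul_apply, smul_eq_mul]; exact mul_pos hm0' hw) 0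
  obtain ⟨f, hf, hZ⟩ := NS.sec_of_pos h1
  have hZ1 := hZ0.nsmul n
  rw [smul_smul, ← Nat.cast_mul] at hZ hZ1
  have hm : 0 < n * m0 := mul_pos hn hm0
  generalize n * m0 = m at hZ hZ1 hm
  have hm' : (0 : ℝ) < m := Nat.cast_pos.2 hm
  obtain ⟨Z, hZe⟩ : ∃ Z, Z = S.dv f + (m : ℝ) • P := ⟨_, rfl⟩
  rw [← hZe] at hZ
  have zZ : IsZ Z := hZe ▸ (O.dvZ f hf).add hZ1
  have zI : ∀ E, S.I Z E = m * S.I P E := fun E => by
    rw [hZe, map_add, map_smul, LinearMap.add_apply, LinearMap.smul_apply, O.dv_l hf, zero_add,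
      smul_eq_mul]
  have zP : S.I P Z = 0 := by rw [O.sym, zI, hsq, mul_zero]
  have z0 : ∀ C, Z C ≠ 0 → S.I Z (cv C) = 0 := fun C hC => by
    rw [zI, hnef.comp hZ zP.le hC, mul_zero]
  have key : ∀ c, ∃ a : ℕ, 0 < a ∧ (Z c ≠ 0 → ∀ p, S.on p c → S.Gen ((a : ℝ) • Z) p) := by
    intro c
    by_cases hc : Z c = 0
    · exact ⟨1, one_pos, fun h => absurd hc h⟩
    obtain ⟨t, Zt, Z', hct, hcon, e, s1, ht, p1, p2, n1, n2⟩ := split L LA.blk hZ z0 hc
    have hZt : IsZ Zt := fun i => by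
      by_cases hi : i ∈ t
      · obtain ⟨a, ha⟩ := zZ i
        rw [e, Finsupp.add_apply, (ht i hi).2.1, add_zero] at ha
        exact ⟨a, ha⟩
      · exact ⟨0, by rw [s1 i hi, Int.cast_zero]⟩
    have hKt : S.I S.Kc Zt < 0 := by
      refine hK Zt n1 ?_ (fun C hC => ?_) (pos_eff (O.pos_cv hA) p1 (ht c hct).1)
      · have a1 := hnef.eff p1
        have a2 := hnef.eff p2
        rw [e, map_add] at zP
        linarith
      · have a1 := zI (cv C)
        rw [hs C hC, mul_zero, e, map_add, LinearMap.add_apply] at a1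
        linarith [n1 C, n2 C]
    obtain ⟨a, ha, h⟩ := block O LA.semi T.e2 hct hcon hZt s1 ht p1 p2 hKt
    exact ⟨a, ha, fun _ => e ▸ h⟩
  choose a ha hg using key
  have hM : 0 < ∏ c ∈ Z.support, a c := prod_pos fun c _ => ha c
  have hb : S.Bpf (((∏ c ∈ Z.support, a c : ℕ) : ℝ) • Z) := fun p => by
    by_cases h : ∃ c, Z c ≠ 0 ∧ S.on p c
    · obtain ⟨c, h2, h3⟩ := h
      obtain ⟨k, hk⟩ := dvd_prod_of_mem a (Finsupp.mem_support_iff.2 h2)
      rw [hk, Nat.cast_mul, mul_comm, mul_smul]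
      exact (hg c h2 p h3).nsmul k
    · exact (NS.gen_of_eff hZ fun C hC => by_contra fun h2 => h ⟨C, h2, hC⟩).nsmul _
  generalize ∏ c ∈ Z.support, a c = M at hM hb
  refine ⟨M * m, mul_pos hM hm, ?_, fun p => ?_⟩
  · rw [Nat.cast_mul, mul_smul]
    exact hZ1.nsmul M
  · refine NS.Gen.lin (pow_ne_zero M hf) ?_
    rw [NS.dv_pow hf, Nat.cast_mul, mul_smul, ← smul_add, ← hZe]
    exact hb p

end Pool.Agent.MP_ee8c61_ag.M3SN
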