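import Pool.Agent.MP_ee8c61_ag.M3SN.SpecN

/-!
Divisors of positive square are effective, and nef divisors meet nonnegatively.
-/

set_option autoImplicit false

namespace Pool.Agent.MP_ee8c61_ag.M3SN

open Finset

namespace RBIG

theorem lin_bd {ι : Type} (s : Finset ι) (φ : (ι →₀ ℝ) →ₗ[ℝ] ℝ) {R : ι →₀ ℝ} (h : Sup s R)
    (h1 : ∀ i, |R i| ≤ 1) : |φ R| ≤ ∑ i ∈ s, |φ (cv i)| := by
  rw [lin_sum φ h]
  refine (abs_sum_le_sum_abs _ _).trans (sum_le_sum fun i _ => ?_)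
  rw [abs_mul]
  exact mul_le_of_le_one_left (abs_nonneg _) (h1 i)

theorem bil_bd {ι : Type} (s : Finset ι) (I : Fm ι) {R : ι →₀ ℝ} (h : Sup s R)
    (h1 : ∀ i, |R i| ≤ 1) : |I R R| ≤ ∑ i ∈ s, ∑ j ∈ s, |I (cv j) (cv i)| :=
  (lin_bd s (I R) h h1).trans (sum_le_sum fun i _ => lin_bd s (I.flip (cv i)) h h1)

variable {K : Type} [Field K] [Algebra ℂ K] {S : NS K}

theorem big (O : S.OK) (h2 : S.E2) : S.BIG := by
  intro L hL hw
  obtain ⟨β, hβ⟩ := h2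
  obtain ⟨c1, e1⟩ : ∃ c, ∑ i ∈ L.support, |S.I S.w (cv i)| = c := ⟨_, rfl⟩
  obtain ⟨c2, e2⟩ : ∃ c, ∑ i ∈ L.support, |S.I L (cv i)| = c := ⟨_, rfl⟩
  obtain ⟨c3, e3⟩ : ∃ c, ∑ i ∈ L.support, ∑ j ∈ L.support, |S.I (cv j) (cv i)| = c := ⟨_, rfl⟩
  obtain ⟨c4, e4⟩ : ∃ c, ∑ i ∈ L.support, |S.I S.Kc (cv i)| = c := ⟨_, rfl⟩
  obtain ⟨n1, hn1⟩ := exists_nat_gt ((β + c1) / S.I L S.w)
  obtain ⟨n2, hn2⟩ := exists_nat_gt
    ((|2 * c2 + S.I S.Kc L| + |c3 + c4 - 2 * S.c0|) / S.I L L)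
  obtain ⟨n, hn⟩ : ∃ n : ℕ, n = n1 + n2 + 1 := ⟨_, rfl⟩
  have a0 : (n : ℝ) = n1 + n2 + 1 := by rw [hn]; push_cast; ring
  have a1 : (0 : ℝ) ≤ n1 := Nat.cast_nonneg _
  have a2 : (0 : ℝ) ≤ n2 := Nat.cast_nonneg _
  have b1 : β + c1 < n * S.I L S.w := (div_lt_iff₀ hw).1 (by linarith)
  have b2 : |2 * c2 + S.I S.Kc L| + |c3 + c4 - 2 * S.c0| < n * S.I L L :=
    (div_lt_iff₀ hL).1 (by linarith)
  obtain ⟨R, hR⟩ : ∃ R : S.Crv →₀ ℝ, ∀ i, R i = Int.fract (n * L i) :=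
    ⟨Finsupp.mapRange (fun x => Int.fract (n * x)) (by simp) L, fun i => rfl⟩
  have r1 : Sup L.support R := fun i hi => by
    rw [hR, Finsupp.notMem_support_iff.1 hi, mul_zero, Int.fract_zero]
  have r2 : ∀ i, |R i| ≤ 1 := fun i => by
    rw [hR, abs_of_nonneg (Int.fract_nonneg _)]
    exact (Int.fract_lt_one _).le
  have r3 : 0 ≤ R := fun i => by
    rw [hR]
    exact Int.fract_nonneg _
  have r4 : IsZ ((n : ℝ) • L - R) := fun i => ⟨⌊n * L i⌋, by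
    rw [Finsupp.sub_apply, Finsupp.smul_apply, hR, smul_eq_mul, Int.self_sub_fract]⟩
  have d1 := abs_le.1 (e1 ▸ lin_bd _ (S.I S.w) r1 r2)
  have d2 := abs_le.1 (e2 ▸ lin_bd _ (S.I L) r1 r2)
  have d3 := abs_le.1 (e3 ▸ bil_bd _ S.I r1 r2)
  have d4 := abs_le.1 (e4 ▸ lin_bd _ (S.I S.Kc) r1 r2)
  have h3 := hβ _ r4 (by
    rw [map_sub, map_smul, LinearMap.sub_apply, LinearMap.smul_apply, smul_eq_mul, O.sym R]
    linarith)
  have h4 : 0 < S.chi ((n : ℝ) • L - R) := by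
    simp only [NS.chi, map_sub, map_smul, LinearMap.sub_apply, LinearMap.smul_apply, smul_eq_mul,
      O.sym R L]
    have f1 := le_abs_self (2 * c2 + S.I S.Kc L)
    have f2 := le_abs_self (c3 + c4 - 2 * S.c0)
    have f3 := abs_nonneg (c3 + c4 - 2 * S.c0)
    have f4 : (1 : ℝ) ≤ n := by linarith
    have f5 := mul_lt_mul_of_pos_left b2 (show (0 : ℝ) < n by linarith)
    have f6 := mul_le_mul_of_nonneg_left f1 (show (0 : ℝ) ≤ n by linarith)
    have f7 := mul_le_mul_of_nonneg_right f4 f3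
    have f8 := mul_le_mul_of_nonneg_left d2.2 (show (0 : ℝ) ≤ n by linarith)
    nlinarith
  obtain ⟨f, hf, h5⟩ := NS.sec_of_pos (h4.trans_le h3)
  refine ⟨n, f, by omega, hf, h5.trans (add_le_add_right (sub_le_self _ r3) _)⟩

theorem sq (O : S.OK) (P : S.Crv →₀ ℝ) (t : ℝ) : S.I (P + t • S.w) (P + t • S.w) =
    S.I P P + 2 * t * S.I P S.w + t ^ 2 * S.I S.w S.w := by
  simp only [map_add, map_smul, LinearMap.add_apply, LinearMap.smul_apply, smul_eq_mul,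
    O.sym S.w P]
  ring

theorem step (O : S.OK) (hb : S.BIG) {P Q : S.Crv →₀ ℝ} (hP : Nef S.I P) (hQ : 0 ≤ S.I Q S.w)
    {t : ℝ} (ht : 0 < t) (h : 0 < S.I Q Q + 2 * t * S.I Q S.w + t ^ 2 * S.I S.w S.w) :
    0 ≤ S.I P Q + t * S.I P S.w := by
  have := O.nef_eff hP (hb (Q + t • S.w) (sq O Q t ▸ h) (by
    rw [map_add, map_smul, LinearMap.add_apply, LinearMap.smul_apply, smul_eq_mul]
    have := mul_pos ht O.ww
    linarith))
  rwa [map_add, map_smul, smul_eq_mul] at this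

theorem kle (O : S.OK) (hn : S.NW) (hb : S.BIG) : S.KLE := by
  have hw := O.ww
  have key : ∀ P, Nef S.I P → 0 ≤ S.I P P := fun P hP => by
    by_contra hc
    have h0 := (hn P hP).1
    have h1 : S.I P P < 0 := not_le.1 hc
    rcases h0.eq_or_lt with h2 | h2
    · have h3 : 0 < -S.I P P / S.I S.w S.w := div_pos (by linarith) hw
      have h4 : -S.I P P / S.I S.w S.w * S.I S.w S.w = -S.I P P := div_mul_cancel₀ _ hw.ne'
      have := step O hb hP h0 (t := -S.I P P / S.I S.w S.w + 1) (by linarith) (by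
        rw [← h2]
        nlinarith [mul_pos (mul_pos h3 h3) hw])
      rw [← h2] at this
      linarith
    · have h3 : 0 < -S.I P P / S.I P S.w := div_pos (by linarith) h2
      have h4 : -S.I P P / S.I P S.w * S.I P S.w = -S.I P P := div_mul_cancel₀ _ h2.ne'
      have := step O hb hP h0 (t := 2 / 3 * (-S.I P P / S.I P S.w)) (by linarith) (by
        nlinarith [mul_pos (mul_pos h3 h3) hw])
      nlinarith
  intro P Q hP hQ
  by_contra hc
  have h0 := (hn P hP).1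
  have h1 := (hn Q hQ).1
  have h2 := key Q hQ
  have h3 : 0 < -S.I P Q / (S.I P S.w + 1) := div_pos (by linarith) (by linarith)
  have h4 : -S.I P Q / (S.I P S.w + 1) * (S.I P S.w + 1) = -S.I P Q :=
    div_mul_cancel₀ _ (by linarith)
  have := step O hb hP h1 h3 (by nlinarith [mul_pos (mul_pos h3 h3) hw, mul_nonneg h3.le h1])
  nlinarith

end RBIG

theorem rowBIG : RowBIG := fun _ _ _ _ O h2 hn =>
  ⟨RBIG.big O h2, RBIG.kle O hn (RBIG.big O h2)⟩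

end Pool.Agent.MP_ee8c61_ag.M3SN
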