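import Pool.Agent.MP_ee8c61_ag.M3SN.SpecN

/-!
Base point freeness of the positive part of an adjoint divisor.
-/

set_option autoImplicit false

namespace Pool.Agent.MP_ee8c61_ag.M3SN

open Finset

namespace RBPF

variable {K : Type} [Field K] [Algebra ℂ K] {S' S : NS K} (d : Dom S' S)
  {D E : S.Crv →₀ ℝ}

theorem pb_nonneg (h : 0 ≤ D) : 0 ≤ d.pb D := fun C' => by
  have := lin_sum ((Finsupp.lapply C').comp d.pb) (sup_support D)
  simp only [LinearMap.comp_apply, Finsupp.lapply_apply] at this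
  show (0 : ℝ) ≤ d.pb D C'
  rw [this]
  exact sum_nonneg fun i _ => mul_nonneg (h i) (d.pb_pos i C')

theorem pb_isQ (h : IsQ D) : IsQ (d.pb D) := fun C' =>
  h.lin ((Finsupp.lapply C').comp d.pb) fun C => (d.pb_Z C).isQ C'

theorem pb_term (h : 0 ≤ D) (C : S.Crv) (C' : S'.Crv) :
    D C * d.pb (cv C) C' ≤ d.pb D C' := by
  have h1 : 0 ≤ D - D C • cv C := fun j => by
    show (0 : ℝ) ≤ D j - D C * cv C j
    by_cases e : C = j
    · rw [← e, cv_self, mul_one, sub_self]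
    · rw [cv_ne e, mul_zero, sub_zero]
      exact h j
  have h2 : (0 : ℝ) ≤ d.pb (D - D C • cv C) C' := pb_nonneg d h1 C'
  rw [map_sub, map_smul, Finsupp.sub_apply, Finsupp.smul_apply, smul_eq_mul] at h2
  linarith

theorem pb_cv (D : S.Crv →₀ ℝ) (C : S.Crv) :
    S'.I (d.pb D) (d.pb (cv C)) = S.I D (cv C) := by
  have h1 : S'.I (d.pb D) (d.pb (cv C) - cv (d.st C)) = 0 := by
    refine orth_of_sup (fun i hi => d.I_ex D i ?_) (sup_support _)
    rintro ⟨j, rfl⟩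
    apply Finsupp.mem_support_iff.1 hi
    rw [Finsupp.sub_apply, d.pb_st]
    by_cases e : C = j
    · rw [← e, cv_self, cv_self, sub_self]
    · rw [cv_ne e, cv_ne fun a => e (d.inj a), sub_self]
  rw [map_sub, d.I_st] at h1
  linarith

theorem pb_I (D E : S.Crv →₀ ℝ) : S'.I (d.pb D) (d.pb E) = S.I D E := by
  have := lin_sum ((S'.I (d.pb D)).comp d.pb) (sup_support E)
  simp only [LinearMap.comp_apply, pb_cv] at this
  rw [this, lin_sum (S.I D) (sup_support E)]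

theorem pb_nef (h : Nef S.I D) : Nef S'.I (d.pb D) := fun C' => by
  by_cases e : C' ∈ Set.range d.st
  · obtain ⟨C, rfl⟩ := e
    rw [d.I_st]
    exact h C
  · exact (d.I_ex D C' e).ge

theorem pb_triv (h : Triv S.I D) : Triv S'.I (d.pb D) := triv_of_cv fun C' => by
  by_cases e : C' ∈ Set.range d.st
  · obtain ⟨C, rfl⟩ := e
    rw [d.I_st]
    exact h _
  · exact d.I_ex D C' e

theorem bpf_down (h : S'.Bpf (d.pb D)) : S.Bpf D := fun p => by
  obtain ⟨p', rfl⟩ := d.surj p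
  obtain ⟨f, hf, h1, h2⟩ := h p'
  rw [← d.pb_dv f hf, ← map_add] at h1 h2
  have h3 : 0 ≤ S.dv f + D := fun C => by
    have : (0 : ℝ) ≤ d.pb (S.dv f + D) (d.st C) := h1 _
    rwa [d.pb_st] at this
  refine ⟨f, hf, h3, fun C hC => ?_⟩
  obtain ⟨C', a1, a2⟩ := (d.loc p' C).1 hC
  have a3 := pb_term d h3 C C'
  rw [h2 C' a1] at a3
  exact le_antisymm (nonpos_of_mul_nonpos_left a3 a2) (h3 C)

theorem sa_down (h : S'.SA (d.pb D)) : S.SA D := by
  obtain ⟨m, hm, h1, h2⟩ := h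
  rw [← map_smul] at h1 h2
  exact ⟨m, hm, fun C => by rw [← d.pb_st]; exact h1 _, bpf_down d h2⟩

theorem pos_sq (O : S.OK) (hk : S.KLE) (h : S.Pos D) : 0 < S.I D D := by
  have h0 := O.pos_nef h
  obtain ⟨ε, hε, h⟩ := h
  have h1 := hk _ _ h h0
  have h2 := hk _ _ h O.w_nef
  simp only [map_sub, map_smul, LinearMap.sub_apply, LinearMap.smul_apply, smul_eq_mul] at h1 h2
  have h3 := mul_pos hε O.ww
  have h4 : 0 < S.I S.w D := by
    rw [O.sym]
    linarith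
  have h5 := mul_pos hε h4
  linarith

/-- A nef divisor of positive square whose null curves are those of `s`. -/
theorem star (L : LatAll) (O : S.OK) (hk : S.KLE) (h : S.Pos D) (s : Finset S.Crv)
    (hs : NegDef S.I s) : ∃ M, Nef S.I M ∧ 0 < S.I M M ∧ ∀ C, S.I M (cv C) = 0 ↔ C ∈ s := by
  obtain ⟨N, ⟨h1, h2⟩, -⟩ := (L.mum _ S.I s O.lat.toLat0 hs).2.2 D
  have h3 : 0 ≤ -N := by
    refine (L.nega _ S.I s (-N) O.lat.toLat0 hs (fun i hi => ?_) fun i hi => ?_).1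
    · rw [Finsupp.neg_apply, h1 i hi, neg_zero]
    · have a1 := h2 i hi
      have a2 := O.pos_cv h i
      rw [map_sub, LinearMap.sub_apply] at a1
      rw [map_neg, LinearMap.neg_apply]
      linarith
  have h4 : ∀ C, C ∉ s → 0 < S.I (D - N) (cv C) := fun C hC => by
    have a1 := O.lat.toLat0.eff_cv h3 (i := C) (by rw [Finsupp.neg_apply, h1 C hC, neg_zero])
    have a2 := O.pos_cv h C
    rw [map_neg, LinearMap.neg_apply] at a1
    rw [map_sub, LinearMap.sub_apply]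
    linarith
  refine ⟨D - N, fun C => ?_, ?_, fun C => ⟨fun a => ?_, h2 C⟩⟩
  · by_cases e : C ∈ s
    · exact (h2 C e).ge
    · exact (h4 C e).le
  · have a1 : S.I (D - N) N = 0 := orth_of_sup h2 h1
    have a2 := (O.pos_nef h).eff h3
    have a3 := pos_sq O hk h
    rw [map_neg] at a2
    rw [map_sub (S.I (D - N)), a1, O.sym, map_sub]
    linarith
  · by_contra e
    exact (h4 C e).ne' a

/-- The data on a resolution. -/
theorem model (O : S.OK) {A B N : S.Crv →₀ ℝ} {s : Finset S.Crv} (T : Finset S.Crv)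
    (hB : IsQ B) (hN : IsQ N) (hB0 : 0 ≤ B) (hN0 : 0 ≤ N) (hs : Sup s N) (hR : S.Res B) :
    ∃ (S' : NS K) (d : Dom S' S) (J : Finset S'.Crv) (Δ : S'.Crv →₀ ℝ), S'.OK ∧ S'.Van J ∧
      IsQ Δ ∧ Sup J (d.pb (S.Kc + A + B - N)) ∧ Sup J Δ ∧
      d.pb (S.Kc + A + B - N) = S'.Kc + d.pb A + Δ ∧ (∀ C', Δ C' < 1) ∧
      (∀ C, Δ (d.st C) < 0 → C ∈ s) ∧ (∀ C ∈ T, d.st C ∈ J) ∧
      ∀ C', C' ∉ Set.range d.st → C' ∈ J := by
  classical
  obtain ⟨S', d, J, O', hV, h1, h2, h3⟩ :=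
    hR (T ∪ (S.Kc + A + B - N).support ∪ (B - N).support)
  have e : ∀ C, (d.pb (S.Kc + B - N) - S'.Kc) (d.st C) = (B - N) C := fun C => by
    rw [Finsupp.sub_apply, d.pb_st, d.K_st]
    simp only [Finsupp.sub_apply, Finsupp.add_apply]
    ring
  refine ⟨S', d, J, d.pb (S.Kc + B - N) - S'.Kc, O', hV,
    (pb_isQ d ((O.KZ.isQ.add hB).sub hN)).sub O'.KZ.isQ, fun C' hC => ?_, fun C' hC => ?_, ?_,
    fun C' => ?_, fun C hC => ?_, fun C hC => h1 C (by simp [hC]), h2⟩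
  · obtain ⟨C, rfl⟩ : C' ∈ Set.range d.st := by_contra fun a => hC (h2 C' a)
    rw [d.pb_st]
    exact Finsupp.notMem_support_iff.1 fun a => hC (h1 C
      (mem_union_left _ (mem_union_right _ a)))
  · obtain ⟨C, rfl⟩ : C' ∈ Set.range d.st := by_contra fun a => hC (h2 C' a)
    rw [e]
    exact Finsupp.notMem_support_iff.1 fun a => hC (h1 C (mem_union_right _ a))
  · simp only [map_add, map_sub]
    abel
  · have a1 := h3 C'
    have a2 : (0 : ℝ) ≤ d.pb N C' := pb_nonneg d hN0 C'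
    rw [map_sub]
    simp only [Finsupp.sub_apply] at a1 ⊢
    linarith
  · by_contra a
    have a1 : (0 : ℝ) ≤ B C := hB0 C
    rw [e, Finsupp.sub_apply, hs C a] at hC
    linarith

end RBPF

open RBPF in
theorem rowBPF : RowBPF := by
  intro L H K _ _ S O h1 A B N s hA hB hp hB0 hR hs hN hN0 hP
  obtain ⟨t, -, -⟩ := H K S O
  have hX : IsQ (S.Kc + A + B) := (O.KZ.isQ.add hA).add hB
  have hNQ : IsQ N := by
    obtain ⟨-, m2, m3⟩ := L.mum _ S.I s O.lat.toLat0 hs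
    obtain ⟨N', a1, a2⟩ := m3 (S.Kc + A + B)
    rw [m2 N N' hN.1 a1.1 fun i hi => ?_]
    · exact a2 O.lat hX
    · have b1 := hN.2 i hi
      have b2 := a1.2 i hi
      rw [map_sub, LinearMap.sub_apply] at b1 b2
      linarith
  have hPQ := hX.sub hNQ
  rcases (t.kle _ _ hP hP).lt_or_eq with h2 | h2
  · obtain ⟨T, hT, -⟩ := t.null _ hP h2
    obtain ⟨S', d, J, Δ, O', hV, a1, a2, a3, a4, a5, a6, a7, a8⟩ :=
      model O (A := A) T hB hNQ hB0 hN0 hN.1 hR
    refine sa_down d ((H K S' O').2.1 J _ (d.pb A) Δ hV (pb_isQ d hPQ) a1 a2 a3 a4 (pb_nef d hP)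
      (pb_nef d (O.pos_nef hp)) (by rwa [pb_I]) a5 (fun C' hC => ?_) fun C' hC => ?_)
    · by_cases e : C' ∈ Set.range d.st
      · obtain ⟨C, rfl⟩ := e
        rw [d.I_st]
        exact hN.2 C (a6 C hC)
      · exact d.I_ex _ C' e
    · by_cases e : C' ∈ Set.range d.st
      · obtain ⟨C, rfl⟩ := e
        rw [d.I_st] at hC
        exact a7 C ((hT C).2 hC)
      · exact a8 C' e
  rcases (t.nw _ hP).1.lt_or_eq with h3 | h3
  · exact h1 A B N s hp hB0 hPQ hN hs hP h2.symm h3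
  have h4 := (t.nw _ hP).2 h3.symm
  obtain ⟨M, m1, m2, m3⟩ := star L O t.kle hp s hs
  obtain ⟨S', d, J, Δ, O', hV, a1, a2, a3, a4, a5, a6, a7, a8⟩ :=
    model O (A := A) s hB hNQ hB0 hN0 hN.1 hR
  obtain ⟨t', -, c3⟩ := H K S' O'
  obtain ⟨T, hT, hT1, -⟩ := t'.null _ (pb_nef d m1) (by rwa [pb_I])
  obtain ⟨m, f, hm, hf, h5⟩ := c3 J T _ (d.pb A) Δ hV (pb_isQ d hPQ) a1 a2 a3 a4 (pb_triv d h4)
    (pb_nef d (O.pos_nef hp)) (by rw [pb_I]; exact pos_sq O t.kle hp) a5 hT1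
    (fun C' hC => by
      by_cases e : C' ∈ Set.range d.st
      · obtain ⟨C, rfl⟩ := e
        have := (hT _).1 hC
        rw [d.I_st] at this
        exact a7 C ((m3 C).1 this)
      · exact a8 C' e)
    (fun C' hC => (hT _).2 (by
      by_cases e : C' ∈ Set.range d.st
      · obtain ⟨C, rfl⟩ := e
        rw [d.I_st]
        exact (m3 C).2 (a6 C hC)
      · exact d.I_ex _ C' e))
    (fun C' hC => (hT _).2 (by
      by_cases e : C' ∈ Set.range d.st
      · obtain ⟨C, rfl⟩ := e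
        rw [d.I_st] at hC
        exact absurd hC (O.pos_cv hp C).ne'
      · exact d.I_ex _ C' e))
  rw [← d.pb_dv f hf, ← map_smul, ← map_add] at h5
  have h6 : S.dv f + (m : ℝ) • (S.Kc + A + B - N) = 0 := by
    ext C
    rw [← d.pb_st, h5]
    rfl
  refine ⟨m, hm, ?_, fun p => ⟨f, hf, h6.ge, fun C _ => by rw [h6]; rfl⟩⟩
  rw [eq_neg_of_add_eq_zero_right h6]
  exact (O.dvZ f hf).neg

end Pool.Agent.MP_ee8c61_ag.M3SN
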