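import Pool.Agent.MP_ee8c61_ag.M3SN.SpecN

/-! Numerically trivial adjoint divisors are torsion. -/

set_option autoImplicit false

namespace Pool.Agent.MP_ee8c61_ag.M3SN

open Finset

namespace RC3

theorem small {ι : Type} (T : Finset ι) (a b : ι → ℝ) (h : ∀ i, a i < 1) {e : ℝ} (he : 0 < e) :
    ∃ r : ℚ, 0 < (r : ℝ) ∧ (r : ℝ) ≤ e ∧ ∀ i ∈ T, a i + r * b i < 1 := by
  have h1 : ∀ᶠ t in nhds (0 : ℝ), ∀ i ∈ T, a i + t * b i < 1 :=
    (Filter.eventually_all_finset T).2 fun i _ =>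
      (continuous_const.add (continuous_id.mul continuous_const)).continuousAt.eventually_lt
        continuousAt_const (by simpa using h i)
  obtain ⟨δ, hδ, h2⟩ := Metric.eventually_nhds_iff.1 h1
  obtain ⟨r, h3, h4⟩ := exists_rat_btwn (lt_min hδ he)
  refine ⟨r, h3, (h4.trans_le (min_le_right _ _)).le, h2 ?_⟩
  rw [Real.dist_eq, sub_zero, abs_of_pos h3]
  exact h4.trans_le (min_le_left _ _)

end RC3

theorem rowC3 : RowC3 := by
  intro L K _ _ S O Tl J T P A Δ hV hPQ hΔQ hPJ hΔJ hP htr hA hAA hΔ1 hT hTJ hneg hnull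
  obtain ⟨T0, hT0, hnd, hpos⟩ := Tl.null A hA hAA
  have hT0T : T0 ⊆ T := fun C hC => hnull C ((hT0 C).1 hC)
  obtain ⟨Ξ, hΞZ, hΞs, hΞ⟩ := L.anti _ S.I T0 O.lat hnd
  have hΞ0 : ∀ C, 0 ≤ Ξ C := fun C => by
    by_cases hC : C ∈ T0
    · exact (hΞ C hC).1.le
    · exact (hΞs C hC).ge
  obtain ⟨ε0, hε0, hε⟩ := hpos Ξ hΞs fun C hC => (hΞ C hC).2
  obtain ⟨r, hr0, hr1, hr2⟩ := RC3.small T0 Δ Ξ hΔ1 hε0
  have hAp := hε r hr0 hr1
  obtain ⟨D1, hD1⟩ : ∃ D1, D1 = Δ + (r : ℝ) • Ξ := ⟨_, rfl⟩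
  have hD1a : ∀ C, D1 C = Δ C + r * Ξ C := fun C => by rw [hD1]; rfl
  have hD11 : ∀ C, D1 C < 1 := fun C => by
    rw [hD1a]
    by_cases hC : C ∈ T0
    · exact hr2 C hC
    · rw [hΞs C hC, mul_zero, add_zero]
      exact hΔ1 C
  obtain ⟨G, hG⟩ : ∃ G : S.Crv →₀ ℝ, ∀ C, G C = (⌈-D1 C⌉ : ℤ) :=
    ⟨D1.mapRange (fun x => ((⌈-x⌉ : ℤ) : ℝ)) (by simp), fun _ => rfl⟩
  have hGZ : IsZ G := fun C => ⟨_, hG C⟩
  have hG0 : 0 ≤ G := fun C => by
    show (0 : ℝ) ≤ G C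
    have h1 : (-1 : ℤ) < ⌈-D1 C⌉ := Int.lt_ceil.2 (by push_cast; linarith [hD11 C])
    rw [hG]
    exact Int.cast_nonneg (by omega)
  have hGT : Sup T G := fun C hC => by
    have h1 : 0 ≤ Δ C := not_lt.1 fun h => hC (hneg C h)
    have h2 : ⌈-D1 C⌉ ≤ 0 := Int.ceil_le.2 (by
      rw [hD1a, Int.cast_zero]
      linarith [mul_nonneg hr0.le (hΞ0 C)])
    refine le_antisymm ?_ (hG0 C)
    rw [hG]
    exact Int.cast_nonpos.2 h2
  have htt : ∀ t : ℝ, Triv S.I (t • P) := fun t E => by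
    rw [map_smul, LinearMap.smul_apply, htr E, smul_zero]
  have key : ∀ t : ℝ, IsZ (t • P) → S.h0 (t • P + G) = S.chi G := fun t ht => by
    rw [← O.chi_triv (htt t) G]
    refine hV _ (D1 + G) (ht.add hGZ) ((hPJ.smul t).add (hGT.mono hTJ)) ?_ ?_ (fun C => ?_)
      (fun C => ?_) ?_
    · rw [hD1]
      exact (hΔQ.add (hΞZ.isQ.smul r)).add hGZ.isQ
    · rw [hD1]
      exact (hΔJ.add ((hΞs.mono (hT0T.trans hTJ)).smul _)).add (hGT.mono hTJ)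
    · show (0 : ℝ) ≤ D1 C + G C
      rw [hG]
      linarith [Int.le_ceil (-D1 C)]
    · show D1 C + G C < 1
      rw [hG]
      linarith [Int.ceil_lt_add_one (-D1 C)]
    · have e : t • P + G - S.Kc - (D1 + G) = A - (r : ℝ) • Ξ + (t - 1) • P := by
        rw [hD1, sub_smul, one_smul]
        conv_rhs => rw [show t • P - P = t • P - (S.Kc + A + Δ) by rw [← hP]]
        abel
      rw [e]
      exact hAp.add_nef fun C => (htt _ _).ge
  obtain ⟨m, hm, hmZ⟩ := hPQ.clear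
  have h1 := key 0 (by rw [zero_smul]; exact isZ_zero)
  rw [zero_smul, zero_add] at h1
  have h2 := O.one_le_h0 (D := G) one_ne_zero (by rwa [NS.dv_one, zero_add])
  obtain ⟨f, hf, h3⟩ := NS.sec_of_pos (S := S) (D := (m : ℝ) • P + G)
    (by rw [key _ hmZ, ← h1]; linarith)
  have h4 : Triv S.I (S.dv f + (m : ℝ) • P) := fun E => by
    rw [map_add, LinearMap.add_apply, O.dv_l hf, htt, add_zero]
  refine ⟨m, f, hm, hf, O.eq_zero_of_w (L.nega _ S.I T _ O.lat.toLat0 hT (fun C hC => ?_)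
    fun C _ => (h4 _).le).1 (by rw [O.sym, h4])⟩
  have h5 := h3 C
  rw [← add_assoc, Finsupp.add_apply, hGT C hC, add_zero] at h5
  exact h5

end Pool.Agent.MP_ee8c61_ag.M3SN
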