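import Pool.Agent.MP_ee8c61_ag.M3SN.SpecN

/-! Zariski chambers of adjoint divisors on a numerical surface. -/

set_option autoImplicit false

namespace Pool.Agent.MP_ee8c61_ag.M3SN

open Finset

namespace RCHM

theorem form_iff {ι : Type} {l : ℕ} (φ : Fin l → ℚ) (n : Fin l → ℕ) (D : Fin l → ι →₀ ℝ)
    (ψ : (ι →₀ ℝ) →ₗ[ℝ] ℝ) (h : ∀ i, ψ (D i) = φ i) :
    0 ≤ ∑ i, φ i * n i ↔ 0 ≤ ψ (∑ i, (n i : ℝ) • D i) := by
  have e : ψ (∑ i, (n i : ℝ) • D i) = ((∑ i, φ i * n i : ℚ) : ℝ) := by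
    rw [map_sum]
    push_cast
    exact sum_congr rfl fun i _ => by rw [map_smul, smul_eq_mul, h, mul_comm]
  rw [e]
  exact Rat.cast_nonneg.symm

/-- The weighted mean. -/
noncomputable def avg {ι : Type} {l : ℕ} (n : Fin l → ℕ) (D : Fin l → ι →₀ ℝ) : ι →₀ ℝ :=
  ((∑ i, n i : ℕ) : ℝ)⁻¹ • ∑ i, (n i : ℝ) • D i

section
variable {ι : Type} {l : ℕ} {n : Fin l → ℕ} {D : Fin l → ι →₀ ℝ}

theorem smul_avg (h : 0 < ∑ i, n i) (D : Fin l → ι →₀ ℝ) :
    ((∑ i, n i : ℕ) : ℝ) • avg n D = ∑ i, (n i : ℝ) • D i := by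
  rw [avg, smul_smul, mul_inv_cancel₀ (Nat.cast_pos.2 h).ne', one_smul]

theorem sum_add (h : 0 < ∑ i, n i) (X : ι →₀ ℝ) (D : Fin l → ι →₀ ℝ) :
    ∑ i, (n i : ℝ) • (X + D i) = ((∑ i, n i : ℕ) : ℝ) • (X + avg n D) := by
  rw [smul_add, smul_avg h, Nat.cast_sum, sum_smul, ← sum_add_distrib]
  exact sum_congr rfl fun i _ => smul_add _ _ _

theorem sum_apply' (n : Fin l → ℕ) (D : Fin l → ι →₀ ℝ) (C : ι) :
    (∑ i, (n i : ℝ) • D i) C = ∑ i, (n i : ℝ) * D i C := by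
  rw [Finsupp.finsetSum_apply]
  rfl

theorem avg_apply (n : Fin l → ℕ) (D : Fin l → ι →₀ ℝ) (C : ι) :
    avg n D C = ((∑ i, n i : ℕ) : ℝ)⁻¹ * ∑ i, (n i : ℝ) * D i C := by
  rw [avg, Finsupp.smul_apply, sum_apply', smul_eq_mul]

theorem avg_Q (h : ∀ i, IsQ (D i)) : IsQ (avg n D) := fun C => by
  choose r hr using h
  refine ⟨((∑ i, n i : ℕ) : ℚ)⁻¹ * ∑ i, (n i : ℚ) * r i C, ?_⟩
  rw [avg_apply]
  simp only [hr]
  push_cast
  rfl

theorem avg_nonneg (h : ∀ i, 0 ≤ D i) : 0 ≤ avg n D := fun C => by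
  show (0 : ℝ) ≤ avg n D C
  rw [avg_apply]
  exact mul_nonneg (by positivity) (sum_nonneg fun i _ => mul_nonneg (by positivity) (h i C))

theorem avg_sup {s : Finset ι} (h : ∀ i, Sup s (D i)) : Sup s (avg n D) := fun C hC => by
  have e : ∑ i, (n i : ℝ) * D i C = 0 := sum_eq_zero fun i _ => by rw [h i C hC, mul_zero]
  rw [avg_apply, e, mul_zero]

theorem avg_lt (hn : 0 < ∑ i, n i) (h : ∀ i C, D i C < 1) (C : ι) : avg n D C < 1 := by
  rw [avg_apply, inv_mul_lt_one₀ (Nat.cast_pos.2 hn), Nat.cast_sum]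
  obtain ⟨i, -, hi⟩ := (sum_pos_iff_of_nonneg fun i _ => Nat.zero_le (n i)).1 hn
  refine sum_lt_sum (fun j _ => mul_le_of_le_one_right (by positivity) (h j C).le)
    ⟨i, mem_univ i, mul_lt_of_lt_one_right (Nat.cast_pos.2 hi) (h i C)⟩

theorem prj_avg {I : Fm ι} {s : Finset ι} (hn : 0 < ∑ i, n i) {X : ι →₀ ℝ}
    {N : Fin l → ι →₀ ℝ} (h : ∀ i, Prj I s (X + D i) (N i)) :
    Prj I s (X + avg n D) (avg n N) := by
  refine ⟨avg_sup fun i => (h i).1, fun C hC => ?_⟩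
  have e : ((∑ i, n i : ℕ) : ℝ) • (X + avg n D - avg n N) =
      ∑ i, (n i : ℝ) • (X + D i - N i) := by
    rw [smul_sub, ← sum_add hn, smul_avg hn, ← sum_sub_distrib]
    exact sum_congr rfl fun i _ => (smul_sub _ _ _).symm
  have e2 := congrArg (fun Y => I Y (cv C)) e
  simp only [map_smul, map_sum, LinearMap.smul_apply, LinearMap.sum_apply, smul_eq_mul] at e2
  have e3 : ∑ i, (n i : ℝ) * I (X + D i - N i) (cv C) = 0 :=
    sum_eq_zero fun i _ => by rw [(h i).2 C hC, mul_zero]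
  rw [e3] at e2
  exact (mul_eq_zero.1 e2).resolve_left (Nat.cast_pos.2 hn).ne'

end

variable {K : Type} [Field K] [Algebra ℂ K] {S : NS K}

theorem sa_nsmul {D : S.Crv →₀ ℝ} (h : S.SA D) (k : ℕ) : S.SA ((k : ℝ) • D) := by
  obtain ⟨m, hm, h1, h2⟩ := h
  refine ⟨m, hm, ?_, ?_⟩ <;> rw [smul_comm]
  exacts [h1.nsmul k, h2.nsmul k]

theorem sa_zero : S.SA 0 :=
  ⟨1, one_pos, by rw [smul_zero]; exact isZ_zero,
    by rw [smul_zero]; exact fun p => NS.gen_of_eff le_rfl fun _ _ => rfl⟩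

theorem pass_of {D : S.Crv →₀ ℝ} {a : ℝ} (ha : 0 < a) (h : S.Pass (a • D)) : S.Pass D :=
  fun Q hQ => by
    have := h Q hQ
    rw [map_smul, LinearMap.smul_apply, smul_eq_mul] at this
    exact nonneg_of_mul_nonneg_right this ha |>.trans_eq rfl

theorem fin_neg (hneg : S.NEG) {A : S.Crv →₀ ℝ} (h : S.Pos A) :
    {C | S.I (cv C) (cv C) < 0 ∧ S.I A (cv C) < 2}.Finite := by
  obtain ⟨ε, hε, h⟩ := h
  refine (hneg (2 / ε)).subset fun C hC => ⟨hC.1, ?_⟩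
  have := h C
  rw [map_sub, map_smul, LinearMap.sub_apply, LinearMap.smul_apply, smul_eq_mul] at this
  rw [le_div_iff₀ hε]
  linarith [hC.2]

end RCHM

open RCHM in
theorem rowCHM : RowCHM := by
  classical
  intro L K _ _ S O _ hneg hzar hbpf hpass l W A H B hA
  have Hn := O.bpf_nef hA.Hb
  obtain ⟨j, hj, Λ0, hΛ⟩ := hpass l A H B hA.AQ hA.Apos hA.HZ Hn
    fun i => ⟨hA.BQ i, hA.B0 i, fun C => (hA.B1 i C).le⟩
  set A1 := A + (j : ℝ) • H with hA1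
  have pos1 : S.Pos A1 := hA.Apos.add_nef (Hn.smul (Nat.cast_nonneg j))
  have Q1 : IsQ A1 := hA.AQ.add (hA.HZ.nsmul j).isQ
  have XQ : ∀ i, IsQ (S.Kc + A1 + B i) := fun i => (O.KZ.isQ.add Q1).add (hA.BQ i)
  obtain ⟨NN, hNN⟩ : ∃ NN : Finset S.Crv,
      ∀ C, C ∈ NN ↔ S.I (cv C) (cv C) < 0 ∧ S.I A1 (cv C) < 2 :=
    ⟨(fin_neg hneg pos1).toFinset, fun C => Set.Finite.mem_toFinset _⟩
  have H0 : ∀ C ∈ NN, S.I H (cv C) = 0 := fun C hC => by
    have h2 := ((hNN C).1 hC).2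
    obtain ⟨z, hz⟩ := O.lat.intZ hA.HZ (isZ_cv C)
    have h3 := O.pos_cv hA.Apos C
    have h4 := Hn C
    rw [hA1, map_add, map_smul, LinearMap.add_apply, LinearMap.smul_apply, smul_eq_mul, hz] at h2
    rw [hz] at h4 ⊢
    have h5 : (2 : ℝ) ≤ j := by exact_mod_cast hj
    have h6 : (z : ℝ) < 1 := by nlinarith
    have h7 : 0 ≤ z := by exact_mod_cast h4
    have h8 : z < 1 := by exact_mod_cast h6
    have h9 : z = 0 := by omega
    rw [h9, Int.cast_zero]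
  have exN : ∀ (s : Finset S.Crv) (i : Fin l), ∃ N, IsQ N ∧
      (NegDef S.I s → Prj S.I s (S.Kc + A1 + B i) N) := fun s i => by
    by_cases hs : NegDef S.I s
    · obtain ⟨N, h1, h2⟩ := (L.mum _ S.I s O.lat.toLat0 hs).2.2 (S.Kc + A1 + B i)
      exact ⟨N, h2 O.lat (XQ i), fun _ => h1⟩
    · exact ⟨0, isZ_zero.isQ, fun h => absurd h hs⟩
  choose N NQ NP using exN
  choose r1 hr1 using NQ
  have ex2 : ∀ (s : Finset S.Crv) (i : Fin l) (C : S.Crv), ∃ r : ℚ,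
      S.I (S.Kc + A1 + B i - N s i) (cv C) = r := fun s i C =>
    O.lat.ratQ ((XQ i).sub fun C' => ⟨_, hr1 s i C'⟩) (isZ_cv C).isQ
  choose r2 hr2 using ex2
  have f1 : ∀ (s : Finset S.Crv) (C : S.Crv) (n : Fin l → ℕ),
      0 ≤ ∑ i, r1 s i C * n i ↔ 0 ≤ (∑ i, (n i : ℝ) • N s i) C := fun s C n =>
    form_iff (fun i => r1 s i C) n (N s) (Finsupp.lapply C) fun i => hr1 s i C
  have eD : ∀ (s : Finset S.Crv) (n : Fin l → ℕ), ∑ i, (n i : ℝ) • (S.Kc + A1 + B i - N s i) =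
      S.DD A1 B n - ∑ i, (n i : ℝ) • N s i := fun s n => by
    rw [NS.DD, ← sum_sub_distrib]
    exact sum_congr rfl fun i _ => smul_sub _ _ _
  have f2 : ∀ (s : Finset S.Crv) (C : S.Crv) (n : Fin l → ℕ), 0 ≤ ∑ i, r2 s i C * n i ↔
      0 ≤ S.I (S.DD A1 B n - ∑ i, (n i : ℝ) • N s i) (cv C) := fun s C n => by
    rw [← eD]
    exact form_iff (fun i => r2 s i C) n _ (S.I.flip (cv C)) fun i => hr2 s i C
  have eA : ∀ n : Fin l → ℕ, 0 < ∑ i, n i →
      S.DD A1 B n = ((∑ i, n i : ℕ) : ℝ) • (S.Kc + A1 + avg n B) := fun n hn => sum_add hn _ _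
  have eB : ∀ (s : Finset S.Crv) (n : Fin l → ℕ), 0 < ∑ i, n i →
      S.DD A1 B n - ∑ i, (n i : ℝ) • N s i =
        ((∑ i, n i : ℕ) : ℝ) • (S.Kc + A1 + avg n B - avg n (N s)) := fun s n hn => by
    rw [smul_sub, ← eA n hn, smul_avg hn]
  have zero : ∀ n : Fin l → ℕ, ¬ 0 < ∑ i, n i → ∀ i, n i = 0 := fun n hn i =>
    sum_eq_zero_iff.1 (Nat.eq_zero_of_not_pos hn) i (mem_univ i)
  refine ⟨j, NN.powerset.filter (NegDef S.I), N, fun s =>
    Λ0 ∪ s.image (fun C i => r1 s i C) ∪ NN.image (fun C i => r2 s i C), fun s hs => ?_,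
    fun n t hp => ?_⟩
  · obtain ⟨hs1, hs2⟩ := mem_filter.1 hs
    refine ⟨hs2, fun C hC => H0 C (mem_powerset.1 hs1 hC), fun i => NP s i hs2, fun n hn => ?_⟩
    have n0 : 0 ≤ ∑ i, (n i : ℝ) • N s i := fun C => by
      by_cases hC : C ∈ s
      · exact (f1 s C n).1 (hn _ (mem_union_left _ (mem_union_right _ (mem_image_of_mem _ hC))))
      · show (0 : ℝ) ≤ (∑ i, (n i : ℝ) • N s i) C
        rw [sum_apply', sum_eq_zero fun i _ => by rw [(NP s i hs2).1 C hC, mul_zero]]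
    refine ⟨n0, ?_⟩
    by_cases h0 : 0 < ∑ i, n i
    · have ha : (0 : ℝ) < (∑ i, n i : ℕ) := Nat.cast_pos.2 h0
      have ps := (hΛ n).1 fun φ hφ => hn φ (mem_union_left _ (mem_union_left _ hφ))
      rw [eA n h0] at ps
      have pj := prj_avg h0 fun i => NP s i hs2
      have nef := (hzar A1 (avg n B) pos1 (avg_nonneg hA.B0)
        (fun C => (avg_lt h0 hA.B1 C).le) (pass_of ha ps)).2 s _ hs2 pj fun C h1 h2 => by
          have := (f2 s C n).1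
            (hn _ (mem_union_right _ (mem_image_of_mem _ ((hNN C).2 ⟨h1, h2⟩))))
          rw [eB s n h0, map_smul, LinearMap.smul_apply, smul_eq_mul] at this
          exact nonneg_of_mul_nonneg_right this ha |>.trans_eq rfl
      rw [eB s n h0]
      refine sa_nsmul (hbpf A1 (avg n B) _ s Q1 (avg_Q hA.BQ) pos1 (avg_nonneg hA.B0)
        (hA.res _ (avg_Q hA.BQ) (avg_nonneg hA.B0) (avg_sup hA.BW) (avg_lt h0 hA.B1)) hs2 pj
        (smul_nonneg (inv_nonneg.2 ha.le) n0) nef) _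
    · simp only [NS.DD, zero n h0, Nat.cast_zero, zero_smul, sum_const_zero, sub_zero]
      exact sa_zero
  · by_cases h0 : 0 < ∑ i, n i
    · have ha : (0 : ℝ) < (∑ i, n i : ℕ) := Nat.cast_pos.2 h0
      have l0 := (hΛ n).2 t hp
      have ps := (hΛ n).1 l0
      rw [eA n h0] at ps
      obtain ⟨s, N', hs, pj, nef, hN⟩ := (hzar A1 (avg n B) pos1 (avg_nonneg hA.B0)
        (fun C => (avg_lt h0 hA.B1 C).le) (pass_of ha ps)).1
      have pj' := prj_avg h0 fun i => NP s i hs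
      have e : N' = avg n (N s) := (L.mum _ S.I s O.lat.toLat0 hs).2.1 _ _ pj.1 pj'.1
        fun C hC => by
          have a1 := pj.2 C hC
          have a2 := pj'.2 C hC
          rw [map_sub, LinearMap.sub_apply] at a1 a2
          linarith
      refine ⟨s, mem_filter.2 ⟨mem_powerset.2 fun C hC => (hNN C).2 (hN C hC).2, hs⟩,
        fun φ hφ => ?_⟩
      rcases mem_union.1 hφ with hφ | hφ
      · rcases mem_union.1 hφ with hφ | hφ
        · exact l0 φ hφ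
        · obtain ⟨C, hC, rfl⟩ := mem_image.1 hφ
          refine (f1 s C n).2 ?_
          rw [← smul_avg h0, ← e, Finsupp.smul_apply, smul_eq_mul]
          exact mul_nonneg ha.le (hN C hC).1.le
      · obtain ⟨C, -, rfl⟩ := mem_image.1 hφ
        refine (f2 s C n).2 ?_
        rw [eB s n h0, ← e, map_smul, LinearMap.smul_apply, smul_eq_mul]
        exact mul_nonneg ha.le (nef C)
    · refine ⟨∅, mem_filter.2 ⟨empty_mem_powerset _, fun D hD h => absurd ?_ h⟩, fun φ _ => ?_⟩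
      · ext C
        exact hD C (notMem_empty C)
      · simp [zero n h0]

end Pool.Agent.MP_ee8c61_ag.M3SN
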