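import Pool.Agent.MP_ee8c61_ag.M3SN.SpecN

/-! Row EF: an irreducible member of a multiple of `w`, and the inequality of Riemann-Roch. -/

set_option autoImplicit false

namespace Pool.Agent.MP_ee8c61_ag.M3SN

open Finset

namespace REF

theorem quad (a β γ : ℝ) (ha : 0 < a) : ∃ n : ℕ, γ < a * n ^ 2 + β * n := by
  obtain ⟨n, hn⟩ := exists_nat_ge ((|β| + |γ| + 1) / a)
  refine ⟨n + 1, ?_⟩
  rw [div_le_iff₀ ha] at hn
  have h1 := neg_abs_le β
  have h2 := le_abs_self γ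
  have h3 := abs_nonneg γ
  have h4 : (0 : ℝ) ≤ n := Nat.cast_nonneg n
  have h5 : |γ| + 1 ≤ a * (n + 1) + β := by nlinarith
  have h6 : (|γ| + 1) * 1 ≤ (a * (n + 1) + β) * (n + 1) :=
    mul_le_mul h5 (by linarith) zero_le_one (by linarith)
  push_cast
  nlinarith

theorem ex_mul {ι : Type} (T : Finset ι) (b z : ι → ℝ) (hz : ∀ C ∈ T, 0 < z C) :
    ∃ j : ℕ, ∀ C ∈ T, b C ≤ j * z C := by
  obtain ⟨j, hj⟩ := exists_nat_ge (∑ C ∈ T, |b C| / z C)
  refine ⟨j, fun C hC => ?_⟩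
  have h1 : |b C| / z C ≤ ∑ C ∈ T, |b C| / z C :=
    single_le_sum (f := fun C => |b C| / z C)
      (fun C hC => div_nonneg (abs_nonneg _) (hz C hC).le) hC
  have h2 := (div_le_iff₀ (hz C hC)).1 (h1.trans hj)
  exact (le_abs_self _).trans h2

variable {K : Type} [Field K] [Algebra ℂ K] {S : NS K}

theorem sub_iter (O : S.OK) (F : S.Crv) (hF : 0 ≤ S.I (cv F) (cv F)) (L : S.Crv →₀ ℝ)
    (hL : IsZ L) (B : ℝ) (h0 : 0 ≤ B) (hB : S.I L (cv F) + 1 ≤ B) (i : ℕ) :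
    S.h0 L ≤ S.h0 (L - (i : ℝ) • cv F) + i * B := by
  induction i with
  | zero => rw [Nat.cast_zero, zero_smul, sub_zero, zero_mul, add_zero]
  | succ i ih =>
    have h1 := O.e0 (L - (i : ℝ) • cv F) F (hL.sub ((isZ_cv F).nsmul i))
    have h2 : S.I (L - (i : ℝ) • cv F) (cv F) + 1 ≤ B := by
      rw [map_sub, map_smul, LinearMap.sub_apply, LinearMap.smul_apply, smul_eq_mul]
      have := mul_nonneg (Nat.cast_nonneg (α := ℝ) i) hF
      linarith
    have h3 := max_le h0 h2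
    rw [Nat.cast_succ, add_smul, one_smul, ← sub_sub]
    linarith

/-- The degrees on the curves of `T` are large. -/
def Good (S : NS K) (T : Finset S.Crv) (b : S.Crv → ℝ) (L : S.Crv →₀ ℝ) : Prop :=
  IsZ L ∧ ∀ C ∈ T, b C ≤ S.I L (cv C)

theorem Good.add {T : Finset S.Crv} {b : S.Crv → ℝ} {L M : S.Crv →₀ ℝ} (h : Good S T b L)
    (hM : IsZ M) (hn : Nef S.I M) : Good S T b (L + M) :=
  ⟨h.1.add hM, fun C hC => by
    rw [map_add, LinearMap.add_apply]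
    exact (h.2 C hC).trans (le_add_of_nonneg_right (hn C))⟩

theorem step (O : S.OK) {T : Finset S.Crv} {b : S.Crv → ℝ}
    (hb : ∀ C L, IsZ L → b C ≤ S.I L (cv C) →
      S.h0 L ≤ S.h0 (L - cv C) + S.I L (cv C) + S.gam C)
    (hT : ∀ C ∈ T, 0 < S.I (cv C) (cv C)) {L : S.Crv →₀ ℝ} (hL : Good S T b L)
    (s : Finset S.Crv) (hs : s ⊆ T) : Good S T b (L + ∑ C ∈ s, cv C) ∧
      S.h0 (L + ∑ C ∈ s, cv C) - S.chi (L + ∑ C ∈ s, cv C) ≤ S.h0 L - S.chi L := by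
  classical
  induction s using Finset.induction_on with
  | empty => rw [sum_empty, add_zero]; exact ⟨hL, le_rfl⟩
  | insert C s hC ih =>
    obtain ⟨h1, h2⟩ := ih ((subset_insert _ _).trans hs)
    have hCT := hs (mem_insert_self C s)
    have h3 := h1.add (isZ_cv C) (O.lat.nef_cv (hT C hCT).le)
    rw [sum_insert hC, add_comm (cv C), ← add_assoc]
    refine ⟨h3, ?_⟩
    have h4 := hb C _ h3.1 (h3.2 C hCT)
    have h5 := O.chi_sub (L + ∑ C ∈ s, cv C + cv C) C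
    rw [add_sub_cancel_right] at h4 h5
    linarith

theorem step1 (O : S.OK) {T : Finset S.Crv} {b : S.Crv → ℝ}
    (hb : ∀ C L, IsZ L → b C ≤ S.I L (cv C) →
      S.h0 L ≤ S.h0 (L - cv C) + S.I L (cv C) + S.gam C)
    (hT : ∀ C ∈ T, 0 < S.I (cv C) (cv C)) {k : ℕ} {f : K} (hk : 0 < k) (hf : f ≠ 0)
    (hZ : S.dv f + (k : ℝ) • S.w = ∑ C ∈ T, cv C) {L : S.Crv →₀ ℝ} (hL : Good S T b L) :
    S.chi L ≤ S.h0 L := by
  have h1 : ∀ n : ℕ, Good S T b (L + (n : ℝ) • ∑ C ∈ T, cv C) ∧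
      S.h0 (L + (n : ℝ) • ∑ C ∈ T, cv C) - S.chi (L + (n : ℝ) • ∑ C ∈ T, cv C) ≤
        S.h0 L - S.chi L := by
    intro n
    induction n with
    | zero => rw [Nat.cast_zero, zero_smul, add_zero]; exact ⟨hL, le_rfl⟩
    | succ n ih =>
      have h2 := step O hb hT ih.1 T Subset.rfl
      rw [Nat.cast_succ, add_smul, one_smul, ← add_assoc]
      exact ⟨h2.1, h2.2.trans ih.2⟩
  obtain ⟨n, hn⟩ := O.rr L hL.1
  have h2 := (h1 n).2
  have h3 : L + (n : ℝ) • ∑ C ∈ T, cv C = S.dv (f ^ n) + (L + ((n * k : ℕ) : ℝ) • S.w) := by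
    rw [← hZ, NS.dv_pow hf, Nat.cast_mul, mul_smul, smul_add]
    abel
  rw [h3, NS.h0_lin (pow_ne_zero n hf), O.chi_triv (O.num _ (pow_ne_zero n hf)),
    hn (n * k) (Nat.le_mul_of_pos_right n hk)] at h2
  linarith

theorem step2 (O : S.OK) {T : Finset S.Crv} {b : S.Crv → ℝ} {Z : S.Crv →₀ ℝ} (hZ : IsZ Z)
    (hT : ∀ C ∈ T, 0 < S.I (cv C) (cv C)) (hZT : ∀ C ∈ T, S.I Z (cv C) = S.I (cv C) (cv C))
    (h1 : ∀ L, Good S T b L → S.chi L ≤ S.h0 L) {F G : S.Crv} (hF : F ∈ T) (hG : G ∈ T)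
    (hFG : S.I (cv F) (cv G) = 0) : False := by
  obtain ⟨j, hj⟩ := ex_mul T b (fun C => S.I (cv C) (cv C)) hT
  have g0 : Good S T b ((j : ℝ) • Z) := ⟨hZ.nsmul j, fun C hC => by
    rw [map_smul, LinearMap.smul_apply, smul_eq_mul, hZT C hC]
    exact hj C hC⟩
  have hj0 : (0 : ℝ) ≤ j := Nat.cast_nonneg j
  have aG := hT G hG
  set B : ℝ := j * S.I (cv G) (cv G) + 1 with hB
  have hB0 : 0 ≤ B := by positivity
  obtain ⟨n, hn⟩ := quad (S.I (cv F) (cv F) / 2)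
    (j * S.I (cv F) (cv F) - S.I S.Kc (cv F) / 2)
    (((j + 1 : ℕ) : ℝ) * B - S.chi ((j : ℝ) • Z)) (half_pos (hT F hF))
  have g1 : Good S T b ((j : ℝ) • Z + (n : ℝ) • cv F) := g0.add ((isZ_cv F).nsmul n)
    ((O.lat.nef_cv (hT F hF).le).smul (Nat.cast_nonneg n))
  have a1 := h1 _ g1
  have d1 : S.I ((j : ℝ) • Z + (n : ℝ) • cv F) (cv G) = j * S.I (cv G) (cv G) := by
    simp only [map_add, map_smul, LinearMap.add_apply, LinearMap.smul_apply, smul_eq_mul,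
      hZT G hG, hFG, mul_zero, add_zero]
  have a2 := sub_iter O G aG.le _ g1.1 B hB0 (by rw [d1]) (j + 1)
  have a3 : S.h0 ((j : ℝ) • Z + (n : ℝ) • cv F - ((j + 1 : ℕ) : ℝ) • cv G) ≤ 0 := by
    by_contra hc
    obtain ⟨g, hg, hg'⟩ := NS.sec_of_pos (not_le.1 hc)
    have a4 := O.nef_sec (O.lat.nef_cv aG.le) hg hg'
    rw [map_sub, O.sym (cv G) (_ + _), d1, map_smul, smul_eq_mul] at a4
    push_cast at a4
    linarith
  have a5 : S.chi ((j : ℝ) • Z + (n : ℝ) • cv F) = S.chi ((j : ℝ) • Z) +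
      (S.I (cv F) (cv F) / 2 * n ^ 2 + (j * S.I (cv F) (cv F) - S.I S.Kc (cv F) / 2) * n) := by
    simp only [NS.chi, map_add, map_smul, LinearMap.add_apply, LinearMap.smul_apply, smul_eq_mul,
      O.sym (cv F) Z, hZT F hF]
    ring
  linarith

end REF

open REF in
theorem rowEF : RowEF := by
  intro K _ _ S O
  obtain ⟨k, f, hk, hf, h01, hdis⟩ := O.bert
  choose b hb using O.e1
  set Z := S.dv f + (k : ℝ) • S.w with hZ
  have hk' : (0 : ℝ) < k := Nat.cast_pos.2 hk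
  have hZ1 : ∀ C ∈ Z.support, Z C = 1 := fun C hC =>
    (h01 C).resolve_left (Finsupp.mem_support_iff.1 hC)
  have hsum : Z = ∑ C ∈ Z.support, cv C :=
    (eq_sum_cv Z).trans (sum_congr rfl fun C hC => by rw [hZ1 C hC, one_smul])
  have hI : ∀ E, S.I Z E = k * S.I S.w E := fun E => by
    rw [hZ, map_add, map_smul, LinearMap.add_apply, LinearMap.smul_apply, O.dv_l hf, zero_add,
      smul_eq_mul]
  have hZT : ∀ C ∈ Z.support, S.I Z (cv C) = S.I (cv C) (cv C) := fun C hC => by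
    rw [O.sym, lin_sum (S.I (cv C)) (sup_support Z), sum_eq_single_of_mem C hC, hZ1 C hC, one_mul]
    intro C' hC' hne
    rw [hdis C C' hne.symm (hZ1 C hC) (hZ1 C' hC'), mul_zero]
  have hT : ∀ C ∈ Z.support, 0 < S.I (cv C) (cv C) := fun C hC => by
    rw [← hZT C hC, hI]
    exact mul_pos hk' (O.wpos C)
  have h1 : ∀ L, Good S Z.support b L → S.chi L ≤ S.h0 L := fun L hL =>
    step1 O (fun C L h h' => (hb C L h h').1) hT hk hf hsum hL
  have hne : Z.support.Nonempty := by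
    rw [Finsupp.support_nonempty_iff]
    intro e
    have := hI S.w
    rw [e, map_zero, LinearMap.zero_apply] at this
    exact (mul_pos hk' O.ww).ne this
  obtain ⟨F, hF⟩ := hne
  have hs : Z.support = {F} := by
    refine eq_singleton_iff_unique_mem.2 ⟨hF, fun G hG => by_contra fun hGF => ?_⟩
    exact step2 O ((O.dvZ f hf).add (O.wZ.nsmul k)) hT hZT h1 hG hF
      (hdis G F hGF (hZ1 G hG) (hZ1 F hF))
  have hZF : Z = cv F := by rw [hsum, hs, sum_singleton]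
  refine ⟨⟨k, F, f, hk, hf, hZF⟩, b F / k, fun L hL hβ => h1 L ⟨hL, fun C hC => ?_⟩⟩
  rw [hs, mem_singleton] at hC
  rw [hC, ← hZF, O.sym, hI, O.sym, mul_comm]
  exact (div_le_iff₀ hk').1 hβ

end Pool.Agent.MP_ee8c61_ag.M3SN
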