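import Pool.Agent.MP_ee8c61_ag.M3SN.SpecN

/-! Row GOR: Gordan's lemma. -/

set_option autoImplicit false

namespace Pool.Agent.MP_ee8c61_ag.M3SN

open Finset

namespace RGOR

variable {l : ℕ} (Λ : Finset (Fin l → ℚ))

/-- The scaled forms. -/
def frm (D : ℚ) : ((Fin l ⊕ Λ) → ℕ) →+ (Λ → ℚ) where
  toFun x φ := D * ∑ i, φ.1 i * x (Sum.inl i)
  map_zero' := by ext; simp
  map_add' x y := by ext; simp [mul_add, sum_add_distrib]

/-- The slack variables. -/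
def slack : ((Fin l ⊕ Λ) → ℕ) →+ (Λ → ℚ) where
  toFun x φ := x (Sum.inr φ)
  map_zero' := by ext; simp
  map_add' x y := by ext; simp

theorem den : ∃ D : ℚ, 0 < D ∧ ∀ (φ : Λ) (i : Fin l), ∃ z : ℤ, D * φ.1 i = z := by
  obtain ⟨d, hd⟩ := IsLocalization.exist_integer_multiples_of_finite (nonZeroDivisors ℤ)
    (fun p : Λ × Fin l => p.1.1 p.2)
  have h0 : ((d : ℤ) : ℚ) ≠ 0 := by exact_mod_cast nonZeroDivisors.coe_ne_zero d
  refine ⟨(d : ℤ) * (d : ℤ), mul_self_pos.2 h0, fun φ i => ?_⟩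
  obtain ⟨z, hz⟩ := hd (φ, i)
  refine ⟨d * z, ?_⟩
  have : (z : ℚ) = (d : ℤ) * φ.1 i := by simpa using hz
  rw [Int.cast_mul, this, mul_assoc]

end RGOR

open RGOR in
theorem rowGOR : RowGOR := by
  intro l Λ
  obtain ⟨D, hD, hz⟩ := den Λ
  choose z hz using hz
  obtain ⟨T, hT⟩ := AddSubmonoid.fg_eqLocusM (frm Λ D) (slack Λ)
  refine ⟨T.card, fun j i => (T.equivFin.symm j).1 (Sum.inl i), fun j φ hφ => ?_, fun n hn => ?_⟩
  · have h1 : (T.equivFin.symm j).1 ∈ (frm Λ D).eqLocusM (slack Λ) :=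
      hT ▸ AddSubmonoid.subset_closure (T.equivFin.symm j).2
    have h2 : D * ∑ i, φ i * (T.equivFin.symm j).1 (Sum.inl i) =
        (T.equivFin.symm j).1 (Sum.inr ⟨φ, hφ⟩) := congrFun h1 ⟨φ, hφ⟩
    exact nonneg_of_mul_nonneg_right (h2 ▸ Nat.cast_nonneg _) hD
  · have h3 : ∀ φ : Λ, ∃ m : ℕ, D * ∑ i, φ.1 i * n i = m := fun φ => by
      have e : D * ∑ i, φ.1 i * n i = ((∑ i, z φ i * n i : ℤ) : ℚ) := by
        rw [mul_sum]; push_cast
        exact sum_congr rfl fun i _ => by rw [← mul_assoc, hz]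
      have h4 : (0 : ℚ) ≤ ((∑ i, z φ i * n i : ℤ) : ℚ) := e ▸ mul_nonneg hD.le (hn _ φ.2)
      obtain ⟨m, hm⟩ := Int.eq_ofNat_of_zero_le (Int.cast_nonneg_iff.1 h4)
      exact ⟨m, by rw [e, hm, Int.cast_natCast]⟩
    choose m hm using h3
    have h5 : Sum.elim n m ∈ AddSubmonoid.closure (T : Set _) :=
      hT ▸ (funext hm : frm Λ D (Sum.elim n m) = slack Λ (Sum.elim n m))
    obtain ⟨a, ha⟩ := AddSubmonoid.mem_closure_finset'.1 h5
    refine ⟨fun j => a (T.equivFin.symm j), funext fun i => ?_⟩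
    have h6 := congrFun ha (Sum.inl i)
    rw [Sum.elim_inl, Finset.sum_apply] at h6
    rw [h6, Finset.sum_apply]
    exact Equiv.sum_comp T.equivFin.symm fun t => (a t • t.1) (Sum.inl i)

end Pool.Agent.MP_ee8c61_ag.M3SN
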