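import Pool.Agent.MP_ee8c61_ag.M3SN.SpecN

/-!
The Hodge index theorem on a numerical surface.
-/

set_option autoImplicit false

namespace Pool.Agent.MP_ee8c61_ag.M3SN

namespace RHODGE

open NS

variable {K : Type} [Field K] [Algebra ℂ K] {S : NS K}

/-- Sections of divisors of bounded degree are bounded. -/
theorem bdd (O : S.OK) (F : S.Crv) (hF : ∀ X, S.I X S.w = 0 → S.I X (cv F) = 0) (i : ℕ) :
    ∃ c : ℝ, ∀ X, IsZ X → S.I X S.w = 0 → S.h0 (X + (i : ℝ) • cv F - cv F) ≤ c := by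
  induction i with
  | zero =>
    refine ⟨0, fun X _ h0 => not_lt.1 fun h => ?_⟩
    obtain ⟨f, hf, h1⟩ := sec_of_pos h
    have := O.nef_sec O.w_nef hf h1
    rw [Nat.cast_zero, zero_smul, add_zero, map_sub, O.sym _ X, h0] at this
    linarith [O.wpos F]
  | succ i ih =>
    obtain ⟨c, hc⟩ := ih
    refine ⟨c + max 0 (i * S.I (cv F) (cv F) + 1), fun X hX h0 => ?_⟩
    have h1 := O.e0 _ F (hX.add ((isZ_cv F).nsmul i))
    rw [map_add, LinearMap.add_apply, hF X h0, zero_add, map_smul, LinearMap.smul_apply,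
      smul_eq_mul] at h1
    rw [Nat.cast_succ, add_smul, one_smul, ← add_assoc, add_sub_cancel_right]
    linarith [hc X hX h0]

theorem int_le (O : S.OK) (h1 : S.EF) (h2 : S.E2) {L : S.Crv →₀ ℝ} (hL : IsZ L)
    (h0 : S.I L S.w = 0) : S.I L L ≤ 0 := by
  obtain ⟨k, F, f, hk, hf, e⟩ := h1
  obtain ⟨β, hβ⟩ := h2
  have hF : ∀ X, S.I X S.w = 0 → S.I X (cv F) = 0 := fun X h => by
    rw [← e, map_add, O.dv_r hf, map_smul, h, smul_zero, add_zero]
  obtain ⟨j, hj⟩ := exists_nat_ge (β / S.I S.w (cv F))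
  rw [div_le_iff₀ (O.wpos F)] at hj
  obtain ⟨c, hc⟩ := bdd O F hF (j + 1)
  by_contra ha
  rw [not_le] at ha
  set C := 2 * (c - S.c0) - (j : ℝ) * j * S.I (cv F) (cv F) + j * S.I S.Kc (cv F) with hC
  obtain ⟨m, hm⟩ := exists_nat_ge (max 1 ((S.I S.Kc L + |C| + 1) / S.I L L))
  rw [max_le_iff, div_le_iff₀ ha] at hm
  have h3 := hc _ (hL.nsmul m) (by rw [map_smul, LinearMap.smul_apply, h0, smul_zero])
  rw [Nat.cast_succ, add_smul, one_smul, ← add_assoc, add_sub_cancel_right] at h3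
  have h4 := (hβ _ ((hL.nsmul m).add ((isZ_cv F).nsmul j)) (by
    simp only [map_add, map_smul, LinearMap.add_apply, LinearMap.smul_apply, smul_eq_mul, h0,
      O.sym (cv F) S.w]
    linarith)).trans h3
  simp only [chi, map_add, map_smul, LinearMap.add_apply, LinearMap.smul_apply, smul_eq_mul,
    O.sym (cv F) L, hF L h0] at h4
  have h5 : (m : ℝ) * (m * S.I L L - S.I S.Kc L) ≤ C := by rw [hC]; linarith
  nlinarith [le_abs_self C, abs_nonneg C, hm.1, hm.2]

theorem rat_le (O : S.OK) (h1 : S.EF) (h2 : S.E2) {L : S.Crv →₀ ℝ} (hL : IsQ L) :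
    S.I S.w S.w * S.I L L ≤ S.I L S.w ^ 2 := by
  obtain ⟨a, ha⟩ := O.lat.ratQ O.wZ.isQ O.wZ.isQ
  obtain ⟨b, hb⟩ := O.lat.ratQ hL O.wZ.isQ
  obtain ⟨m, hm, hZ⟩ := ((hL.smul a).sub (O.wZ.isQ.smul b)).clear
  rw [← ha, ← hb] at hZ
  have h3 := int_le O h1 h2 hZ (by
    simp only [map_sub, map_smul, LinearMap.sub_apply, LinearMap.smul_apply, smul_eq_mul]
    ring)
  simp only [map_sub, map_smul, LinearMap.sub_apply, LinearMap.smul_apply, smul_eq_mul,
    O.sym S.w L] at h3
  have h4 : (0 : ℝ) < m * m * S.I S.w S.w :=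
    mul_pos (mul_pos (Nat.cast_pos.2 hm) (Nat.cast_pos.2 hm)) O.ww
  refine sub_nonpos.1 (nonpos_of_mul_nonpos_right (le_of_eq_of_le ?_ h3) h4)
  ring

theorem real_le (O : S.OK) (h1 : S.EF) (h2 : S.E2) (L : S.Crv →₀ ℝ) :
    S.I S.w S.w * S.I L L ≤ S.I L S.w ^ 2 := by
  classical
  have key : ∀ (s : Finset S.Crv) (L : S.Crv →₀ ℝ), (∀ i ∉ s, ∃ r : ℚ, L i = r) →
      S.I S.w S.w * S.I L L ≤ S.I L S.w ^ 2 := by
    intro s
    induction s using Finset.induction_on with
    | empty => exact fun L h => rat_le O h1 h2 fun i => h i (Finset.notMem_empty i)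
    | insert a s _ ih =>
      intro L h
      have h3 : ∀ t : ℝ, S.I S.w S.w * S.I (L - L a • cv a + t • cv a) (L - L a • cv a + t • cv a)
          ≤ S.I (L - L a • cv a + t • cv a) S.w ^ 2 := fun t => by
        refine Rat.denseRange_cast.induction_on t (isClosed_le ?_ ?_) fun r => ih _ fun i hi => ?_
        · simp only [map_add, map_smul, LinearMap.add_apply, LinearMap.smul_apply, smul_eq_mul]
          fun_prop
        · simp only [map_add, map_smul, LinearMap.add_apply, LinearMap.smul_apply, smul_eq_mul]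
          fun_prop
        · by_cases e : a = i
          · subst e
            exact ⟨r, by simp [cv_self]⟩
          · obtain ⟨q, hq⟩ := h i fun hm => (Finset.mem_insert.1 hm).elim (fun x => e x.symm) hi
            exact ⟨q, by simp [cv_ne e, hq]⟩
      have := h3 (L a)
      rwa [sub_add_cancel] at this
  exact key L.support L fun i hi => ⟨0, by rw [Finsupp.notMem_support_iff.1 hi, Rat.cast_zero]⟩

end RHODGE

open RHODGE

theorem rowHODGE : RowHODGE := by
  intro K _ _ S O h1 h2 M L hM hL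
  have h3 : ∀ N, S.I N S.w = 0 → S.I N N ≤ 0 := fun N h => by
    have := real_le O h1 h2 N
    rw [h, zero_pow two_ne_zero] at this
    exact nonpos_of_mul_nonpos_right this O.ww
  have h4 : ∀ L, S.I M L = 0 → S.I L L ≤ 0 := fun L hL => by
    have h5 : S.I M S.w ≠ 0 := fun h => not_le.2 hM (h3 M h)
    have h6 := h3 (S.I L S.w • M - S.I M S.w • L) (by
      simp only [map_sub, map_smul, LinearMap.sub_apply, LinearMap.smul_apply, smul_eq_mul]
      ring)
    simp only [map_sub, map_smul, LinearMap.sub_apply, LinearMap.smul_apply, smul_eq_mul,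
      O.sym L M, hL] at h6
    have h7 : 0 < S.I M S.w * S.I M S.w := mul_self_pos.2 h5
    have h8 : 0 ≤ S.I L S.w * S.I L S.w * S.I M M := mul_nonneg (mul_self_nonneg _) hM.le
    exact nonpos_of_mul_nonpos_right (by linarith) h7
  refine ⟨h4 L hL, fun h0 E => ?_⟩
  have h5 : S.I M (E - (S.I M E / S.I M M) • M) = 0 := by
    rw [map_sub, map_smul, smul_eq_mul, div_mul_cancel₀ _ hM.ne', sub_self]
  have h6 : S.I L (E - (S.I M E / S.I M M) • M) = S.I L E := by
    rw [map_sub, map_smul, O.sym L M, hL, smul_zero, sub_zero]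
  generalize E - (S.I M E / S.I M M) • M = E1 at h5 h6
  have h7 := discrim_le_zero (a := -S.I E1 E1) (b := -(2 * S.I L E1)) (c := 0) fun t => by
    have := h4 (L + t • E1) (by rw [map_add, map_smul, hL, h5, smul_zero, add_zero])
    simp only [map_add, map_smul, LinearMap.add_apply, LinearMap.smul_apply, smul_eq_mul,
      O.sym E1 L, h0] at this
    linarith
  rw [discrim, h6] at h7
  nlinarith [sq_nonneg (S.I L E)]

end Pool.Agent.MP_ee8c61_ag.M3SN
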