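import Pool.Agent.MP_ee8c61_ag.M3SN.SpecN

/-!
Row INTV: the valuative criterion for finite generation of a graded ring.
-/

set_option autoImplicit false

namespace Pool.Agent.MP_ee8c61_ag.M3SN

open Finset MvPolynomial

namespace RINTV

variable {K : Type} [Field K] [Algebra ℂ K] {l : ℕ}

/-- The span of the monomials of degree `n`. -/
def QQ {ι : Type} [Fintype ι] (ν : ι → Fin l → ℕ) (g : ι → K) (n : Fin l → ℕ) : Submodule ℂ K :=
  Submodule.span ℂ {x | ∃ α : ι → ℕ, ∑ j, α j • ν j = n ∧ x = ∏ j, g j ^ α j}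

theorem fgr_of {ι : Type} [Fintype ι] (F : (Fin l → ℕ) → K → Prop) (ν : ι → Fin l → ℕ)
    (g : ι → K) (h : ∀ i, F (ν i) (g i)) (hs : ∀ n u, F n u → u ∈ QQ ν g n) : FGr F := by
  let e := Fintype.equivFin ι
  refine ⟨_, fun j => ν (e.symm j), fun j => g (e.symm j), fun j => h _, fun n u hu => ?_⟩
  refine Submodule.span_mono ?_ (hs n u hu)
  rintro _ ⟨α, h1, rfl⟩
  exact ⟨fun j => α (e.symm j), (Equiv.sum_comp e.symm fun i => α i • ν i).trans h1,
    (Equiv.prod_comp e.symm fun i => g i ^ α i).symm⟩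

theorem QQ_one {ι : Type} [Fintype ι] (ν : ι → Fin l → ℕ) (g : ι → K) : (1 : K) ∈ QQ ν g 0 :=
  Submodule.subset_span ⟨0, by simp, by simp⟩

theorem QQ_gen {ι : Type} [Fintype ι] (ν : ι → Fin l → ℕ) (g : ι → K) (i : ι) :
    g i ∈ QQ ν g (ν i) := by
  classical
  refine Submodule.subset_span ⟨Pi.single i 1, ?_, ?_⟩
  · rw [Finset.sum_eq_single i (fun j _ hj => by simp [hj]) (by simp)]; simp
  · rw [Finset.prod_eq_single i (fun j _ hj => by simp [hj]) (by simp)]; simp

theorem QQ_mul {ι : Type} [Fintype ι] (ν : ι → Fin l → ℕ) (g : ι → K) {n m : Fin l → ℕ} {u w : K}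
    (h1 : u ∈ QQ ν g n) (h2 : w ∈ QQ ν g m) : u * w ∈ QQ ν g (n + m) := by
  have h := Submodule.mul_mem_mul h1 h2
  rw [QQ, QQ, Submodule.span_mul_span] at h
  refine Submodule.span_mono ?_ h
  rintro _ ⟨_, ⟨α, h1, rfl⟩, _, ⟨β, h2, rfl⟩, rfl⟩
  refine ⟨α + β, ?_, ?_⟩
  · simp only [Pi.add_apply, add_smul, sum_add_distrib, h1, h2]
  · simp [pow_add, prod_mul_distrib]

/-- The polynomials all of whose coefficients are combinations of monomials. -/
def PP {ι : Type} [Fintype ι] (ν : ι → Fin l → ℕ) (g : ι → K) :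
    Subalgebra ℂ (MvPolynomial (Fin l) K) where
  carrier := {q | ∀ d : Fin l →₀ ℕ, coeff d q ∈ QQ ν g d}
  mul_mem' := fun {p q} hp hq d => by
    classical
    rw [coeff_mul]
    refine Submodule.sum_mem _ fun x hx => ?_
    rw [← mem_antidiagonal.1 hx]
    exact QQ_mul ν g (hp _) (hq _)
  add_mem' := fun {p q} hp hq d => by
    rw [coeff_add]; exact add_mem (hp d) (hq d)
  algebraMap_mem' := fun a d => by
    classical
    rw [MvPolynomial.algebraMap_apply, coeff_C]
    split_ifs with h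
    · rw [← h, Algebra.algebraMap_eq_smul_one]
      exact Submodule.smul_mem _ _ (QQ_one ν g)
    · exact zero_mem _

/-- The monomial `u T ^ n`. -/
noncomputable def mn (n : Fin l → ℕ) (u : K) : MvPolynomial (Fin l) K :=
  monomial (Finsupp.equivFunOnFinite.symm n) u

omit [Algebra ℂ K] in
theorem mn_eq (n : Fin l → ℕ) (u : K) : mn n u = C u * ∏ i, X i ^ n i := by
  rw [mn, monomial_eq, Finsupp.prod_fintype _ _ (fun i => pow_zero _)]
  rfl

theorem mn_mem {ι : Type} [Fintype ι] (ν : ι → Fin l → ℕ) (g : ι → K) (n : Fin l → ℕ) (u : K) :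
    mn n u ∈ PP ν g ↔ u ∈ QQ ν g n := by
  classical
  refine ⟨fun h => ?_, fun h d => ?_⟩
  · have h1 := h (Finsupp.equivFunOnFinite.symm n)
    rw [mn, coeff_monomial, if_pos rfl] at h1
    exact h1
  · rw [mn, coeff_monomial]
    split_ifs with h1
    · rw [← h1]; exact h
    · exact zero_mem _

omit [Algebra ℂ K] in
theorem mn_pow {J : Type} [Fintype J] (ν : J → Fin l → ℕ) (g : J → K) (a : J → ℕ) (k : ℕ)
    (n : Fin l → ℕ) (u : K) (h0 : ∏ j, g j ^ a j ≠ 0) (h : ∑ j, a j • ν j = k • n) :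
    mn n u ^ k = C (u ^ k / ∏ j, g j ^ a j) * ∏ j, mn (ν j) (g j) ^ a j := by
  have h1 : ∀ i, ∑ j, ν j i * a j = n i * k := fun i => by
    have h2 := congrFun h i
    simp only [Finset.sum_apply, Pi.smul_apply, smul_eq_mul] at h2
    rw [mul_comm, ← h2]
    exact sum_congr rfl fun j _ => mul_comm _ _
  simp only [mn_eq, mul_pow, prod_mul_distrib, ← map_pow, ← map_prod, ← prod_pow, ← pow_mul]
  rw [← mul_assoc, ← map_mul, div_mul_cancel₀ _ h0, prod_comm]
  simp only [prod_pow_eq_pow_sum, h1]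

theorem mem_of_pow {L : Type} [Field L] {V : ValuationSubring L} {g : L} {r : ℕ} (hr : 0 < r)
    (h1 : g ^ r ∈ V) : g ∈ V := by
  rw [← V.valuation_le_one_iff, map_pow] at h1
  exact (V.valuation_le_one_iff g).1 ((pow_le_one_iff hr.ne').1 h1)

end RINTV

open RINTV

theorem rowINTV : RowINTV := by
  classical
  intro hF K _ _ _ l F J _ ν U hU hV
  let A := MvPolynomial (Fin l) K
  let L := FractionRing A
  have e1 : Algebra.EssFiniteType ℂ A := .comp ℂ K A
  have e2 : Algebra.EssFiniteType A L := .of_isLocalization L (nonZeroDivisors A)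
  have e3 : Algebra.EssFiniteType ℂ L := .comp ℂ A L
  let φ : A →ₐ[ℂ] L := IsScalarTower.toAlgHom ℂ A L
  have hφ : Function.Injective φ := IsFractionRing.injective A L
  have h0 : ∀ j, (U j).FG := fun j => Module.Finite.iff_fg.1 (hU j).1
  choose s hs using h0
  let G0 : Finset ((Fin l → ℕ) × K) := univ.biUnion fun j => (s j).image fun u => (ν j, u)
  let R : Subalgebra ℂ L := Algebra.adjoin ℂ (G0.image fun p => φ (mn p.1 p.2) : Finset L)
  have hR : ∀ j, ∀ u ∈ U j, φ (mn (ν j) u) ∈ R := fun j u hu => by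
    rw [← hs j] at hu
    induction hu using Submodule.span_induction with
    | mem u hu =>
      exact Algebra.subset_adjoin (mem_coe.2 (mem_image.2 ⟨(ν j, u),
        mem_biUnion.2 ⟨j, mem_univ j, mem_image_of_mem _ hu⟩, rfl⟩))
    | zero => rw [mn, map_zero, map_zero]; exact zero_mem _
    | add u w _ _ h1 h2 => rw [mn, map_add, map_add]; exact add_mem h1 h2
    | smul a u _ h1 =>
      have e : mn (ν j) (a • u) = a • mn (ν j) u := by rw [mn, mn, smul_monomial]
      rw [e, map_smul]; exact R.smul_mem h1 a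
  let Z : Set L := {x | ∃ p : (Fin l → ℕ) × K, p.2 ∈ F p.1 ∧ x = φ (mn p.1 p.2)}
  have hN : (Submodule.span R Z).FG := by
    refine hF L R (Subalgebra.fg_adjoin_finset _) _ fun x hx V hRV => ?_
    induction hx using Submodule.span_induction with
    | zero => exact zero_mem _
    | add x y _ _ h1 h2 => exact add_mem h1 h2
    | smul r x _ h1 => exact mul_mem (hRV _ r.2) h1
    | mem x hx =>
      obtain ⟨⟨n, u⟩, hu, rfl⟩ := hx
      by_cases h1 : u = 0
      · rw [h1, mn, map_zero, map_zero]; exact zero_mem _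
      let ψ : K →+* L := (φ : A →+* L).comp C
      obtain ⟨k, a, g, hk, hg, h2, h3, h4⟩ := hV (V.comap ψ)
        (fun a => by
          rw [ValuationSubring.mem_comap]
          exact hRV _ (by
            have e : ψ (algebraMap ℂ K a) = algebraMap ℂ L a := φ.commutes a
            rw [e]; exact R.algebraMap_mem a))
        (fun j hj w hw => by
          rw [ValuationSubring.mem_comap]
          have h5 := hR j w hw
          rw [hj, mn_eq] at h5
          simp only [Pi.zero_apply, pow_zero, prod_const_one, mul_one] at h5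
          exact hRV _ h5) n u hu h1
      refine mem_of_pow hk ?_
      rw [← map_pow, mn_pow ν g a k n u h2 h3, map_mul, map_prod]
      refine mul_mem (ValuationSubring.mem_comap.1 h4) (prod_mem fun j _ => ?_)
      rw [map_pow]
      exact pow_mem (hRV _ (hR j _ (hg j))) _
  obtain ⟨t, ht, hsp⟩ := (Submodule.fg_span_iff_fg_span_finset_subset Z).1 hN
  choose p hp1 hp2 using fun x : t => ht x.2
  let G : Finset ((Fin l → ℕ) × K) := G0 ∪ univ.image p
  have hG : ∀ i : G, φ (mn i.1.1 i.1.2) ∈ (PP (fun i : G => i.1.1) fun i => i.1.2).map φ :=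
    fun i => Subalgebra.mem_map.2 ⟨_, (mn_mem _ _ _ _).2 (QQ_gen _ _ i), rfl⟩
  refine fgr_of _ (fun i : G => i.1.1) (fun i => i.1.2) (fun i => ?_) fun n u hu => ?_
  · rcases mem_union.1 i.2 with h | h
    · obtain ⟨j, _, h⟩ := mem_biUnion.1 h
      obtain ⟨u, hu, e⟩ := mem_image.1 h
      rw [← e]
      exact (hU j).2 (hs j ▸ Submodule.subset_span hu)
    · obtain ⟨x, _, e⟩ := mem_image.1 h
      rw [← e]; exact hp1 x
  · have hRP : R ≤ (PP (fun i : G => i.1.1) fun i => i.1.2).map φ := by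
      refine Algebra.adjoin_le fun x hx => ?_
      obtain ⟨q, hq, rfl⟩ := mem_image.1 (mem_coe.1 hx)
      exact hG ⟨q, mem_union_left _ hq⟩
    have hP : ∀ x ∈ Submodule.span R (t : Set L),
        x ∈ (PP (fun i : G => i.1.1) fun i => i.1.2).map φ := fun x hx => by
      induction hx using Submodule.span_induction with
      | zero => exact zero_mem _
      | add x y _ _ h1 h2 => exact add_mem h1 h2
      | smul r x _ h1 => exact mul_mem (hRP r.2) h1
      | mem x hx =>
        have h1 := hG ⟨p ⟨x, hx⟩, mem_union_right _ (mem_image_of_mem _ (mem_univ _))⟩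
        rwa [← hp2 ⟨x, hx⟩] at h1
    obtain ⟨q, hq, e⟩ := Subalgebra.mem_map.1
      (hP (φ (mn n u)) (hsp ▸ Submodule.subset_span ⟨(n, u), hu, rfl⟩))
    rw [hφ e] at hq
    exact (mn_mem _ _ _ _).1 hq

end Pool.Agent.MP_ee8c61_ag.M3SN
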