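import Pool.Agent.MP_ee8c61_ag.M3SN.SpecN

/-!
The Nakai criterion on a numerical surface.
-/

set_option autoImplicit false

namespace Pool.Agent.MP_ee8c61_ag.M3SN

open Finset

namespace RNAK

variable {K : Type} [Field K] [Algebra ℂ K] {S : NS K}

variable (S) in
/-- The excess of the dimension over the Riemann-Roch number. -/
noncomputable def ex (D : S.Crv →₀ ℝ) : ℝ := S.h0 D - S.chi D

theorem step (O : S.OK) (C : S.Crv) : ∃ b : ℝ, ∀ L, IsZ L → b ≤ S.I L (cv C) →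
    ex S L ≤ ex S (L - cv C) ∧ (ex S (L - cv C) ≤ ex S L → ∀ p, S.on p C → S.Gen L p) := by
  obtain ⟨b, hb⟩ := O.e1 C
  refine ⟨b, fun L hL h => ?_⟩
  obtain ⟨h1, h2⟩ := hb L hL h
  have h3 := O.chi_sub L C
  unfold ex
  exact ⟨by linarith, fun h4 => h2 (by linarith)⟩

theorem gap (O : S.OK) {D E : S.Crv →₀ ℝ} (hD : IsZ D) (hE : IsZ E) (h : ex S D < ex S E) :
    ex S D + 1 / 2 ≤ ex S E := by
  obtain ⟨a1, h1⟩ := O.lat.intZ hD hD
  obtain ⟨a2, h2⟩ := O.lat.intZ O.KZ hD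
  obtain ⟨a3, h3⟩ := O.lat.intZ hE hE
  obtain ⟨a4, h4⟩ := O.lat.intZ O.KZ hE
  unfold ex NS.chi NS.h0 at *
  rw [h1, h2, h3, h4] at h ⊢
  generalize Module.finrank ℂ (S.H0 D) = u at *
  generalize Module.finrank ℂ (S.H0 E) = v at *
  have h5 : ((2 * (u : ℤ) - (a1 - a2) : ℤ) : ℝ) < ((2 * (v : ℤ) - (a3 - a4) : ℤ) : ℝ) := by
    push_cast
    linarith
  have h6 : 2 * (u : ℤ) - (a1 - a2) + 1 ≤ 2 * (v : ℤ) - (a3 - a4) := Int.cast_lt.1 h5
  have h7 : ((2 * (u : ℤ) - (a1 - a2) + 1 : ℤ) : ℝ) ≤ ((2 * (v : ℤ) - (a3 - a4) : ℤ) : ℝ) :=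
    Int.cast_le.2 h6
  push_cast at h7
  linarith

theorem one_le_of_int {x : ℝ} (h : ∃ n : ℤ, x = n) (hx : 0 < x) : 1 ≤ x := by
  obtain ⟨n, rfl⟩ := h
  exact_mod_cast (show (1 : ℤ) ≤ n from by exact_mod_cast hx)

theorem low (O : S.OK) {F Z : S.Crv →₀ ℝ} (h0 : 0 ≤ F) (h1 : F ≤ Z) (C : S.Crv) :
    -(Z C * |S.I (cv C) (cv C)|) ≤ S.I F (cv C) := by
  have h2 : 0 ≤ F - F C • cv C := fun j => by
    show (0 : ℝ) ≤ F j - F C * cv C j
    by_cases e : C = j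
    · rw [← e, cv_self, mul_one, sub_self]
    · rw [cv_ne e, mul_zero, sub_zero]
      exact h0 j
  have h3 : (F - F C • cv C) C = 0 := by
    show F C - F C * cv C C = 0
    rw [cv_self, mul_one, sub_self]
  have h4 := O.lat.eff_cv h2 h3
  rw [map_sub, map_smul, LinearMap.sub_apply, LinearMap.smul_apply, smul_eq_mul] at h4
  have h5 : (0 : ℝ) ≤ F C := h0 C
  have h6 : F C ≤ Z C := h1 C
  have h7 := neg_abs_le (S.I (cv C) (cv C))
  have h8 := abs_nonneg (S.I (cv C) (cv C))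
  nlinarith [mul_le_mul_of_nonneg_left h7 h5, mul_le_mul_of_nonneg_right h6 h8]

theorem sub_cv {F : S.Crv →₀ ℝ} (hF : IsZ F) (h0 : 0 ≤ F) {C : S.Crv} (hC : F C ≠ 0) :
    0 ≤ F - cv C := fun j => by
  show (0 : ℝ) ≤ F j - cv C j
  by_cases e : C = j
  · rw [← e, cv_self]
    exact sub_nonneg.2 (hF.one_le (lt_of_le_of_ne (h0 C) hC.symm))
  · rw [cv_ne e, sub_zero]
    exact h0 j

/-- The one-curve step, uniformly along the multiples of `Z`. -/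
theorem unif (O : S.OK) {Z : S.Crv →₀ ℝ} (hZ : IsZ Z) (hp : ∀ C, 0 < S.I Z (cv C)) :
    ∃ k0 : ℕ, ∀ k : ℕ, k0 ≤ k → ∀ F, IsZ F → 0 ≤ F → F ≤ Z → ∀ C, F C ≠ 0 →
      ex S ((k : ℝ) • Z + F) ≤ ex S ((k : ℝ) • Z + (F - cv C)) ∧
      (ex S ((k : ℝ) • Z + (F - cv C)) ≤ ex S ((k : ℝ) • Z + F) →
        ∀ p, S.on p C → S.Gen ((k : ℝ) • Z + F) p) := by
  choose b hb using step O
  obtain ⟨k0, hk0⟩ := exists_nat_ge (∑ C ∈ Z.support, abs (b C + Z C * |S.I (cv C) (cv C)|))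
  refine ⟨k0, fun k hk F hF h0 h1 C hC => ?_⟩
  rw [← add_sub_assoc]
  refine hb C _ ((hZ.nsmul k).add hF) ?_
  have hCZ : C ∈ Z.support := by
    refine Finsupp.mem_support_iff.2 fun e => hC (le_antisymm ?_ (h0 C))
    exact e ▸ h1 C
  have h2 : abs (b C + Z C * |S.I (cv C) (cv C)|) ≤
      ∑ C ∈ Z.support, abs (b C + Z C * |S.I (cv C) (cv C)|) :=
    single_le_sum (f := fun C => abs (b C + Z C * |S.I (cv C) (cv C)|)) (fun _ _ => abs_nonneg _) hCZ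
  have h3 := low O h0 h1 C
  have h4 := one_le_of_int (O.lat.intZ hZ (isZ_cv C)) (hp C)
  have h5 : (k0 : ℝ) ≤ k := Nat.cast_le.2 hk
  have h6 := le_abs_self (b C + Z C * |S.I (cv C) (cv C)|)
  have h7 : (0 : ℝ) ≤ k := Nat.cast_nonneg k
  rw [map_add, map_smul, LinearMap.add_apply, LinearMap.smul_apply, smul_eq_mul]
  nlinarith [mul_le_mul_of_nonneg_left h4 h7]

theorem desc (O : S.OK) {A Z : S.Crv →₀ ℝ}
    (h : ∀ F, IsZ F → 0 ≤ F → F ≤ Z → ∀ C, F C ≠ 0 → ex S (A + F) ≤ ex S (A + (F - cv C)))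
    (n : ℕ) : ∀ F, IsZ F → 0 ≤ F → F ≤ Z → S.I S.w F ≤ n → ex S (A + F) ≤ ex S A := by
  induction n with
  | zero =>
    intro F _ h0 _ hn
    rw [O.eq_zero_of_w h0 (by simpa using hn), add_zero]
  | succ n ih =>
    intro F hF h0 h1 hn
    by_cases e : F = 0
    · rw [e, add_zero]
    obtain ⟨C, hC⟩ : ∃ C, F C ≠ 0 := by
      by_contra hc
      exact e (Finsupp.ext fun C => not_not.1 fun h2 => hc ⟨C, h2⟩)
    refine (h F hF h0 h1 C hC).trans (ih _ (hF.sub (isZ_cv C)) (sub_cv hF h0 hC)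
      ((sub_le_self F (cv_nonneg C)).trans h1) ?_)
    have h4 := one_le_of_int (O.lat.intZ O.wZ (isZ_cv C)) (O.wpos C)
    rw [map_sub]
    push_cast at hn
    linarith

/-- An effective integral divisor of positive degree on every curve has a free multiple. -/
theorem free (O : S.OK) (e2 : S.E2) {Z : S.Crv →₀ ℝ} (hZ : IsZ Z) (h0 : 0 ≤ Z)
    (hp : ∀ C, 0 < S.I Z (cv C)) (hw : 0 < S.I Z S.w) :
    ∃ k : ℕ, 0 < k ∧ S.Bpf ((k : ℝ) • Z) := by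
  obtain ⟨k0, hk⟩ := unif O hZ hp
  obtain ⟨β, hβ⟩ := e2
  have hd : ∀ k : ℕ, k0 ≤ k → ∀ F, IsZ F → 0 ≤ F → F ≤ Z →
      ex S ((k : ℝ) • Z + F) ≤ ex S ((k : ℝ) • Z) := fun k h F hF h1 h2 => by
    obtain ⟨n, hn⟩ := exists_nat_ge (S.I S.w F)
    exact desc O (fun F hF h1 h2 C hC => (hk k h F hF h1 h2 C hC).1) n F hF h1 h2 hn
  have hs : ∀ k : ℕ, ((k + 1 : ℕ) : ℝ) • Z = (k : ℝ) • Z + Z := fun k => by
    rw [Nat.cast_succ, add_smul, one_smul]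
  obtain ⟨k, hk1, hk2⟩ : ∃ k : ℕ, k0 ≤ k ∧ ex S ((k : ℝ) • Z) ≤ ex S ((k : ℝ) • Z + Z) := by
    by_contra hn
    have h1 : ∀ j : ℕ, ex S (((k0 + j : ℕ) : ℝ) • Z) + j / 2 ≤ ex S ((k0 : ℝ) • Z) := by
      intro j
      induction j with
      | zero => simp
      | succ j ih =>
        have h2 : ex S (((k0 + j : ℕ) : ℝ) • Z + Z) < ex S (((k0 + j : ℕ) : ℝ) • Z) :=
          not_le.1 fun h3 => hn ⟨k0 + j, Nat.le_add_right _ _, h3⟩
        have h3 := gap O ((hZ.nsmul _).add hZ) (hZ.nsmul _) h2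
        rw [← add_assoc, hs, Nat.cast_succ]
        linarith
    obtain ⟨j, hj⟩ := exists_nat_gt (max β (2 * ex S ((k0 : ℝ) • Z)))
    have h4 := one_le_of_int (O.lat.intZ hZ O.wZ) hw
    have h5 : β ≤ S.I (((k0 + j : ℕ) : ℝ) • Z) S.w := by
      rw [map_smul, LinearMap.smul_apply, smul_eq_mul]
      have h6 : (0 : ℝ) ≤ ((k0 + j : ℕ) : ℝ) := Nat.cast_nonneg _
      have h7 : (j : ℝ) ≤ ((k0 + j : ℕ) : ℝ) := Nat.cast_le.2 (Nat.le_add_left _ _)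
      have h8 := le_max_left β (2 * ex S ((k0 : ℝ) • Z))
      nlinarith [mul_le_mul_of_nonneg_left h4 h6]
    have h6 := hβ _ (hZ.nsmul _) h5
    have h7 := h1 j
    have h8 := le_max_right β (2 * ex S ((k0 : ℝ) • Z))
    have h9 : 0 ≤ ex S (((k0 + j : ℕ) : ℝ) • Z) := sub_nonneg.2 h6
    linarith
  refine ⟨k + 1, Nat.succ_pos k, fun p => ?_⟩
  by_cases hc : ∃ C, S.on p C ∧ Z C ≠ 0
  · obtain ⟨C, hC, hC'⟩ := hc
    rw [hs]
    refine (hk k hk1 Z hZ h0 le_rfl C hC').2 ?_ p hC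
    exact (hd k hk1 _ (hZ.sub (isZ_cv C)) (sub_cv hZ h0 hC')
      (sub_le_self Z (cv_nonneg C))).trans hk2
  · refine NS.Gen.nsmul (NS.gen_of_eff h0 fun C hC => ?_) _
    by_contra h1
    exact hc ⟨C, hC, h1⟩

end RNAK

theorem rowNAK : RowNAK := by
  intro K _ _ S O e2 _ big kle L hQ hP
  have hw : 0 < S.I L S.w := by
    obtain ⟨ε, hε, h⟩ := hP
    have h1 := kle _ _ h O.w_nef
    rw [map_sub, map_smul, LinearMap.sub_apply, LinearMap.smul_apply, smul_eq_mul] at h1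
    have := mul_pos hε O.ww
    linarith
  have hL : 0 < S.I L L := by
    obtain ⟨ε, hε, h⟩ := id hP
    have h1 := kle _ _ h (O.pos_nef hP)
    rw [map_sub, map_smul, LinearMap.sub_apply, LinearMap.smul_apply, smul_eq_mul,
      O.sym S.w L] at h1
    have := mul_pos hε hw
    linarith
  obtain ⟨m, f, hm, hf, h0⟩ := big L hL hw
  obtain ⟨q, hq, hZ⟩ := hQ.clear
  have hq' : (0 : ℝ) < q := Nat.cast_pos.2 hq
  have hm' : (0 : ℝ) < m := Nat.cast_pos.2 hm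
  have hdeg : ∀ E, S.I ((q : ℝ) • (S.dv f + (m : ℝ) • L)) E = q * (m * S.I L E) := fun E => by
    simp only [map_smul, map_add, LinearMap.smul_apply, LinearMap.add_apply, smul_eq_mul,
      O.dv_l hf, zero_add]
  have hI : IsZ ((q : ℝ) • (S.dv f + (m : ℝ) • L)) := by
    rw [smul_add, smul_comm (q : ℝ) (m : ℝ) L]
    exact ((O.dvZ f hf).nsmul q).add (hZ.nsmul m)
  obtain ⟨k, hk, hB⟩ := RNAK.free O e2 hI (smul_nonneg hq'.le h0)
    (fun C => by rw [hdeg]; exact mul_pos hq' (mul_pos hm' (O.pos_cv hP C)))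
    (by rw [hdeg]; exact mul_pos hq' (mul_pos hm' hw))
  refine ⟨k * m * q, Nat.mul_pos (Nat.mul_pos hk hm) hq, ?_, fun p => ?_⟩
  · rw [Nat.cast_mul, mul_smul]
    exact hZ.nsmul _
  · refine NS.Gen.lin (f := f ^ (k * q)) (pow_ne_zero _ hf) ?_
    have e : S.dv (f ^ (k * q)) + ((k * m * q : ℕ) : ℝ) • L =
        (k : ℝ) • ((q : ℝ) • (S.dv f + (m : ℝ) • L)) := by
      rw [NS.dv_pow hf]
      push_cast
      module
    rw [e]
    exact hB p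

end Pool.Agent.MP_ee8c61_ag.M3SN
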