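import Pool.Agent.MP_ee8c61_ag.M3SN.SpecN

/-! There are finitely many negative curves of bounded degree. -/

set_option autoImplicit false

namespace Pool.Agent.MP_ee8c61_ag.M3SN

theorem rowNEG : RowNEG := by
  intro K _ _ S O hR hB β
  obtain ⟨T, hT⟩ := hR
  choose k k0 hk using hB
  choose a ha using O.lat.int
  refine Set.Finite.of_finite_image (f := fun C (t : T) => a C t) ?_ ?_
  · refine (Set.Finite.pi' (t := fun t : T => Set.Icc (-⌈k (cv t) * β⌉) ⌈k (cv t) * β⌉)
      fun t => Set.finite_Icc _ _).subset ?_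
    rintro _ ⟨C, hC, rfl⟩ t
    have h1 := (hk (cv t) C).trans
      ((mul_le_mul_of_nonneg_left hC.2 (k0 _).le).trans (Int.le_ceil _))
    rw [O.sym, ha] at h1
    exact abs_le.1 (by exact_mod_cast h1)
  · intro C hC C' _ h
    by_contra hne
    have h1 := hT (cv C - cv C') (fun t ht => by
      have : a C t = a C' t := congrFun h ⟨t, ht⟩
      rw [map_sub, LinearMap.sub_apply, ha, ha, this, sub_self]) (cv C)
    rw [map_sub, LinearMap.sub_apply] at h1
    have h2 := O.lat.off C' C (Ne.symm hne)
    linarith [hC.1]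

end Pool.Agent.MP_ee8c61_ag.M3SN
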