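import Pool.Agent.MP_ee8c61_ag.M3SN.SpecN

/-!
The null locus of a nef and big divisor.
-/

set_option autoImplicit false

namespace Pool.Agent.MP_ee8c61_ag.M3SN

open Finset

namespace RNULL

theorem fin_pos {ι : Type} (s : Finset ι) (p q : ι → ℝ) (hq : ∀ i, 0 < q i) :
    ∃ δ : ℝ, 0 < δ ∧ ∀ i ∈ s, 0 < p i → δ * q i ≤ p i := by
  classical
  induction s using Finset.induction_on with
  | empty => exact ⟨1, one_pos, fun i hi => absurd hi (notMem_empty i)⟩
  | insert a s _ ih =>
    obtain ⟨δ, hδ, h⟩ := ih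
    by_cases ha : 0 < p a
    · refine ⟨min δ (p a / q a), lt_min hδ (div_pos ha (hq a)), fun i hi hp => ?_⟩
      rcases mem_insert.1 hi with e | hi
      · rw [e]
        exact (le_div_iff₀ (hq a)).1 (min_le_right _ _)
      · exact (mul_le_mul_of_nonneg_right (min_le_left _ _) (hq i).le).trans (h i hi hp)
    · refine ⟨δ, hδ, fun i hi hp => ?_⟩
      rcases mem_insert.1 hi with e | hi
      · exact absurd (e ▸ hp) ha
      · exact h i hi hp

theorem small {a b c : ℝ} (ha : 0 < a) (hb : 0 < b) (hc : 0 < c) :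
    ∃ d : ℝ, 0 < d ∧ 0 < a - d * b - (d * b - d * (d * c)) ∧ 0 < b - d * c := by
  refine ⟨min (a / (4 * b)) (b / (2 * c)), by positivity, ?_, ?_⟩
  · have h1 : min (a / (4 * b)) (b / (2 * c)) * (4 * b) ≤ a :=
      (le_div_iff₀ (by positivity)).1 (min_le_left _ _)
    have h2 : 0 < min (a / (4 * b)) (b / (2 * c)) * (min (a / (4 * b)) (b / (2 * c)) * c) := by
      positivity
    linarith
  · have h1 : min (a / (4 * b)) (b / (2 * c)) * (2 * c) ≤ b :=
      (le_div_iff₀ (by positivity)).1 (min_le_right _ _)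
    linarith

end RNULL

open RNULL in
theorem rowNULL : RowNULL := by
  classical
  intro A K _ _ S O hB hN hG M hM hMM
  have hb : 0 < S.I M S.w := by
    refine lt_of_le_of_ne (hN M hM).1 fun e => ?_
    exact hMM.ne' ((hN M hM).2 e.symm M)
  obtain ⟨d, hd, h1, h2⟩ := small hMM hb O.ww
  obtain ⟨m, f, hm, hf, hZ⟩ := hG (M - d • S.w)
    (by
      simp only [map_sub, map_smul, LinearMap.sub_apply, LinearMap.smul_apply, smul_eq_mul,
        O.sym S.w M]
      linarith)
    (by
      simp only [map_sub, map_smul, LinearMap.sub_apply, LinearMap.smul_apply, smul_eq_mul]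
      exact h2)
  obtain ⟨Z, hZe⟩ : ∃ Z, Z = S.dv f + (m : ℝ) • (M - d • S.w) := ⟨_, rfl⟩
  rw [← hZe] at hZ
  have hm' : (0 : ℝ) < m := Nat.cast_pos.2 hm
  have hI : ∀ E, S.I Z E = m * (S.I M E - d * S.I S.w E) := fun E => by
    rw [hZe]
    simp only [map_add, map_sub, map_smul, LinearMap.add_apply, LinearMap.sub_apply,
      LinearMap.smul_apply, smul_eq_mul, O.dv_l hf, zero_add]
  have hoff : ∀ C, C ∉ Z.support → d * S.I S.w (cv C) ≤ S.I M (cv C) := fun C hC => by
    have h3 := O.lat.eff_cv hZ (Finsupp.notMem_support_iff.1 hC)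
    rw [hI] at h3
    exact sub_nonneg.1 (nonneg_of_mul_nonneg_right h3 hm' |>.trans_eq rfl)
  have hT : ∀ C, C ∈ Z.support.filter (fun C => S.I M (cv C) = 0) ↔ S.I M (cv C) = 0 := by
    refine fun C => ⟨fun h => (mem_filter.1 h).2, fun h => mem_filter.2 ⟨?_, h⟩⟩
    by_contra hC
    have h3 := hoff C hC
    have h4 := mul_pos hd (O.wpos C)
    linarith
  refine ⟨_, hT, ?_, fun G _ hGC => ?_⟩
  · by_contra hn
    obtain ⟨v, hv, hv0, hne, hnef, -⟩ := A.nnd _ S.I _ O.lat.toLat0 hn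
    have h3 := hnef.eff hZ
    rw [O.sym, hI, orth_of_sup (fun C hC => (hT C).1 hC) hv] at h3
    have h4 : 0 ≤ 0 - d * S.I S.w v := nonneg_of_mul_nonneg_right h3 hm' |>.trans_eq rfl
    refine hne (O.eq_zero_of_w hv0 ?_)
    by_contra h5
    have h6 := mul_pos hd (not_le.1 h5)
    linarith
  · obtain ⟨k, hk, hkC⟩ := hB G
    obtain ⟨δ, hδ, hδC⟩ := fin_pos Z.support (fun C => S.I M (cv C)) (fun C => S.I S.w (cv C))
      O.wpos
    obtain ⟨ρ, hρ, hρC⟩ := fin_pos (Z.support.filter fun C => S.I M (cv C) = 0)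
      (fun C => -S.I G (cv C)) (fun C => S.I S.w (cv C)) O.wpos
    have hμ : 0 < min d δ := lt_min hd hδ
    have hlow : ∀ C, S.I M (cv C) ≠ 0 → min d δ * S.I S.w (cv C) ≤ S.I M (cv C) := fun C h => by
      by_cases hC : C ∈ Z.support
      · exact (mul_le_mul_of_nonneg_right (min_le_right _ _) (O.wpos C).le).trans
          (hδC C hC (lt_of_le_of_ne (hM C) h.symm))
      · exact (mul_le_mul_of_nonneg_right (min_le_left _ _) (O.wpos C).le).trans (hoff C hC)
    refine ⟨min d δ / 2 / k, by positivity, fun ε hε hε0 =>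
      ⟨min (min d δ / 2) (ε * ρ), lt_min (by positivity) (mul_pos hε hρ), fun C => ?_⟩⟩
    simp only [map_sub, map_smul, LinearMap.sub_apply, LinearMap.smul_apply, smul_eq_mul]
    have hw := O.wpos C
    by_cases h : S.I M (cv C) = 0
    · have h3 := hρC C ((hT C).2 h) (neg_pos.2 (hGC C ((hT C).2 h)))
      have h4 : min (min d δ / 2) (ε * ρ) * S.I S.w (cv C) ≤ ε * ρ * S.I S.w (cv C) :=
        mul_le_mul_of_nonneg_right (min_le_right _ _) hw.le
      have h5 := mul_le_mul_of_nonneg_left h3 hε.le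
      rw [h]
      linarith
    · have h3 := hlow C h
      have h4 : min (min d δ / 2) (ε * ρ) * S.I S.w (cv C) ≤ min d δ / 2 * S.I S.w (cv C) :=
        mul_le_mul_of_nonneg_right (min_le_left _ _) hw.le
      have h5 : ε * S.I G (cv C) ≤ ε * (k * S.I S.w (cv C)) :=
        mul_le_mul_of_nonneg_left ((le_abs_self _).trans (hkC C)) hε.le
      have h6 : ε * k ≤ min d δ / 2 := (le_div_iff₀ hk).1 hε0
      have h7 := mul_le_mul_of_nonneg_right h6 hw.le
      linarith

end Pool.Agent.MP_ee8c61_ag.M3SN
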