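import Pool.Agent.MP_ee8c61_ag.M3SN.SpecN

/-!
The pseudo-effective cone of adjoint divisors is rational polyhedral.
-/

set_option autoImplicit false

namespace Pool.Agent.MP_ee8c61_ag.M3SN

open Finset

namespace RPASS

/-- The projection is self-adjoint. -/
theorem prj_sym {ι : Type} {I : Fm ι} (L : Lat0 I) {s : Finset ι} {X N Y M : ι →₀ ℝ}
    (h : Prj I s X N) (h' : Prj I s Y M) : I Y (X - N) = I (Y - M) X := by
  have a : I (X - N) M = 0 := orth_of_sup h.2 h'.1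
  have b : I (Y - M) N = 0 := orth_of_sup h'.2 h.1
  rw [L.sym] at a
  simp only [map_sub, LinearMap.sub_apply] at a b ⊢
  linarith

variable {K : Type} [Field K] [Algebra ℂ K] {S : NS K}

/-- The test classes before projection. -/
def Ts (S : NS K) (A X : S.Crv →₀ ℝ) : Prop := X = A ∨ ∃ F, X = cv F ∧ S.I A (cv F) ≤ 2

theorem w_le {A : S.Crv →₀ ℝ} (hA : S.Pos A) :
    ∃ β : ℝ, ∀ C, S.I A (cv C) ≤ 2 → S.I S.w (cv C) ≤ β := by
  obtain ⟨ε, hε, h⟩ := hA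
  refine ⟨2 / ε, fun C hC => ?_⟩
  have := h C
  rw [map_sub, map_smul, LinearMap.sub_apply, LinearMap.smul_apply, smul_eq_mul] at this
  rw [le_div_iff₀ hε]
  linarith

/-- A rational divisor takes finitely many values on the test classes. -/
theorem vals_fin (O : S.OK) (hb : S.BND) {A P : S.Crv →₀ ℝ} (hA : S.Pos A) (hP : IsQ P) :
    {r : ℚ | ∃ X, Ts S A X ∧ (r : ℝ) = S.I P X}.Finite := by
  obtain ⟨β, hβ⟩ := w_le hA
  obtain ⟨m, hm, hZ⟩ := hP.clear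
  obtain ⟨k, hk, hkb⟩ := hb ((m : ℝ) • P)
  have hm' : (0 : ℝ) < m := Nat.cast_pos.2 hm
  have f1 : {r : ℚ | (r : ℝ) = S.I P A}.Finite :=
    Set.Subsingleton.finite fun a ha b hb => Rat.cast_injective (α := ℝ) (ha.trans hb.symm)
  have f2 := (Set.finite_Icc (-⌈k * β⌉) ⌈k * β⌉).image fun z : ℤ => (z : ℚ) / m
  refine (f1.union f2).subset ?_
  rintro r ⟨X, rfl | ⟨F, rfl, hF⟩, hr⟩
  · exact Or.inl hr
  · obtain ⟨z, hz⟩ := O.lat.intZ hZ (isZ_cv F)
    have h1 := (hkb F).trans ((mul_le_mul_of_nonneg_left (hβ F hF) hk.le).trans (Int.le_ceil _))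
    rw [hz, ← Int.cast_abs, Int.cast_le] at h1
    refine Or.inr ⟨z, abs_le.1 h1, Rat.cast_injective (α := ℝ) ?_⟩
    rw [map_smul, LinearMap.smul_apply, smul_eq_mul, ← hr] at hz
    rw [Rat.cast_div, Rat.cast_intCast, Rat.cast_natCast, ← hz, mul_div_cancel_left₀ _ hm'.ne']

theorem DD_I {l : ℕ} (A M Q : S.Crv →₀ ℝ) (B : Fin l → S.Crv →₀ ℝ) (n : Fin l → ℕ) :
    S.I (S.DD (A + M) B n) Q = ∑ i, (n i : ℝ) * (S.I (S.Kc + A + B i) Q + S.I M Q) := by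
  rw [NS.DD, map_sum, LinearMap.sum_apply]
  refine sum_congr rfl fun i _ => ?_
  simp only [map_smul, map_add, LinearMap.smul_apply, LinearMap.add_apply, smul_eq_mul]
  ring

/-- A combination of adjoint divisors is a multiple of an adjoint divisor. -/
theorem DD_avg {l : ℕ} (A : S.Crv →₀ ℝ) (B : Fin l → S.Crv →₀ ℝ) (n : Fin l → ℕ)
    (hB : ∀ i, IsQ (B i) ∧ 0 ≤ B i ∧ ∀ C, B i C ≤ 1) :
    ∃ (m : ℝ) (B' : S.Crv →₀ ℝ), 0 ≤ m ∧ IsQ B' ∧ 0 ≤ B' ∧ (∀ C, B' C ≤ 1) ∧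
      S.DD A B n = m • (S.Kc + A + B') := by
  have hc : ∀ C, (∑ i, (n i : ℝ) • B i) C = ∑ i, (n i : ℝ) * B i C := fun C => by
    rw [Finsupp.finset_sum_apply]
    exact sum_congr rfl fun i _ => by rw [Finsupp.smul_apply, smul_eq_mul]
  have h0 : (0 : ℝ) ≤ ∑ i, (n i : ℝ) := sum_nonneg fun i _ => Nat.cast_nonneg _
  refine ⟨∑ i, (n i : ℝ), (∑ i, (n i : ℝ))⁻¹ • ∑ i, (n i : ℝ) • B i, h0, fun C => ?_,
    fun C => ?_, fun C => ?_, ?_⟩
  · choose r hr using fun i => (hB i).1 C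
    refine ⟨(∑ i, (n i : ℚ))⁻¹ * ∑ i, (n i : ℚ) * r i, ?_⟩
    rw [Finsupp.smul_apply, hc, smul_eq_mul]
    push_cast
    simp only [hr]
  · show (0 : ℝ) ≤ _
    rw [Finsupp.smul_apply, hc, smul_eq_mul]
    exact mul_nonneg (inv_nonneg.2 h0)
      (sum_nonneg fun i _ => mul_nonneg (Nat.cast_nonneg _) ((hB i).2.1 C))
  · rw [Finsupp.smul_apply, hc, smul_eq_mul]
    exact inv_mul_le_one_of_le₀ (sum_le_sum fun i _ =>
      mul_le_of_le_one_right (Nat.cast_nonneg _) ((hB i).2.2 C)) h0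
  · rcases h0.eq_or_lt with h | h
    · have h1 := (sum_eq_zero_iff_of_nonneg fun i _ => Nat.cast_nonneg (n i)).1 h.symm
      rw [← h, zero_smul]
      exact sum_eq_zero fun i hi => by rw [h1 i hi, zero_smul]
    · rw [smul_add _ _ (_ • _), smul_inv_smul₀ h.ne', sum_smul, ← sum_add_distrib]
      exact sum_congr rfl fun i _ => smul_add _ _ _

theorem H_zero (O : S.OK) {A H : S.Crv →₀ ℝ} (hA : S.Pos A) (hZ : IsZ H) (hH : Nef S.I H) {j : ℕ}
    (hj : 2 ≤ j) {C : S.Crv} (h : S.I (A + (j : ℝ) • H) (cv C) ≤ 2) :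
    S.I H (cv C) = 0 ∧ S.I A (cv C) = S.I (A + (j : ℝ) • H) (cv C) := by
  have a := O.pos_cv hA C
  have b := hH C
  have c : (2 : ℝ) ≤ j := by exact_mod_cast hj
  obtain ⟨z, hz⟩ := O.lat.intZ hZ (isZ_cv C)
  rw [map_add, map_smul, LinearMap.add_apply, LinearMap.smul_apply, smul_eq_mul, hz] at h ⊢
  rw [hz] at b
  have d : (z : ℝ) < 1 := by nlinarith
  have e : z = 0 := le_antisymm (Int.lt_add_one_iff.1 (by exact_mod_cast d)) (by exact_mod_cast b)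
  rw [e, Int.cast_zero, mul_zero, add_zero]
  exact ⟨rfl, rfl⟩

theorem ev_j (d h : ℝ) : ∀ᶠ j : ℕ in Filter.atTop, 0 < h → 0 ≤ d + j * h := by
  filter_upwards [Filter.eventually_ge_atTop ⌈-d / h⌉₊] with j hj hh
  have := (div_le_iff₀ hh).1 (Nat.ceil_le.1 hj)
  linarith

end RPASS

open RPASS in
theorem rowPASS : RowPASS := by
  classical
  intro LA K _ _ S O T NEG POLY l A H B AQ hA HZ hH hB
  have L := O.lat.toLat0
  obtain ⟨β, hβ⟩ := w_le hA
  have hp : ∀ (s : Finset S.Crv) X, ∃ N, NegDef S.I s → Prj S.I s X N ∧ (IsQ X → IsQ N) :=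
    fun s X => by
      by_cases h : NegDef S.I s
      · obtain ⟨N, h1, h2⟩ := (LA.mum _ S.I s L h).2.2 X
        exact ⟨N, fun _ => ⟨h1, h2 O.lat⟩⟩
      · exact ⟨0, fun e => absurd e h⟩
  choose pr hpr using hp
  have DQ : ∀ i, IsQ (S.Kc + A + B i) := fun i => (O.KZ.isQ.add AQ).add (hB i).1
  set Ω := (NEG β).toFinset.powerset.filter (NegDef S.I) with hΩ
  have PQ : ∀ s ∈ Ω, ∀ i, IsQ (S.Kc + A + B i - pr s (S.Kc + A + B i)) := fun s hs i =>
    (DQ i).sub ((hpr s _ (mem_filter.1 hs).2).2 (DQ i))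
  obtain ⟨j, hj, hj2⟩ := (((Filter.eventually_all_finset Ω).2 fun s _ =>
    Filter.eventually_all.2 fun i => ev_j (S.I (S.Kc + A + B i - pr s (S.Kc + A + B i)) A)
      (S.I (H - pr s H) A)).and (Filter.eventually_ge_atTop 2)).exists
  have fin : {φ : Fin l → ℚ | (∃ Q, Nef S.I Q ∧ S.I H Q = 0 ∧
      ∀ i, (φ i : ℝ) = S.I (S.Kc + A + B i) Q) ∧ ∃ s ∈ Ω, ∃ X, Ts S A X ∧
      ∀ i, (φ i : ℝ) = S.I (S.Kc + A + B i - pr s (S.Kc + A + B i)) X}.Finite := by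
    refine (Ω.finite_toSet.biUnion fun s hs =>
      Set.Finite.pi' fun i => vals_fin O T.bnd hA (PQ s hs i)).subset ?_
    rintro φ ⟨-, s, hs, X, hX, h⟩
    exact Set.mem_biUnion hs fun i => ⟨X, hX, h i⟩
  refine ⟨j, hj2, fin.toFinset, fun n => ⟨fun hn => ?_, fun t ht φ hφ => ?_⟩⟩
  · obtain ⟨m, B', hm, q1, q2, q3, e⟩ := DD_avg (A + (j : ℝ) • H) B n hB
    by_contra hc
    have hc' : ¬ S.Pass (S.Kc + (A + (j : ℝ) • H) + B') := fun h => hc fun Q hQ => by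
      rw [e, map_smul, LinearMap.smul_apply, smul_eq_mul]
      exact mul_nonneg hm (h Q hQ)
    obtain ⟨s, X, N, nd, hs, hN, hQ, hneg, hX⟩ := POLY A _ B' AQ (HZ.isQ.nsmul j) q1 hA
      (hH.smul (Nat.cast_nonneg j)) q2 q3 hc'
    have hm0 : 0 < m := hm.lt_of_ne fun h0 => hc fun Q _ => by
      rw [e, ← h0, zero_smul, map_zero, LinearMap.zero_apply]
    have h1 : S.I (S.DD (A + (j : ℝ) • H) B n) (X - N) < 0 := by
      rw [e, map_smul, LinearMap.smul_apply, smul_eq_mul]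
      exact mul_neg_of_pos_of_neg hm0 hneg
    rw [DD_I, map_smul, LinearMap.smul_apply, smul_eq_mul] at h1
    have hz := fun C hC => H_zero O hA HZ hH hj2 (hs C hC).2.le
    have sΩ : s ∈ Ω := mem_filter.2 ⟨mem_powerset.2 fun C hC => (NEG β).mem_toFinset.2
      ⟨(hs C hC).1, hβ C ((hz C hC).2.trans_le (hs C hC).2.le)⟩, nd⟩
    have hv := fun Y => prj_sym L hN (hpr s Y nd).1
    have hT : Ts S A X ∧ IsQ X := by
      rcases hX with rfl | ⟨F, rfl, hF⟩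
      · exact ⟨Or.inl rfl, AQ⟩
      · exact ⟨Or.inr ⟨F, rfl, (H_zero O hA HZ hH hj2 hF).2.trans_le hF⟩, (isZ_cv F).isQ⟩
    rcases (T.kle _ _ hH hQ).eq_or_lt with h0 | h0
    · choose φ hφ using fun i => O.lat.ratQ (PQ s sΩ i) hT.2
      have h2 := hn φ (fin.mem_toFinset.2 ⟨⟨_, hQ, h0.symm, fun i => ((hv _).trans (hφ i)).symm⟩,
        s, sΩ, X, hT.1, fun i => (hφ i).symm⟩)
      have h3 : (0 : ℝ) ≤ ∑ i, (φ i : ℝ) * n i := by exact_mod_cast h2
      refine absurd (h3.trans_eq (sum_congr rfl fun i _ => ?_)) h1.not_ge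
      rw [← h0, mul_zero, add_zero, hv, hφ, mul_comm]
    · rcases hX with rfl | ⟨F, rfl, hF⟩
      · refine absurd (sum_nonneg fun i _ => mul_nonneg (Nat.cast_nonneg _) ?_) h1.not_ge
        rw [hv] at h0
        rw [hv, hv]
        exact hj s sΩ i h0
      · rw [map_sub, (H_zero O hA HZ hH hj2 hF).1,
          orth_of_sup (fun C hC => (hz C hC).1) hN.1, sub_zero] at h0
        exact lt_irrefl _ h0
  · obtain ⟨⟨Q, hQ, h0, h⟩, -⟩ := fin.mem_toFinset.1 hφ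
    have h1 := ht Q hQ
    rw [map_add, LinearMap.add_apply, DD_I, map_smul, map_smul, LinearMap.smul_apply,
      LinearMap.smul_apply, h0, smul_zero, smul_zero, add_zero] at h1
    have h2 : (0 : ℝ) ≤ ∑ i, (φ i : ℝ) * n i :=
      h1.trans_eq (sum_congr rfl fun i _ => by rw [add_zero, h, mul_comm])
    exact_mod_cast h2

end Pool.Agent.MP_ee8c61_ag.M3SN
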