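import Pool.Agent.MP_ee8c61_ag.M3SN.SpecN

/-! Test classes for pseudo-effectivity of adjoint divisors. -/

set_option autoImplicit false

namespace Pool.Agent.MP_ee8c61_ag.M3SN

namespace RPOLY

/-- The projection of a nef divisor is nef. -/
theorem prj_nef {ι : Type} {I : Fm ι} {s : Finset ι} {X N : ι →₀ ℝ} (hn : StmtNEGA) (L : Lat0 I)
    (hs : NegDef I s) (hX : Nef I X) (h : Prj I s X N) : 0 ≤ -N ∧ Nef I (X - N) := by
  have h0 : ∀ i, i ∉ s → (-N) i = 0 := fun i hi => by rw [Finsupp.neg_apply, h.1 i hi, neg_zero]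
  have h1 : 0 ≤ -N := (hn ι I s (-N) L hs (fun i hi => (h0 i hi).ge) fun i hi => by
    have h2 := h.2 i hi
    have h3 := hX i
    simp only [map_sub, map_neg, LinearMap.sub_apply, LinearMap.neg_apply] at h2 ⊢
    linarith).1
  refine ⟨h1, fun i => ?_⟩
  by_cases hi : i ∈ s
  · exact (h.2 i hi).ge
  · have h2 := L.eff_cv h1 (h0 i hi)
    have h3 := hX i
    simp only [map_sub, map_neg, LinearMap.sub_apply, LinearMap.neg_apply] at h2 ⊢
    linarith

variable {K : Type} [Field K] [Algebra ℂ K] {S : NS K}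

theorem pos_mul (T : S.Tools) {A P : S.Crv →₀ ℝ} (hA : S.Pos A) (hP : Nef S.I P)
    (hw : 0 < S.I P S.w) : 0 < S.I P A := by
  obtain ⟨ε, hε, h⟩ := hA
  have h1 := T.kle _ _ hP h
  rw [map_sub, map_smul, smul_eq_mul] at h1
  have := mul_pos hε hw
  linarith

theorem pos_sq (O : S.OK) (T : S.Tools) {A : S.Crv →₀ ℝ} (hA : S.Pos A) : 0 < S.I A A :=
  pos_mul T hA (O.pos_nef hA) (by rw [O.sym]; exact pos_mul T hA O.w_nef O.ww)

/-- The pseudo-effective threshold. -/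
theorem thr (O : S.OK) (T : S.Tools) {A D : S.Crv →₀ ℝ} (hA : S.Pos A) (hD : ¬ S.Pass D) :
    ∃ τ : ℝ, 0 < τ ∧ S.Pass (D + τ • A) ∧ ∀ t, 0 ≤ t → t < τ → ¬ S.Pass (D + t • A) := by
  set U : Set ℝ := {t | 0 ≤ t ∧ S.Pass (D + t • A)} with hU
  have hne : U.Nonempty := by
    obtain ⟨k, hk, h1⟩ := T.bnd D
    obtain ⟨ε, hε, h2⟩ := hA
    refine ⟨k / ε, by positivity, fun Q hQ => T.kle _ _ (fun C => ?_) hQ⟩
    have h3 := h2 C
    have h4 := (abs_le.1 (h1 C)).1
    simp only [map_sub, map_add, map_smul, LinearMap.sub_apply, LinearMap.add_apply,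
      LinearMap.smul_apply, smul_eq_mul] at h3 ⊢
    have h5 := mul_nonneg (show 0 ≤ k / ε by positivity) h3
    rw [mul_sub, ← mul_assoc, div_mul_cancel₀ _ hε.ne'] at h5
    linarith
  have hbd : BddBelow U := ⟨0, fun t ht => ht.1⟩
  have h0 : 0 ≤ sInf U := le_csInf hne fun t ht => ht.1
  have h1 : S.Pass (D + sInf U • A) := by
    intro Q hQ
    have h2 : ∀ t ∈ U, 0 ≤ S.I D Q + t * S.I A Q := fun t ht => by
      simpa only [map_add, map_smul, LinearMap.add_apply, LinearMap.smul_apply, smul_eq_mul]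
        using ht.2 Q hQ
    simp only [map_add, map_smul, LinearMap.add_apply, LinearMap.smul_apply, smul_eq_mul]
    rcases (T.kle _ _ (O.pos_nef hA) hQ).eq_or_lt with h3 | h3
    · obtain ⟨t, ht⟩ := hne
      have := h2 t ht
      rw [← h3] at this ⊢
      linarith
    · have h4 : -S.I D Q / S.I A Q ≤ sInf U := le_csInf hne fun t ht => by
        rw [div_le_iff₀ h3]
        linarith [h2 t ht]
      rw [div_le_iff₀ h3] at h4
      linarith
  refine ⟨sInf U, h0.lt_of_ne fun e => hD ?_, h1, fun t ht hlt hp => ?_⟩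
  · rwa [← e, zero_smul, add_zero] at h1
  · exact absurd (csInf_le hbd ⟨ht, hp⟩) (not_le.2 hlt)

theorem small {a b c e τ : ℝ} (ha : 0 < a) (hb : 0 ≤ b) (hc : 0 < c) (he : 0 ≤ e) (hτ : 0 < τ) :
    ∃ δ : ℝ, 0 < δ ∧ δ ≤ τ ∧ δ * b < a ∧ δ * e < c := by
  have h1 : 0 < a / (b + 1) := by positivity
  have h2 : 0 < c / (e + 1) := by positivity
  refine ⟨min τ (min (a / (b + 1)) (c / (e + 1))), lt_min hτ (lt_min h1 h2), min_le_left _ _,
    ?_, ?_⟩
  · refine lt_of_le_of_lt (mul_le_mul_of_nonneg_right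
      ((min_le_right _ _).trans (min_le_left _ _)) hb) ?_
    rw [div_mul_eq_mul_div, div_lt_iff₀ (by positivity)]
    nlinarith
  · refine lt_of_le_of_lt (mul_le_mul_of_nonneg_right
      ((min_le_right _ _).trans (min_le_right _ _)) he) ?_
    rw [div_mul_eq_mul_div, div_lt_iff₀ (by positivity)]
    nlinarith

/-- A nef and big divisor stays pseudo-effective under small perturbations. -/
theorem big_pass (O : S.OK) (T : S.Tools) {P Y : S.Crv →₀ ℝ} (hP : Nef S.I P) (hY : Nef S.I Y)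
    (h : 0 < S.I P P) {τ : ℝ} (hτ : 0 < τ) :
    ∃ δ : ℝ, 0 < δ ∧ δ ≤ τ ∧ S.Pass (P - δ • Y) := by
  have hw : 0 < S.I P S.w := (T.nw P hP).1.lt_of_ne fun e => h.ne' ((T.nw P hP).2 e.symm P)
  have h1 := T.kle _ _ hP hY
  have h2 := T.kle _ _ hY hY
  obtain ⟨δ, h3, h4, h5, h6⟩ := small h (show 0 ≤ 2 * S.I P Y by linarith) hw (T.nw Y hY).1 hτ
  refine ⟨δ, h3, h4, fun Q hQ => ?_⟩
  rw [O.sym]
  refine O.nef_eff hQ (T.big _ ?_ ?_)
  · simp only [map_sub, map_smul, LinearMap.sub_apply, LinearMap.smul_apply, smul_eq_mul,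
      O.sym Y P]
    nlinarith [mul_nonneg (mul_pos h3 h3).le h2]
  · simp only [map_sub, map_smul, LinearMap.sub_apply, LinearMap.smul_apply, smul_eq_mul]
    linarith

end RPOLY

open RPOLY

theorem rowPOLY : RowPOLY := by
  intro LA K _ _ S O T hKEY hZAR hBPF hRAT hFIB A M B hAQ hMQ hBQ hA hM hB0 hB1 hD
  obtain ⟨τ, hτ, hp, hmin⟩ := thr O T hA hD
  set D := S.Kc + (A + M) + B with hDdef
  have hAn := O.pos_nef hA
  have hA' : S.Pos ((1 + τ) • A + M) := (hA.smul (by linarith)).add_nef hM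
  have eD : D + τ • A = S.Kc + ((1 + τ) • A + M) + B := by
    rw [hDdef, add_smul, one_smul]
    abel
  have hle : ∀ C, S.I (A + M) (cv C) ≤ S.I ((1 + τ) • A + M) (cv C) := fun C => by
    have := mul_nonneg hτ.le (hAn C)
    simp only [map_add, map_smul, LinearMap.add_apply, LinearMap.smul_apply, smul_eq_mul]
    linarith
  obtain ⟨s, N, hs, hN, hP, hC⟩ := (hZAR _ B hA' hB0 hB1 (eD ▸ hp)).1
  have L0 : Lat0 S.I := O.lat.toLat0
  obtain ⟨-, huniq, hex⟩ := LA.mum _ S.I s L0 hs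
  have hs' : ∀ C ∈ s, S.I (cv C) (cv C) < 0 ∧ S.I (A + M) (cv C) < 2 := fun C h =>
    ⟨(hC C h).2.1, (hle C).trans_lt (hC C h).2.2⟩
  have hN0 : 0 ≤ N := fun C => by
    by_cases h : C ∈ s
    · exact (hC C h).1.le
    · exact (hN.1 C h).ge
  obtain ⟨NA, hNA, hNAQ⟩ := hex A
  obtain ⟨hNA0, hY⟩ := prj_nef LA.nega L0 hs hAn hNA
  set P := S.Kc + ((1 + τ) • A + M) + B - N with hPdef
  have eP : D = P + N - τ • A := by
    rw [hPdef, ← eD]
    abel
  -- the degree of `D` on a class orthogonal to `s` and to `P`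
  have hdeg : ∀ X NX, Prj S.I s X NX → S.I P (X - NX) = 0 → 0 < S.I A (X - NX) →
      S.I D (X - NX) < 0 := by
    intro X NX h1 h2 h3
    have h4 : S.I N (X - NX) = 0 := by
      rw [O.sym]
      exact orth_of_sup h1.2 hN.1
    have h5 := mul_pos hτ h3
    rw [eP, map_sub S.I, map_add S.I, map_smul S.I, LinearMap.sub_apply, LinearMap.add_apply,
      LinearMap.smul_apply, smul_eq_mul, h2, h4]
    linarith
  have hPP : S.I P P = 0 := by
    refine le_antisymm (not_lt.1 fun h => ?_) (T.kle _ _ hP hP)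
    obtain ⟨δ, h1, h2, h3⟩ := big_pass O T hP hY h hτ
    refine hmin (τ - δ) (by linarith) (by linarith) fun Q hQ => ?_
    have e : D + (τ - δ) • A = (P - δ • (A - NA)) + (N + δ • -NA) := by
      rw [eP, sub_smul, smul_sub, smul_neg]
      abel
    have h4 := hQ.eff (add_nonneg hN0 (smul_nonneg h1.le hNA0))
    rw [O.sym] at h4
    rw [e, map_add, LinearMap.add_apply]
    exact add_nonneg (h3 Q hQ) h4
  rcases (T.nw P hP).1.eq_or_lt with hw | hw
  · refine ⟨s, A, NA, hs, hs', hNA, hY, hdeg A NA hNA ((T.nw P hP).2 hw.symm _) ?_, Or.inl rfl⟩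
    have h1 := pos_sq O T hA
    have h2 := hAn.eff hNA0
    rw [map_neg] at h2
    rw [map_sub]
    linarith
  obtain ⟨ND, hND, hNDQ⟩ := hex D
  have eN : N = ND + τ • NA := by
    refine huniq _ _ hN.1 (hND.1.add (hNA.1.smul τ)) fun C h => ?_
    have h1 := hN.2 C h
    have h2 := hND.2 C h
    have h3 := hNA.2 C h
    rw [← eD] at h1
    simp only [map_sub, map_add S.I D, map_add S.I ND, map_smul, LinearMap.sub_apply,
      LinearMap.add_apply, LinearMap.smul_apply, smul_eq_mul] at h1 h2 h3 ⊢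
    linear_combination τ * h3 + h2 - h1
  have eX : P = (D - ND) + τ • (A - NA) := by
    rw [hPdef, ← eD, eN, smul_sub]
    abel
  have hDQ : IsQ D := (O.KZ.isQ.add (hAQ.add hMQ)).add hBQ
  have hXQ : IsQ (D - ND) := hDQ.sub (hNDQ O.lat hDQ)
  have hYQ : IsQ (A - NA) := hAQ.sub (hNAQ O.lat hAQ)
  have hPA : 0 < S.I P A := pos_mul T hA hP hw
  have hPY : S.I P (A - NA) = S.I P A := by
    rw [map_sub, orth_of_sup hN.2 hNA.1, sub_zero]
  obtain ⟨r, hr⟩ := hRAT (D - ND) (A - NA) τ hXQ hYQ (eX ▸ hP) (eX ▸ hPP) (eX ▸ hw)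
    (by rw [← eX, hPY]; exact hPA) (by
      rw [← eX, hPY, O.sym]
      have h1 : S.I P (S.Kc + ((1 + τ) • A + M) + B - N) = 0 := hPP
      have h2 := T.kle _ _ hP hM
      have h3 := hP.eff hB0
      have h4 := mul_pos hτ hPA
      rw [map_sub, orth_of_sup hN.2 hN.1, map_add, map_add, map_add, map_smul, smul_eq_mul] at h1
      linarith)
  have hPQ : IsQ P := by
    rw [eX, hr]
    exact hXQ.add (hYQ.smul r)
  obtain ⟨F, hF, hPF⟩ := hFIB P (hBPF _ B N s hA' hB0 hPQ hN hs hP hPP hw) hPP hw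
  have hFs : F ∉ s := fun h => absurd (hs.diag h) (not_lt.2 hF)
  obtain ⟨NF, hNF, -⟩ := hex (cv F)
  obtain ⟨hNF0, hFn⟩ := prj_nef LA.nega L0 hs (L0.nef_cv hF) hNF
  have hPF' : S.I P (cv F - NF) = 0 := by
    rw [map_sub, hPF, orth_of_sup hN.2 hNF.1, sub_zero]
  have hFF : S.I (cv F - NF) (cv F - NF) ≤ 0 := not_lt.1 fun h =>
    hw.ne' ((T.hodge _ P h (by rw [O.sym]; exact hPF')).2 hPP _)
  have hk := hKEY _ B N NF s F (O.pos_nef hA') hB0 hB1 hs hFs hN hNF hFF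
  refine ⟨s, cv F, NF, hs, hs', hNF, hFn, hdeg _ NF hNF hPF' ?_, Or.inr ⟨F, rfl, ?_⟩⟩
  · have h1 := O.pos_cv hA F
    have h2 := hAn.eff hNF0
    rw [map_neg] at h2
    rw [map_sub]
    linarith
  · have h1 := hle F
    rw [← hPdef, hPF] at hk
    linarith

end Pool.Agent.MP_ee8c61_ag.M3SN
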