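import Pool.Agent.MP_ee8c61_ag.M3SN.SpecN

/-!
Rationality of thresholds and moving curves in fibres.
-/

set_option autoImplicit false

namespace Pool.Agent.MP_ee8c61_ag.M3SN

namespace RRAT

theorem ne0 {τ : ℝ} (h : ∀ r : ℚ, τ ≠ r) {k : ℤ} (hk : k ≠ 0) (j : ℤ) : (k : ℝ) * τ - j ≠ 0 :=
  fun e => h (j / k) (by
    have : (k : ℝ) ≠ 0 := Int.cast_ne_zero.2 hk
    push_cast
    field_simp
    linarith)

theorem dir1 {τ : ℝ} (h : ∀ r : ℚ, τ ≠ r) {δ : ℝ} (hδ : 0 < δ) :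
    ∃ q p : ℤ, 0 < q ∧ 0 < q * τ - p ∧ q * τ - p ≤ δ := by
  obtain ⟨n, hn⟩ := exists_nat_one_div_lt hδ
  obtain ⟨j, k, hk, -, h1⟩ := Real.exists_int_int_abs_mul_sub_le τ (Nat.succ_pos n)
  have hn0 : (0 : ℝ) ≤ n := Nat.cast_nonneg n
  have h2 : |k * τ - j| ≤ δ := h1.trans (le_trans
    (one_div_le_one_div_of_le (by positivity) (by push_cast; linarith)) hn.le)
  have h3 : |k * τ - j| ≤ 1 := h1.trans (by
    rw [div_le_one (by positivity)]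
    push_cast
    linarith)
  rcases lt_or_gt_of_ne (ne0 h hk.ne' j) with h4 | h4
  · rw [abs_of_neg h4] at h2 h3
    obtain ⟨η, hη⟩ : ∃ η, η = -(k * τ - j) := ⟨_, rfl⟩
    rw [← hη] at h2 h3
    have h5 : 0 < η := by linarith
    have h6 : (⌊1 / η⌋ : ℝ) * η ≤ 1 := (le_div_iff₀ h5).1 (Int.floor_le _)
    have h7 : 1 < ((⌊1 / η⌋ : ℝ) + 1) * η := (div_lt_iff₀ h5).1 (Int.lt_floor_add_one _)
    have h8 : 0 < ⌊1 / η⌋ := Int.floor_pos.2 ((le_div_iff₀ h5).2 (by linarith))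
    have h9 : ((⌊1 / η⌋ * k : ℤ) : ℝ) * τ - ((⌊1 / η⌋ * j - 1 : ℤ) : ℝ) = 1 - ⌊1 / η⌋ * η := by
      push_cast
      linear_combination (⌊1 / η⌋ : ℝ) * hη
    refine ⟨⌊1 / η⌋ * k, ⌊1 / η⌋ * j - 1, mul_pos h8 hk,
      lt_of_le_of_ne (by rw [h9]; linarith) (ne0 h (mul_pos h8 hk).ne' _).symm, ?_⟩
    rw [h9]
    linarith
  · exact ⟨k, j, hk, h4, (le_abs_self _).trans h2⟩

theorem dir2 {τ : ℝ} (h : ∀ r : ℚ, τ ≠ r) {δ : ℝ} (hδ : 0 < δ) (Q : ℝ) :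
    ∃ q p : ℤ, Q ≤ q ∧ 0 < q * τ - p ∧ q * τ - p ≤ δ := by
  obtain ⟨n, hn⟩ := exists_nat_ge Q
  have h0 : (0 : ℝ) < n + 1 := by positivity
  obtain ⟨q, p, h1, h2, h3⟩ := dir1 h (div_pos hδ h0)
  have h4 : (1 : ℝ) ≤ q := by exact_mod_cast h1
  have e : (((n + 1) * q : ℤ) : ℝ) * τ - (((n + 1) * p : ℤ) : ℝ) = (n + 1) * (q * τ - p) := by
    push_cast
    ring
  refine ⟨(n + 1) * q, (n + 1) * p, ?_, ?_, ?_⟩
  · push_cast
    nlinarith
  · rw [e]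
    exact mul_pos h0 h2
  · rw [e, mul_comm]
    exact (le_div_iff₀ h0).1 h3

variable {K : Type} [Field K] [Algebra ℂ K] {S : NS K}

theorem rat (O : S.OK) (h2 : S.E2) : S.RAT := fun X Y τ hX hY hP h0 hw hu hK => by
  by_contra hn
  push Not at hn
  obtain ⟨β, hβ⟩ := h2
  obtain ⟨a, ha, haX⟩ := hX.clear
  obtain ⟨b, hb, hbY⟩ := hY.clear
  obtain ⟨P, hPe⟩ : ∃ P, P = X + τ • Y := ⟨_, rfl⟩
  rw [← hPe] at hP h0 hw hu hK
  have hr : (1 : ℝ) ≤ a * b := by exact_mod_cast Nat.mul_pos ha hb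
  obtain ⟨q, p, h3, h4, h5⟩ := dir2 hn (δ := 1 / 4 / (a * b)) (by positivity)
    (max ((|β| + |S.I Y S.w|) / S.I P S.w)
      ((4 * |S.c0| + 2 * |S.I Y Y| + 2 * |S.I S.Kc Y| + 1) / S.I P Y))
  obtain ⟨d, hd⟩ : ∃ d : ℝ, d = a * b * (q * τ - p) := ⟨_, rfl⟩
  obtain ⟨Q, hQ⟩ : ∃ Q : ℝ, Q = a * b * q := ⟨_, rfl⟩
  have d0 : 0 < d := hd ▸ mul_pos (by linarith) h4
  have d1 : d ≤ 1 / 4 := by
    rw [hd, mul_comm]
    exact (le_div_iff₀ (by linarith)).1 h5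
  have q1 : |β| + |S.I Y S.w| ≤ q * S.I P S.w := (div_le_iff₀ hw).1 ((le_max_left _ _).trans h3)
  have q2 : 4 * |S.c0| + 2 * |S.I Y Y| + 2 * |S.I S.Kc Y| + 1 ≤ q * S.I P Y :=
    (div_le_iff₀ hu).1 ((le_max_right _ _).trans h3)
  have q0 : (0 : ℝ) ≤ q := le_trans (by positivity) ((le_max_left _ _).trans h3)
  have q3 : (q : ℝ) ≤ Q := by rw [hQ]; nlinarith
  have q4 : q * S.I P S.w ≤ Q * S.I P S.w := mul_le_mul_of_nonneg_right q3 hw.le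
  have q5 : q * S.I P Y ≤ Q * S.I P Y := mul_le_mul_of_nonneg_right q3 hu.le
  have hL : IsZ (Q • P - d • Y) := by
    have := (haX.zsmul (b * q)).add (hbY.zsmul (a * p))
    have e : Q • P - d • Y =
        ((b * q : ℤ) : ℝ) • (a : ℝ) • X + ((a * p : ℤ) : ℝ) • (b : ℝ) • Y := by
      rw [hPe, hd, hQ]
      push_cast
      module
    rwa [e]
  have b1 : ∀ x t : ℝ, 0 ≤ t → t ≤ 1 → -|x| ≤ t * x ∧ t * x ≤ |x| := fun x t t0 t1 => by
    have : |t * x| ≤ |x| := by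
      rw [abs_mul, abs_of_nonneg t0]
      exact mul_le_of_le_one_left (abs_nonneg x) t1
    exact abs_le.1 this
  have h6 : S.chi (Q • P - d • Y) ≤ S.h0 (Q • P - d • Y) := hβ _ hL (by
    simp only [map_sub, map_smul, LinearMap.sub_apply, LinearMap.smul_apply, smul_eq_mul]
    linarith [(b1 (S.I Y S.w) d d0.le (by linarith)).2, le_abs_self β])
  have h7 : 0 < S.chi (Q • P - d • Y) := by
    simp only [NS.chi, map_sub, map_smul, LinearMap.sub_apply, LinearMap.smul_apply, smul_eq_mul,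
      h0, O.sym Y P]
    have c1 := (b1 (S.I S.Kc Y) d d0.le (by linarith)).1
    have c2 := (b1 (S.I Y Y) (d * d) (by positivity) (by nlinarith)).1
    have c3 : Q * S.I S.Kc P ≤ Q * -S.I P Y := mul_le_mul_of_nonneg_left hK (q0.trans q3)
    have c4 : d * (Q * S.I P Y) ≤ 1 / 4 * (Q * S.I P Y) :=
      mul_le_mul_of_nonneg_right d1 (mul_nonneg (q0.trans q3) hu.le)
    linarith [neg_abs_le S.c0]
  obtain ⟨f, hf, h8⟩ := NS.sec_of_pos (h7.trans_le h6)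
  have h9 := O.nef_sec hP hf h8
  simp only [map_sub, map_smul, smul_eq_mul, h0] at h9
  linarith [mul_pos d0 hu]

theorem fibc (O : S.OK) (hN : S.NEG) : S.FIBC := fun P hP h0 hw => by
  obtain ⟨m, hm, hZ, hB⟩ := hP
  have m0 : (0 : ℝ) < m := Nat.cast_pos.2 hm
  obtain ⟨M, hM⟩ : ∃ M, M = (m : ℝ) • P := ⟨_, rfl⟩
  rw [← hM] at hZ hB
  have hMM : S.I M M = 0 := by
    simp only [hM, map_smul, LinearMap.smul_apply, smul_eq_mul, h0, mul_zero]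
  have hwM : 0 < S.I S.w M := by
    rw [hM, map_smul, smul_eq_mul, O.sym]
    exact mul_pos m0 hw
  obtain ⟨p, hp⟩ := O.off (hN (S.I S.w M)).toFinset
  obtain ⟨f, hf, h1, h2⟩ := hB p
  obtain ⟨C0, hC0⟩ : ∃ C0, (S.dv f + M) C0 ≠ 0 := by
    by_contra hn
    push Not at hn
    have e : S.dv f + M = 0 := Finsupp.ext hn
    have := congrArg (S.I S.w) e
    rw [map_add, O.dv_r hf, zero_add, map_zero] at this
    exact hwM.ne' this
  obtain ⟨p1, hp1⟩ := O.pt C0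
  obtain ⟨g, hg, h3, h4⟩ := hB p1
  have e1 : S.dv (g / f) = (S.dv g + M) - (S.dv f + M) := by
    rw [NS.dv_div hg hf]
    abel
  obtain ⟨a, ha⟩ := O.ev (g / f) p (div_ne_zero hg hf) fun C hC => by
    rw [e1, Finsupp.sub_apply, h2 C hC, sub_zero]
    exact h3 C
  have h5 : g / f - algebraMap ℂ K a ≠ 0 := fun e => by
    have e' := sub_eq_zero.1 e
    have a0 : a ≠ 0 := fun e0 => div_ne_zero hg hf (by rw [e', e0, map_zero])
    rw [e', S.dv_const a a0] at e1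
    exact hC0 (by rw [← sub_eq_zero.1 e1.symm]; exact h4 C0 hp1)
  obtain ⟨F, hF, h6⟩ := ha h5
  have h7 : (g / f - algebraMap ℂ K a) * f ∈ S.H0 M := by
    rw [sub_mul, div_mul_cancel₀ _ hf, ← Algebra.smul_def]
    exact sub_mem (fun _ => h3) (Submodule.smul_mem _ _ fun _ => h1)
  have h8 := mul_ne_zero h5 hf
  have h9 := h7 h8
  have e2 : 0 < (S.dv ((g / f - algebraMap ℂ K a) * f) + M) F := by
    rw [S.dv_mul _ _ h5 hf, add_assoc, Finsupp.add_apply, h2 F hF, add_zero]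
    exact h6
  have e3 := ((O.dvZ _ h8).add hZ).one_le e2
  have e4 := O.w_nef.term_le h9 F
  rw [map_add, O.dv_r h8, zero_add] at e4
  refine ⟨F, not_lt.1 fun e => hp F ((Set.Finite.mem_toFinset _).2 ⟨e, ?_⟩) hF, ?_⟩
  · nlinarith [O.wpos F]
  · have := (O.bpf_nef hB).comp h9 (by rw [map_add, O.dv_r h8, zero_add, hMM]) e2.ne'
    rw [hM, map_smul, LinearMap.smul_apply, smul_eq_mul] at this
    exact (mul_eq_zero.1 this).resolve_left m0.ne'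

end RRAT

theorem rowRAT : RowRAT := fun _ _ _ _ O => ⟨RRAT.rat O, RRAT.fibc O⟩

end Pool.Agent.MP_ee8c61_ag.M3SN
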