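import Pool.Agent.MP_ee8c61_ag.M3SN.SpecN

/-!
Row T4: finite generation of adjoint rings from the Zariski chambers.
-/

set_option autoImplicit false

namespace Pool.Agent.MP_ee8c61_ag.M3SN

open Finset

namespace RT4

/-- Combinations with coefficients `n i * m i`. -/
noncomputable def comb {ι : Type} {l : ℕ} (m : Fin l → ℕ) (X : Fin l → ι →₀ ℝ) :
    (Fin l → ℕ) →+ (ι →₀ ℝ) where
  toFun n := ∑ i, ((n i * m i : ℕ) : ℝ) • X i
  map_zero' := sum_eq_zero fun i _ => by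
    rw [Pi.zero_apply, zero_mul, Nat.cast_zero, zero_smul]
  map_add' n n' := by
    rw [← sum_add_distrib]
    exact sum_congr rfl fun i _ => by rw [Pi.add_apply, add_mul, Nat.cast_add, add_smul]

theorem comb_apply {ι : Type} {l : ℕ} (m : Fin l → ℕ) (X : Fin l → ι →₀ ℝ) (n : Fin l → ℕ) :
    comb m X n = ∑ i, ((n i * m i : ℕ) : ℝ) • X i := rfl

theorem comb_sub {ι : Type} {l : ℕ} (m : Fin l → ℕ) (X Y : Fin l → ι →₀ ℝ) (n : Fin l → ℕ) :
    comb m (fun i => X i - Y i) n = comb m X n - comb m Y n := by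
  rw [comb_apply, comb_apply, comb_apply, ← sum_sub_distrib]
  exact sum_congr rfl fun i _ => smul_sub _ _ _

theorem comb_at {ι : Type} {l : ℕ} (m : Fin l → ℕ) (X : Fin l → ι →₀ ℝ) (n : Fin l → ℕ) (C : ι) :
    comb m X n C = ∑ i, ((n i * m i : ℕ) : ℝ) * X i C := by
  rw [comb_apply, Finsupp.finsetSum_apply]
  rfl

theorem gor (hG : StmtGOR) {l : ℕ} (m : Fin l → ℕ) (Λ : Finset (Fin l → ℚ)) :
    ∃ (s : ℕ) (lam : Fin s → Fin l → ℕ),
      (∀ j, ∀ φ ∈ Λ, 0 ≤ ∑ i, φ i * ((lam j i * m i : ℕ) : ℚ)) ∧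
      ∀ n : Fin l → ℕ, (∀ φ ∈ Λ, 0 ≤ ∑ i, φ i * ((n i * m i : ℕ) : ℚ)) →
        ∃ a : Fin s → ℕ, ∑ j, a j • lam j = n := by
  classical
  have e : ∀ (φ : Fin l → ℚ) (n : Fin l → ℕ),
      ∑ i, φ i * m i * n i = ∑ i, φ i * ((n i * m i : ℕ) : ℚ) := fun φ n =>
    sum_congr rfl fun i _ => by rw [Nat.cast_mul, mul_assoc, mul_comm (m i : ℚ)]
  obtain ⟨s, lam, h1, h2⟩ := hG l (Λ.image fun φ i => φ i * m i)
  refine ⟨s, lam, fun j φ hφ => ?_, fun n hn => h2 n fun φ' hφ' => ?_⟩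
  · rw [← e]
    exact h1 j _ (mem_image_of_mem _ hφ)
  · obtain ⟨φ, hφ, rfl⟩ := mem_image.1 hφ'
    rw [e]
    exact hn φ hφ

theorem big {ι : Type} {H Y : ι →₀ ℝ} (hH : 0 ≤ H) (h : ∀ C, H C = 0 → 0 ≤ Y C) :
    ∃ t : ℝ, 0 ≤ Y + t • H := by
  refine ⟨∑ C ∈ H.support, |Y C| / H C, fun C => ?_⟩
  have e : (Y + (∑ C ∈ H.support, |Y C| / H C) • H) C =
      Y C + (∑ C ∈ H.support, |Y C| / H C) * H C := rfl
  rw [e]
  show (0 : ℝ) ≤ _
  by_cases h0 : H C = 0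
  · rw [h0, mul_zero, add_zero]
    exact h C h0
  · have h1 : 0 < H C := lt_of_le_of_ne (hH C) (Ne.symm h0)
    have h2 := single_le_sum (f := fun C => |Y C| / H C)
      (fun C _ => div_nonneg (abs_nonneg _) (hH C)) (Finsupp.mem_support_iff.2 h0)
    rw [div_le_iff₀ h1] at h2
    linarith [neg_abs_le (Y C)]

theorem ext0 {α : Type} [Fintype α] {σ : α → ℕ} (s : α) (a : Fin (σ s) → ℕ) :
    ∃ a0 : (Σ x, Fin (σ x)) → ℕ, ∀ (M : Type) [AddCommMonoid M] (X : (Σ x, Fin (σ x)) → M),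
      ∑ q, a0 q • X q = ∑ j, a j • X ⟨s, j⟩ := by
  classical
  refine ⟨fun q => (Pi.single s a : ∀ x, Fin (σ x) → ℕ) q.1 q.2, fun M _ X => ?_⟩
  rw [Fintype.sum_sigma, sum_eq_single s]
  · simp only [Pi.single_eq_same]
  · intro b _ hb
    refine sum_eq_zero fun j _ => ?_
    simp only [Pi.single_eq_of_ne hb, Pi.zero_apply, zero_smul]
  · exact fun h => absurd (mem_univ s) h

variable {K : Type} [Field K] [Algebra ℂ K] {S : NS K}

/-- Sections off the support of `H`, as a submodule. -/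
def HA (S : NS K) (H D : S.Crv →₀ ℝ) : Submodule ℂ K where
  carrier := {f | S.Ha H D f}
  zero_mem' := fun h => absurd rfl h
  add_mem' := by
    intro f g hf hg h C hC
    by_cases h1 : f = 0
    · rw [h1, zero_add] at h ⊢
      exact hg h C hC
    by_cases h2 : g = 0
    · rw [h2, add_zero]
      exact hf h1 C hC
    have a1 : (0 : ℝ) ≤ S.dv f C + D C := hf h1 C hC
    have a2 : (0 : ℝ) ≤ S.dv g C + D C := hg h2 C hC
    have a3 := S.dv_add f g C h1 h2 h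
    show (0 : ℝ) ≤ S.dv (f + g) C + D C
    rcases min_le_iff.1 a3 with a | a <;> linarith
  smul_mem' := by
    intro a f hf h
    have h1 : a ≠ 0 := fun e => h (by rw [e, zero_smul])
    have h2 : f ≠ 0 := fun e => h (by rw [e, smul_zero])
    rw [Algebra.smul_def, S.dv_mul _ _ ((map_ne_zero _).2 h1) h2, S.dv_const a h1, zero_add]
    exact hf h2

theorem dv_prod {J : Type} (s : Finset J) (g : J → K) (a : J → ℕ) (hg : ∀ j, g j ≠ 0) :
    S.dv (∏ j ∈ s, g j ^ a j) = ∑ j ∈ s, a j • S.dv (g j) := by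
  classical
  induction s using Finset.induction_on with
  | empty => rw [prod_empty, sum_empty, NS.dv_one]
  | insert j s hj ih =>
    rw [prod_insert hj, sum_insert hj, S.dv_mul _ _ (pow_ne_zero _ (hg j))
      (prod_ne_zero_iff.2 fun i _ => pow_ne_zero _ (hg i)), ih, NS.dv_pow (hg j),
      Nat.cast_smul_eq_nsmul]

theorem mult {J : Type} [Fintype J] (P : J → S.Crv →₀ ℝ) (h : ∀ q, S.SA (P q)) :
    ∃ k : ℕ, 0 < k ∧ ∀ q, S.Bpf ((k : ℝ) • P q) := by
  choose μ h1 _ h3 using h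
  refine ⟨∏ q, μ q, prod_pos fun q _ => h1 q, fun q => ?_⟩
  obtain ⟨c, hc⟩ := dvd_prod_of_mem μ (mem_univ q)
  rw [hc, Nat.cast_mul, mul_comm, mul_smul]
  exact (h3 q).nsmul c

theorem off {H : S.Crv →₀ ℝ} (h0 : 0 ≤ H) (hb : S.Bpf H) {V : ValuationSubring K} {p : S.Pt}
    (hV : ∀ u ∈ S.H0 H, u ∈ V)
    (hp : ∀ f, f ≠ 0 → (∀ C, S.on p C → 0 ≤ S.dv f C) →
      f ∈ V ∧ ((∃ C, S.on p C ∧ 0 < S.dv f C) → f⁻¹ ∉ V)) (C : S.Crv) (hC : S.on p C) :
    H C = 0 := by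
  obtain ⟨f, hf, h1, h2⟩ := hb p
  have e : ∀ C', S.on p C' → S.dv f⁻¹ C' = H C' := fun C' hC' => by
    have h3 : S.dv f C' + H C' = 0 := h2 C' hC'
    rw [NS.dv_inv hf, Finsupp.neg_apply]
    linarith
  by_contra hn
  refine (hp f⁻¹ (inv_ne_zero hf) fun C' hC' => ?_).2 ⟨C, hC, ?_⟩ ?_
  · rw [e C' hC']
    exact h0 C'
  · rw [e C hC]
    exact lt_of_le_of_ne (h0 C) (Ne.symm hn)
  · rw [inv_inv]
    exact hV f fun _ => h1

end RT4

open RT4 in
theorem rowT4 : RowT4 := by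
  intro hL hG hI K _ _ _ S O hCen hCh l W A H B m hA _
  obtain ⟨j, Ω, N, Λ, hΩ, hcov⟩ := hCh l W A H B hA
  choose σ lam hl1 hl2 using fun s : Ω => gor hG m (Λ s)
  let X : Fin l → S.Crv →₀ ℝ := fun i => S.Kc + (A + (j : ℝ) • H) + B i
  let X0 : Fin l → S.Crv →₀ ℝ := fun i => S.Kc + A + B i
  let P : Finset S.Crv → (Fin l → ℕ) →+ (S.Crv →₀ ℝ) := fun s => comb m fun i => X i - N s i
  have hP : ∀ s n, P s n = comb m X n - comb m (N s) n := fun s n => comb_sub m X (N s) n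
  have hoff : ∀ n C, H C = 0 → comb m X n C = comb m X0 n C := fun n C hC => by
    rw [comb_at, comb_at]
    refine sum_congr rfl fun i _ => congrArg _ ?_
    show S.Kc C + (A C + (j : ℝ) * H C) + B i C = S.Kc C + A C + B i C
    rw [hC, mul_zero, add_zero]
  obtain ⟨k, hk, hb⟩ := mult (fun q : Σ s : Ω, Fin (σ s) => P q.1 (lam q.1 q.2)) fun q => by
    rw [hP]
    exact ((hΩ q.1 q.1.2).2.2.2 _ (hl1 q.1 q.2)).2
  refine hI K l (fun n => HA S H (comb m X0 n)) (Option (Σ s : Ω, Fin (σ s)))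
    (fun o => o.elim 0 fun q => k • lam q.1 q.2)
    (fun o => o.elim (S.H0 H) fun q => S.H0 ((k : ℝ) • P q.1 (lam q.1 q.2))) ?_ ?_
  · rintro (_ | q)
    · refine ⟨O.fin H, fun f hf h0 C hC => ?_⟩
      have h1 : (0 : ℝ) ≤ S.dv f C + H C := hf h0 C
      show (0 : ℝ) ≤ S.dv f C + comb m X0 0 C
      rw [hC] at h1
      rw [map_zero, Finsupp.zero_apply]
      exact h1
    · refine ⟨O.fin _, fun f hf h0 C hC => ?_⟩
      have h1 : (0 : ℝ) ≤ S.dv f C + k * P q.1 (lam q.1 q.2) C := hf h0 C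
      have h2 : (0 : ℝ) ≤ comb m (N q.1) (lam q.1 q.2) C :=
        ((hΩ q.1 q.1.2).2.2.2 _ (hl1 q.1 q.2)).1 C
      show (0 : ℝ) ≤ S.dv f C + comb m X0 (k • lam q.1 q.2) C
      rw [hP, Finsupp.sub_apply, hoff _ C hC, mul_sub] at h1
      rw [map_nsmul, Finsupp.smul_apply, nsmul_eq_mul]
      have h3 := mul_nonneg (Nat.cast_nonneg k : (0 : ℝ) ≤ k) h2
      linarith
  · intro V hV1 hV2 n u hu hu0
    obtain ⟨p, hp⟩ := hCen V hV1
    have hH := off hA.H0 hA.Hb (hV2 none rfl) hp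
    obtain ⟨t, ht⟩ := big (Y := S.dv u + comb m X n) hA.H0 fun C hC => by
      rw [Finsupp.add_apply, hoff n C hC]
      exact hu hu0 C hC
    obtain ⟨s, hs, hn⟩ := hcov (fun i => n i * m i) t fun Q hQ => by
      rw [O.sym]
      exact O.nef_sec hQ hu0 (by rw [← add_assoc]; exact ht)
    obtain ⟨hnd, hHs, hpr, _⟩ := hΩ s hs
    obtain ⟨a, ha⟩ := hl2 ⟨s, hs⟩ n hn
    obtain ⟨a0, ha0⟩ := ext0 (σ := σ) ⟨s, hs⟩ a
    have hX : 0 ≤ S.dv u + P s n + t • H := by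
      refine (hL.nega _ S.I s _ O.lat.toLat0 hnd (fun C hC => ?_) fun C hC => ?_).1
      · have h1 : comb m (N s) n C = 0 := by
          rw [comb_at]
          exact sum_eq_zero fun i _ => by rw [(hpr i).1 C hC, mul_zero]
        have h2 : (0 : ℝ) ≤ S.dv u C + comb m X n C + t * H C := ht C
        show (0 : ℝ) ≤ S.dv u C + P s n C + t * H C
        rw [hP, Finsupp.sub_apply, h1, sub_zero]
        exact h2
      · have h1 : S.I (P s n) (cv C) = 0 := by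
          rw [comb_apply, map_sum, LinearMap.sum_apply]
          refine sum_eq_zero fun i _ => ?_
          rw [map_smul, LinearMap.smul_apply, (hpr i).2 C hC, smul_zero]
        rw [map_add, map_add, LinearMap.add_apply, LinearMap.add_apply, O.dv_l hu0, h1, map_smul,
          LinearMap.smul_apply, hHs C hC, smul_zero, add_zero, add_zero]
    choose g hg0 hg1 hg2 using fun q => hb q p
    have e1 : ∏ o : Option (Σ s : Ω, Fin (σ s)), (o.elim 0 g : K) ^ (o.elim 0 a0 : ℕ) =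
        ∏ q, g q ^ a0 q := by
      rw [Fintype.prod_option]
      exact (congrArg (· * _) (pow_zero _)).trans (one_mul _)
    have hne : ∏ q, g q ^ a0 q ≠ 0 := prod_ne_zero_iff.2 fun q _ => pow_ne_zero _ (hg0 q)
    refine ⟨k, fun o => o.elim 0 a0, fun o => o.elim 0 g, hk, ?_, ?_, ?_, ?_⟩
    · rintro (_ | q)
      · exact zero_mem _
      · exact fun _ => hg1 q
    · rw [e1]
      exact hne
    · rw [Fintype.sum_option]
      show 0 • (0 : Fin l → ℕ) + ∑ q, a0 q • k • lam q.1 q.2 = k • n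
      rw [zero_smul, zero_add, ha0, ← ha, smul_sum]
      exact sum_congr rfl fun i _ => smul_comm _ _ _
    · rw [e1]
      refine (hp _ (div_ne_zero (pow_ne_zero _ hu0) hne) fun C hC => ?_).1
      have h1 : (0 : ℝ) ≤ S.dv u C + P s n C + t * H C := hX C
      have h2 : (∑ i, a i • S.dv (g ⟨⟨s, hs⟩, i⟩)) C = -(k * P s n C) := by
        rw [← ha, map_sum, Finsupp.finsetSum_apply, Finsupp.finsetSum_apply, mul_sum,
          ← sum_neg_distrib]
        refine sum_congr rfl fun i _ => ?_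
        have h3 : S.dv (g ⟨⟨s, hs⟩, i⟩) C + k * P s (lam ⟨s, hs⟩ i) C = 0 := hg2 ⟨⟨s, hs⟩, i⟩ C hC
        rw [map_nsmul, Finsupp.smul_apply, Finsupp.smul_apply, nsmul_eq_mul, nsmul_eq_mul]
        linear_combination (a i : ℝ) * h3
      rw [NS.dv_div (pow_ne_zero _ hu0) hne, NS.dv_pow hu0, dv_prod _ _ _ hg0, ha0,
        Finsupp.sub_apply, h2, Finsupp.smul_apply, smul_eq_mul, sub_neg_eq_add, ← mul_add]
      rw [hH C hC, mul_zero, add_zero] at h1
      exact mul_nonneg (Nat.cast_nonneg k) h1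

end Pool.Agent.MP_ee8c61_ag.M3SN
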