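import Pool.Agent.MP_ee8c61_ag.M3SN.SpecN2
import Pool.Agent.MP_ee8c61_ag.M3SN.RT4

/-!
Finite generation of adjoint rings from the Zariski chambers.
-/

set_option autoImplicit false

namespace Pool.Agent.MP_ee8c61_ag.M3SN

open Finset

theorem NS.off2 {K : Type} [Field K] [Algebra ℂ K] {S : NS K} {H : S.Crv →₀ ℝ} (h0 : 0 ≤ H)
    (hb : S.Bpf H) {p : S.Pt} (hp : ∀ f, f ≠ 0 → (∀ C, S.on p C → 0 ≤ S.dv f C) →
      (∃ C, S.on p C ∧ 0 < S.dv f C) → f⁻¹ ∉ S.H0 H) (C : S.Crv) (hC : S.on p C) :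
    H C = 0 := by
  obtain ⟨f, hf, h1, h2⟩ := hb p
  have e : ∀ C', S.on p C' → S.dv f⁻¹ C' = H C' := fun C' hC' => by
    have h3 : S.dv f C' + H C' = 0 := h2 C' hC'
    rw [NS.dv_inv hf, Finsupp.neg_apply]
    linarith
  by_contra hn
  refine hp f⁻¹ (inv_ne_zero hf) (fun C' hC' => ?_) ⟨C, hC, ?_⟩ ?_
  · rw [e C' hC']
    exact h0 C'
  · rw [e C hC]
    exact lt_of_le_of_ne (h0 C) (Ne.symm hn)
  · rw [inv_inv]
    exact fun _ => h1

open RT4 in
theorem rowT4b : RowT4b := by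
  intro hL hG hI K _ _ _ S O hCen hCh l W A H B m hA _
  obtain ⟨j, Ω, N, Λ, hΩ, hcov⟩ := hCh l W A H B hA
  choose σ lam hl1 hl2 using fun s : Ω => gor hG m (Λ s)
  let X : Fin l → S.Crv →₀ ℝ := fun i => S.Kc + (A + (j : ℝ) • H) + B i
  let X0 : Fin l → S.Crv →₀ ℝ := fun i => S.Kc + A + B i
  let P : Finset S.Crv → (Fin l → ℕ) →+ (S.Crv →₀ ℝ) := fun s => comb m fun i => X i - N s i
  have hP : ∀ s n, P s n = comb m X n - comb m (N s) n := fun s n => comb_sub m X (N s) n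
  have hoff : ∀ n C, H C = 0 → comb m X n C = comb m X0 n C := fun n C hC => by
    rw [comb_at, comb_at]
    refine sum_congr rfl fun i _ => congrArg _ ?_
    show S.Kc C + (A C + (j : ℝ) * H C) + B i C = S.Kc C + A C + B i C
    rw [hC, mul_zero, add_zero]
  obtain ⟨k, hk, hb⟩ := mult (fun q : Σ s : Ω, Fin (σ s) => P q.1 (lam q.1 q.2)) fun q => by
    rw [hP]
    exact ((hΩ q.1 q.1.2).2.2.2 _ (hl1 q.1 q.2)).2
  refine hI K l (fun n => HA S H (comb m X0 n)) (Option (Σ s : Ω, Fin (σ s)))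
    (fun o => o.elim 0 fun q => k • lam q.1 q.2)
    (fun o => o.elim (S.H0 H) fun q => S.H0 ((k : ℝ) • P q.1 (lam q.1 q.2))) ?_ ?_
  · rintro (_ | q)
    · refine ⟨O.fin H, fun f hf h0 C hC => ?_⟩
      have h1 : (0 : ℝ) ≤ S.dv f C + H C := hf h0 C
      show (0 : ℝ) ≤ S.dv f C + comb m X0 0 C
      rw [hC] at h1
      rw [map_zero, Finsupp.zero_apply]
      exact h1
    · refine ⟨O.fin _, fun f hf h0 C hC => ?_⟩
      have h1 : (0 : ℝ) ≤ S.dv f C + k * P q.1 (lam q.1 q.2) C := hf h0 C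
      have h2 : (0 : ℝ) ≤ comb m (N q.1) (lam q.1 q.2) C :=
        ((hΩ q.1 q.1.2).2.2.2 _ (hl1 q.1 q.2)).1 C
      show (0 : ℝ) ≤ S.dv f C + comb m X0 (k • lam q.1 q.2) C
      rw [hP, Finsupp.sub_apply, hoff _ C hC, mul_sub] at h1
      rw [map_nsmul, Finsupp.smul_apply, nsmul_eq_mul]
      have h3 := mul_nonneg (Nat.cast_nonneg k : (0 : ℝ) ≤ k) h2
      linarith
  · intro V hV1 hV2 n u hu hu0
    obtain ⟨p, hp⟩ := hCen V hV1 (S.H0 H) (O.fin H) (hV2 none rfl)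
    have hH := NS.off2 hA.H0 hA.Hb fun f h1 h2 => (hp f h1 h2).2
    obtain ⟨t, ht⟩ := big (Y := S.dv u + comb m X n) hA.H0 fun C hC => by
      rw [Finsupp.add_apply, hoff n C hC]
      exact hu hu0 C hC
    obtain ⟨s, hs, hn⟩ := hcov (fun i => n i * m i) t fun Q hQ => by
      rw [O.sym]
      exact O.nef_sec hQ hu0 (by rw [← add_assoc]; exact ht)
    obtain ⟨hnd, hHs, hpr, _⟩ := hΩ s hs
    obtain ⟨a, ha⟩ := hl2 ⟨s, hs⟩ n hn
    obtain ⟨a0, ha0⟩ := ext0 (σ := σ) ⟨s, hs⟩ a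
    have hX : 0 ≤ S.dv u + P s n + t • H := by
      refine (hL.nega _ S.I s _ O.lat.toLat0 hnd (fun C hC => ?_) fun C hC => ?_).1
      · have h1 : comb m (N s) n C = 0 := by
          rw [comb_at]
          exact sum_eq_zero fun i _ => by rw [(hpr i).1 C hC, mul_zero]
        have h2 : (0 : ℝ) ≤ S.dv u C + comb m X n C + t * H C := ht C
        show (0 : ℝ) ≤ S.dv u C + P s n C + t * H C
        rw [hP, Finsupp.sub_apply, h1, sub_zero]
        exact h2
      · have h1 : S.I (P s n) (cv C) = 0 := by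
          rw [comb_apply, map_sum, LinearMap.sum_apply]
          refine sum_eq_zero fun i _ => ?_
          rw [map_smul, LinearMap.smul_apply, (hpr i).2 C hC, smul_zero]
        rw [map_add, map_add, LinearMap.add_apply, LinearMap.add_apply, O.dv_l hu0, h1, map_smul,
          LinearMap.smul_apply, hHs C hC, smul_zero, add_zero, add_zero]
    choose g hg0 hg1 hg2 using fun q => hb q p
    have e1 : ∏ o : Option (Σ s : Ω, Fin (σ s)), (o.elim 0 g : K) ^ (o.elim 0 a0 : ℕ) =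
        ∏ q, g q ^ a0 q := by
      rw [Fintype.prod_option]
      exact (congrArg (· * _) (pow_zero _)).trans (one_mul _)
    have hne : ∏ q, g q ^ a0 q ≠ 0 := prod_ne_zero_iff.2 fun q _ => pow_ne_zero _ (hg0 q)
    refine ⟨k, fun o => o.elim 0 a0, fun o => o.elim 0 g, hk, ?_, ?_, ?_, ?_⟩
    · rintro (_ | q)
      · exact zero_mem _
      · exact fun _ => hg1 q
    · rw [e1]
      exact hne
    · rw [Fintype.sum_option]
      show 0 • (0 : Fin l → ℕ) + ∑ q, a0 q • k • lam q.1 q.2 = k • n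
      rw [zero_smul, zero_add, ha0, ← ha, smul_sum]
      exact sum_congr rfl fun i _ => smul_comm _ _ _
    · rw [e1]
      refine (hp _ (div_ne_zero (pow_ne_zero _ hu0) hne) fun C hC => ?_).1
      have h1 : (0 : ℝ) ≤ S.dv u C + P s n C + t * H C := hX C
      have h2 : (∑ i, a i • S.dv (g ⟨⟨s, hs⟩, i⟩)) C = -(k * P s n C) := by
        rw [← ha, map_sum, Finsupp.finsetSum_apply, Finsupp.finsetSum_apply, mul_sum,
          ← sum_neg_distrib]
        refine sum_congr rfl fun i _ => ?_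
        have h3 : S.dv (g ⟨⟨s, hs⟩, i⟩) C + k * P s (lam ⟨s, hs⟩ i) C = 0 := hg2 ⟨⟨s, hs⟩, i⟩ C hC
        rw [map_nsmul, Finsupp.smul_apply, Finsupp.smul_apply, nsmul_eq_mul, nsmul_eq_mul]
        linear_combination (a i : ℝ) * h3
      rw [NS.dv_div (pow_ne_zero _ hu0) hne, NS.dv_pow hu0, dv_prod _ _ _ hg0, ha0,
        Finsupp.sub_apply, h2, Finsupp.smul_apply, smul_eq_mul, sub_neg_eq_add, ← mul_add]
      rw [hH C hC, mul_zero, add_zero] at h1
      exact mul_nonneg (Nat.cast_nonneg k) h1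

end Pool.Agent.MP_ee8c61_ag.M3SN
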