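import Pool.Agent.MP_ee8c61_ag.M3SN.SpecN

/-!
The key inequality and the Zariski decomposition of adjoint divisors.
-/

set_option autoImplicit false

namespace Pool.Agent.MP_ee8c61_ag.M3SN

open Finset

namespace RZAR

variable {ι : Type} {I : Fm ι} {s : Finset ι} {X Y N M : ι →₀ ℝ} {c : ι}

theorem swap (L : Lat0 I) (h : Prj I s X N) (h' : Prj I s Y M) :
    I (X - N) Y = I X (Y - M) := by
  have a1 : I (X - N) M = 0 := orth_of_sup h.2 h'.1
  have a2 : I (Y - M) N = 0 := orth_of_sup h'.2 h.1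
  rw [L.sym] at a2
  simp only [map_sub, LinearMap.sub_apply] at a1 a2 ⊢
  linarith

theorem neg_nonneg (hA : StmtNEGA) (L : Lat0 I) (hs : NegDef I s) (hc : c ∉ s)
    (h : Prj I s (cv c) M) : 0 ≤ -M := by
  refine (hA ι I s (-M) L hs (fun i hi => ?_) fun i hi => ?_).1
  · rw [Finsupp.neg_apply, h.1 i hi, neg_zero]
  · have a1 := h.2 i hi
    have a2 := L.off c i fun e => hc (e ▸ hi)
    simp only [map_sub, map_neg, LinearMap.sub_apply, LinearMap.neg_apply] at a1 ⊢
    linarith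

theorem star_nonneg (h0 : 0 ≤ -M) : 0 ≤ cv c - M := by
  rw [sub_eq_add_neg]
  exact add_nonneg (cv_nonneg c) h0

theorem star_sq (h : Prj I s (cv c) M) : I (cv c - M) (cv c - M) = I (cv c - M) (cv c) := by
  rw [map_sub, orth_of_sup h.2 h.1, sub_zero]

theorem star_off (L : Lat0 I) (h0 : 0 ≤ -M) (h : Prj I s (cv c) M) {j : ι} (hj : c ≠ j) :
    0 ≤ I (cv c - M) (cv j) := by
  by_cases e : j ∈ s
  · exact (h.2 j e).ge
  · exact L.eff_cv (star_nonneg h0) (by rw [Finsupp.sub_apply, cv_ne hj, h.1 j e, sub_zero])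

theorem star_eff (L : Lat0 I) (h0 : 0 ≤ -M) (h : Prj I s (cv c) M) (hY : 0 ≤ Y) (hc : Y c = 0) :
    0 ≤ I (cv c - M) Y := by
  rw [lin_sum (I (cv c - M)) (sup_support Y)]
  exact sum_nonneg fun j hj => mul_nonneg (hY j)
    (star_off L h0 h fun e => Finsupp.mem_support_iff.1 hj (e ▸ hc))

variable {K : Type} [Field K] [Algebra ℂ K] {S : NS K}

theorem key (hL : LatAll) (O : S.OK) : S.KEY := by
  intro A B N Nc s C hA hB hB1 hs hC hN hc hsq
  have L : Lat0 S.I := O.lat.toLat0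
  have h0 := neg_nonneg hL.nega L hs hC hc
  obtain ⟨N1, h1, h2, -⟩ := (hL.mum _ S.I s L hs).1
    fun i => S.I S.Kc (cv i) + S.I (cv C) (cv i)
  have h3 := hL.adjl _ S.I (S.I S.Kc) s C N1 O.latK hs hC h1 h2
  have h4 : Prj S.I s (S.Kc + cv C) N1 := ⟨h1, fun i hi => by
    have := h2 i hi
    simp only [map_sub, map_add, LinearMap.sub_apply, LinearMap.add_apply]
    linarith⟩
  have h5 := swap L h4 hc
  have h6 := swap L hN hc
  have h7 : 0 ≤ S.I A (-Nc) := hA.eff h0
  have h8 : 0 ≤ S.I (cv C - Nc) (B - B C • cv C) := by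
    refine star_eff L h0 hc (fun j => ?_) ?_
    · by_cases e : C = j
      · rw [← e, Finsupp.sub_apply, Finsupp.smul_apply, cv_self, smul_eq_mul, mul_one, sub_self]
        exact le_rfl
      · rw [Finsupp.sub_apply, Finsupp.smul_apply, cv_ne e, smul_zero, sub_zero]
        exact hB j
    · rw [Finsupp.sub_apply, Finsupp.smul_apply, cv_self, smul_eq_mul, mul_one, sub_self]
  rw [star_sq hc] at hsq
  have h9 := mul_nonneg (sub_nonneg.2 (hB1 C)) (_root_.neg_nonneg.2 hsq)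
  have h10 : S.I A (cv C - Nc) = S.I A (cv C) + S.I A (-Nc) := by rw [sub_eq_add_neg, map_add]
  rw [map_sub, map_smul, smul_eq_mul, L.sym _ B] at h8
  rw [h6]
  rw [map_sub, map_add, LinearMap.sub_apply, LinearMap.add_apply, LinearMap.add_apply,
    L.sym (cv C) (cv C - Nc)] at h5
  rw [map_add, map_add, LinearMap.add_apply, LinearMap.add_apply]
  nlinarith

theorem step (hL : LatAll) (O : S.OK) {A B N : S.Crv →₀ ℝ} {s : Finset S.Crv} {C : S.Crv}
    (hA : S.Pos A) (hB : 0 ≤ B) (hB1 : ∀ C, B C ≤ 1) (hP : S.Pass (S.Kc + A + B))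
    (hs : NegDef S.I s) (hN : Prj S.I s (S.Kc + A + B) N)
    (hneg : S.I (S.Kc + A + B - N) (cv C) < 0) :
    C ∉ s ∧ S.I (cv C) (cv C) < 0 ∧ S.I A (cv C) < 2 ∧
      ∃ M, Prj S.I s (cv C) M ∧ 0 ≤ -M ∧ S.I (cv C - M) (cv C - M) < 0 := by
  have L : Lat0 S.I := O.lat.toLat0
  have hC : C ∉ s := fun e => hneg.ne (hN.2 C e)
  obtain ⟨M, hM, -⟩ := (hL.mum _ S.I s L hs).2.2 (cv C)
  have h0 := neg_nonneg hL.nega L hs hC hM
  have h1 : S.I (cv C - M) (cv C - M) < 0 := by
    by_contra hn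
    have hnef : Nef S.I (cv C - M) := fun j => by
      by_cases e : C = j
      · rw [← e, ← star_sq hM]
        exact not_lt.1 hn
      · exact star_off L h0 hM e
    have := hP _ hnef
    rw [← swap L hN hM] at this
    exact absurd hneg (not_lt.2 this)
  have h2 := key hL O A B N M s C (O.pos_nef hA) hB hB1 hs hC hN hM h1.le
  have h3 : 0 ≤ S.I (-M) (cv C) :=
    L.eff_cv h0 (by rw [Finsupp.neg_apply, hM.1 C hC, neg_zero])
  refine ⟨hC, ?_, by linarith, M, hM, h0, h1⟩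
  rw [star_sq hM, sub_eq_add_neg, map_add, LinearMap.add_apply] at h1
  linarith

theorem zar (hL : LatAll) (O : S.OK) (hNEG : S.NEG) : S.ZAR := by
  classical
  intro A B hA hB hB1 hP
  have L : Lat0 S.I := O.lat.toLat0
  refine ⟨?_, fun s N hs hN h C => by_contra fun hn => ?_⟩
  swap
  · obtain ⟨-, a1, a2, -⟩ := step hL O hA hB hB1 hP hs hN (not_le.1 hn)
    exact hn (h C a1 a2)
  obtain ⟨T, hT⟩ : ∃ T : Finset S.Crv, ∀ C, S.I (cv C) (cv C) < 0 → S.I A (cv C) < 2 → C ∈ T := by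
    obtain ⟨ε, hε, h⟩ := hA
    refine ⟨(hNEG (2 / ε)).toFinset, fun C a1 a2 => (Set.Finite.mem_toFinset _).2 ⟨a1, ?_⟩⟩
    have := h C
    rw [map_sub, map_smul, LinearMap.sub_apply, LinearMap.smul_apply, smul_eq_mul] at this
    rw [le_div_iff₀ hε]
    linarith
  have main : ∀ (n : ℕ) (s : Finset S.Crv) (N : S.Crv →₀ ℝ), (T \ s).card < n → NegDef S.I s →
      Prj S.I s (S.Kc + A + B) N →
      (∀ C ∈ s, 0 < N C ∧ S.I (cv C) (cv C) < 0 ∧ S.I A (cv C) < 2) →
      ∃ s N, NegDef S.I s ∧ Prj S.I s (S.Kc + A + B) N ∧ Nef S.I (S.Kc + A + B - N) ∧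
        ∀ C ∈ s, 0 < N C ∧ S.I (cv C) (cv C) < 0 ∧ S.I A (cv C) < 2 := by
    intro n
    induction n with
    | zero => exact fun s N h => absurd h (Nat.not_lt_zero _)
    | succ n ih =>
      intro s N hn hs hN hp
      by_cases hnef : Nef S.I (S.Kc + A + B - N)
      · exact ⟨s, N, hs, hN, hnef, hp⟩
      obtain ⟨C, hC⟩ := not_forall.1 hnef
      have hneg := not_le.1 hC
      obtain ⟨a0, a1, a2, M, hM, h0, h1⟩ := step hL O hA hB hB1 hP hs hN hneg
      obtain ⟨t, ht⟩ : ∃ t, t = S.I (S.Kc + A + B - N) (cv C) / S.I (cv C - M) (cv C - M) :=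
        ⟨_, rfl⟩
      have t0 : 0 < t := ht ▸ div_pos_of_neg_of_neg hneg h1
      have t1 : t * S.I (cv C - M) (cv C) = S.I (S.Kc + A + B - N) (cv C) := by
        rw [← star_sq hM, ht, div_mul_cancel₀ _ h1.ne]
      have ex : ∀ i, S.I (S.Kc + A + B - (N + t • (cv C - M))) (cv i) =
          S.I (S.Kc + A + B - N) (cv i) - t * S.I (cv C - M) (cv i) := fun i => by
        rw [← sub_sub, map_sub, map_smul, LinearMap.sub_apply, LinearMap.smul_apply, smul_eq_mul]
      refine ih (insert C s) (N + t • (cv C - M)) ?_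
        (hL.add _ S.I s _ C M L hs hM h1 fun i hi => (mem_insert.1 hi).symm) ⟨?_, fun i hi => ?_⟩
        fun i hi => ?_
      · refine lt_of_lt_of_le (card_lt_card ?_) (Nat.lt_succ_iff.1 hn)
        refine (ssubset_iff_of_subset (sdiff_subset_sdiff le_rfl (subset_insert _ _))).2
          ⟨C, mem_sdiff.2 ⟨hT C a1 a2, a0⟩, fun e => (mem_sdiff.1 e).2 (mem_insert_self _ _)⟩
      · exact (hN.1.mono (subset_insert _ _)).add
          (((sup_cv (mem_insert_self _ _)).sub (hM.1.mono (subset_insert _ _))).smul t)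
      · rw [ex]
        rcases mem_insert.1 hi with e | e
        · rw [e, t1, sub_self]
        · rw [hN.2 i e, hM.2 i e, mul_zero, sub_zero]
      · rw [Finsupp.add_apply, Finsupp.smul_apply, smul_eq_mul]
        rcases mem_insert.1 hi with e | e
        · rw [e, hN.1 C a0, Finsupp.sub_apply, cv_self, hM.1 C a0, sub_zero, mul_one, zero_add]
          exact ⟨t0, a1, a2⟩
        · exact ⟨add_pos_of_pos_of_nonneg (hp i e).1 (mul_nonneg t0.le (star_nonneg h0 i)),
            (hp i e).2⟩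
  exact main _ ∅ 0 (Nat.lt_succ_self _)
    (fun D hD h => absurd (Finsupp.ext fun i => hD i (notMem_empty i)) h)
    ⟨fun _ _ => rfl, fun i hi => absurd hi (notMem_empty i)⟩ fun i hi => absurd hi (notMem_empty i)

end RZAR

theorem rowZAR : RowZAR := fun hL _ _ _ _ O => ⟨RZAR.key hL O, fun _ h => RZAR.zar hL O h⟩

end Pool.Agent.MP_ee8c61_ag.M3SN
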