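import Pool.Agent.MP_ee8c61_ag.M3SN.AllL
import Pool.Agent.MP_ee8c61_ag.M3SN.Irr
import Pool.Agent.MP_ee8c61_ag.M3SN.REF
import Pool.Agent.MP_ee8c61_ag.M3SN.RAMP
import Pool.Agent.MP_ee8c61_ag.M3SN.RBIG
import Pool.Agent.MP_ee8c61_ag.M3SN.RHODGE
import Pool.Agent.MP_ee8c61_ag.M3SN.RNULL
import Pool.Agent.MP_ee8c61_ag.M3SN.RNAK
import Pool.Agent.MP_ee8c61_ag.M3SN.RNEG
import Pool.Agent.MP_ee8c61_ag.M3SN.RZAR
import Pool.Agent.MP_ee8c61_ag.M3SN.RB1
import Pool.Agent.MP_ee8c61_ag.M3SN.RC2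
import Pool.Agent.MP_ee8c61_ag.M3SN.RC3
import Pool.Agent.MP_ee8c61_ag.M3SN.RBPF
import Pool.Agent.MP_ee8c61_ag.M3SN.RRAT
import Pool.Agent.MP_ee8c61_ag.M3SN.RPOLY
import Pool.Agent.MP_ee8c61_ag.M3SN.RPASS
import Pool.Agent.MP_ee8c61_ag.M3SN.RCHM
import Pool.Agent.MP_ee8c61_ag.M3SN.RGOR
import Pool.Agent.MP_ee8c61_ag.M3SN.RINTV
import Pool.Agent.MP_ee8c61_ag.M3SN.RT4b

/-!
Assembly of the numerical theory of surfaces.
-/

set_option autoImplicit false

namespace Pool.Agent.MP_ee8c61_ag.M3SN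

namespace NS.OK

variable {K : Type} [Field K] [Algebra ℂ K] {S : NS K} (O : S.OK)
include O

theorem ef : S.EF := (rowEF K S O).1

theorem tools : S.Tools :=
  have e2 := (rowEF K S O).2
  have a := rowAMP K S O
  have b := rowBIG K S O e2 a.2.2
  { e2 := e2
    amp := a.1
    bnd := a.2.1
    nw := a.2.2
    big := b.1
    kle := b.2
    hodge := rowHODGE K S O O.ef e2
    null := rowNULL latAll K S O a.2.1 a.2.2 b.1
    nak := rowNAK K S O e2 a.2.2 b.1 b.2 }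

theorem key : S.KEY := (rowZAR latAll K S O).1

theorem bpf1 : S.BPF1 := rowB1 latAll K S O O.tools

theorem core2 : S.CORE2 := rowC2 latAll K S O O.tools

theorem core3 : S.CORE3 := rowC3 latAll K S O O.tools

theorem bpf : S.BPF :=
  rowBPF latAll (fun _ _ _ _ O' => ⟨O'.tools, O'.core2, O'.core3⟩) K S O O.bpf1

theorem neg (R : S.Rho) : S.NEG := rowNEG K S O R O.tools.bnd

theorem zar (R : S.Rho) : S.ZAR := (rowZAR latAll K S O).2 O.tools.kle (O.neg R)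

theorem poly (R : S.Rho) : S.POLY :=
  rowPOLY latAll K S O O.tools O.key (O.zar R) O.bpf1 ((rowRAT K S O).1 O.tools.e2)
    ((rowRAT K S O).2 (O.neg R))

theorem pass (R : S.Rho) : S.PASS := rowPASS latAll K S O O.tools (O.neg R) (O.poly R)

theorem chm (R : S.Rho) : S.CHM :=
  rowCHM latAll K S O O.tools (O.neg R) (O.zar R) O.bpf (O.pass R)

/-- Finite generation of adjoint rings. -/
theorem t4 [Algebra.EssFiniteType ℂ K] (F : StmtFINV) (R : S.Rho) (C : S.Cen2) : S.T4 :=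
  rowT4b latAll rowGOR (rowINTV F) K S O C (O.chm R)

end NS.OK

theorem each_tools : Each fun S => S.Tools := fun _ _ _ _ O => O.tools

end Pool.Agent.MP_ee8c61_ag.M3SN
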