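import Pool.Agent.MP_ee8c61_ag.M3SN.Basic

/-!
Positivity and adjoint divisors on a numerical surface: statements.
-/

set_option autoImplicit false

namespace Pool.Agent.MP_ee8c61_ag.M3SN

open Finset

/-- All lattice statements. -/
structure LatAll : Prop where
  nega : StmtNEGA
  con : StmtCON
  blk : StmtBLK
  semi : StmtSEMI
  mum : StmtMUM
  add : StmtADD
  nnd : StmtNND
  anti : StmtANTI
  per : StmtPER
  zar0 : StmtZAR0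
  adjl : StmtADJL
  tree : StmtTREE

/-- Gordan's lemma. -/
def StmtGOR : Prop := ∀ (l : ℕ) (Λ : Finset (Fin l → ℚ)), ∃ (s : ℕ) (lam : Fin s → Fin l → ℕ),
  (∀ j, ∀ φ ∈ Λ, 0 ≤ ∑ i, φ i * lam j i) ∧
  ∀ n : Fin l → ℕ, (∀ φ ∈ Λ, 0 ≤ ∑ i, φ i * n i) → ∃ a : Fin s → ℕ, ∑ j, a j • lam j = n

/-- Finiteness of modules bounded at all valuation rings. -/
def StmtFINV : Prop := ∀ (L : Type) [Field L] [Algebra ℂ L] [Algebra.EssFiniteType ℂ L]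
  (R : Subalgebra ℂ L), R.FG → ∀ N : Submodule R L,
    (∀ x ∈ N, ∀ V : ValuationSubring L, (∀ r ∈ R, r ∈ V) → x ∈ V) → N.FG

/-- The graded ring with pieces `F n` is finitely generated. -/
def FGr {K : Type} [Field K] [Algebra ℂ K] {l : ℕ} (F : (Fin l → ℕ) → K → Prop) : Prop :=
  ∃ (s : ℕ) (ν : Fin s → Fin l → ℕ) (g : Fin s → K), (∀ j, F (ν j) (g j)) ∧ ∀ n u, F n u →
    u ∈ Submodule.span ℂ {x | ∃ α : Fin s → ℕ, ∑ j, α j • ν j = n ∧ x = ∏ j, g j ^ α j}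

/-- Valuative criterion for finite generation. -/
def StmtINTV : Prop := ∀ (K : Type) [Field K] [Algebra ℂ K] [Algebra.EssFiniteType ℂ K] (l : ℕ)
  (F : (Fin l → ℕ) → Submodule ℂ K) (J : Type) [Fintype J] (ν : J → Fin l → ℕ)
  (U : J → Submodule ℂ K), (∀ j, FiniteDimensional ℂ (U j) ∧ U j ≤ F (ν j)) →
  (∀ V : ValuationSubring K, (∀ a : ℂ, algebraMap ℂ K a ∈ V) →
    (∀ j, ν j = 0 → ∀ u ∈ U j, u ∈ V) → ∀ n, ∀ u ∈ F n, u ≠ 0 →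
      ∃ (k : ℕ) (a : J → ℕ) (g : J → K), 0 < k ∧ (∀ j, g j ∈ U j) ∧ ∏ j, g j ^ a j ≠ 0 ∧ ∑ j, a j • ν j = k • n ∧
      u ^ k / ∏ j, g j ^ a j ∈ V) →
  FGr fun n u => u ∈ F n

namespace NS

variable {K : Type} [Field K] [Algebra ℂ K] (S : NS K)

/-- An irreducible member of a multiple of `w`. -/
def EF : Prop := ∃ (k : ℕ) (F : S.Crv) (f : K), 0 < k ∧ f ≠ 0 ∧ S.dv f + (k : ℝ) • S.w = cv F

def E2 : Prop := ∃ β : ℝ, ∀ L, IsZ L → β ≤ S.I L S.w → S.chi L ≤ S.h0 L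

def AMP : Prop := ∀ X, IsZ X → ∃ k0 : ℕ, ∀ k : ℕ, k0 ≤ k → S.Bpf (X + (k : ℝ) • S.w)

def BND : Prop := ∀ X, ∃ k : ℝ, 0 < k ∧ ∀ C, |S.I X (cv C)| ≤ k * S.I S.w (cv C)

def NW : Prop := ∀ M, Nef S.I M → 0 ≤ S.I M S.w ∧ (S.I M S.w = 0 → Triv S.I M)

def BIG : Prop := ∀ L, 0 < S.I L L → 0 < S.I L S.w → S.Eff L

def KLE : Prop := ∀ P Q, Nef S.I P → Nef S.I Q → 0 ≤ S.I P Q

def HODGE : Prop := ∀ M L, 0 < S.I M M → S.I M L = 0 →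
  S.I L L ≤ 0 ∧ (S.I L L = 0 → Triv S.I L)

def NULL : Prop := ∀ M, Nef S.I M → 0 < S.I M M → ∃ T : Finset S.Crv,
  (∀ C, C ∈ T ↔ S.I M (cv C) = 0) ∧ NegDef S.I T ∧
  ∀ G, Sup T G → (∀ C ∈ T, S.I G (cv C) < 0) →
    ∃ ε0 : ℝ, 0 < ε0 ∧ ∀ ε, 0 < ε → ε ≤ ε0 → S.Pos (M - ε • G)

def NAK : Prop := ∀ L, IsQ L → S.Pos L → S.SA L

def NEG : Prop := ∀ β : ℝ, {C | S.I (cv C) (cv C) < 0 ∧ S.I S.w (cv C) ≤ β}.Finite

/-- The positivity toolkit. -/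
structure Tools : Prop where
  e2 : S.E2
  amp : S.AMP
  bnd : S.BND
  nw : S.NW
  big : S.BIG
  kle : S.KLE
  hodge : S.HODGE
  null : S.NULL
  nak : S.NAK

/-- Pseudo-effective. -/
def Pass (D : S.Crv →₀ ℝ) : Prop := ∀ Q, Nef S.I Q → 0 ≤ S.I D Q

/-- The key inequality for adjoint divisors. -/
def KEY : Prop := ∀ (A B N Nc : S.Crv →₀ ℝ) (s : Finset S.Crv) (C : S.Crv), Nef S.I A → 0 ≤ B →
  (∀ C', B C' ≤ 1) → NegDef S.I s → C ∉ s → Prj S.I s (S.Kc + A + B) N →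
  Prj S.I s (cv C) Nc → S.I (cv C - Nc) (cv C - Nc) ≤ 0 →
  -2 + S.I A (cv C) ≤ S.I (S.Kc + A + B - N) (cv C)

/-- Zariski decomposition of a pseudo-effective adjoint divisor, and the nefness test. -/
def ZAR : Prop := ∀ A B : S.Crv →₀ ℝ, S.Pos A → 0 ≤ B → (∀ C, B C ≤ 1) →
  S.Pass (S.Kc + A + B) →
  (∃ s N, NegDef S.I s ∧ Prj S.I s (S.Kc + A + B) N ∧ Nef S.I (S.Kc + A + B - N) ∧
    ∀ C ∈ s, 0 < N C ∧ S.I (cv C) (cv C) < 0 ∧ S.I A (cv C) < 2) ∧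
  ∀ s N, NegDef S.I s → Prj S.I s (S.Kc + A + B) N →
    (∀ C, S.I (cv C) (cv C) < 0 → S.I A (cv C) < 2 → 0 ≤ S.I (S.Kc + A + B - N) (cv C)) →
    Nef S.I (S.Kc + A + B - N)

/-- Base point freeness, square zero. -/
def BPF1 : Prop := ∀ (A B N : S.Crv →₀ ℝ) (s : Finset S.Crv), S.Pos A → 0 ≤ B →
  IsQ (S.Kc + A + B - N) → Prj S.I s (S.Kc + A + B) N → NegDef S.I s →
  Nef S.I (S.Kc + A + B - N) → S.I (S.Kc + A + B - N) (S.Kc + A + B - N) = 0 →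
  0 < S.I (S.Kc + A + B - N) S.w → S.SA (S.Kc + A + B - N)

/-- Base point freeness, positive square, on a model with vanishing. -/
def CORE2 : Prop := ∀ (J : Finset S.Crv) (P A Δ : S.Crv →₀ ℝ), S.Van J → IsQ P → IsQ Δ →
  Sup J P → Sup J Δ → P = S.Kc + A + Δ → Nef S.I P → Nef S.I A → 0 < S.I P P →
  (∀ C, Δ C < 1) → (∀ C, Δ C < 0 → S.I P (cv C) = 0) → (∀ C, S.I P (cv C) = 0 → C ∈ J) →
  S.SA P

/-- Numerically trivial adjoint divisors are torsion, on a model with vanishing. -/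
def CORE3 : Prop := ∀ (J T : Finset S.Crv) (P A Δ : S.Crv →₀ ℝ), S.Van J → IsQ P → IsQ Δ →
  Sup J P → Sup J Δ → P = S.Kc + A + Δ → Triv S.I P → Nef S.I A → 0 < S.I A A →
  (∀ C, Δ C < 1) → NegDef S.I T → T ⊆ J → (∀ C, Δ C < 0 → C ∈ T) →
  (∀ C, S.I A (cv C) = 0 → C ∈ T) →
  ∃ (m : ℕ) (f : K), 0 < m ∧ f ≠ 0 ∧ S.dv f + (m : ℝ) • P = 0

/-- Base point freeness. -/
def BPF : Prop := ∀ (A B N : S.Crv →₀ ℝ) (s : Finset S.Crv), IsQ A → IsQ B → S.Pos A → 0 ≤ B →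
  S.Res B → NegDef S.I s → Prj S.I s (S.Kc + A + B) N → 0 ≤ N →
  Nef S.I (S.Kc + A + B - N) → S.SA (S.Kc + A + B - N)

/-- Rationality of a threshold. -/
def RAT : Prop := ∀ (X Y : S.Crv →₀ ℝ) (τ : ℝ), IsQ X → IsQ Y → Nef S.I (X + τ • Y) →
  S.I (X + τ • Y) (X + τ • Y) = 0 → 0 < S.I (X + τ • Y) S.w → 0 < S.I (X + τ • Y) Y →
  S.I S.Kc (X + τ • Y) ≤ -S.I (X + τ • Y) Y → ∃ r : ℚ, τ = r

/-- A moving curve in a fibre. -/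
def FIBC : Prop := ∀ P, S.SA P → S.I P P = 0 → 0 < S.I P S.w →
  ∃ F, 0 ≤ S.I (cv F) (cv F) ∧ S.I P (cv F) = 0

/-- Test classes for pseudo-effectivity. -/
def POLY : Prop := ∀ A M B : S.Crv →₀ ℝ, IsQ A → IsQ M → IsQ B → S.Pos A → Nef S.I M → 0 ≤ B →
  (∀ C, B C ≤ 1) → ¬ S.Pass (S.Kc + (A + M) + B) →
  ∃ s X N, NegDef S.I s ∧ (∀ C ∈ s, S.I (cv C) (cv C) < 0 ∧ S.I (A + M) (cv C) < 2) ∧
    Prj S.I s X N ∧ Nef S.I (X - N) ∧ S.I (S.Kc + (A + M) + B) (X - N) < 0 ∧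
    (X = A ∨ ∃ F, X = cv F ∧ S.I (A + M) (cv F) ≤ 2)

/-- Nonnegative combinations of adjoint divisors. -/
noncomputable def DD {l : ℕ} (A : S.Crv →₀ ℝ) (B : Fin l → S.Crv →₀ ℝ) (n : Fin l → ℕ) :
    S.Crv →₀ ℝ := ∑ i, (n i : ℝ) • (S.Kc + A + B i)

/-- The pseudo-effective cone is rational polyhedral and stable in the direction `H`. -/
def PASS : Prop := ∀ (l : ℕ) (A H : S.Crv →₀ ℝ) (B : Fin l → S.Crv →₀ ℝ), IsQ A → S.Pos A →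
  IsZ H → Nef S.I H → (∀ i, IsQ (B i) ∧ 0 ≤ B i ∧ ∀ C, B i C ≤ 1) →
  ∃ j : ℕ, 2 ≤ j ∧ ∃ Λ : Finset (Fin l → ℚ), ∀ n : Fin l → ℕ,
    ((∀ φ ∈ Λ, 0 ≤ ∑ i, φ i * n i) → S.Pass (S.DD (A + (j : ℝ) • H) B n)) ∧
    ∀ t : ℝ, S.Pass (S.DD (A + (j : ℝ) • H) B n + t • H) → ∀ φ ∈ Λ, 0 ≤ ∑ i, φ i * n i

/-- The data of the finite generation theorem. -/
structure Adj {l : ℕ} (W : Finset S.Crv) (A H : S.Crv →₀ ℝ) (B : Fin l → S.Crv →₀ ℝ) : Prop where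
  AQ : IsQ A
  Apos : S.Pos A
  HZ : IsZ H
  H0 : 0 ≤ H
  Hb : S.Bpf H
  BQ : ∀ i, IsQ (B i)
  B0 : ∀ i, 0 ≤ B i
  B1 : ∀ i C, B i C < 1
  BW : ∀ i, Sup W (B i)
  res : ∀ B', IsQ B' → 0 ≤ B' → Sup W B' → (∀ C, B' C < 1) → S.Res B'

/-- Zariski chambers. -/
def CHM : Prop := ∀ (l : ℕ) (W : Finset S.Crv) (A H : S.Crv →₀ ℝ) (B : Fin l → S.Crv →₀ ℝ),
  S.Adj W A H B → ∃ (j : ℕ) (Ω : Finset (Finset S.Crv))
    (N : Finset S.Crv → Fin l → S.Crv →₀ ℝ) (Λ : Finset S.Crv → Finset (Fin l → ℚ)),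
    (∀ s ∈ Ω, NegDef S.I s ∧ (∀ C ∈ s, S.I H (cv C) = 0) ∧
      (∀ i, Prj S.I s (S.Kc + (A + (j : ℝ) • H) + B i) (N s i)) ∧
      ∀ n : Fin l → ℕ, (∀ φ ∈ Λ s, 0 ≤ ∑ i, φ i * n i) →
        0 ≤ ∑ i, (n i : ℝ) • N s i ∧
        S.SA (S.DD (A + (j : ℝ) • H) B n - ∑ i, (n i : ℝ) • N s i)) ∧
    ∀ (n : Fin l → ℕ) (t : ℝ), S.Pass (S.DD (A + (j : ℝ) • H) B n + t • H) →
      ∃ s ∈ Ω, ∀ φ ∈ Λ s, 0 ≤ ∑ i, φ i * n i

/-- Sections off the support of `H`. -/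
def Ha (H D : S.Crv →₀ ℝ) (f : K) : Prop := f ≠ 0 → ∀ C, H C = 0 → 0 ≤ (S.dv f + D) C

/-- Every valuation ring has a centre. -/
def Cen : Prop := ∀ V : ValuationSubring K, (∀ a : ℂ, algebraMap ℂ K a ∈ V) → ∃ p,
  ∀ f, f ≠ 0 → (∀ C, S.on p C → 0 ≤ S.dv f C) →
    f ∈ V ∧ ((∃ C, S.on p C ∧ 0 < S.dv f C) → f⁻¹ ∉ V)

/-- Finite generation of adjoint rings. -/
def T4 : Prop := ∀ (l : ℕ) (W : Finset S.Crv) (A H : S.Crv →₀ ℝ) (B : Fin l → S.Crv →₀ ℝ)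
  (m : Fin l → ℕ), S.Adj W A H B → (∀ i, 0 < m i) →
  FGr fun n : Fin l → ℕ => S.Ha H (S.DD A B fun i => n i * m i)

end NS

/-- A statement about every surface. -/
def Each (P : ∀ {K : Type} [Field K] [Algebra ℂ K], NS K → Prop) : Prop :=
  ∀ (K : Type) [Field K] [Algebra ℂ K] (S : NS K), S.OK → P S

def RowGOR : Prop := StmtGOR
def RowINTV : Prop := StmtFINV → StmtINTV
def RowEF : Prop := Each fun S => S.EF ∧ S.E2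
def RowAMP : Prop := Each fun S => S.AMP ∧ S.BND ∧ S.NW
def RowBIG : Prop := Each fun S => S.E2 → S.NW → S.BIG ∧ S.KLE
def RowHODGE : Prop := Each fun S => S.EF → S.E2 → S.HODGE
def RowNULL : Prop := LatAll → Each fun S => S.BND → S.NW → S.BIG → S.NULL
def RowNAK : Prop := Each fun S => S.E2 → S.NW → S.BIG → S.KLE → S.NAK
def RowNEG : Prop := Each fun S => S.Rho → S.BND → S.NEG
def RowZAR : Prop := LatAll → Each fun S => S.KEY ∧ (S.KLE → S.NEG → S.ZAR)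
def RowB1 : Prop := LatAll → Each fun S => S.Tools → S.BPF1
def RowC2 : Prop := LatAll → Each fun S => S.Tools → S.CORE2
def RowC3 : Prop := LatAll → Each fun S => S.Tools → S.CORE3
def RowBPF : Prop := LatAll → Each (fun S => S.Tools ∧ S.CORE2 ∧ S.CORE3) →
  Each fun S => S.BPF1 → S.BPF
def RowRAT : Prop := Each fun S => (S.E2 → S.RAT) ∧ (S.NEG → S.FIBC)
def RowPOLY : Prop := LatAll → Each fun S => S.Tools → S.KEY → S.ZAR → S.BPF1 → S.RAT → S.FIBC →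
  S.POLY
def RowPASS : Prop := LatAll → Each fun S => S.Tools → S.NEG → S.POLY → S.PASS
def RowCHM : Prop := LatAll → Each fun S => S.Tools → S.NEG → S.ZAR → S.BPF → S.PASS → S.CHM
def RowT4 : Prop := LatAll → StmtGOR → StmtINTV → ∀ (K : Type) [Field K] [Algebra ℂ K]
  [Algebra.EssFiniteType ℂ K] (S : NS K), S.OK → S.Cen → S.CHM → S.T4

end Pool.Agent.MP_ee8c61_ag.M3SN
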