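import Mathlib

/-!
Abstract numerical surfaces: lattices of curves, sections, and the interface for positivity.
-/

set_option autoImplicit false

namespace Pool.Agent.MP_ee8c61_ag.M3SN

section
variable {ι : Type}

/-- Bilinear forms on real divisors. -/
abbrev Fm (ι : Type) : Type := (ι →₀ ℝ) →ₗ[ℝ] (ι →₀ ℝ) →ₗ[ℝ] ℝ

/-- A curve as a divisor. -/
noncomputable def cv (i : ι) : ι →₀ ℝ := Finsupp.single i 1

/-- Integral divisors. -/
def IsZ (D : ι →₀ ℝ) : Prop := ∀ i, ∃ n : ℤ, D i = n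

/-- Rational divisors. -/
def IsQ (D : ι →₀ ℝ) : Prop := ∀ i, ∃ r : ℚ, D i = r

/-- `D` is supported on `s`. -/
def Sup (s : Finset ι) (D : ι →₀ ℝ) : Prop := ∀ i, i ∉ s → D i = 0

/-- Symmetric and nonnegative on distinct curves. -/
structure Lat0 (I : Fm ι) : Prop where
  sym : ∀ D E, I D E = I E D
  off : ∀ i j, i ≠ j → 0 ≤ I (cv i) (cv j)

/-- Moreover integral on curves. -/
structure Lat (I : Fm ι) : Prop extends Lat0 I where
  int : ∀ i j, ∃ n : ℤ, I (cv i) (cv j) = n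

/-- A lattice with a canonical degree `κ` satisfying adjunction. -/
structure LatK (I : Fm ι) (κ : (ι →₀ ℝ) →ₗ[ℝ] ℝ) : Prop extends Lat I where
  adj : ∀ i, ∃ n : ℤ, -1 ≤ n ∧ κ (cv i) + I (cv i) (cv i) = 2 * n

/-- Negative definite on the span of `s`. -/
def NegDef (I : Fm ι) (s : Finset ι) : Prop := ∀ D, Sup s D → D ≠ 0 → I D D < 0

/-- `X - N` is the projection of `X` orthogonal to `s`. -/
def Prj (I : Fm ι) (s : Finset ι) (X N : ι →₀ ℝ) : Prop :=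
  Sup s N ∧ ∀ i ∈ s, I (X - N) (cv i) = 0

/-- The curves of `s` form a connected configuration. -/
def Conn (I : Fm ι) (s : Finset ι) : Prop :=
  ∀ t ⊆ s, t.Nonempty → t ≠ s → ∃ i ∈ t, ∃ j ∈ s, j ∉ t ∧ 0 < I (cv i) (cv j)

/-- Numerically effective. -/
def Nef (I : Fm ι) (D : ι →₀ ℝ) : Prop := ∀ i, 0 ≤ I D (cv i)

/-- Numerically trivial. -/
def Triv (I : Fm ι) (D : ι →₀ ℝ) : Prop := ∀ E, I D E = 0

end

/-- Data of a surface with function field `K`: curves, points, divisors of functions,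
intersection form, canonical divisor, a base point free ample divisor, a constant. -/
structure NS (K : Type) [Field K] [Algebra ℂ K] where
  Crv : Type
  Pt : Type
  on : Pt → Crv → Prop
  dv : K → Crv →₀ ℝ
  I : Fm Crv
  Kc : Crv →₀ ℝ
  w : Crv →₀ ℝ
  c0 : ℝ
  dv_mul : ∀ f g, f ≠ 0 → g ≠ 0 → dv (f * g) = dv f + dv g
  dv_add : ∀ f g C, f ≠ 0 → g ≠ 0 → f + g ≠ 0 → min (dv f C) (dv g C) ≤ dv (f + g) C
  dv_const : ∀ a : ℂ, a ≠ 0 → dv (algebraMap ℂ K a) = 0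

namespace NS

variable {K : Type} [Field K] [Algebra ℂ K] (S : NS K)

/-- Sections. -/
def H0 (D : S.Crv →₀ ℝ) : Submodule ℂ K where
  carrier := {f | f ≠ 0 → 0 ≤ S.dv f + D}
  zero_mem' := fun h => absurd rfl h
  add_mem' := by
    intro f g hf hg h
    by_cases h1 : f = 0
    · rw [h1, zero_add] at h ⊢
      exact hg h
    by_cases h2 : g = 0
    · rw [h2, add_zero]
      exact hf h1
    intro C
    have a1 : (0 : ℝ) ≤ S.dv f C + D C := hf h1 C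
    have a2 : (0 : ℝ) ≤ S.dv g C + D C := hg h2 C
    have a3 := S.dv_add f g C h1 h2 h
    show (0 : ℝ) ≤ S.dv (f + g) C + D C
    rcases min_le_iff.1 a3 with a | a <;> linarith
  smul_mem' := by
    intro a f hf h
    have h1 : a ≠ 0 := fun e => h (by rw [e, zero_smul])
    have h2 : f ≠ 0 := fun e => h (by rw [e, smul_zero])
    rw [Algebra.smul_def, S.dv_mul _ _ ((map_ne_zero _).2 h1) h2, S.dv_const a h1, zero_add]
    exact hf h2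

/-- Dimension of the space of sections. -/
noncomputable def h0 (D : S.Crv →₀ ℝ) : ℝ := Module.finrank ℂ (S.H0 D)

/-- The Riemann-Roch number. -/
noncomputable def chi (D : S.Crv →₀ ℝ) : ℝ := S.c0 + (S.I D D - S.I S.Kc D) / 2

/-- One minus the arithmetic genus. -/
noncomputable def gam (C : S.Crv) : ℝ := -(S.I S.Kc (cv C) + S.I (cv C) (cv C)) / 2

/-- A section generates at `p`. -/
def Gen (D : S.Crv →₀ ℝ) (p : S.Pt) : Prop :=
  ∃ f, f ≠ 0 ∧ 0 ≤ S.dv f + D ∧ ∀ C, S.on p C → (S.dv f + D) C = 0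

/-- Base point free. -/
def Bpf (D : S.Crv →₀ ℝ) : Prop := ∀ p, S.Gen D p

/-- Semiample. -/
def SA (D : S.Crv →₀ ℝ) : Prop := ∃ m : ℕ, 0 < m ∧ IsZ ((m : ℝ) • D) ∧ S.Bpf ((m : ℝ) • D)

/-- A multiple has a section. -/
def Eff (D : S.Crv →₀ ℝ) : Prop := ∃ (m : ℕ) (f : K), 0 < m ∧ f ≠ 0 ∧ 0 ≤ S.dv f + (m : ℝ) • D

/-- Numerically ample. -/
def Pos (D : S.Crv →₀ ℝ) : Prop := ∃ ε : ℝ, 0 < ε ∧ Nef S.I (D - ε • S.w)

/-- The properties of a smooth projective surface used by the numerical rows. -/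
structure OK : Prop where
  lat : Lat S.I
  meet : ∀ C C', C ≠ C' → (0 < S.I (cv C) (cv C') ↔ ∃ p, S.on p C ∧ S.on p C')
  dvZ : ∀ f, f ≠ 0 → IsZ (S.dv f)
  KZ : IsZ S.Kc
  wZ : IsZ S.w
  num : ∀ f, f ≠ 0 → Triv S.I (S.dv f)
  adj : ∀ C, S.gam C ≤ 1
  wpos : ∀ C, 0 < S.I S.w (cv C)
  ww : 0 < S.I S.w S.w
  wbpf : S.Bpf S.w
  pt : ∀ C, ∃ p, S.on p C
  off : ∀ T : Finset S.Crv, ∃ p, ∀ C ∈ T, ¬ S.on p C
  ev : ∀ f p, f ≠ 0 → (∀ C, S.on p C → 0 ≤ S.dv f C) → ∃ a : ℂ,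
    f - algebraMap ℂ K a ≠ 0 → ∃ C, S.on p C ∧ 0 < S.dv (f - algebraMap ℂ K a) C
  fin : ∀ D, FiniteDimensional ℂ (S.H0 D)
  e0 : ∀ L C, IsZ L → S.h0 L ≤ S.h0 (L - cv C) + max 0 (S.I L (cv C) + 1)
  e1 : ∀ C, ∃ b : ℝ, ∀ L, IsZ L → b ≤ S.I L (cv C) →
    S.h0 L ≤ S.h0 (L - cv C) + S.I L (cv C) + S.gam C ∧
    (S.h0 L = S.h0 (L - cv C) + S.I L (cv C) + S.gam C → ∀ p, S.on p C → S.Gen L p)
  rr : ∀ D, IsZ D → ∃ k0 : ℕ, ∀ k : ℕ, k0 ≤ k →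
    S.h0 (D + (k : ℝ) • S.w) = S.chi (D + (k : ℝ) • S.w)
  bert : ∃ (k : ℕ) (f : K), 0 < k ∧ f ≠ 0 ∧
    (∀ C, (S.dv f + (k : ℝ) • S.w) C = 0 ∨ (S.dv f + (k : ℝ) • S.w) C = 1) ∧
    ∀ C C', C ≠ C' → (S.dv f + (k : ℝ) • S.w) C = 1 → (S.dv f + (k : ℝ) • S.w) C' = 1 →
      S.I (cv C) (cv C') = 0

/-- Finite rank of the numerical lattice. -/
def Rho : Prop := ∃ T : Finset S.Crv, ∀ D, (∀ C ∈ T, S.I D (cv C) = 0) → Triv S.I D

/-- Vanishing for divisors supported on `J`. -/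
def Van (J : Finset S.Crv) : Prop := ∀ L Δ, IsZ L → Sup J L → IsQ Δ → Sup J Δ → 0 ≤ Δ →
  (∀ C, Δ C < 1) → S.Pos (L - S.Kc - Δ) → S.h0 L = S.chi L

end NS

/-- A birational morphism `S' → S`. -/
structure Dom {K : Type} [Field K] [Algebra ℂ K] (S' S : NS K) where
  st : S.Crv → S'.Crv
  pb : (S.Crv →₀ ℝ) →ₗ[ℝ] (S'.Crv →₀ ℝ)
  pr : S'.Pt → S.Pt
  inj : Function.Injective st
  surj : Function.Surjective pr
  fin : {C' | C' ∉ Set.range st}.Finite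
  pb_dv : ∀ f, f ≠ 0 → pb (S.dv f) = S'.dv f
  pb_st : ∀ D C, pb D (st C) = D C
  pb_Z : ∀ C, IsZ (pb (cv C))
  pb_pos : ∀ C, 0 ≤ pb (cv C)
  I_st : ∀ D C, S'.I (pb D) (cv (st C)) = S.I D (cv C)
  I_ex : ∀ D C', C' ∉ Set.range st → S'.I (pb D) (cv C') = 0
  K_st : ∀ C, S'.Kc (st C) = S.Kc C
  loc : ∀ p' C, S.on (pr p') C ↔ ∃ C', S'.on p' C' ∧ 0 < pb (cv C) C'

/-- Every finite set of curves has a resolution with vanishing, on which the pair with boundary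
`B` has crepant boundary `< 1`. -/
def NS.Res {K : Type} [Field K] [Algebra ℂ K] (S : NS K) (B : S.Crv →₀ ℝ) : Prop :=
  ∀ T : Finset S.Crv, ∃ (S' : NS K) (d : Dom S' S) (J : Finset S'.Crv), S'.OK ∧ S'.Van J ∧
    (∀ C ∈ T, d.st C ∈ J) ∧ (∀ C', C' ∉ Set.range d.st → C' ∈ J) ∧
    ∀ C', (d.pb (S.Kc + B) - S'.Kc) C' < 1

end Pool.Agent.MP_ee8c61_ag.M3SN
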