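import Pool.Agent.MP_ee8c61_ag.M3SN.SpecL

/-!
The negativity lemma, connected configurations and blocks.
-/

set_option autoImplicit false

namespace Pool.Agent.MP_ee8c61_ag.M3SN

namespace RL1

variable {ι : Type} {I : Fm ι}

theorem eq_sum (E : ι →₀ ℝ) : E = ∑ i ∈ E.support, E i • cv i := by
  conv_lhs => rw [← Finsupp.sum_single E]
  refine Finset.sum_congr rfl fun i _ => ?_
  simp [cv]

theorem exp_r (D E : ι →₀ ℝ) : I D E = ∑ i ∈ E.support, E i * I D (cv i) := by
  conv_lhs => rw [eq_sum E]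
  simp [map_sum]

theorem exp_l (D E : ι →₀ ℝ) : I D E = ∑ i ∈ D.support, D i * I (cv i) E := by
  conv_lhs => rw [eq_sum D]
  simp [map_sum, LinearMap.sum_apply]

theorem term_nonneg (h : Lat0 I) {X : ι →₀ ℝ} (hX : 0 ≤ X) {i : ι} (hi : X i = 0) (l : ι) :
    0 ≤ X l * I (cv l) (cv i) := by
  by_cases e : l = i
  · rw [e, hi, zero_mul]
  · exact mul_nonneg (hX l) (h.off l i e)

theorem nonneg (h : Lat0 I) {X : ι →₀ ℝ} (hX : 0 ≤ X) {i : ι} (hi : X i = 0) :
    0 ≤ I X (cv i) := by
  rw [exp_l]
  exact Finset.sum_nonneg fun l _ => term_nonneg h hX hi l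

theorem term_le (h : Lat0 I) {X : ι →₀ ℝ} (hX : 0 ≤ X) {i : ι} (hi : X i = 0) (l : ι) :
    X l * I (cv l) (cv i) ≤ I X (cv i) := by
  by_cases e : X l = 0
  · rw [e, zero_mul]
    exact nonneg h hX hi
  · rw [exp_l X]
    exact Finset.single_le_sum (f := fun l => X l * I (cv l) (cv i))
      (fun l _ => term_nonneg h hX hi l) (Finsupp.mem_support_iff.2 e)

theorem nega : StmtNEGA := by
  intro ι I s X h hn h1 h2
  have key : 0 ≤ X := by
    let P : ι →₀ ℝ := X.mapRange (fun a => max a 0) (by simp)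
    let N : ι →₀ ℝ := X.mapRange (fun a => max (-a) 0) (by simp)
    have hP : ∀ i, P i = max (X i) 0 := fun i => Finsupp.mapRange_apply
    have hN : ∀ i, N i = max (-X i) 0 := fun i => Finsupp.mapRange_apply
    have hX : X = P - N := by
      ext i
      rw [Finsupp.sub_apply, hP, hN]
      rcases le_total 0 (X i) with a | a
      · rw [max_eq_left a, max_eq_right (by linarith), sub_zero]
      · rw [max_eq_right a, max_eq_left (by linarith)]
        ring
    have hP0 : 0 ≤ P := fun i => by
      rw [hP]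
      exact le_max_right _ _
    have hN0 : ∀ i, 0 ≤ N i := fun i => by
      rw [hN]
      exact le_max_right _ _
    have hs : Sup s N := fun i hi => by
      rw [hN]
      exact max_eq_right (by linarith [h1 i hi])
    have a1 : I X N ≤ 0 := by
      rw [exp_r]
      refine Finset.sum_nonpos fun i hi => mul_nonpos_of_nonneg_of_nonpos (hN0 i) (h2 i ?_)
      by_contra hc
      exact Finsupp.mem_support_iff.1 hi (hs i hc)
    have a2 : 0 ≤ I P N := by
      rw [exp_r]
      refine Finset.sum_nonneg fun i hi => mul_nonneg (hN0 i) (nonneg h hP0 ?_)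
      have := Finsupp.mem_support_iff.1 hi
      rw [hN] at this
      rw [hP]
      refine max_eq_right ?_
      by_contra hc
      exact this (max_eq_right (by linarith))
    have a3 : I X N = I P N - I N N := by
      conv_lhs => rw [hX]
      simp
    have a4 : N = 0 := by
      by_contra hc
      have := hn N hs hc
      linarith
    rw [hX, a4, sub_zero]
    exact hP0
  refine ⟨key, fun i _ hi => ?_⟩
  rcases (key i).lt_or_eq with a | a
  · exact a
  · exact absurd (nonneg h key a.symm) (not_le.2 hi)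

theorem con : StmtCON := by
  classical
  intro ι I s X i h hc hX h1 hi hi0
  have nb : ∀ j ∈ s, X j = 0 → ∀ l, 0 < I (cv l) (cv j) → X l = 0 := by
    intro j hj h0 l hl
    have a := (term_le h hX h0 l).trans (h1 j hj)
    have b : X l ≤ 0 := by
      by_contra hc
      exact absurd a (not_le.2 (mul_pos (not_le.1 hc) hl))
    exact le_antisymm b (hX l)
  have all : s.filter (fun j => X j = 0) = s := by
    by_contra hne
    obtain ⟨a, ha, b, hb, hb', hab⟩ := hc _ (Finset.filter_subset _ _)
      ⟨i, Finset.mem_filter.2 ⟨hi, hi0⟩⟩ hne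
    have ha' := Finset.mem_filter.1 ha
    exact hb' (Finset.mem_filter.2 ⟨hb, nb a ha'.1 ha'.2 b (h.sym _ _ ▸ hab)⟩)
  intro j hj
  have hj' : j ∈ s.filter (fun j => X j = 0) := by rwa [all]
  have h0 : X j = 0 := (Finset.mem_filter.1 hj').2
  exact ⟨h0, fun l hl _ => nb j hj h0 l hl⟩

theorem blk : StmtBLK := by
  classical
  intro ι I s i h hi
  let Q : Finset ι → Prop := fun t =>
    i ∈ t ∧ ∀ j ∈ t, ∀ l ∈ s, l ∉ t → I (cv j) (cv l) = 0
  obtain ⟨t, ht, hmin⟩ := Finset.exists_min_image (s.powerset.filter Q) Finset.card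
    ⟨s, Finset.mem_filter.2 ⟨Finset.mem_powerset_self s, hi, fun _ _ l hl hl' => absurd hl hl'⟩⟩
  obtain ⟨hts, hit, ho⟩ := Finset.mem_filter.1 ht
  have hts := Finset.mem_powerset.1 hts
  refine ⟨t, hts, hit, fun u hu hne hut => ?_, ho⟩
  by_contra hc
  have z : ∀ a ∈ u, ∀ b ∈ t, b ∉ u → I (cv a) (cv b) = 0 := by
    intro a ha b hb hb'
    refine le_antisymm ?_ (h.off a b fun e => hb' (e ▸ ha))
    by_contra hp
    exact hc ⟨a, ha, b, hb, hb', not_le.1 hp⟩
  by_cases hiu : i ∈ u
  · have := hmin u (Finset.mem_filter.2 ⟨Finset.mem_powerset.2 (hu.trans hts), hiu,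
      fun j hj l hl hl' => by
        by_cases e : l ∈ t
        · exact z j hj l e hl'
        · exact ho j (hu hj) l hl e⟩)
    exact absurd this (not_le.2 (Finset.card_lt_card (Finset.ssubset_iff_subset_ne.2 ⟨hu, hut⟩)))
  · have := hmin (t \ u) (Finset.mem_filter.2 ⟨Finset.mem_powerset.2
      (Finset.sdiff_subset.trans hts), Finset.mem_sdiff.2 ⟨hit, hiu⟩, fun j hj l hl hl' => by
        have hj' := Finset.mem_sdiff.1 hj
        by_cases e : l ∈ t
        · have hlu : l ∈ u := by
            by_contra hlu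
            exact hl' (Finset.mem_sdiff.2 ⟨e, hlu⟩)
          rw [h.sym]
          exact z l hlu j hj'.1 hj'.2
        · exact ho j hj'.1 l hl e⟩)
    exact absurd this (not_le.2 (Finset.card_lt_card (Finset.sdiff_ssubset hu hne)))

end RL1

theorem rowL1 : RowL1 := ⟨RL1.nega, RL1.con, RL1.blk⟩

end Pool.Agent.MP_ee8c61_ag.M3SN
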