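import Pool.Agent.MP_ee8c61_ag.M3SN.SpecL

/-! Row L2: semidefiniteness of a fibre. -/

set_option autoImplicit false

namespace Pool.Agent.MP_ee8c61_ag.M3SN

namespace RL2

variable {ι : Type}

theorem expand (s : Finset ι) (D : ι →₀ ℝ) (h : Sup s D) : D = ∑ i ∈ s, D i • cv i := by
  classical
  ext j
  rw [Finsupp.finsetSum_apply]
  simp only [cv, Finsupp.smul_apply, Finsupp.single_apply, smul_eq_mul, mul_ite, mul_one,
    mul_zero, Finset.sum_ite_eq']
  by_cases hj : j ∈ s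
  · rw [if_pos hj]
  · rw [if_neg hj, h j hj]

theorem left (I : Fm ι) (s : Finset ι) (D E : ι →₀ ℝ) (h : Sup s D) :
    I D E = ∑ i ∈ s, D i * I (cv i) E := by
  have e := congrArg (fun X => I X E) (expand s D h)
  simp only [map_sum, map_smul, LinearMap.sum_apply, LinearMap.smul_apply, smul_eq_mul] at e
  exact e

theorem right (I : Fm ι) (s : Finset ι) (D E : ι →₀ ℝ) (h : Sup s D) :
    I E D = ∑ i ∈ s, D i * I E (cv i) := by
  have e := congrArg (fun X => I E X) (expand s D h)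
  simp only [map_sum, map_smul, smul_eq_mul] at e
  exact e

theorem key (s : Finset ι) (x z : ι → ℝ) (q : ι → ι → ℝ) (hq : ∀ i j, q i j = q j i) :
    ∑ i ∈ s, ∑ j ∈ s, (x i - x j) ^ 2 * (z i * z j * q i j) =
      2 * ∑ j ∈ s, x j ^ 2 * (z j * ∑ i ∈ s, z i * q i j) -
        2 * ∑ i ∈ s, x i * z i * ∑ j ∈ s, x j * z j * q i j := by
  have a1 : ∑ j ∈ s, x j ^ 2 * (z j * ∑ i ∈ s, z i * q i j) =
      ∑ i ∈ s, ∑ j ∈ s, x j ^ 2 * (z i * z j * q i j) := by
    rw [Finset.sum_comm]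
    refine Finset.sum_congr rfl fun j _ => ?_
    rw [Finset.mul_sum, Finset.mul_sum]
    exact Finset.sum_congr rfl fun i _ => by ring
  have a2 : ∑ j ∈ s, x j ^ 2 * (z j * ∑ i ∈ s, z i * q i j) =
      ∑ i ∈ s, ∑ j ∈ s, x i ^ 2 * (z i * z j * q i j) := by
    refine Finset.sum_congr rfl fun i _ => ?_
    rw [Finset.mul_sum, Finset.mul_sum]
    exact Finset.sum_congr rfl fun j _ => by rw [hq j i]; ring
  have a3 : ∑ i ∈ s, x i * z i * ∑ j ∈ s, x j * z j * q i j =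
      ∑ i ∈ s, ∑ j ∈ s, x i * x j * (z i * z j * q i j) := by
    refine Finset.sum_congr rfl fun i _ => ?_
    rw [Finset.mul_sum]
    exact Finset.sum_congr rfl fun j _ => by ring
  have a4 : ∑ i ∈ s, ∑ j ∈ s, (x i - x j) ^ 2 * (z i * z j * q i j) =
      ∑ i ∈ s, ∑ j ∈ s, x j ^ 2 * (z i * z j * q i j) +
        ∑ i ∈ s, ∑ j ∈ s, x i ^ 2 * (z i * z j * q i j) -
        2 * ∑ i ∈ s, ∑ j ∈ s, x i * x j * (z i * z j * q i j) := by
    rw [Finset.mul_sum, ← Finset.sum_add_distrib, ← Finset.sum_sub_distrib]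
    refine Finset.sum_congr rfl fun i _ => ?_
    rw [Finset.mul_sum, ← Finset.sum_add_distrib, ← Finset.sum_sub_distrib]
    exact Finset.sum_congr rfl fun j _ => by ring
  rw [a4, a3, ← a1, ← a2]
  ring

end RL2

open RL2 in
theorem rowL2 : RowL2 := by
  classical
  intro ι I s z hI hc hz hpos hle D hD
  let x : ι → ℝ := fun i => D i / z i
  have hx : ∀ i ∈ s, D i = x i * z i := fun i hi => (div_mul_cancel₀ _ (hpos i hi).ne').symm
  have e1 : I D D = ∑ i ∈ s, x i * z i * ∑ j ∈ s, x j * z j * I (cv i) (cv j) := by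
    rw [left I s D D hD]
    refine Finset.sum_congr rfl fun i hi => ?_
    rw [right I s D _ hD, ← hx i hi]
    exact congrArg _ (Finset.sum_congr rfl fun j hj => by rw [← hx j hj])
  have e2 := key s x z (fun i j => I (cv i) (cv j)) fun i j => hI.sym _ _
  have hA : ∑ j ∈ s, x j ^ 2 * (z j * ∑ i ∈ s, z i * I (cv i) (cv j)) ≤ 0 :=
    Finset.sum_nonpos fun j hj => by
      rw [← left I s z _ hz]
      exact mul_nonpos_of_nonneg_of_nonpos (sq_nonneg _)
        (mul_nonpos_of_nonneg_of_nonpos (hpos j hj).le (hle j hj))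
  have ht : ∀ i ∈ s, ∀ j ∈ s, 0 ≤ (x i - x j) ^ 2 * (z i * z j * I (cv i) (cv j)) := by
    intro i hi j hj
    by_cases h : i = j
    · rw [h, sub_self]
      simp
    · exact mul_nonneg (sq_nonneg _)
        (mul_nonneg (mul_nonneg (hpos i hi).le (hpos j hj).le) (hI.off i j h))
  have hB : 0 ≤ ∑ i ∈ s, ∑ j ∈ s, (x i - x j) ^ 2 * (z i * z j * I (cv i) (cv j)) :=
    Finset.sum_nonneg fun i hi => Finset.sum_nonneg fun j hj => ht i hi j hj
  rw [← e1] at e2
  refine ⟨by linarith, fun h0 => ?_⟩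
  have hB0 : ∑ i ∈ s, ∑ j ∈ s, (x i - x j) ^ 2 * (z i * z j * I (cv i) (cv j)) = 0 := by
    linarith
  have hz0 : ∀ i ∈ s, ∀ j ∈ s, (x i - x j) ^ 2 * (z i * z j * I (cv i) (cv j)) = 0 := by
    intro i hi
    exact (Finset.sum_eq_zero_iff_of_nonneg (ht i hi)).1
      ((Finset.sum_eq_zero_iff_of_nonneg fun i hi =>
        Finset.sum_nonneg fun j hj => ht i hi j hj).1 hB0 i hi)
  rcases s.eq_empty_or_nonempty with hs | ⟨i0, hi0⟩
  · refine ⟨0, ?_⟩
    ext i
    rw [zero_smul, hD i (by rw [hs]; exact Finset.notMem_empty i)]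
    rfl
  have hall : s.filter (fun j => x j = x i0) = s := by
    by_contra hne
    obtain ⟨i, hi, j, hj, hjt, hq⟩ := hc (s.filter fun j => x j = x i0) (Finset.filter_subset _ _)
      ⟨i0, Finset.mem_filter.2 ⟨hi0, rfl⟩⟩ hne
    obtain ⟨hi1, hi2⟩ := Finset.mem_filter.1 hi
    have h1 := (mul_eq_zero.1 (hz0 i hi1 j hj)).resolve_right
      (mul_pos (mul_pos (hpos i hi1) (hpos j hj)) hq).ne'
    have h2 : x i - x j = 0 := pow_eq_zero_iff (two_ne_zero) |>.1 h1
    exact hjt (Finset.mem_filter.2 ⟨hj, by linarith⟩)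
  refine ⟨x i0, ?_⟩
  ext i
  rw [Finsupp.smul_apply, smul_eq_mul]
  by_cases hi : i ∈ s
  · have h1 : i ∈ s.filter (fun j => x j = x i0) := by rw [hall]; exact hi
    rw [hx i hi, (Finset.mem_filter.1 h1).2]
  · rw [hD i hi, hz i hi, mul_zero]

end Pool.Agent.MP_ee8c61_ag.M3SN
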