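import Pool.Agent.MP_ee8c61_ag.M3SN.SpecL

/-!
Orthogonal projection along a negative definite configuration.
-/

set_option autoImplicit false

namespace Pool.Agent.MP_ee8c61_ag.M3SN

namespace RL3

variable {ι : Type}

theorem cv_self (i : ι) : cv i i = 1 := by simp [cv]

theorem cv_ne {i j : ι} (h : j ≠ i) : cv i j = 0 := by
  simp [cv, Finsupp.single_eq_of_ne h]

theorem expand {s : Finset ι} {D : ι →₀ ℝ} (h : Sup s D) : D = ∑ i ∈ s, D i • cv i := by
  classical
  ext j
  rw [Finsupp.finsetSum_apply]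
  by_cases hj : j ∈ s
  · rw [Finset.sum_eq_single j]
    · simp [cv_self]
    · intro i _ hij
      simp [cv_ne (Ne.symm hij)]
    · intro h'
      exact absurd hj h'
  · rw [h j hj]
    refine (Finset.sum_eq_zero fun i hi => ?_).symm
    have hij : j ≠ i := fun e => hj (e ▸ hi)
    simp [cv_ne hij]

theorem right (I : Fm ι) {s : Finset ι} {D : ι →₀ ℝ} (h : Sup s D) (X : ι →₀ ℝ) :
    I X D = ∑ i ∈ s, D i * I X (cv i) := by
  conv_lhs => rw [expand h]
  rw [map_sum]
  refine Finset.sum_congr rfl fun i _ => ?_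
  rw [map_smul, smul_eq_mul]

theorem left (I : Fm ι) {s : Finset ι} {D : ι →₀ ℝ} (h : Sup s D) (X : ι →₀ ℝ) :
    I D X = ∑ i ∈ s, D i * I (cv i) X := by
  conv_lhs => rw [expand h]
  rw [map_sum, LinearMap.sum_apply]
  refine Finset.sum_congr rfl fun i _ => ?_
  rw [map_smul, LinearMap.smul_apply, smul_eq_mul]

theorem orth (I : Fm ι) {s : Finset ι} {D X : ι →₀ ℝ} (h : Sup s D)
    (h0 : ∀ i ∈ s, I X (cv i) = 0) : I X D = 0 := by
  rw [right I h]
  exact Finset.sum_eq_zero fun i hi => by rw [h0 i hi, mul_zero]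

theorem uniq (I : Fm ι) {s : Finset ι} (hn : NegDef I s) (N N' : ι →₀ ℝ) (h : Sup s N)
    (h' : Sup s N') (e : ∀ i ∈ s, I N (cv i) = I N' (cv i)) : N = N' := by
  have hs : Sup s (N - N') := fun i hi => by simp [h i hi, h' i hi]
  by_contra hne
  have h1 := hn _ hs (sub_ne_zero.2 hne)
  have h2 : I (N - N') (N - N') = 0 := orth I hs fun i hi => by
    rw [map_sub, LinearMap.sub_apply, e i hi, sub_self]
  exact absurd h2 h1.ne

/-- Extension by zero. -/
noncomputable def ext (s : Finset ι) (v : s → ℝ) : ι →₀ ℝ := ∑ j : s, v j • cv (j : ι)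

theorem ext_sup (s : Finset ι) (v : s → ℝ) : Sup s (ext s v) := by
  intro i hi
  rw [ext, Finsupp.finsetSum_apply]
  refine Finset.sum_eq_zero fun j _ => ?_
  have hij : i ≠ (j : ι) := fun e => hi (e ▸ j.2)
  simp [cv_ne hij]

theorem ext_mem (s : Finset ι) (v : s → ℝ) (i : s) : ext s v i = v i := by
  classical
  rw [ext, Finsupp.finsetSum_apply, Finset.sum_eq_single i]
  · simp [cv_self]
  · intro j _ hj
    have hij : (i : ι) ≠ (j : ι) := fun e => hj (Subtype.ext e.symm)
    simp [cv_ne hij]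
  · intro h
    exact absurd (Finset.mem_univ i) h

/-- The Gram matrix. -/
noncomputable def gram (I : Fm ι) (s : Finset ι) : Matrix s s ℝ :=
  Matrix.of fun i j => I (cv (j : ι)) (cv (i : ι))

theorem gram_mul (I : Fm ι) (s : Finset ι) (v : s → ℝ) (i : s) :
    (gram I s).mulVec v i = I (ext s v) (cv (i : ι)) := by
  rw [ext, map_sum, LinearMap.sum_apply, Matrix.mulVec, dotProduct]
  refine Finset.sum_congr rfl fun j _ => ?_
  rw [map_smul, LinearMap.smul_apply, smul_eq_mul, gram, Matrix.of_apply, mul_comm]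

theorem det_ne [DecidableEq ι] (I : Fm ι) {s : Finset ι} (hn : NegDef I s) :
    (gram I s).det ≠ 0 := by
  intro hd
  obtain ⟨v, hv, h0⟩ := Matrix.exists_mulVec_eq_zero_iff.2 hd
  have h1 : ext s v = 0 := by
    refine uniq I hn _ _ (ext_sup s v) (fun _ _ => rfl) fun i hi => ?_
    rw [← gram_mul I s v ⟨i, hi⟩, h0, map_zero]
    rfl
  refine hv (funext fun i => ?_)
  rw [← ext_mem s v i, h1]
  rfl

theorem solve (I : Fm ι) {s : Finset ι} (hn : NegDef I s) (φ : ι → ℝ) :
    ∃ N, Sup s N ∧ ∀ i ∈ s, I N (cv i) = φ i := by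
  classical
  have hu : IsUnit (gram I s).det := isUnit_iff_ne_zero.2 (det_ne I hn)
  refine ⟨ext s ((gram I s)⁻¹.mulVec fun i => φ i), ext_sup _ _, fun i hi => ?_⟩
  rw [← gram_mul I s _ ⟨i, hi⟩, Matrix.mulVec_mulVec, Matrix.mul_nonsing_inv _ hu,
    Matrix.one_mulVec]

theorem rat (I : Fm ι) {s : Finset ι} (hn : NegDef I s) (hl : Lat I) (N : ι →₀ ℝ)
    (h : Sup s N) (hq : ∀ i ∈ s, ∃ r : ℚ, I N (cv i) = r) : IsQ N := by
  classical
  choose z hz using hl.int
  have hq' : ∀ i : s, ∃ r : ℚ, I N (cv (i : ι)) = r := fun i => hq i i.2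
  choose r hr using hq'
  let q0 : Matrix s s ℚ := Matrix.of fun i j => (z j i : ℚ)
  have hm : (Rat.castHom ℝ).mapMatrix q0 = gram I s := by
    ext i j
    simp [q0, gram, hz]
  have hd : q0.det ≠ 0 := by
    intro e
    refine det_ne I hn ?_
    rw [← hm, ← RingHom.map_det, e, map_zero]
  have hu : IsUnit q0.det := isUnit_iff_ne_zero.2 hd
  have h1 : q0.mulVec (q0⁻¹.mulVec r) = r := by
    rw [Matrix.mulVec_mulVec, Matrix.mul_nonsing_inv _ hu, Matrix.one_mulVec]
  generalize q0⁻¹.mulVec r = v at h1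
  have h2 : N = ext s fun i => (v i : ℝ) := by
    refine uniq I hn _ _ h (ext_sup _ _) fun i hi => ?_
    rw [← gram_mul I s _ ⟨i, hi⟩, hr ⟨i, hi⟩, ← h1]
    simp [Matrix.mulVec, dotProduct, q0, gram, hz]
  intro i
  by_cases hi : i ∈ s
  · exact ⟨v ⟨i, hi⟩, by rw [h2]; exact ext_mem s _ ⟨i, hi⟩⟩
  · exact ⟨0, by rw [h i hi, Rat.cast_zero]⟩

theorem ratI (I : Fm ι) (hl : Lat I) {X : ι →₀ ℝ} (hX : IsQ X) (i : ι) :
    ∃ r : ℚ, I X (cv i) = r := by
  choose z hz using hl.int
  choose r hr using hX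
  have hs : Sup X.support X := fun j hj => Finsupp.notMem_support_iff.1 hj
  refine ⟨∑ j ∈ X.support, r j * z j i, ?_⟩
  rw [left I hs]
  push_cast
  exact Finset.sum_congr rfl fun j _ => by rw [hr j, hz j i]

theorem mum : StmtMUM := by
  intro ι I s _ hn
  refine ⟨fun φ => ?_, uniq I hn, fun X => ?_⟩
  · obtain ⟨N, h1, h2⟩ := solve I hn φ
    refine ⟨N, h1, h2, fun hl hq => rat I hn hl N h1 fun i hi => ?_⟩
    rw [h2 i hi]
    exact hq i hi
  · obtain ⟨N, h1, h2⟩ := solve I hn fun i => I X (cv i)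
    refine ⟨N, ⟨h1, fun i hi => ?_⟩, fun hl hq => rat I hn hl N h1 fun i hi => ?_⟩
    · rw [map_sub, LinearMap.sub_apply, h2 i hi, sub_self]
    · rw [h2 i hi]
      exact ratI I hl hq i

theorem add : StmtADD := by
  intro ι I s t c N hl hn hp hneg ht D hD hD0
  have hc : c ∉ s := by
    intro hc
    have hs : Sup s (cv c - N) := fun i hi => by
      have hic : i ≠ c := fun e => hi (e ▸ hc)
      simp [cv_ne hic, hp.1 i hi]
    exact absurd (orth I hs hp.2) hneg.ne
  generalize hP : cv c - N = P at hneg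
  have hs : Sup s (D - D c • P) := by
    intro i hi
    by_cases hic : i = c
    · rw [← hP, hic]
      simp [cv_self, hp.1 c hc]
    · have hit : i ∉ t := fun h => (ht i h).elim hi hic
      rw [← hP]
      simp [cv_ne hic, hp.1 i hi, hD i hit]
  generalize hE : D - D c • P = E at hs
  have hDE : D = D c • P + E := by rw [← hE]; abel
  generalize D c = a at hDE
  have h1 : I P E = 0 := orth I hs (hP ▸ hp.2)
  have h2 : I E P = 0 := by rw [hl.sym, h1]
  have h3 : I D D = a * a * I P P + I E E := by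
    rw [hDE]
    simp only [map_add, map_smul, LinearMap.add_apply, LinearMap.smul_apply, smul_eq_mul, h1, h2]
    ring
  rw [h3]
  by_cases hE0 : E = 0
  · have ha : a ≠ 0 := fun e => hD0 (by rw [hDE, e, hE0, zero_smul, add_zero])
    have h4 : 0 < a * a := mul_self_pos.2 ha
    have h5 : I E E = 0 := by rw [hE0, map_zero]
    rw [h5, add_zero]
    exact mul_neg_of_pos_of_neg h4 hneg
  · have h4 := hn E hs hE0
    have h5 : a * a * I P P ≤ 0 := mul_nonpos_of_nonneg_of_nonpos (mul_self_nonneg a) hneg.le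
    linarith

end RL3

theorem rowL3 : RowL3 := ⟨RL3.mum, RL3.add⟩

end Pool.Agent.MP_ee8c61_ag.M3SN
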