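import Pool.Agent.MP_ee8c61_ag.M3SN.SpecL

/-!
Nef divisors on configurations that are not negative definite, anti-ample divisors, and the
Zariski decomposition of an effective divisor.
-/

set_option autoImplicit false

namespace Pool.Agent.MP_ee8c61_ag.M3SN

namespace RL4

variable {ι : Type}

theorem as_sum (Y : ι →₀ ℝ) : Y = ∑ i ∈ Y.support, Y i • cv i := by
  conv_lhs => rw [← Finsupp.sum_single Y]
  unfold Finsupp.sum cv
  refine Finset.sum_congr rfl fun i _ => ?_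
  rw [Finsupp.smul_single, smul_eq_mul, mul_one]

theorem expand (I : Fm ι) (X Y : ι →₀ ℝ) : I X Y = ∑ i ∈ Y.support, Y i * I X (cv i) := by
  conv_lhs => rw [as_sum Y]
  rw [map_sum]
  refine Finset.sum_congr rfl fun i _ => ?_
  rw [map_smul, smul_eq_mul]

theorem nef_pair {I : Fm ι} {v Y : ι →₀ ℝ} (hv : Nef I v) (hY : 0 ≤ Y) : 0 ≤ I v Y := by
  rw [expand]
  exact Finset.sum_nonneg fun i _ => mul_nonneg (hY i) (hv i)

theorem orth {I : Fm ι} {s : Finset ι} {X Y : ι →₀ ℝ} (hX : ∀ i ∈ s, I X (cv i) = 0)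
    (hY : Sup s Y) : I X Y = 0 := by
  rw [expand]
  refine Finset.sum_eq_zero fun i _ => ?_
  by_cases hi : i ∈ s
  · rw [hX i hi, mul_zero]
  · rw [hY i hi, zero_mul]

theorem off_nonneg {I : Fm ι} (hI : Lat0 I) {X : ι →₀ ℝ} (hX : 0 ≤ X) {i : ι} (hi : X i = 0) :
    0 ≤ I X (cv i) := by
  rw [hI.sym, expand]
  refine Finset.sum_nonneg fun j hj => mul_nonneg (hX j) (hI.off i j ?_)
  rintro rfl
  exact (Finsupp.mem_support_iff.1 hj) hi

theorem cv_self (c : ι) : cv c c = 1 := Finsupp.single_eq_same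

theorem cv_ne {c i : ι} (h : i ≠ c) : cv c i = 0 := Finsupp.single_eq_of_ne h

theorem cv_nonneg (c i : ι) : 0 ≤ cv c i := by
  by_cases h : i = c
  · rw [h, cv_self]
    exact zero_le_one
  · rw [cv_ne h]

theorem cv_Q (c : ι) : IsQ (cv c) := by
  intro i
  by_cases h : i = c
  · exact ⟨1, by rw [h, cv_self]; norm_num⟩
  · exact ⟨0, by rw [cv_ne h]; norm_num⟩

theorem sub_Q {X Y : ι →₀ ℝ} (hX : IsQ X) (hY : IsQ Y) : IsQ (X - Y) := by
  intro i
  obtain ⟨a, ha⟩ := hX i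
  obtain ⟨b, hb⟩ := hY i
  exact ⟨a - b, by rw [Finsupp.sub_apply, ha, hb]; push_cast; ring⟩

theorem clear {N : ι →₀ ℝ} (hN : IsQ N) : ∃ m : ℕ, 0 < m ∧ IsZ ((m : ℝ) • N) := by
  choose r hr using hN
  refine ⟨∏ i ∈ N.support, (r i).den, Finset.prod_pos fun i _ => (r i).den_pos, fun i => ?_⟩
  by_cases hi : i ∈ N.support
  · obtain ⟨k, hk⟩ := Finset.dvd_prod_of_mem (fun i => (r i).den) hi
    refine ⟨k * (r i).num, ?_⟩
    have h1 : ((r i : ℚ) : ℝ) * ((r i).den : ℝ) = ((r i).num : ℝ) := by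
      have := Rat.mul_den_eq_num (r i)
      exact_mod_cast this
    rw [Finsupp.smul_apply, smul_eq_mul, hk, hr i]
    push_cast
    rw [← h1]
    ring
  · refine ⟨0, ?_⟩
    rw [Finsupp.smul_apply, Finsupp.notMem_support_iff.1 hi, smul_zero]
    norm_num

theorem negdef_empty (I : Fm ι) : NegDef I ∅ := by
  intro D hD h0
  exact absurd (Finsupp.ext fun i => hD i (Finset.notMem_empty i)) h0

/-- The projection of a curve outside the configuration. -/
theorem star (hN : StmtNEGA) {I : Fm ι} (hI : Lat0 I) {s : Finset ι} (hs : NegDef I s) {c : ι}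
    (hc : c ∉ s) {N : ι →₀ ℝ} (hP : Prj I s (cv c) N) :
    0 ≤ cv c - N ∧ (cv c - N) c = 1 ∧ (∀ i, i ∉ s → i ≠ c → (cv c - N) i = 0) ∧
      I (cv c - N) (cv c) = I (cv c - N) (cv c - N) ∧
      (0 ≤ I (cv c - N) (cv c - N) → Nef I (cv c - N)) := by
  have h0 : 0 ≤ cv c - N := (hN ι I s (cv c - N) hI hs
    (fun i hi => by rw [Finsupp.sub_apply, hP.1 i hi, sub_zero]; exact cv_nonneg c i)
    (fun i hi => (hP.2 i hi).le)).1
  have h2 : ∀ i, i ∉ s → i ≠ c → (cv c - N) i = 0 := fun i hi hic => by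
    rw [Finsupp.sub_apply, hP.1 i hi, cv_ne hic, sub_zero]
  have h3 : I (cv c - N) (cv c) = I (cv c - N) (cv c - N) := by
    rw [map_sub (I (cv c - N)), orth hP.2 hP.1, sub_zero]
  refine ⟨h0, by rw [Finsupp.sub_apply, hP.1 c hc, cv_self, sub_zero], h2, h3, fun h i => ?_⟩
  by_cases hi : i ∈ s
  · exact (hP.2 i hi).ge
  by_cases hic : i = c
  · rw [hic, h3]
    exact h
  · exact off_nonneg hI h0 (h2 i hi hic)

theorem nnd (hN : StmtNEGA) (hM : StmtMUM) (hA : StmtADD) : StmtNND := by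
  classical
  intro ι I s hI
  induction s using Finset.induction_on with
  | empty => exact fun h => absurd (negdef_empty I) h
  | insert c s hc ih =>
    intro hs
    by_cases h1 : NegDef I s
    · obtain ⟨N, hP, hQ⟩ := (hM ι I s hI h1).2.2 (cv c)
      obtain ⟨a0, a1, a2, -, a4⟩ := star hN hI h1 hc hP
      refine ⟨cv c - N, fun i hi => ?_, a0, fun e => ?_, a4 ?_, fun hL => ?_⟩
      · rw [Finset.mem_insert, not_or] at hi
        exact a2 i hi.2 hi.1
      · rw [e] at a1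
        exact zero_ne_one a1
      · by_contra hlt
        refine hs (hA ι I s _ c N hI h1 hP (not_le.1 hlt) fun i hi => ?_)
        exact (Finset.mem_insert.1 hi).symm
      · exact sub_Q (cv_Q c) (hQ hL (cv_Q c))
    · obtain ⟨v, h2, h3⟩ := ih h1
      exact ⟨v, fun i hi => h2 i fun e => hi (Finset.mem_insert_of_mem e), h3⟩

theorem anti (hN : StmtNEGA) (hM : StmtMUM) : StmtANTI := by
  intro ι I s hL hs
  obtain ⟨N, h1, h2, h3⟩ := (hM ι I s hL.toLat0 hs).1 fun _ => -1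
  obtain ⟨m, hm, hZ⟩ := clear (h3 hL fun i _ => ⟨-1, by norm_num⟩)
  have hm' : (0 : ℝ) < m := by exact_mod_cast hm
  have h4 := (hN ι I s N hL.toLat0 hs (fun i hi => (h1 i hi).ge)
    (fun i hi => by rw [h2 i hi]; norm_num)).2
  refine ⟨(m : ℝ) • N, hZ, fun i hi => ?_, fun i hi => ⟨?_, ?_⟩⟩
  · rw [Finsupp.smul_apply, h1 i hi, smul_zero]
  · rw [Finsupp.smul_apply, smul_eq_mul]
    exact mul_pos hm' (h4 i hi (by rw [h2 i hi]; norm_num))
  · rw [map_smul, LinearMap.smul_apply, h2 i hi, smul_eq_mul]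
    linarith

theorem zar_aux [DecidableEq ι] (hN : StmtNEGA) (hM : StmtMUM) (hA : StmtADD) {I : Fm ι}
    (hI : Lat0 I) {Z : ι →₀ ℝ} (hZ : 0 ≤ Z) (n : ℕ) : ∀ (s : Finset ι) (N : ι →₀ ℝ),
    (Z.support \ s).card ≤ n → NegDef I s → Prj I s Z N → (∀ i ∈ s, 0 < N i) → N ≤ Z →
    ∃ s N, NegDef I s ∧ Prj I s Z N ∧ (∀ i ∈ s, 0 < N i) ∧ N ≤ Z ∧ Nef I (Z - N) := by
  have key : ∀ (s : Finset ι) (N : ι →₀ ℝ) (c : ι), Prj I s Z N → N ≤ Z →
      I (Z - N) (cv c) < 0 → c ∈ Z.support \ s := by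
    intro s N c hP hle hc
    have hcs : c ∉ s := fun h => hc.ne (hP.2 c h)
    refine Finset.mem_sdiff.2 ⟨?_, hcs⟩
    by_contra h
    have h1 : (Z - N) c = 0 := by
      rw [Finsupp.sub_apply, Finsupp.notMem_support_iff.1 h, hP.1 c hcs, sub_zero]
    exact absurd (off_nonneg hI (sub_nonneg.2 hle) h1) (not_le.2 hc)
  induction n with
  | zero =>
    intro s N hn hs hP hp hle
    refine ⟨s, N, hs, hP, hp, hle, fun c => ?_⟩
    by_contra hc
    have := Finset.card_pos.2 ⟨c, key s N c hP hle (not_le.1 hc)⟩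
    omega
  | succ n ih =>
    intro s N hn hs hP hp hle
    by_cases hnef : Nef I (Z - N)
    · exact ⟨s, N, hs, hP, hp, hle, hnef⟩
    obtain ⟨c, hc⟩ : ∃ c, I (Z - N) (cv c) < 0 := by
      by_contra h
      exact hnef fun c => not_lt.1 fun e => h ⟨c, e⟩
    have hm := key s N c hP hle hc
    have hcs : c ∉ s := (Finset.mem_sdiff.1 hm).2
    obtain ⟨M, hM1, -⟩ := (hM ι I s hI hs).2.2 (cv c)
    obtain ⟨a0, a1, a2, a3, a4⟩ := star hN hI hs hcs hM1
    have hneg : I (cv c - M) (cv c - M) < 0 := by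
      by_contra h
      have h1 := nef_pair (a4 (not_lt.1 h)) (sub_nonneg.2 hle)
      rw [hI.sym, map_sub (I (Z - N)), orth hP.2 hM1.1, sub_zero] at h1
      exact absurd h1 (not_le.2 hc)
    have hs1 : NegDef I (insert c s) :=
      hA ι I s _ c M hI hs hM1 hneg fun i hi => (Finset.mem_insert.1 hi).symm
    set t : ℝ := I (Z - N) (cv c) / I (cv c - M) (cv c - M) with ht
    have htp : 0 < t := div_pos_of_neg_of_neg hc hneg
    have hsup : Sup (insert c s) (N + t • (cv c - M)) := by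
      intro i hi
      rw [Finset.mem_insert, not_or] at hi
      rw [Finsupp.add_apply, Finsupp.smul_apply, hP.1 i hi.2, a2 i hi.2 hi.1, smul_zero, add_zero]
    have hval : ∀ i, I (Z - (N + t • (cv c - M))) (cv i) =
        I (Z - N) (cv i) - t * I (cv c - M) (cv i) := by
      intro i
      rw [← sub_sub, map_sub I (Z - N), map_smul, LinearMap.sub_apply, LinearMap.smul_apply,
        smul_eq_mul]
    have hort : ∀ i ∈ insert c s, I (Z - (N + t • (cv c - M))) (cv i) = 0 := by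
      intro i hi
      rw [hval]
      rcases Finset.mem_insert.1 hi with e | e
      · rw [e, a3, ht, div_mul_cancel₀ _ hneg.ne, sub_self]
      · rw [hP.2 i e, hM1.2 i e, mul_zero, sub_zero]
    refine ih (insert c s) (N + t • (cv c - M)) ?_ hs1 ⟨hsup, hort⟩ (fun i hi => ?_) ?_
    · rw [Finset.sdiff_insert, Finset.card_erase_of_mem hm]
      omega
    · rw [Finsupp.add_apply, Finsupp.smul_apply, smul_eq_mul]
      rcases Finset.mem_insert.1 hi with e | e
      · rw [e, a1, hP.1 c hcs]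
        linarith
      · have h1 : (0 : ℝ) ≤ (cv c - M) i := a0 i
        have := mul_nonneg htp.le h1
        have := hp i e
        linarith
    · refine sub_nonneg.1 (hN ι I (insert c s) _ hI hs1 (fun i hi => ?_)
        (fun i hi => (hort i hi).le)).1
      rw [Finsupp.sub_apply, hsup i hi, sub_zero]
      exact hZ i

theorem zar0 (hN : StmtNEGA) (hM : StmtMUM) (hA : StmtADD) : StmtZAR0 := by
  classical
  intro ι I Z hI hZ
  obtain ⟨s, N, h1, h2, h3, h4, h5⟩ := zar_aux hN hM hA hI hZ _ ∅ 0 le_rfl (negdef_empty I)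
    ⟨fun _ _ => rfl, fun i hi => absurd hi (Finset.notMem_empty i)⟩
    (fun i hi => absurd hi (Finset.notMem_empty i)) hZ
  refine ⟨s, N, h1, h2, h3, h4, h5, fun hL hQ => ?_⟩
  obtain ⟨N', hP, hQ'⟩ := (hM ι I s hI h1).2.2 Z
  have e : N = N' := (hM ι I s hI h1).2.1 N N' h2.1 hP.1 fun i hi => by
    have b1 := h2.2 i hi
    have b2 := hP.2 i hi
    rw [map_sub, LinearMap.sub_apply] at b1 b2
    linarith
  rw [e]
  exact hQ' hL hQ

end RL4

theorem rowL4 : RowL4 := fun hN hM hA => ⟨RL4.nnd hN hM hA, RL4.anti hN hM, RL4.zar0 hN hM hA⟩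

end Pool.Agent.MP_ee8c61_ag.M3SN
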