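import Pool.Agent.MP_ee8c61_ag.M3SN.SpecL

/-!
Row L5: Perron vectors of full support.
-/

set_option autoImplicit false

namespace Pool.Agent.MP_ee8c61_ag.M3SN

namespace RL5

variable {ι : Type} {I : Fm ι} {s : Finset ι}

theorem grow {α : Type} (s : Finset ι) (G : α → Prop) (Q : α → ι → Prop) (h0 : ∃ a, G a)
    (step : ∀ a, G a → (∃ j ∈ s, ¬ Q a j) →
      ∃ b, G b ∧ (∀ i ∈ s, Q a i → Q b i) ∧ ∃ j ∈ s, ¬ Q a j ∧ Q b j) :
    ∃ a, G a ∧ ∀ i ∈ s, Q a i := by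
  classical
  have key : ∀ n : ℕ, ∀ a, G a → (s.filter fun i => ¬ Q a i).card = n →
      ∃ a, G a ∧ ∀ i ∈ s, Q a i := by
    intro n
    induction n using Nat.strong_induction_on with
    | _ n ih =>
      intro a ha hn
      by_cases h : ∃ j ∈ s, ¬ Q a j
      · obtain ⟨b, hb, h1, j, hj, h2, h3⟩ := step a ha h
        refine ih _ ?_ b hb rfl
        rw [← hn]
        refine Finset.card_lt_card ⟨fun i hi => ?_, fun hs => ?_⟩
        · obtain ⟨h4, h5⟩ := Finset.mem_filter.1 hi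
          exact Finset.mem_filter.2 ⟨h4, fun h6 => h5 (h1 i h4 h6)⟩
        · exact (Finset.mem_filter.1 (hs (Finset.mem_filter.2 ⟨hj, h2⟩))).2 h3
      · exact ⟨a, ha, fun i hi => by_contra fun h1 => h ⟨i, hi, h1⟩⟩
  obtain ⟨a, ha⟩ := h0
  exact key _ a ha rfl

theorem cv_self (i : ι) : cv i i = 1 := Finsupp.single_eq_same

theorem cv_ne {i j : ι} (h : j ≠ i) : cv i j = 0 := Finsupp.single_eq_of_ne h

theorem cv_nn (i j : ι) : 0 ≤ cv i j := by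
  by_cases h : j = i
  · rw [h, cv_self]
    exact zero_le_one
  · rw [cv_ne h]

theorem nn (hI : Lat0 I) {X : ι →₀ ℝ} (hX : ∀ l, 0 ≤ X l) {j : ι} (hj : X j = 0) :
    0 ≤ I X (cv j) := by
  have h : X = ∑ l ∈ X.support, X l • cv l := by
    conv_lhs => rw [← Finsupp.sum_single X]
    refine Finset.sum_congr rfl fun l _ => ?_
    rw [cv, Finsupp.smul_single_one]
  rw [h, map_sum, LinearMap.sum_apply]
  refine Finset.sum_nonneg fun l hl => ?_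
  rw [map_smul, LinearMap.smul_apply, smul_eq_mul]
  refine mul_nonneg (hX l) (hI.off l j ?_)
  rintro rfl
  exact Finsupp.mem_support_iff.1 hl hj

theorem pert (hI : Lat0 I) {R : ι →₀ ℝ} (hQ : IsQ R) (hS : Sup s R) {j : ι} (hj : j ∈ s)
    (hp : 0 < I R (cv j)) : ∃ R' : ι →₀ ℝ, IsQ R' ∧ Sup s R' ∧ (∀ i, R i ≤ R' i) ∧ R j < R' j ∧
      0 < I R' (cv j) ∧ ∀ i, i ≠ j → I R (cv i) ≤ I R' (cv i) ∧
        (0 < I (cv j) (cv i) → I R (cv i) < I R' (cv i)) := by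
  have hb : 0 < |I (cv j) (cv j)| + 1 := by positivity
  obtain ⟨ε, h0, h1⟩ := exists_rat_btwn (div_pos hp hb)
  rw [lt_div_iff₀ hb] at h1
  have hap : ∀ i, (R + (ε : ℝ) • cv j) i = R i + ε * cv j i := fun i => rfl
  have hI' : ∀ i, I (R + (ε : ℝ) • cv j) (cv i) = I R (cv i) + ε * I (cv j) (cv i) := by
    intro i
    rw [map_add, map_smul, LinearMap.add_apply, LinearMap.smul_apply, smul_eq_mul]
  refine ⟨R + (ε : ℝ) • cv j, fun i => ?_, fun i hi => ?_, fun i => ?_, ?_, ?_, fun i hi => ?_⟩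
  · obtain ⟨r, hr⟩ := hQ i
    by_cases h : i = j
    · refine ⟨r + ε, ?_⟩
      rw [hap, hr, h, cv_self, mul_one, Rat.cast_add]
    · exact ⟨r, by rw [hap, hr, cv_ne h, mul_zero, add_zero]⟩
  · have h : i ≠ j := fun e => hi (e ▸ hj)
    rw [hap, hS i hi, cv_ne h, mul_zero, add_zero]
  · rw [hap]
    exact le_add_of_nonneg_right (mul_nonneg h0.le (cv_nn j i))
  · rw [hap, cv_self, mul_one]
    exact lt_add_of_pos_right _ h0
  · rw [hI']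
    have h2 := mul_le_mul_of_nonneg_left (neg_abs_le (I (cv j) (cv j))) h0.le
    linarith
  · rw [hI']
    exact ⟨le_add_of_nonneg_right (mul_nonneg h0.le (hI.off j i hi.symm)),
      fun h => lt_add_of_pos_right _ (mul_pos h0 h)⟩

theorem edge (hC : Conn I s) (Q : ι → Prop) (h1 : ∃ i ∈ s, Q i) (h2 : ∃ j ∈ s, ¬ Q j) :
    ∃ i ∈ s, Q i ∧ ∃ j ∈ s, ¬ Q j ∧ 0 < I (cv i) (cv j) := by
  classical
  obtain ⟨i, hi, hq⟩ := h1
  obtain ⟨j, hj, hn⟩ := h2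
  obtain ⟨a, ha, b, hb, hb', hab⟩ := hC (s.filter Q) (Finset.filter_subset _ _)
    ⟨i, Finset.mem_filter.2 ⟨hi, hq⟩⟩
    (fun e => hn (Finset.mem_filter.1 (e.symm ▸ hj : j ∈ s.filter Q)).2)
  exact ⟨a, (Finset.mem_filter.1 ha).1, (Finset.mem_filter.1 ha).2, b, hb,
    fun h => hb' (Finset.mem_filter.2 ⟨hb, h⟩), hab⟩

theorem grow1 (hI : Lat0 I) (hC : Conn I s)
    (h0 : ∃ R : ι →₀ ℝ, IsQ R ∧ Sup s R ∧ (∀ i, 0 ≤ R i) ∧ (∃ i ∈ s, 0 < R i) ∧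
      ∀ i ∈ s, 0 ≤ I R (cv i)) :
    ∃ R : ι →₀ ℝ, (IsQ R ∧ Sup s R ∧ (∀ i, 0 ≤ R i) ∧ (∃ i ∈ s, 0 < R i) ∧
      ∀ i ∈ s, 0 ≤ I R (cv i)) ∧ ∀ i ∈ s, 0 < R i := by
  refine grow s _ (fun R i => 0 < R i) h0 ?_
  rintro R ⟨hQ, hS, hn, hx, hf⟩ h
  obtain ⟨i, _, hi, j, hj, hj', hij⟩ := edge hC (fun i => 0 < R i) hx h
  have hj0 : R j = 0 := le_antisymm (not_lt.1 hj') (hn j)
  have hne : j ≠ i := fun e => hj' (e ▸ hi)
  have hap : ∀ l, (R - R i • cv i) l = R l - R i * cv i l := fun l => rfl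
  have h1 : 0 ≤ I (R - R i • cv i) (cv j) := by
    refine nn hI (fun l => ?_) ?_
    · rw [hap]
      by_cases e : l = i
      · rw [e, cv_self, mul_one, sub_self]
      · rw [cv_ne e, mul_zero, sub_zero]
        exact hn l
    · rw [hap, hj0, cv_ne hne, mul_zero, sub_zero]
  rw [map_sub, map_smul, LinearMap.sub_apply, LinearMap.smul_apply, smul_eq_mul] at h1
  have h2 : 0 < I R (cv j) := lt_of_lt_of_le (mul_pos hi hij) (sub_nonneg.1 h1)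
  obtain ⟨R', a1, a2, a3, a4, a5, a6⟩ := pert hI hQ hS hj h2
  refine ⟨R', ⟨a1, a2, fun l => (hn l).trans (a3 l), ⟨j, hj, (hn j).trans_lt a4⟩, fun l hl => ?_⟩,
    fun l _ hl => hl.trans_le (a3 l), j, hj, hj', (hn j).trans_lt a4⟩
  by_cases e : l = j
  · rw [e]
    exact a5.le
  · exact (hf l hl).trans (a6 l e).1

theorem grow2 (hI : Lat0 I) (hC : Conn I s)
    (h0 : ∃ R : ι →₀ ℝ, IsQ R ∧ Sup s R ∧ (∀ i ∈ s, 0 < R i) ∧ (∃ i ∈ s, 0 < I R (cv i)) ∧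
      ∀ i ∈ s, 0 ≤ I R (cv i)) :
    ∃ R : ι →₀ ℝ, (IsQ R ∧ Sup s R ∧ (∀ i ∈ s, 0 < R i) ∧ (∃ i ∈ s, 0 < I R (cv i)) ∧
      ∀ i ∈ s, 0 ≤ I R (cv i)) ∧ ∀ i ∈ s, 0 < I R (cv i) := by
  refine grow s _ (fun R i => 0 < I R (cv i)) h0 ?_
  rintro R ⟨hQ, hS, hn, hx, hf⟩ h
  obtain ⟨i, hi, hi', j, hj, hj', hij⟩ := edge hC (fun i => 0 < I R (cv i)) hx h
  have hne : j ≠ i := fun e => hj' (e ▸ hi')
  obtain ⟨R', a1, a2, a3, _, a5, a6⟩ := pert hI hQ hS hi hi'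
  refine ⟨R', ⟨a1, a2, fun l hl => (hn l hl).trans_le (a3 l), ⟨i, hi, a5⟩, fun l hl => ?_⟩,
    fun l _ hl => ?_, j, hj, hj', (hf j hj).trans_lt ((a6 j hne).2 hij)⟩
  · by_cases e : l = i
    · rw [e]
      exact a5.le
    · exact (hf l hl).trans (a6 l e).1
  · by_cases e : l = i
    · rw [e]
      exact a5
    · exact hl.trans_le (a6 l e).1

theorem clear {R : ι →₀ ℝ} (hQ : IsQ R) : ∃ m : ℝ, 0 < m ∧ IsZ (m • R) := by
  choose r hr using hQ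
  refine ⟨((∏ i ∈ R.support, (r i).den : ℕ) : ℝ),
    Nat.cast_pos.2 (Finset.prod_pos fun i _ => (r i).den_pos), fun i => ?_⟩
  rw [Finsupp.smul_apply, smul_eq_mul]
  by_cases hi : i ∈ R.support
  · obtain ⟨k, hk⟩ := Finset.dvd_prod_of_mem (fun i => (r i).den) hi
    have h : ((r i).den : ℝ) * (r i : ℝ) = (r i).num := by
      exact_mod_cast Rat.den_mul_eq_num (r i)
    refine ⟨k * (r i).num, ?_⟩
    rw [hk, hr, Int.cast_mul, Int.cast_natCast, Nat.cast_mul, ← h]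
    ring
  · exact ⟨0, by rw [Finsupp.notMem_support_iff.1 hi, mul_zero, Int.cast_zero]⟩

theorem fin (hI : Lat0 I) {R : ι →₀ ℝ} (hQ : IsQ R) (hS : Sup s R) (hp : ∀ i ∈ s, 0 < R i)
    (hf : ∀ i ∈ s, 0 ≤ I R (cv i)) : ∃ R' : ι →₀ ℝ, IsZ R' ∧ Sup s R' ∧ (∀ i ∈ s, 0 < R' i) ∧
      Nef I R' ∧ ((∀ i ∈ s, 0 < I R (cv i)) → ∀ i ∈ s, 0 < I R' (cv i)) := by
  obtain ⟨m, hm, hZ⟩ := clear hQ
  have hI' : ∀ i, I (m • R) (cv i) = m * I R (cv i) := by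
    intro i
    rw [map_smul, LinearMap.smul_apply, smul_eq_mul]
  refine ⟨m • R, hZ, fun i hi => ?_, fun i hi => ?_, fun i => ?_, fun h i hi => ?_⟩
  · rw [Finsupp.smul_apply, hS i hi, smul_zero]
  · rw [Finsupp.smul_apply, smul_eq_mul]
    exact mul_pos hm (hp i hi)
  · rw [hI']
    refine mul_nonneg hm.le ?_
    by_cases hi : i ∈ s
    · exact hf i hi
    · refine nn hI (fun l => ?_) (hS i hi)
      by_cases hl : l ∈ s
      · exact (hp l hl).le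
      · rw [hS l hl]
  · rw [hI']
    exact mul_pos hm (h i hi)

end RL5

theorem rowL5 : RowL5 := by
  intro hN hSemi ι I s hI hC hD
  obtain ⟨v, hS, hv, hv0, hnef, hQ⟩ := hN ι I s hI.toLat0 hD
  have hx : ∃ i ∈ s, 0 < v i := by
    obtain ⟨i, hi⟩ := Finsupp.ne_iff.1 hv0
    exact ⟨i, by_contra fun h => hi (hS i h), lt_of_le_of_ne (hv i) (Ne.symm hi)⟩
  obtain ⟨R, ⟨a1, a2, _, _, a5⟩, a6⟩ :=
    RL5.grow1 hI.toLat0 hC ⟨v, hQ hI, hS, fun i => hv i, hx, fun i _ => hnef i⟩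
  by_cases h : ∃ D, Sup s D ∧ 0 < I D D
  · obtain ⟨D, hD1, hD2⟩ := h
    have hy : ∃ i ∈ s, 0 < I R (cv i) := by
      by_contra hc
      exact absurd (hSemi ι I s R hI.toLat0 hC a2 a6
        (fun i hi => not_lt.1 fun e => hc ⟨i, hi, e⟩) D hD1).1 (not_le.2 hD2)
    obtain ⟨R1, ⟨b1, b2, b3, _, b5⟩, b6⟩ := RL5.grow2 hI.toLat0 hC ⟨R, a1, a2, a6, hy, a5⟩
    obtain ⟨R', c1, c2, c3, c4, c5⟩ := RL5.fin hI.toLat0 b1 b2 b3 b5
    exact ⟨R', c1, c2, c3, c4, fun _ => c5 b6⟩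
  · obtain ⟨R', c1, c2, c3, c4, _⟩ := RL5.fin hI.toLat0 a1 a2 a6 a5
    exact ⟨R', c1, c2, c3, c4, fun e => absurd e h⟩

end Pool.Agent.MP_ee8c61_ag.M3SN
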