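import Pool.Agent.MP_ee8c61_ag.M3SN.SpecL

/-! Row L6: adjunction after contracting a negative definite configuration. -/

set_option autoImplicit false

namespace Pool.Agent.MP_ee8c61_ag.M3SN

namespace RL6

variable {ι : Type}

theorem apply_nonneg (φ : (ι →₀ ℝ) →ₗ[ℝ] ℝ) (D : ι →₀ ℝ) (h : ∀ j, 0 ≤ D j * φ (cv j)) :
    0 ≤ φ D := by
  have e : φ D = ∑ j ∈ D.support, D j * φ (cv j) := by
    conv_lhs => rw [← Finsupp.sum_single D]
    rw [Finsupp.sum, map_sum]
    refine Finset.sum_congr rfl fun j _ => ?_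
    rw [← smul_eq_mul, ← map_smul, cv, Finsupp.smul_single, smul_eq_mul, mul_one]
  rw [e]
  exact Finset.sum_nonneg fun j _ => h j

/-- The form after contracting `e`. -/
noncomputable def ctr (I : Fm ι) (e : ι →₀ ℝ) : Fm ι := I + (I e).smulRight (I e)

theorem ctr_apply (I : Fm ι) (e D E : ι →₀ ℝ) : ctr I e D E = I D E + I e D * I e E := by
  simp only [ctr, LinearMap.add_apply, LinearMap.smulRight_apply, LinearMap.smul_apply,
    smul_eq_mul]

theorem cv_self (i : ι) : cv i i = 1 := by simp [cv]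

theorem cv_ne {i j : ι} (h : j ≠ i) : cv i j = 0 := by simp [cv, h]

theorem latK_ctr {I : Fm ι} {κ : (ι →₀ ℝ) →ₗ[ℝ] ℝ} (h : LatK I κ) (i : ι)
    (hi : I (cv i) (cv i) = -1) : LatK (ctr I (cv i)) (κ - I (cv i)) where
  sym D E := by rw [ctr_apply, ctr_apply, h.sym D E, mul_comm]
  off j l hjl := by
    rw [ctr_apply]
    by_cases h1 : j = i
    · rw [h1, hi]
      linarith
    by_cases h2 : l = i
    · rw [h2, hi, h.sym (cv j) (cv i)]
      linarith
    exact add_nonneg (h.off j l hjl)
      (mul_nonneg (h.off i j fun e => h1 e.symm) (h.off i l fun e => h2 e.symm))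
  int j l := by
    obtain ⟨a, ha⟩ := h.int j l
    obtain ⟨b, hb⟩ := h.int i j
    obtain ⟨c, hc⟩ := h.int i l
    exact ⟨a + b * c, by rw [ctr_apply, ha, hb, hc]; push_cast; ring⟩
  adj j := by
    obtain ⟨n, hn, e⟩ := h.adj j
    obtain ⟨m, hm⟩ := h.int i j
    obtain ⟨k, hk⟩ := Int.even_mul_pred_self m
    have hk0 : 0 ≤ k := by
      rcases le_or_gt 1 m with a | a
      · nlinarith
      · nlinarith
    refine ⟨n + k, by omega, ?_⟩
    have hk' : (m : ℝ) * (m - 1) = k + k := by exact_mod_cast hk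
    rw [ctr_apply, LinearMap.sub_apply, hm]
    push_cast
    linarith

theorem negDef_ctr [DecidableEq ι] {I : Fm ι} (h : Lat0 I) {s : Finset ι} (hs : NegDef I s)
    {i : ι} (his : i ∈ s) (hi : I (cv i) (cv i) = -1) : NegDef (ctr I (cv i)) (s.erase i) := by
  intro D hD h0
  have h1 : Sup s (D + I (cv i) D • cv i) := by
    intro j hj
    have hji : j ≠ i := fun e => hj (e ▸ his)
    rw [Finsupp.add_apply, Finsupp.smul_apply, cv_ne hji, smul_zero, add_zero]
    exact hD j fun a => hj (Finset.mem_of_mem_erase a)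
  have h2 : D + I (cv i) D • cv i ≠ 0 := by
    intro e
    apply h0
    ext j
    by_cases hji : j = i
    · rw [hji]
      exact hD i (Finset.notMem_erase i s)
    · have e2 := DFunLike.congr_fun e j
      rw [Finsupp.add_apply, Finsupp.smul_apply, cv_ne hji, smul_zero, add_zero] at e2
      exact e2
  have h3 := hs _ h1 h2
  simp only [map_add, map_smul, LinearMap.add_apply, LinearMap.smul_apply, smul_eq_mul, hi,
    h.sym D (cv i)] at h3
  rw [ctr_apply]
  linarith

theorem main (hN : StmtNEGA) (ι : Type) (c : ι) (k : ℕ) : ∀ (I : Fm ι)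
    (κ : (ι →₀ ℝ) →ₗ[ℝ] ℝ) (s : Finset ι) (N : ι →₀ ℝ), s.card = k → LatK I κ → NegDef I s →
    c ∉ s → Sup s N → (∀ i ∈ s, I N (cv i) = κ (cv i) + I (cv c) (cv i)) →
    -2 ≤ κ (cv c) + I (cv c) (cv c) - I N (cv c) := by
  classical
  induction k using Nat.strong_induction_on with
  | _ k ih =>
  intro I κ s N hk hL hs hc hsup hNi
  by_cases hκ : ∀ i ∈ s, 0 ≤ κ (cv i)
  · have h1 := (hN ι I s (-N) hL.toLat0 hs
      (fun i hi => by rw [Finsupp.neg_apply, hsup i hi, neg_zero])
      (fun i hi => by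
        have a := hL.off c i fun e => hc (e ▸ hi)
        have b := hκ i hi
        rw [map_neg, LinearMap.neg_apply, hNi i hi]
        linarith)).1
    have h2 : 0 ≤ I (cv c) (-N) := by
      refine apply_nonneg _ _ fun j => ?_
      by_cases hj : j ∈ s
      · exact mul_nonneg (h1 j) (hL.off c j fun e => hc (e ▸ hj))
      · rw [Finsupp.neg_apply, hsup j hj, neg_zero, zero_mul]
    rw [map_neg, hL.sym] at h2
    obtain ⟨n, hn, e⟩ := hL.adj c
    have hn' : (-1 : ℝ) ≤ n := by exact_mod_cast hn
    linarith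
  · push Not at hκ
    obtain ⟨i, his, hi⟩ := hκ
    have hneg : I (cv i) (cv i) < 0 := by
      refine hs _ (fun j hj => cv_ne fun e => hj (e ▸ his)) fun e => ?_
      have e2 := DFunLike.congr_fun e i
      rw [cv_self] at e2
      exact one_ne_zero e2
    obtain ⟨n, hn, e⟩ := hL.adj i
    obtain ⟨m, hm⟩ := hL.int i i
    have a1 : m < 0 := by
      rw [hm] at hneg
      exact_mod_cast hneg
    have a2 : 2 * n - m < 0 := by
      have b : ((2 * n - m : ℤ) : ℝ) < 0 := by
        push_cast
        linarith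
      exact_mod_cast b
    have a3 : m = -1 := by omega
    have a4 : n = -1 := by omega
    have hii : I (cv i) (cv i) = -1 := by
      rw [hm, a3]
      norm_num
    have hκi : κ (cv i) = -1 := by
      rw [a4, hii] at e
      push_cast at e
      linarith
    have hNe : I (cv i) N = -1 + I (cv i) (cv c) := by
      rw [hL.sym (cv i) N, hNi i his, hκi, hL.sym (cv c) (cv i)]
    have key : ∀ E, ctr I (cv i) (N - N i • cv i) E = I N E + I (cv i) N * I (cv i) E := by
      intro E
      simp only [ctr_apply, map_sub, map_smul, LinearMap.sub_apply, LinearMap.smul_apply,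
        smul_eq_mul, hii]
      ring
    have h5 := ih (s.erase i).card (hk ▸ Finset.card_erase_lt_of_mem his) (ctr I (cv i))
      (κ - I (cv i)) (s.erase i) (N - N i • cv i) rfl (latK_ctr hL i hii)
      (negDef_ctr hL.toLat0 hs his hii) (fun a => hc (Finset.mem_of_mem_erase a))
      (fun j hj => by
        by_cases hji : j = i
        · rw [hji, Finsupp.sub_apply, Finsupp.smul_apply, cv_self, smul_eq_mul, mul_one, sub_self]
        · rw [Finsupp.sub_apply, Finsupp.smul_apply, cv_ne hji, smul_zero, sub_zero]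
          exact hsup j fun a => hj (Finset.mem_erase.2 ⟨hji, a⟩))
      (fun j hj => by
        rw [key, ctr_apply, LinearMap.sub_apply, hNi j (Finset.mem_of_mem_erase hj), hNe]
        ring)
    rw [key, ctr_apply, LinearMap.sub_apply, hNe] at h5
    linarith

end RL6

theorem rowL6 : RowL6 := fun hN ι I κ s c N h1 h2 h3 h4 h5 =>
  RL6.main hN ι c s.card I κ s N rfl h1 h2 h3 h4 h5

end Pool.Agent.MP_ee8c61_ag.M3SN
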