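import Pool.Agent.MP_ee8c61_ag.M3SN.SpecL

/-! Reduced divisors over a log terminal point have arithmetic genus at most zero. -/

set_option autoImplicit false

namespace Pool.Agent.MP_ee8c61_ag.M3SN

namespace RL7

variable {ι : Type}

theorem expand (φ : (ι →₀ ℝ) →ₗ[ℝ] ℝ) (D : ι →₀ ℝ) :
    φ D = ∑ j ∈ D.support, D j * φ (cv j) := by
  conv_lhs => rw [← D.sum_single, Finsupp.sum, map_sum]
  refine Finset.sum_congr rfl fun j _ => ?_
  rw [← smul_eq_mul, ← map_smul, cv, Finsupp.smul_single, smul_eq_mul, mul_one]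

theorem pos (φ : (ι →₀ ℝ) →ₗ[ℝ] ℝ) {X : ι →₀ ℝ} (hX : 0 ≤ X)
    (h : ∀ c, X c ≠ 0 → 0 ≤ φ (cv c)) : 0 ≤ φ X := by
  rw [expand]
  exact Finset.sum_nonneg fun j hj => mul_nonneg (hX j) (h j (Finsupp.mem_support_iff.1 hj))

theorem pos1 {I : Fm ι} (hI : Lat0 I) {Y : ι →₀ ℝ} (hY : 0 ≤ Y) {c : ι} (hc : Y c = 0) :
    0 ≤ I Y (cv c) := by
  rw [hI.sym]
  exact pos _ hY fun j hj => hI.off c j fun e => hj (e ▸ hc)

theorem int1 {I : Fm ι} (hI : Lat I) {Z : ι →₀ ℝ} (hZ : ∀ i, Z i = 0 ∨ Z i = 1) (c : ι) :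
    ∃ n : ℤ, I Z (cv c) = n := by
  choose m hm using hI.int
  refine ⟨∑ j ∈ Z.support, m c j, ?_⟩
  rw [hI.sym, expand, Int.cast_sum]
  refine Finset.sum_congr rfl fun j hj => ?_
  rw [(hZ j).resolve_left (Finsupp.mem_support_iff.1 hj), one_mul, hm]

theorem cv_self (i : ι) : cv i i = 1 := by simp [cv]

theorem cv_ne {i j : ι} (h : j ≠ i) : cv i j = 0 := by simp [cv, h]

theorem leaf {I : Fm ι} {κ : (ι →₀ ℝ) →ₗ[ℝ] ℝ} {s : Finset ι} {Δ Z : ι →₀ ℝ} (hI : Lat0 I)
    (hN : NegDef I s) (h1 : ∀ i ∈ s, Δ i < 1) (h0 : 0 ≤ Δ)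
    (hK : ∀ i ∈ s, κ (cv i) + I Δ (cv i) ≤ 0) (hs : Sup s Z) (hZ : ∀ i, Z i = 0 ∨ Z i = 1)
    (hne : Z ≠ 0) : ∃ c, Z c = 1 ∧ κ (cv c) + I Z (cv c) < 0 := by
  classical
  by_contra! H
  have hin : ∀ c, Z c = 1 → c ∈ s := fun c hc => by
    by_contra h
    rw [hs c h] at hc
    exact zero_ne_one hc
  obtain ⟨X, hX⟩ : ∃ X : ι →₀ ℝ, X = (Z - Δ).filter fun c => Z c = 1 := ⟨_, rfl⟩
  obtain ⟨Y, hY⟩ : ∃ Y : ι →₀ ℝ, Y = Δ.filter fun c => ¬ Z c = 1 := ⟨_, rfl⟩
  have x1 : ∀ c, Z c = 1 → X c = 1 - Δ c := fun c hc => by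
    rw [hX, Finsupp.filter_apply, if_pos hc, Finsupp.sub_apply, hc]
  have x0 : ∀ c, ¬ Z c = 1 → X c = 0 := fun c hc => by
    rw [hX, Finsupp.filter_apply, if_neg hc]
  have y1 : ∀ c, Z c = 1 → Y c = 0 := fun c hc => by
    rw [hY, Finsupp.filter_apply, if_neg (not_not.2 hc)]
  have y0 : ∀ c, ¬ Z c = 1 → Y c = Δ c := fun c hc => by
    rw [hY, Finsupp.filter_apply, if_pos hc]
  have e : X = (Z - Δ) + Y := by
    ext c
    rw [Finsupp.add_apply, Finsupp.sub_apply]
    by_cases hc : Z c = 1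
    · rw [x1 c hc, y1 c hc, hc, add_zero]
    · rw [x0 c hc, y0 c hc, (hZ c).resolve_right hc]; ring
  have hX0 : 0 ≤ X := fun c => by
    by_cases hc : Z c = 1
    · have := h1 c (hin c hc)
      show (0 : ℝ) ≤ X c
      rw [x1 c hc]; linarith
    · exact (x0 c hc).ge
  have hY0 : 0 ≤ Y := fun c => by
    by_cases hc : Z c = 1
    · exact (y1 c hc).ge
    · show (0 : ℝ) ≤ Y c
      rw [y0 c hc]; exact h0 c
  have hp : 0 ≤ I X X := by
    refine pos _ hX0 fun c hc => ?_
    have hc1 : Z c = 1 := by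
      by_contra h
      exact hc (x0 c h)
    have a1 := H c hc1
    have a2 := hK c (hin c hc1)
    have a3 := pos1 hI hY0 (y1 c hc1)
    rw [e, map_add, map_sub, LinearMap.add_apply, LinearMap.sub_apply]
    linarith
  refine absurd hp (not_le.2 (hN X (fun c hc => x0 c fun h => hc (hin c h)) fun h => ?_))
  obtain ⟨c, hc⟩ := Finsupp.ne_iff.1 hne
  have hc1 := (hZ c).resolve_left hc
  have a1 := x1 c hc1
  have a2 := h1 c (hin c hc1)
  rw [h, Finsupp.zero_apply] at a1
  linarith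

theorem inner {I : Fm ι} {κ : (ι →₀ ℝ) →ₗ[ℝ] ℝ} {s : Finset ι} {Δ : ι →₀ ℝ} (hI : LatK I κ)
    (hN : NegDef I s) (h1 : ∀ i ∈ s, Δ i < 1) (h0 : 0 ≤ Δ)
    (hK : ∀ i ∈ s, κ (cv i) + I Δ (cv i) ≤ 0) (n : ℕ) : ∀ Z : ι →₀ ℝ, Z.support.card = n →
    Sup s Z → (∀ i, Z i = 0 ∨ Z i = 1) → Z ≠ 0 → κ Z + I Z Z ≤ -2 := by
  classical
  induction n using Nat.strong_induction_on with
  | _ n ih =>
    intro Z hn hs hZ hne
    obtain ⟨c, hc, hlt⟩ := leaf hI.toLat0 hN h1 h0 hK hs hZ hne
    obtain ⟨W, hW⟩ : ∃ W, W = Z - cv c := ⟨_, rfl⟩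
    have wc : W c = 0 := by rw [hW, Finsupp.sub_apply, hc, cv_self, sub_self]
    have wo : ∀ j, j ≠ c → W j = Z j := fun j hj => by
      rw [hW, Finsupp.sub_apply, cv_ne hj, sub_zero]
    have hWZ : ∀ i, W i = 0 ∨ W i = 1 := fun i => by
      by_cases hi : i = c
      · exact Or.inl (hi ▸ wc)
      · rw [wo i hi]; exact hZ i
    have hW0 : 0 ≤ W := fun i => by
      show (0 : ℝ) ≤ W i
      rcases hWZ i with h | h <;> rw [h]
      exact zero_le_one
    have e : Z = W + cv c := by rw [hW, sub_add_cancel]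
    obtain ⟨p, hp⟩ := int1 hI.toLat hWZ c
    obtain ⟨m, hm1, hm⟩ := hI.adj c
    have p0 := pos1 hI.toLat0 hW0 wc
    have e1 : I Z (cv c) = p + I (cv c) (cv c) := by rw [e, map_add, LinearMap.add_apply, hp]
    have e2 : κ Z + I Z Z = κ W + I W W + 2 * m + 2 * p := by
      rw [e]
      simp only [map_add, LinearMap.add_apply]
      rw [hI.sym (cv c) W, hp]
      linarith
    have a1 : 2 * m + p < 0 := by
      have : (2 * m + p : ℝ) < 0 := by linarith
      exact_mod_cast this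
    have a2 : 0 ≤ p := by
      rw [hp] at p0
      exact_mod_cast p0
    by_cases hw : W = 0
    · have a3 : (p : ℝ) = 0 := by rw [← hp, hw]; simp
      have a4 : m ≤ -1 := by omega
      have a5 : (m : ℝ) ≤ -1 := by exact_mod_cast a4
      rw [e2, hw, a3]
      simp only [map_zero]
      linarith
    · have a3 : W.support.card < n := by
        rw [← hn]
        refine Finset.card_lt_card ⟨fun j hj => ?_, fun h => ?_⟩
        · rw [Finsupp.mem_support_iff] at hj ⊢
          rwa [← wo j fun h => hj (h ▸ wc)]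
        · exact Finsupp.mem_support_iff.1
            (h (Finsupp.mem_support_iff.2 (by rw [hc]; exact one_ne_zero))) wc
      have a4 := ih _ a3 W rfl (fun j hj => by
        by_cases h : j = c
        · exact h ▸ wc
        · rw [wo j h]; exact hs j hj) hWZ hw
      have a5 : m + p ≤ 0 := by omega
      have a6 : (m + p : ℝ) ≤ 0 := by exact_mod_cast a5
      linarith

/-- The form after contracting the curve `i`. -/
noncomputable def ctr (I : Fm ι) (i : ι) : Fm ι :=
  I + (LinearMap.mul ℝ ℝ).compl₁₂ (I.flip (cv i)) (I.flip (cv i))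

theorem ctr_apply (I : Fm ι) (i : ι) (D E : ι →₀ ℝ) :
    ctr I i D E = I D E + I D (cv i) * I E (cv i) := rfl

theorem sq_sub (m : ℤ) : ∃ q : ℤ, 0 ≤ q ∧ m * m - m = 2 * q := by
  obtain ⟨q, hq⟩ := Int.even_mul_pred_self m
  refine ⟨q, ?_, by linarith⟩
  have : 0 ≤ m * (m - 1) := by
    rcases le_or_gt m 0 with h | h
    · exact mul_nonneg_of_nonpos_of_nonpos h (by omega)
    · exact mul_nonneg h.le (by omega)
  omega

theorem outer (hA : StmtNEGA) (n : ℕ) : ∀ (I : Fm ι) (κ : (ι →₀ ℝ) →ₗ[ℝ] ℝ) (s : Finset ι)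
    (Δ Z : ι →₀ ℝ), s.card = n → LatK I κ → NegDef I s → (∀ i ∈ s, Δ i < 1) →
    (∀ i, i ∉ s → 0 ≤ Δ i) → (∀ i ∈ s, κ (cv i) + I Δ (cv i) ≤ 0) → Sup s Z →
    (∀ i, Z i = 0 ∨ Z i = 1) → Z ≠ 0 → κ Z + I Z Z ≤ -2 := by
  classical
  induction n using Nat.strong_induction_on with
  | _ n ih =>
    intro I κ s Δ Z hn hI hN h1 h0 hK hs hZ hne
    by_cases H : ∀ i ∈ s, 0 ≤ κ (cv i)
    · refine inner hI hN h1 (hA ι I s Δ hI.toLat0 hN h0 fun i hi => ?_).1 hK _ Z rfl hs hZ hne
      have := H i hi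
      have := hK i hi
      linarith
    push Not at H
    obtain ⟨i, hi, hk⟩ := H
    have hneg : I (cv i) (cv i) < 0 := hN _ (fun j hj => cv_ne fun e => hj (e ▸ hi)) fun h => by
      have := cv_self i
      rw [h] at this
      exact zero_ne_one this
    obtain ⟨b, hb⟩ := hI.int i i
    obtain ⟨m, hm1, hm⟩ := hI.adj i
    have b1 : b < 0 := by
      rw [hb] at hneg
      exact_mod_cast hneg
    have b2 : 2 * m - b < 0 := by
      have : (2 * m - b : ℝ) < 0 := by linarith
      exact_mod_cast this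
    have b3 : b = -1 := by omega
    have b4 : m = -1 := by omega
    have ii : I (cv i) (cv i) = -1 := by rw [hb, b3]; simp
    have ki : κ (cv i) = -1 := by
      rw [ii, b4] at hm
      push_cast at hm
      linarith
    obtain ⟨κ1, hκ1⟩ : ∃ κ1 : (ι →₀ ℝ) →ₗ[ℝ] ℝ, ∀ D, κ1 D = κ D - I D (cv i) :=
      ⟨κ - I.flip (cv i), fun _ => rfl⟩
    have L1 : LatK (ctr I i) κ1 :=
      { sym := fun D E => by rw [ctr_apply, ctr_apply, hI.sym D E, mul_comm]
        off := fun j l hjl => by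
          rw [ctr_apply]
          by_cases hj : j = i
          · rw [hj, ii, hI.sym (cv l)]; linarith
          by_cases hl : l = i
          · rw [hl, ii]; linarith
          exact add_nonneg (hI.off j l hjl) (mul_nonneg (hI.off j i hj) (hI.off l i hl))
        int := fun j l => by
          obtain ⟨a1, e1⟩ := hI.int j l
          obtain ⟨a2, e2⟩ := hI.int j i
          obtain ⟨a3, e3⟩ := hI.int l i
          exact ⟨a1 + a2 * a3, by rw [ctr_apply, e1, e2, e3]; push_cast; ring⟩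
        adj := fun j => by
          obtain ⟨a1, e0, e1⟩ := hI.adj j
          obtain ⟨a2, e2⟩ := hI.int j i
          obtain ⟨q, q0, hq⟩ := sq_sub a2
          have hq' : (a2 * a2 - a2 : ℝ) = 2 * q := by exact_mod_cast hq
          refine ⟨a1 + q, by omega, ?_⟩
          rw [ctr_apply, hκ1, e2]
          push_cast
          linarith }
    have N1 : NegDef (ctr I i) (s.erase i) := fun D hD hD0 => by
      have di : D i = 0 := hD i (Finset.notMem_erase i s)
      have := hN (D + I D (cv i) • cv i) (fun j hj => by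
        have hji : j ≠ i := fun e => hj (e ▸ hi)
        rw [Finsupp.add_apply, Finsupp.smul_apply, cv_ne hji, smul_zero, add_zero]
        exact hD j fun h => hj (Finset.mem_of_mem_erase h)) fun h => hD0 (by
          ext j
          by_cases hj : j = i
          · rw [hj, di]; rfl
          · have := DFunLike.congr_fun h j
            rwa [Finsupp.add_apply, Finsupp.smul_apply, cv_ne hj, smul_zero, add_zero] at this)
      simp only [map_add, map_smul, LinearMap.add_apply, LinearMap.smul_apply, smul_eq_mul] at this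
      rw [hI.sym (cv i) D, ii] at this
      rw [ctr_apply]
      linarith
    have cut : ∀ (D : ι →₀ ℝ) j, j ≠ i → (D - D i • cv i) j = D j := fun D j hj => by
      rw [Finsupp.sub_apply, Finsupp.smul_apply, cv_ne hj, smul_zero, sub_zero]
    have cui : ∀ D : ι →₀ ℝ, (D - D i • cv i) i = 0 := fun D => by
      rw [Finsupp.sub_apply, Finsupp.smul_apply, cv_self, smul_eq_mul, mul_one, sub_self]
    by_cases hz : Z - Z i • cv i = 0
    · have e : Z = Z i • cv i := sub_eq_zero.1 hz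
      rcases hZ i with h | h
      · rw [h, zero_smul] at e
        exact absurd e hne
      · rw [h, one_smul] at e
        rw [e, ii, ki]; linarith
    have key := ih _ (hn ▸ Finset.card_erase_lt_of_mem hi) (ctr I i) κ1 (s.erase i)
      (Δ - Δ i • cv i) (Z - Z i • cv i) rfl L1 N1
      (fun j hj => by
        rw [cut Δ j (Finset.ne_of_mem_erase hj)]
        exact h1 j (Finset.mem_of_mem_erase hj))
      (fun j hj => by
        by_cases h : j = i
        · rw [h, cui]
        · rw [cut Δ j h]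
          exact h0 j fun h' => hj (Finset.mem_erase.2 ⟨h, h'⟩))
      (fun j hj => by
        have a1 := hK j (Finset.mem_of_mem_erase hj)
        have a2 := hK i hi
        have a3 := hI.off j i (Finset.ne_of_mem_erase hj)
        have a4 := mul_nonneg a3 (neg_nonneg.2 a2)
        rw [ctr_apply, hκ1]
        simp only [map_sub, map_smul, LinearMap.sub_apply, LinearMap.smul_apply, smul_eq_mul]
        rw [hI.sym (cv i) (cv j), ii]
        rw [ki] at a4
        linarith)
      (fun j hj => by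
        by_cases h : j = i
        · rw [h, cui]
        · rw [cut Z j h]
          exact hs j fun h' => hj (Finset.mem_erase.2 ⟨h, h'⟩))
      (fun j => by
        by_cases h : j = i
        · exact Or.inl (by rw [h, cui])
        · rw [cut Z j h]; exact hZ j) hz
    obtain ⟨M, hM⟩ := int1 hI.toLat hZ i
    obtain ⟨q, q0, hq⟩ := sq_sub M
    have hq' : (M * M - M : ℝ) = 2 * q := by exact_mod_cast hq
    have q0' : (0 : ℝ) ≤ q := by exact_mod_cast q0
    rw [ctr_apply, hκ1] at key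
    simp only [map_sub, map_smul, LinearMap.sub_apply, LinearMap.smul_apply, smul_eq_mul] at key
    rw [hI.sym (cv i) Z, ii, ki, hM] at key
    linarith

end RL7

theorem rowL7 : RowL7 := fun hA _ I κ s Δ Z => RL7.outer hA _ I κ s Δ Z rfl

end Pool.Agent.MP_ee8c61_ag.M3SN
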