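import Pool.Agent.MP_ee8c61_ag.M3SN.SpecN
import Pool.Agent.MP_ee8c61_ag.M3SN.RL1
import Pool.Agent.MP_ee8c61_ag.M3SN.RL2
import Pool.Agent.MP_ee8c61_ag.M3SN.RL3
import Pool.Agent.MP_ee8c61_ag.M3SN.RL4
import Pool.Agent.MP_ee8c61_ag.M3SN.RL5
import Pool.Agent.MP_ee8c61_ag.M3SN.RL6
import Pool.Agent.MP_ee8c61_ag.M3SN.RL7

/-!
All lattice statements.
-/

set_option autoImplicit false

namespace Pool.Agent.MP_ee8c61_ag.M3SN

theorem latAll : LatAll where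
  nega := rowL1.1
  con := rowL1.2.1
  blk := rowL1.2.2
  semi := rowL2
  mum := rowL3.1
  add := rowL3.2
  nnd := (rowL4 rowL1.1 rowL3.1 rowL3.2).1
  anti := (rowL4 rowL1.1 rowL3.1 rowL3.2).2.1
  per := rowL5 (rowL4 rowL1.1 rowL3.1 rowL3.2).1 rowL2
  zar0 := (rowL4 rowL1.1 rowL3.1 rowL3.2).2.2
  adjl := rowL6 rowL1.1
  tree := rowL7 rowL1.1

end Pool.Agent.MP_ee8c61_ag.M3SN
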