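import Pool.Agent.MP_ee8c61_ag.M3SN.Basic
import Pool.Agent.MP_ee8c61_ag.M3SN.RL6

/-!
A log terminal tree cannot join two curves of coefficient one.
-/

set_option autoImplicit false

namespace Pool.Agent.MP_ee8c61_ag.M3SN

open Finset

namespace LL

variable {ι : Type}

theorem sum_apply [DecidableEq ι] (z : Finset ι) (a : ι → ℝ) (j : ι) :
    (∑ i ∈ z, a i • cv i) j = if j ∈ z then a j else 0 := by
  rw [Finsupp.finsetSum_apply]
  split_ifs with h
  · rw [sum_eq_single j (fun i _ hi => by rw [Finsupp.smul_apply, cv_ne hi, smul_zero])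
      (fun h' => absurd h h'), Finsupp.smul_apply, cv_self, smul_eq_mul, mul_one]
  · exact sum_eq_zero fun i hi => by
      rw [Finsupp.smul_apply, cv_ne fun e : i = j => h (e ▸ hi), smul_zero]

theorem core (C : ι →₀ ℝ) (hC : IsZ C) (hC0 : 0 ≤ C) (k : ℕ) : ∀ (I : Fm ι)
    (κ : (ι →₀ ℝ) →ₗ[ℝ] ℝ) (T z : Finset ι) (Δ : ι →₀ ℝ), T.card = k → LatK I κ → NegDef I T →
    (∀ i ∈ T, Δ i < 1) → (∀ i ∈ T, C i = 0) → (∀ i, i ∉ T → C i ≤ Δ i) →
    (∀ i ∈ T, κ (cv i) + I Δ (cv i) ≤ 0) → z ⊆ T → z.Nonempty →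
    (∀ G ∈ z, 0 ≤ κ (cv G) + I C (cv G) + ∑ j ∈ z, I (cv j) (cv G)) → False := by
  classical
  induction k using Nat.strong_induction_on with
  | _ k ih =>
  intro I κ T z Δ hk hL hN h1 hCT hCΔ hK hz hne hv
  by_cases hb : ∀ i ∈ T, 0 ≤ Δ i
  · have hX : ∀ j, (∑ i ∈ z, (1 - Δ i) • cv i) j = if j ∈ z then 1 - Δ j else 0 :=
      sum_apply z _
    have hY : ∀ j, (Δ - C - ∑ i ∈ z, Δ i • cv i) j = if j ∈ z then 0 else Δ j - C j := by
      intro j
      rw [Finsupp.sub_apply, Finsupp.sub_apply, sum_apply]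
      split_ifs with h
      · rw [hCT j (hz h)]; ring
      · ring
    have hY0 : 0 ≤ Δ - C - ∑ i ∈ z, Δ i • cv i := fun j => by
      show (0 : ℝ) ≤ _
      rw [hY]
      split_ifs with h
      · exact le_rfl
      · by_cases hj : j ∈ T
        · rw [hCT j hj, sub_zero]; exact hb j hj
        · exact sub_nonneg.2 (hCΔ j hj)
    have hs : Sup z (∑ i ∈ z, (1 - Δ i) • cv i) := fun j hj => by rw [hX, if_neg hj]
    refine absurd (hN _ (hs.mono hz) fun e => ?_) (not_lt.2 ?_)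
    · obtain ⟨j, hj⟩ := hne
      have := hX j
      rw [e, if_pos hj, Finsupp.zero_apply] at this
      linarith [h1 j (hz hj)]
    · rw [lin_sum _ hs]
      refine sum_nonneg fun G hG => mul_nonneg ?_ ?_
      · rw [hX, if_pos hG]; linarith [h1 G (hz hG)]
      · have a1 := hL.toLat0.eff_cv hY0 (i := G) (by rw [hY, if_pos hG])
        have a2 := hv G hG
        have a3 := hK G (hz hG)
        simp only [map_sub, map_sum, map_smul, LinearMap.sub_apply, LinearMap.sum_apply,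
          LinearMap.smul_apply, smul_eq_mul, sub_mul, one_mul, sum_sub_distrib] at a1 ⊢
        linarith
  push Not at hb
  obtain ⟨i0, hi0, hneg⟩ := hb
  obtain ⟨N, hNd⟩ : ∃ N : ι →₀ ℝ, ∀ j, N j = if j ∈ T then max (-Δ j) 0 else 0 :=
    ⟨_, sum_apply T _⟩
  have hs : Sup T N := fun j hj => by rw [hNd, if_neg hj]
  have hN0 : ∀ j, 0 ≤ N j := fun j => by
    rw [hNd]
    split_ifs
    · exact le_max_right _ _
    · exact le_rfl
  have hP : 0 ≤ Δ + N - C := fun j => by
    show (0 : ℝ) ≤ Δ j + N j - C j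
    rw [hNd]
    split_ifs with h
    · rw [hCT j h]; linarith [le_max_left (-Δ j) 0]
    · linarith [hCΔ j h]
  have hlt := hN N hs fun e => by
    have := hNd i0
    rw [e, if_pos hi0, Finsupp.zero_apply, max_eq_left (by linarith)] at this
    linarith
  obtain ⟨i, hi, hi'⟩ : ∃ i ∈ T, κ (cv i) + I C (cv i) < 0 := by
    by_contra hn
    push Not at hn
    refine absurd hlt (not_lt.2 ?_)
    rw [lin_sum _ hs]
    refine sum_nonneg fun j hj => ?_
    rcases (hN0 j).eq_or_lt with h | h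
    · rw [← h, zero_mul]
    · refine mul_nonneg h.le ?_
      have e : (Δ + N - C) j = 0 := by
        have := hNd j
        rw [if_pos hj] at this
        rw [Finsupp.sub_apply, Finsupp.add_apply, hCT j hj, this]
        rw [this, lt_max_iff] at h
        rw [max_eq_left (h.resolve_right (lt_irrefl _)).le]; ring
      have a1 := hL.toLat0.eff_cv hP e
      simp only [map_sub, map_add, LinearMap.sub_apply, LinearMap.add_apply] at a1
      linarith [hn j hj, hK j hj]
  have c0 := hL.toLat0.eff_cv hC0 (hCT i hi)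
  obtain ⟨c, hc⟩ := hL.toLat.intZ hC (isZ_cv i)
  obtain ⟨n, hn, e⟩ := hL.adj i
  obtain ⟨m, hm⟩ := hL.int i i
  have a1 : m < 0 := by
    have := hN.diag hi
    rw [hm] at this
    exact_mod_cast this
  have a2 : 2 * n - m + c < 0 := by
    have b : ((2 * n - m + c : ℤ) : ℝ) < 0 := by
      push_cast
      linarith
    exact_mod_cast b
  have a0 : 0 ≤ c := by
    rw [hc] at c0
    exact_mod_cast c0
  have a3 : m = -1 := by omega
  have a4 : n = -1 := by omega
  have a5 : c = 0 := by omega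
  have hii : I (cv i) (cv i) = -1 := by rw [hm, a3]; norm_num
  have hκi : κ (cv i) = -1 := by
    rw [a4, hii] at e
    push_cast at e
    linarith
  have hCi : I (cv i) C = 0 := by rw [hL.sym, hc, a5, Int.cast_zero]
  have cut : ∀ j, j ≠ i → (Δ - Δ i • cv i) j = Δ j := fun j hj => by
    rw [Finsupp.sub_apply, Finsupp.smul_apply, cv_ne hj.symm, smul_zero, sub_zero]
  have two : i ∈ z → 2 ≤ ∑ j ∈ z.erase i, I (cv j) (cv i) := fun h => by
    have := hv i h
    rw [← add_sum_erase _ _ h, hκi, hii, hL.sym C, hCi] at this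
    linarith
  refine ih _ (hk ▸ card_erase_lt_of_mem hi) (RL6.ctr I (cv i)) (κ - I (cv i)) (T.erase i)
    (z.erase i) (Δ - Δ i • cv i) rfl (RL6.latK_ctr hL i hii) (RL6.negDef_ctr hL.toLat0 hN hi hii)
    (fun j hj => ?_) (fun j hj => hCT j (mem_of_mem_erase hj)) (fun j hj => ?_) (fun j hj => ?_)
    (erase_subset_erase _ hz) ?_ fun G hG => ?_
  · rw [cut j (ne_of_mem_erase hj)]
    exact h1 j (mem_of_mem_erase hj)
  · by_cases hji : j = i
    · rw [hji, hCT i hi, Finsupp.sub_apply, Finsupp.smul_apply, cv_self, smul_eq_mul, mul_one,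
        sub_self]
    · rw [cut j hji]
      exact hCΔ j fun a => hj (mem_erase.2 ⟨hji, a⟩)
  · have b1 := hK j (mem_of_mem_erase hj)
    have b2 := hK i hi
    have b3 := hL.off i j (ne_of_mem_erase hj).symm
    rw [hκi, hL.sym Δ] at b2
    simp only [RL6.ctr_apply, map_sub, map_smul, LinearMap.sub_apply, LinearMap.smul_apply,
      smul_eq_mul, hii]
    nlinarith [mul_nonneg b3 (neg_nonneg.2 b2)]
  · by_cases h : i ∈ z
    · by_contra h0
      have := two h
      rw [not_nonempty_iff_eq_empty.1 h0, sum_empty] at this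
      linarith
    · rwa [erase_eq_of_notMem h]
  · have b1 := hv G (mem_of_mem_erase hG)
    have b3 := hL.off i G (ne_of_mem_erase hG).symm
    simp only [RL6.ctr_apply, LinearMap.sub_apply, hCi, zero_mul, add_zero, sum_add_distrib,
      ← sum_mul]
    have es : ∑ j ∈ z.erase i, I (cv i) (cv j) = ∑ j ∈ z.erase i, I (cv j) (cv i) :=
      sum_congr rfl fun j _ => hL.sym _ _
    by_cases h : i ∈ z
    · rw [← add_sum_erase _ _ h] at b1
      rw [es]
      nlinarith [mul_nonneg b3 (sub_nonneg.2 (two h))]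
    · have b4 := single_le_sum (f := fun j => I (cv i) (cv j))
        (fun j hj => hL.off i j (ne_of_mem_erase hj).symm) hG
      rw [erase_eq_of_notMem h] at b4 ⊢
      obtain ⟨r, hr⟩ := hL.int i G
      have b5 : (0 : ℝ) ≤ r * (r - 1) := by
        have : 0 ≤ r * (r - 1) := by
          rcases le_or_gt r 0 with a | a
          · exact mul_nonneg_of_nonpos_of_nonpos a (by omega)
          · exact mul_nonneg a.le (by omega)
        exact_mod_cast this
      simp only [hr] at b3 b4 ⊢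
      nlinarith [mul_nonneg b3 (sub_nonneg.2 b4)]

theorem one_le {I : Fm ι} (hL : Lat I) {i j : ι} (h : 0 < I (cv i) (cv j)) :
    1 ≤ I (cv i) (cv j) := by
  obtain ⟨r, hr⟩ := hL.int i j
  rw [hr] at h ⊢
  exact_mod_cast (show (1 : ℤ) ≤ r from by exact_mod_cast h)

/-- A minimal connected configuration joining two curves has no leaf. -/
theorem path {I : Fm ι} (hL : Lat I) {c1 c2 : ι} (k : ℕ) : ∀ z : Finset ι, z.card = k →
    Conn I z → c1 ∉ z → c2 ∉ z → (∃ G ∈ z, 0 < I (cv c1) (cv G)) →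
    (∃ G ∈ z, 0 < I (cv c2) (cv G)) → ∃ y ⊆ z, y.Nonempty ∧ ∀ G ∈ y,
      2 + I (cv G) (cv G) ≤ I (cv c1) (cv G) + I (cv c2) (cv G) + ∑ j ∈ y, I (cv j) (cv G) := by
  classical
  induction k using Nat.strong_induction_on with
  | _ k ih =>
  intro z hk hc h1 h2 ⟨G1, hG1, e1⟩ ⟨G2, hG2, e2⟩
  by_contra hn
  obtain ⟨G, hG, hlt⟩ : ∃ G ∈ z, I (cv c1) (cv G) + I (cv c2) (cv G) +
      ∑ j ∈ z, I (cv j) (cv G) < 2 + I (cv G) (cv G) := by
    by_contra h
    push Not at h
    exact hn ⟨z, subset_rfl, ⟨G1, hG1⟩, h⟩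
  rw [← add_sum_erase _ _ hG] at hlt
  have p1 := hL.off c1 G fun e => h1 (e ▸ hG)
  have p2 := hL.off c2 G fun e => h2 (e ▸ hG)
  have p3 : ∀ j ∈ z.erase G, 0 ≤ I (cv j) (cv G) := fun j hj => hL.off j G (ne_of_mem_erase hj)
  have p4 := sum_nonneg p3
  by_cases hz : ({G} : Finset ι) = z
  · rw [← hz, mem_singleton] at hG1 hG2
    rw [hG1] at e1
    rw [hG2] at e2
    linarith [one_le hL e1, one_le hL e2]
  obtain ⟨i, hi, j0, hj0, hj0', e0⟩ := hc {G} (singleton_subset_iff.2 hG) (singleton_nonempty G) hz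
  rw [mem_singleton] at hi hj0'
  rw [hi, hL.sym] at e0
  have m0 : j0 ∈ z.erase G := mem_erase.2 ⟨hj0', hj0⟩
  have q0 := one_le hL e0
  have q1 := single_le_sum p3 m0
  have uniq : ∀ j ∈ z, j ≠ G → 0 < I (cv j) (cv G) → j = j0 := by
    intro j hj hjG e
    by_contra hne
    have := add_le_sum p3 (mem_erase.2 ⟨hjG, hj⟩) m0 hne
    linarith [one_le hL e]
  have n1 : G1 ≠ G := fun e => by rw [e] at e1; linarith [one_le hL e1]
  have n2 : G2 ≠ G := fun e => by rw [e] at e2; linarith [one_le hL e2]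
  obtain ⟨y, hy, hy'⟩ := ih _ (hk ▸ card_erase_lt_of_mem hG) (z.erase G) rfl (fun t ht hne hte => by
      have hGt : G ∉ t := fun h => notMem_erase G z (ht h)
      have htz : t ⊆ z := ht.trans (erase_subset _ _)
      by_cases hj : j0 ∈ t
      · obtain ⟨a, ha, b, hb, hb', e⟩ := hc (insert G t) (insert_subset hG htz)
          (insert_nonempty _ _) fun e => hte (by rw [← e, erase_insert hGt])
        have hbG : b ≠ G := fun e => hb' (e ▸ mem_insert_self _ _)
        have hbt : b ∉ t := fun h => hb' (mem_insert_of_mem h)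
        rcases mem_insert.1 ha with h | h
        · rw [h, hL.sym] at e
          exact absurd (uniq b hb hbG e ▸ hj) hbt
        · exact ⟨a, h, b, mem_erase.2 ⟨hbG, hb⟩, hbt, e⟩
      · obtain ⟨a, ha, b, hb, hb', e⟩ := hc t htz hne fun e => hGt (e ▸ hG)
        by_cases hbG : b = G
        · rw [hbG] at e
          exact absurd (uniq a (htz ha) (fun e => hGt (e ▸ ha)) e ▸ ha) hj
        · exact ⟨a, ha, b, mem_erase.2 ⟨hbG, hb⟩, hb', e⟩)
    (fun h => h1 (mem_of_mem_erase h)) (fun h => h2 (mem_of_mem_erase h))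
    ⟨G1, mem_erase.2 ⟨n1, hG1⟩, e1⟩ ⟨G2, mem_erase.2 ⟨n2, hG2⟩, e2⟩
  exact hn ⟨y, hy.trans (erase_subset _ _), hy'⟩

end LL

/-- The lattice lemma. -/
theorem lattice_lemma {ι : Type} {I : Fm ι} {κ : (ι →₀ ℝ) →ₗ[ℝ] ℝ} {T : Finset ι} {Δ : ι →₀ ℝ}
    {c1 c2 : ι} (hL : LatK I κ) (hN : NegDef I T) (hc : Conn I T) (hne : c1 ≠ c2) (h1 : c1 ∉ T)
    (h2 : c2 ∉ T) (m1 : ∃ G ∈ T, 0 < I (cv c1) (cv G)) (m2 : ∃ G ∈ T, 0 < I (cv c2) (cv G))
    (d1 : 1 ≤ Δ c1) (d2 : 1 ≤ Δ c2) (d0 : ∀ i, i ∉ T → 0 ≤ Δ i)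
    (hK : ∀ i ∈ T, κ (cv i) + I Δ (cv i) ≤ 0) : ∃ G ∈ T, 1 ≤ Δ G := by
  by_contra hn
  push Not at hn
  obtain ⟨y, hy, hy0, hy1⟩ := LL.path hL.toLat _ T rfl hc h1 h2 m1 m2
  refine LL.core (cv c1 + cv c2) ((isZ_cv _).add (isZ_cv _))
    (add_nonneg (cv_nonneg _) (cv_nonneg _)) _ I κ T y Δ rfl hL hN hn (fun i hi => ?_)
    (fun i hi => ?_) hK hy hy0 fun G hG => ?_
  · rw [Finsupp.add_apply, cv_ne fun e : c1 = i => h1 (e ▸ hi),
      cv_ne fun e : c2 = i => h2 (e ▸ hi), add_zero]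
  · rw [Finsupp.add_apply]
    by_cases e1 : c1 = i
    · rw [← e1, cv_self, cv_ne hne.symm, add_zero]; exact d1
    by_cases e2 : c2 = i
    · rw [← e2, cv_self, cv_ne hne, zero_add]; exact d2
    · rw [cv_ne e1, cv_ne e2, add_zero]; exact d0 i hi
  · obtain ⟨n, hn1, e⟩ := hL.adj G
    have : (-1 : ℝ) ≤ n := by exact_mod_cast hn1
    rw [map_add, LinearMap.add_apply]
    linarith [hy1 G hG]

end Pool.Agent.MP_ee8c61_ag.M3SN
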