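import Pool.Agent.MP_ee8c61_ag.M3SN.SpecN

/-! Base point freeness for nef adjoint divisors of positive square. -/

set_option autoImplicit false

namespace Pool.Agent.MP_ee8c61_ag.M3SN

open Finset NS

namespace RC2

open Filter Topology in
theorem small {ι : Type} (T : Finset ι) (x δ : ι → ℝ) (hδ : ∀ i ∈ T, 0 < δ i) {ε : ℝ}
    (hε : 0 < ε) : ∃ r : ℚ, (0 : ℝ) < r ∧ (r : ℝ) ≤ ε ∧ ∀ i ∈ T, r * x i < δ i := by
  have h1 : ∀ᶠ t in 𝓝 (0 : ℝ), ∀ i ∈ T, t * x i < δ i := (eventually_all_finset T).2 fun i hi =>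
    ContinuousAt.eventually_lt (f := fun t => t * x i) (g := fun _ => δ i) (by fun_prop)
      continuousAt_const (by simpa using hδ i hi)
  obtain ⟨l, u, ⟨hl, hu⟩, hs⟩ :=
    mem_nhds_iff_exists_Ioo_subset.1 ((eventually_le_nhds hε).and h1)
  obtain ⟨r, r1, r2⟩ := exists_rat_btwn hu
  exact ⟨r, r1, hs ⟨hl.trans r1, r2⟩⟩

section Lat

variable {ι : Type} {I : Fm ι} {D : ι →₀ ℝ} {T : Finset ι}

theorem isZ_filter (h : IsZ D) (q : ι → Prop) [DecidablePred q] : IsZ (D.filter q) := fun i => by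
  rw [Finsupp.filter_apply]
  split_ifs
  · exact h i
  · exact ⟨0, Int.cast_zero.symm⟩

theorem sup_filter (D : ι →₀ ℝ) {q : ι → Prop} [DecidablePred q] (h : ∀ i, q i → i ∈ T) :
    Sup T (D.filter q) := fun i hi => Finsupp.filter_apply_neg _ _ fun a => hi (h i a)

/-- A perturbation that singles out one curve of a block. -/
theorem theta (L : Lat I) {Δ G : ι →₀ ℝ} {T0 : Finset ι} (h0 : T0 ⊆ T) (hn : T0.Nonempty)
    (ho : ∀ j ∈ T0, ∀ l ∈ T, l ∉ T0 → I (cv j) (cv l) = 0) (hΔ : IsQ Δ) (h1 : ∀ i, Δ i < 1)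
    (gz : IsZ G) (gs : Sup T G) (gp : ∀ i ∈ T, 0 < G i ∧ I G (cv i) < 0) :
    ∃ c ∈ T0, ∃ Θ, IsQ Θ ∧ Sup T Θ ∧ (∀ i ∈ T, I Θ (cv i) < 0) ∧ Δ c + Θ c = 1 ∧
      ∀ i, i ≠ c → Δ i + Θ i < 1 := by
  classical
  obtain ⟨c, hc, hm⟩ := exists_min_image T0 (fun i => (1 - Δ i) / G i) hn
  have gc := (gp c (h0 hc)).1
  obtain ⟨t, ht⟩ : ∃ t : ℚ, (1 - Δ c) / G c = t := by
    obtain ⟨a, ha⟩ := hΔ c
    obtain ⟨b, hb⟩ := gz c
    exact ⟨(1 - a) / b, by rw [ha, hb]; push_cast; rfl⟩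
  have t0 : (0 : ℝ) < t := ht ▸ div_pos (sub_pos.2 (h1 c)) gc
  obtain ⟨s, s0, -, s1⟩ := small T G (fun i => 1 - Δ i) (fun i _ => sub_pos.2 (h1 i)) one_pos
  set G0 := G.filter (· ∈ T0) with e0
  set G1 := G.filter (· ∈ T \ T0) with e1
  set G2 := G.filter (· ∈ T0.erase c) with e2
  have eG : G = G0 + G1 := by
    ext i
    rw [Finsupp.add_apply, Finsupp.filter_apply, Finsupp.filter_apply]
    by_cases a : i ∈ T0
    · simp [a]
    · by_cases b : i ∈ T
      · simp [a, b]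
      · simp [a, b, gs i b]
  have u0 : Sup T0 G0 := sup_filter G fun _ h => h
  have u1 : Sup (T \ T0) G1 := sup_filter G fun _ h => h
  have u2 : Sup (T0.erase c) G2 := sup_filter G fun _ h => h
  have k : ∀ i ∈ T, I ((t : ℝ) • G0 + (s : ℝ) • G1) (cv i) < 0 := fun i hi => by
    have a := (gp i hi).2
    rw [eG, map_add, LinearMap.add_apply] at a
    simp only [map_add, map_smul, LinearMap.add_apply, LinearMap.smul_apply, smul_eq_mul]
    by_cases b : i ∈ T0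
    · have : I G1 (cv i) = 0 := by
        rw [L.sym]
        exact orth_of_sup (fun l hl => ho i b l (mem_sdiff.1 hl).1 (mem_sdiff.1 hl).2) u1
      rw [this] at a ⊢
      nlinarith
    · have : I G0 (cv i) = 0 := by
        rw [L.sym]
        exact orth_of_sup (fun l hl => (L.sym _ _).trans (ho l hl i hi b)) u0
      rw [this] at a ⊢
      nlinarith
  obtain ⟨d, d0, -, d1⟩ := small T (fun i => -I G2 (cv i)) _ (fun i hi => neg_pos.2 (k i hi))
    one_pos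
  refine ⟨c, hc, (t : ℝ) • G0 + (s : ℝ) • G1 - (d : ℝ) • G2,
    (((isZ_filter gz _).isQ.smul t).add ((isZ_filter gz _).isQ.smul s)).sub
      ((isZ_filter gz _).isQ.smul d),
    (((u0.mono h0).smul _).add ((u1.mono sdiff_subset).smul _)).sub
      ((u2.mono ((erase_subset _ _).trans h0)).smul _), fun i hi => ?_, ?_, fun i hi => ?_⟩
  · have := d1 i hi
    rw [map_sub, map_smul, LinearMap.sub_apply, LinearMap.smul_apply, smul_eq_mul]
    linarith
  · have a : G0 c = G c := Finsupp.filter_apply_pos _ _ hc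
    simp only [Finsupp.sub_apply, Finsupp.add_apply, Finsupp.smul_apply, smul_eq_mul, a,
      u1 c (by simp [hc]), u2 c (by simp), ← ht, div_mul_cancel₀ _ gc.ne']
    ring
  · simp only [Finsupp.sub_apply, Finsupp.add_apply, Finsupp.smul_apply, smul_eq_mul]
    by_cases b : i ∈ T0
    · have gi := (gp i (h0 b)).1
      have a0 : G0 i = G i := Finsupp.filter_apply_pos _ _ b
      have a2 : G2 i = G i := Finsupp.filter_apply_pos _ _ (mem_erase.2 ⟨hi, b⟩)
      have a3 : (t : ℝ) * G i ≤ 1 - Δ i := (le_div_iff₀ gi).1 (ht ▸ hm i b)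
      rw [a0, a2, u1 i (by simp [b])]
      nlinarith
    · rw [u0 i b, u2 i (by simp [b])]
      by_cases b' : i ∈ T
      · have a1 : G1 i = G i := Finsupp.filter_apply_pos _ _ (mem_sdiff.2 ⟨b', b⟩)
        have := s1 i b'
        rw [a1]
        linarith
      · rw [u1 i (by simp [b'])]
        linarith [h1 i]

/-- Rounding. -/
theorem round (h1 : ∀ i, D i < 1) : ∃ G, IsZ G ∧ 0 ≤ G ∧ (∀ i, 0 ≤ D i → G i = 0) ∧
    0 ≤ D + G ∧ ∀ i, (D + G) i < 1 := by
  refine ⟨D.mapRange (fun x => (⌈-x⌉ : ℝ)) (by simp), fun i => ⟨_, Finsupp.mapRange_apply⟩,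
    fun i => ?_, fun i hi => ?_, fun i => ?_, fun i => ?_⟩
  · change (0 : ℝ) ≤ ⌈-D i⌉
    exact_mod_cast Int.le_ceil_iff.2 (by push_cast; linarith [h1 i])
  · change (⌈-D i⌉ : ℝ) = 0
    exact_mod_cast Int.ceil_eq_zero_iff.2 ⟨by linarith [h1 i], by linarith⟩
  · change (0 : ℝ) ≤ D i + ⌈-D i⌉
    linarith [Int.le_ceil (-D i)]
  · change D i + ⌈-D i⌉ < 1
    linarith [Int.ceil_lt_add_one (-D i)]

end Lat

variable {K : Type} [Field K] [Algebra ℂ K] {S : NS K}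

theorem gen_dvd {P : S.Crv →₀ ℝ} {p : S.Pt} {a b : ℕ} (h : S.Gen ((a : ℝ) • P) p) (hb : a ∣ b) :
    S.Gen ((b : ℝ) • P) p := by
  obtain ⟨c, rfl⟩ := hb
  have := h.nsmul c
  rwa [smul_smul, ← Nat.cast_mul, mul_comm] at this

/-- A section that does not vanish along `C`. -/
theorem sec (O : S.OK) (bnd : S.BND) {J : Finset S.Crv} (hV : S.Van J) {L D : S.Crv →₀ ℝ}
    {C : S.Crv} (hC : C ∈ J) (lz : IsZ L) (ls : Sup J L) (dq : IsQ D) (ds : Sup J D)
    (d0 : 0 ≤ D) (d1 : ∀ i, D i < 1) (dc : D C = 0) (hp : S.Pos (L - cv C - S.Kc - D))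
    (hl : 0 ≤ S.I L (cv C)) : ∃ f, f ≠ 0 ∧ 0 ≤ S.dv f + L ∧ (S.dv f + L) C < 1 := by
  have v1 := hV _ D (lz.sub (isZ_cv C)) (ls.sub (sup_cv hC)) dq ds d0 d1 hp
  obtain ⟨k, k0, k1⟩ := bnd (cv C)
  obtain ⟨δ, δ0, δ1⟩ := hp.open k0 k1
  obtain ⟨r, r0, r1, -⟩ := small (∅ : Finset ℕ) 0 0 (by simp) (lt_min δ0 one_pos)
  have r2 : (0 : ℝ) ≤ ((1 - r : ℚ) : ℝ) := by
    push_cast
    linarith [r1.trans (min_le_right _ _)]
  have v2 := hV L (D + ((1 - r : ℚ) : ℝ) • cv C) lz ls (dq.add ((isZ_cv C).isQ.smul _))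
    (ds.add ((sup_cv hC).smul _)) (add_nonneg d0 (smul_nonneg r2 (cv_nonneg C))) (fun i => by
      rw [Finsupp.add_apply, Finsupp.smul_apply, smul_eq_mul]
      by_cases h : C = i
      · rw [← h, dc, cv_self]
        push_cast
        linarith
      · rw [cv_ne h, mul_zero, add_zero]
        exact d1 i) (by
      have := δ1 r (by rw [abs_of_pos r0]; exact r1.trans (min_le_left _ _))
      rwa [show L - S.Kc - (D + ((1 - r : ℚ) : ℝ) • cv C) =
        L - cv C - S.Kc - D + (r : ℝ) • cv C by push_cast; module])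
  have a1 := O.chi_sub L C
  have a2 := O.pos_cv hp C
  have a3 := O.lat.eff_cv d0 dc
  simp only [map_sub, LinearMap.sub_apply] at a2
  obtain ⟨f, f0, f1, f2⟩ := O.sec_of_lt (D := L - cv C) (E := L) (by
    rw [v1, v2, a1, gam]
    linarith)
  refine ⟨f, f0, f1, by_contra fun h => f2 fun i => ?_⟩
  rw [← add_sub_assoc, Finsupp.sub_apply]
  by_cases e : C = i
  · rw [← e, cv_self]
    exact sub_nonneg.2 (not_lt.1 h)
  · rw [cv_ne e, sub_zero]
    exact f1 i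

end RC2

open RC2 in
theorem rowC2 : RowC2 := by
  classical
  intro LA K _ _ S O Tl J P A Δ hV pq dq ps ds hP pn an pp d1 d0 hJ
  obtain ⟨T, t1, t2, t3⟩ := Tl.null P pn pp
  have tJ : T ⊆ J := fun C h => hJ C ((t1 C).1 h)
  obtain ⟨G, gz, gs, gp⟩ := LA.anti _ S.I T O.lat t2
  obtain ⟨m1, m10, m11⟩ := pq.clear
  have step1 : ∃ m : ℕ, 0 < m ∧ ∀ p, (∀ C ∈ T, ¬S.on p C) → S.Gen ((m : ℝ) • P) p := by
    obtain ⟨ε, e0, e1⟩ := t3 G gs fun C h => (gp C h).2
    obtain ⟨r, r0, r1, -⟩ := small (∅ : Finset ℕ) 0 0 (by simp) e0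
    obtain ⟨m, m0, -, m2⟩ := Tl.nak _ (pq.sub (gz.isQ.smul r)) (e1 r r0 r1)
    refine ⟨m, m0, fun p hp => ?_⟩
    have g0 : 0 ≤ G := fun C => by
      by_cases h : C ∈ T
      · exact (gp C h).1.le
      · exact (gs C h).ge
    have := (m2 p).add (gen_of_eff (D := (m : ℝ) • (r : ℝ) • G)
      (smul_nonneg (Nat.cast_nonneg m) (smul_nonneg r0.le g0))
      fun C hC => (gs.smul _).smul _ C fun h => hp C h hC)
    rwa [← smul_add, sub_add_cancel] at this
  have step2 : ∀ C0 ∈ T, ∃ m : ℕ, 0 < m ∧ ∀ p, S.on p C0 → S.Gen ((m : ℝ) • P) p := by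
    intro C0 h0
    obtain ⟨T0, b1, b2, b3, b4⟩ := LA.blk _ S.I T C0 O.lat.toLat0 h0
    obtain ⟨C, hC, Θ, q1, q2, q3, q4, q5⟩ := theta O.lat b1 ⟨C0, b2⟩ b4 dq d1 gz gs gp
    obtain ⟨e, e0, e1⟩ := t3 Θ q2 q3
    have dc : (Δ + Θ - cv C) C = 0 := by
      rw [Finsupp.sub_apply, Finsupp.add_apply, q4, cv_self, sub_self]
    have off : ∀ i, i ∉ T → 0 ≤ (Δ + Θ - cv C) i := fun i hi => by
      rw [Finsupp.sub_apply, Finsupp.add_apply, q2 i hi, sup_cv (b1 hC) i hi, add_zero, sub_zero]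
      exact not_lt.1 fun h => hi ((t1 i).2 (d0 i h))
    obtain ⟨H, z1, z2, z3, z4, z5⟩ := round (D := Δ + Θ - cv C) fun i => by
      by_cases h : C = i
      · rw [← h, dc]
        exact one_pos
      · rw [Finsupp.sub_apply, cv_ne h, sub_zero]
        exact q5 i (Ne.symm h)
    have hs : Sup T H := fun i hi => z3 i (off i hi)
    have hc : H C = 0 := z3 C dc.ge
    obtain ⟨n, hn⟩ := exists_nat_ge (1 + e⁻¹)
    have ei := inv_pos.2 e0
    have n0 : 0 < n := by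
      have : (0 : ℝ) < n := by linarith
      exact_mod_cast this
    have mz : IsZ (((n * m1 : ℕ) : ℝ) • P) := by
      rw [Nat.cast_mul, mul_smul]
      exact m11.nsmul n
    have mb : 1 + e⁻¹ ≤ ((n * m1 : ℕ) : ℝ) :=
      hn.trans (Nat.cast_le.2 (Nat.le_mul_of_pos_right n m10))
    refine ⟨n * m1, mul_pos n0 m10, fun p hp => ?_⟩
    generalize ((n * m1 : ℕ) : ℝ) = m at mz mb
    have nul : ∀ i ∈ T, S.I (m • P) (cv i) = 0 := fun i hi => by
      rw [map_smul, LinearMap.smul_apply, (t1 i).1 hi, smul_zero]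
    obtain ⟨f, f0, f1, f2⟩ := sec O Tl.bnd hV (tJ (b1 hC)) (mz.add z1)
      ((ps.smul m).add (hs.mono tJ)) (((dq.add q1).sub (isZ_cv C).isQ).add z1.isQ)
      (((ds.add (q2.mono tJ)).sub (sup_cv (tJ (b1 hC)))).add (hs.mono tJ)) z4 z5
      (by rw [Finsupp.add_apply, dc, hc, add_zero]) (by
        have := (((e1 e e0 le_rfl).smul ei).add_nef an).add_nef
          (pn.smul (a := m - (1 + e⁻¹)) (sub_nonneg.2 mb))
        have k : S.Kc = P - A - Δ := by rw [hP]; abel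
        rwa [smul_sub, smul_smul, inv_mul_cancel₀ e0.ne', one_smul,
          show e⁻¹ • P - Θ + A + (m - (1 + e⁻¹)) • P =
            m • P + H - cv C - S.Kc - (Δ + Θ - cv C + H) by rw [k]; module] at this) (by
        rw [map_add, LinearMap.add_apply, nul C (b1 hC), zero_add]
        exact O.lat.eff_cv z2 hc)
    have xt : ∀ i ∈ T, S.I (S.dv f + m • P) (cv i) ≤ 0 := fun i hi => by
      rw [map_add, LinearMap.add_apply, nul i hi, O.dv_l f0, add_zero]
    have x0 : 0 ≤ S.dv f + m • P := (LA.nega _ S.I T _ O.lat.toLat0 t2 (fun i hi => by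
      have := f1 i
      rwa [← add_assoc, Finsupp.add_apply, hs i hi, add_zero] at this) xt).1
    have xc : (S.dv f + m • P) C = 0 := by
      rw [← add_assoc, Finsupp.add_apply, hc, add_zero] at f2
      exact le_antisymm (not_lt.1 fun h => not_le.2 f2 (((O.dvZ f f0).add mz).one_le h)) (x0 C)
    obtain ⟨y1, y2⟩ := LA.con _ S.I T0 _ C O.lat.toLat0 b3 x0 (fun j hj => xt j (b1 hj)) hC xc
      C0 b2
    refine ⟨f, f0, x0, fun l hl => ?_⟩
    by_cases h : l = C0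
    · exact h ▸ y1
    · exact y2 l ((O.meet l C0 h).2 ⟨p, hl, hp⟩) h
  obtain ⟨m0, m00, m01⟩ := step1
  choose! m m2 m3 using step2
  refine ⟨m0 * (∏ C ∈ T, m C) * m1, mul_pos (mul_pos m00 (prod_pos m2)) m10, ?_, fun p => ?_⟩
  · rw [Nat.cast_mul, mul_smul]
    exact m11.nsmul _
  · by_cases h : ∃ C ∈ T, S.on p C
    · obtain ⟨C, h1, h2⟩ := h
      exact gen_dvd (m3 C h1 p h2) (((dvd_prod_of_mem m h1).mul_left _).mul_right _)
    · exact gen_dvd (m01 p fun C h1 h2 => h ⟨C, h1, h2⟩) ((dvd_mul_right _ _).mul_right _)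

end Pool.Agent.MP_ee8c61_ag.M3SN
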