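import Pool.Agent.MP_ee8c61_ag.M3SN.Defs

/-!
Pure lattice statements.
-/

set_option autoImplicit false

namespace Pool.Agent.MP_ee8c61_ag.M3SN

/-- Negativity lemma. -/
def StmtNEGA : Prop := ∀ (ι : Type) (I : Fm ι) (s : Finset ι) (X : ι →₀ ℝ), Lat0 I → NegDef I s →
  (∀ i, i ∉ s → 0 ≤ X i) → (∀ i ∈ s, I X (cv i) ≤ 0) →
  0 ≤ X ∧ ∀ i ∈ s, I X (cv i) < 0 → 0 < X i

/-- An effective divisor of degree `≤ 0` on a connected configuration that misses one of its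
curves is disjoint from it. -/
def StmtCON : Prop := ∀ (ι : Type) (I : Fm ι) (s : Finset ι) (X : ι →₀ ℝ) (i : ι), Lat0 I →
  Conn I s → 0 ≤ X → (∀ j ∈ s, I X (cv j) ≤ 0) → i ∈ s → X i = 0 →
  ∀ j ∈ s, X j = 0 ∧ ∀ l, 0 < I (cv l) (cv j) → l ≠ j → X l = 0

/-- Connected components: a finite set is a union of connected blocks orthogonal to the rest. -/
def StmtBLK : Prop := ∀ (ι : Type) (I : Fm ι) (s : Finset ι) (i : ι), Lat0 I → i ∈ s →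
  ∃ t ⊆ s, i ∈ t ∧ Conn I t ∧ ∀ j ∈ t, ∀ l ∈ s, l ∉ t → I (cv j) (cv l) = 0

/-- Semidefiniteness of a fibre. -/
def StmtSEMI : Prop := ∀ (ι : Type) (I : Fm ι) (s : Finset ι) (z : ι →₀ ℝ), Lat0 I → Conn I s →
  Sup s z → (∀ i ∈ s, 0 < z i) → (∀ i ∈ s, I z (cv i) ≤ 0) →
  ∀ D, Sup s D → I D D ≤ 0 ∧ (I D D = 0 → ∃ a : ℝ, D = a • z)

/-- The projection exists, is unique, and is rational for an integral lattice. -/
def StmtMUM : Prop := ∀ (ι : Type) (I : Fm ι) (s : Finset ι), Lat0 I → NegDef I s →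
  (∀ φ : ι → ℝ, ∃ N, Sup s N ∧ (∀ i ∈ s, I N (cv i) = φ i) ∧
    (Lat I → (∀ i ∈ s, ∃ r : ℚ, φ i = r) → IsQ N)) ∧
  (∀ N N', Sup s N → Sup s N' → (∀ i ∈ s, I N (cv i) = I N' (cv i)) → N = N') ∧
  (∀ X, ∃ N, Prj I s X N ∧ (Lat I → IsQ X → IsQ N))

/-- Adding one curve to a negative definite configuration. -/
def StmtADD : Prop := ∀ (ι : Type) (I : Fm ι) (s t : Finset ι) (c : ι) (N : ι →₀ ℝ), Lat0 I →
  NegDef I s → Prj I s (cv c) N → I (cv c - N) (cv c - N) < 0 → (∀ i ∈ t, i ∈ s ∨ i = c) →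
  NegDef I t

/-- A configuration that is not negative definite supports a nef divisor. -/
def StmtNND : Prop := ∀ (ι : Type) (I : Fm ι) (s : Finset ι), Lat0 I → ¬ NegDef I s →
  ∃ v, Sup s v ∧ 0 ≤ v ∧ v ≠ 0 ∧ Nef I v ∧ (Lat I → IsQ v)

/-- An integral anti-ample divisor on a negative definite configuration. -/
def StmtANTI : Prop := ∀ (ι : Type) (I : Fm ι) (s : Finset ι), Lat I → NegDef I s →
  ∃ G, IsZ G ∧ Sup s G ∧ ∀ i ∈ s, 0 < G i ∧ I G (cv i) < 0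

/-- Perron vectors of full support. -/
def StmtPER : Prop := ∀ (ι : Type) (I : Fm ι) (s : Finset ι), Lat I → Conn I s → ¬ NegDef I s →
  ∃ R, IsZ R ∧ Sup s R ∧ (∀ i ∈ s, 0 < R i) ∧ Nef I R ∧
    ((∃ D, Sup s D ∧ 0 < I D D) → ∀ i ∈ s, 0 < I R (cv i))

/-- Zariski decomposition of an effective divisor. -/
def StmtZAR0 : Prop := ∀ (ι : Type) (I : Fm ι) (Z : ι →₀ ℝ), Lat0 I → 0 ≤ Z →
  ∃ s N, NegDef I s ∧ Prj I s Z N ∧ (∀ i ∈ s, 0 < N i) ∧ N ≤ Z ∧ Nef I (Z - N) ∧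
    (Lat I → IsQ Z → IsQ N)

/-- Adjunction after contracting a negative definite configuration. -/
def StmtADJL : Prop := ∀ (ι : Type) (I : Fm ι) (κ : (ι →₀ ℝ) →ₗ[ℝ] ℝ) (s : Finset ι) (c : ι)
  (N : ι →₀ ℝ), LatK I κ → NegDef I s → c ∉ s → Sup s N →
  (∀ i ∈ s, I N (cv i) = κ (cv i) + I (cv c) (cv i)) →
  -2 ≤ κ (cv c) + I (cv c) (cv c) - I N (cv c)

/-- Reduced divisors over a log terminal point have arithmetic genus at most zero. -/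
def StmtTREE : Prop := ∀ (ι : Type) (I : Fm ι) (κ : (ι →₀ ℝ) →ₗ[ℝ] ℝ) (s : Finset ι)
  (Δ Z : ι →₀ ℝ), LatK I κ → NegDef I s → (∀ i ∈ s, Δ i < 1) → (∀ i, i ∉ s → 0 ≤ Δ i) →
  (∀ i ∈ s, κ (cv i) + I Δ (cv i) ≤ 0) → Sup s Z → (∀ i, Z i = 0 ∨ Z i = 1) → Z ≠ 0 →
  κ Z + I Z Z ≤ -2

def RowL1 : Prop := StmtNEGA ∧ StmtCON ∧ StmtBLK
def RowL2 : Prop := StmtSEMI
def RowL3 : Prop := StmtMUM ∧ StmtADD
def RowL4 : Prop := StmtNEGA → StmtMUM → StmtADD → StmtNND ∧ StmtANTI ∧ StmtZAR0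
def RowL5 : Prop := StmtNND → StmtSEMI → StmtPER
def RowL6 : Prop := StmtNEGA → StmtADJL
def RowL7 : Prop := StmtNEGA → StmtTREE

end Pool.Agent.MP_ee8c61_ag.M3SN
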