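import Pool.Agent.MP_ee8c61_ag.M3SN.SpecN

/-!
Centres of valuation rings, in the form that holds on a surface.
-/

set_option autoImplicit false

namespace Pool.Agent.MP_ee8c61_ag.M3SN

/-- A valuation ring containing a finite dimensional space `U` contains the local ring of a point
at which no element of `U` is the inverse of a vanishing function. -/
def NS.Cen2 {K : Type} [Field K] [Algebra ℂ K] (S : NS K) : Prop :=
  ∀ V : ValuationSubring K, (∀ a : ℂ, algebraMap ℂ K a ∈ V) → ∀ U : Submodule ℂ K,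
    FiniteDimensional ℂ U → (∀ u ∈ U, u ∈ V) → ∃ p, ∀ f, f ≠ 0 →
      (∀ C, S.on p C → 0 ≤ S.dv f C) →
      f ∈ V ∧ ((∃ C, S.on p C ∧ 0 < S.dv f C) → f⁻¹ ∉ U)

def RowT4b : Prop := LatAll → StmtGOR → StmtINTV → ∀ (K : Type) [Field K] [Algebra ℂ K]
  [Algebra.EssFiniteType ℂ K] (S : NS K), S.OK → S.Cen2 → S.CHM → S.T4

end Pool.Agent.MP_ee8c61_ag.M3SN
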